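import Pool.Agent.RFT81.Sr

/-!
# [RFT-Alg] The exchange identity

Let `d = |N a|`.  For `b ∈ Icc 1 m`, `b ≠ a`:
`sr (att N m a) b = sr N b - 1 / (d (d + 1))` if `b ∈ N a` and `sr N b` otherwise;
`sr (att N m a) a = sr N a + 1`; `sr (att N m a) (m + 1) = 1 / (d + 1)`.

Paper proof of `exch_alg`.  Put `δ a b = zv a b - zu a b`, which is antisymmetric on `Icc 1 m` by
`hs`, in particular `δ a a = 0`.  The sum of `sr N a * sr N b * δ a b` over `a, b ∈ Icc 1 m`
is `0`.  What is left is `b = m + 1` and the corrections for `b ∈ N a`.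
-/

namespace Pool.Agent.RFT81

open Finset

private theorem algx_new (N : Gr) (m a : ℕ) : att N m a (m + 1) = {a} := by
  unfold att
  rw [if_pos rfl]

private theorem algx_ne {N : Gr} {m a v : ℕ} (h1 : v ≠ m + 1) (h2 : v ≠ a) :
    att N m a v = N v := by
  unfold att
  rw [if_neg h1, if_neg h2]

private theorem algx_self {N : Gr} {m a : ℕ} (h1 : a ≠ m + 1) :
    att N m a a = insert (m + 1) (N a) := by
  unfold att
  rw [if_neg h1, if_pos rfl]

private theorem algx_le {m : ℕ} {N : Gr} (hN : Ok m N) {c v : ℕ} (h : v ∈ N c) :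
    v ∈ Icc 1 m ∧ v ≠ m + 1 := by
  have := hN.sub c h
  refine ⟨this, ?_⟩
  rw [mem_Icc] at this
  omega

theorem sr_att_new {m : ℕ} {N : Gr} (hN : Ok m N) {a : ℕ} (ha : a ∈ Icc 1 m) :
    sr (att N m a) (m + 1) = 1 / ((N a).card + 1) := by
  rw [sr, algx_new, sum_singleton, card_att hN ha ha, if_pos rfl]
  push_cast
  rw [one_div]

theorem sr_att_nb {m : ℕ} {N : Gr} (hN : Ok m N) {a b : ℕ} (ha : a ∈ Icc 1 m) (hb : b ∈ N a) :
    sr (att N m a) b = sr N b - 1 / ((N a).card * ((N a).card + 1)) := by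
  obtain ⟨hb1, hb2⟩ := algx_le hN hb
  have hba : b ≠ a := by
    rintro rfl
    exact hN.irr _ hb
  have hab : a ∈ N b := hN.symm hb
  have hd : (0 : ℝ) < (N a).card := by
    exact_mod_cast card_pos.2 ⟨b, hb⟩
  rw [sr, sr, algx_ne hb2 hba, ← Finset.add_sum_erase (N b) _ hab,
    ← Finset.add_sum_erase (N b) (fun x => ((N x).card : ℝ)⁻¹) hab]
  have h1 : ∑ x ∈ (N b).erase a, ((att N m a x).card : ℝ)⁻¹ =
      ∑ x ∈ (N b).erase a, ((N x).card : ℝ)⁻¹ := by
    refine sum_congr rfl fun x hx => ?_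
    rw [card_att hN ha (algx_le hN (mem_of_mem_erase hx)).1, if_neg (ne_of_mem_erase hx), add_zero]
  rw [h1, card_att hN ha ha, if_pos rfl]
  push_cast
  have hd1 : ((N a).card : ℝ) + 1 ≠ 0 := by positivity
  field_simp
  ring

theorem sr_att_far {m : ℕ} {N : Gr} (hN : Ok m N) {a b : ℕ} (ha : a ∈ Icc 1 m)
    (hb : b ∈ Icc 1 m) (hab : b ≠ a) (hba : b ∉ N a) : sr (att N m a) b = sr N b := by
  have hb2 : b ≠ m + 1 := by
    rw [mem_Icc] at hb
    omega
  rw [sr, sr, algx_ne hb2 hab]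
  refine sum_congr rfl fun x hx => ?_
  have hxa : x ≠ a := by
    rintro rfl
    exact hba (hN.symm hx)
  rw [card_att hN ha (algx_le hN hx).1, if_neg hxa, add_zero]

private theorem algx_anti (s : Finset ℕ) (f : ℕ → ℝ) (δ : ℕ → ℕ → ℝ)
    (h : ∀ a ∈ s, ∀ b ∈ s, δ a b = - δ b a) : ∑ a ∈ s, ∑ b ∈ s, f a * f b * δ a b = 0 := by
  have h1 : ∑ a ∈ s, ∑ b ∈ s, f a * f b * δ a b = - ∑ a ∈ s, ∑ b ∈ s, f a * f b * δ a b := by
    conv_lhs => rw [sum_comm]
    rw [← sum_neg_distrib]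
    refine sum_congr rfl fun a ha => ?_
    rw [← sum_neg_distrib]
    refine sum_congr rfl fun b hb => ?_
    rw [h b hb a ha]
    ring
  linarith

theorem exch_alg {m : ℕ} {N : Gr} (hN : Ok m N) {zu zv : ℕ → ℕ → ℝ}
    (hs : ∀ a ∈ Icc 1 m, ∀ b ∈ Icc 1 m, zu a b = zv b a) :
    ∑ a ∈ Icc 1 m, ∑ b ∈ Icc 1 (m + 1),
      q N m a * q (att N m a) (m + 1) b * (zv a b - zu a b) =
    1 / ((m : ℝ) * (m + 1)) * ∑ a ∈ Icc 1 m, sr N a / ((N a).card + 1) *
      ((zv a (m + 1) - zu a (m + 1)) - 1 / ((N a).card : ℝ) * ∑ b ∈ N a, (zv a b - zu a b)) := by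
  have hm : (0 : ℝ) < m := by
    have := hN.two
    have h2 : 0 < m := by omega
    exact_mod_cast h2
  have hI : Icc 1 (m + 1) = insert (m + 1) (Icc 1 m) := by
    ext x
    simp only [mem_insert, mem_Icc]
    omega
  have hnot : m + 1 ∉ Icc 1 m := by
    rw [mem_Icc]
    omega
  have hanti := algx_anti (Icc 1 m) (sr N) (fun a b => zv a b - zu a b) (by
    intro a ha b hb
    rw [hs a ha b hb, hs b hb a ha]
    ring)
  have key : ∀ a ∈ Icc 1 m, ∑ b ∈ Icc 1 (m + 1),
      q N m a * q (att N m a) (m + 1) b * (zv a b - zu a b) =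
      1 / ((m : ℝ) * (m + 1)) * (∑ b ∈ Icc 1 m, sr N a * sr N b * (zv a b - zu a b)) +
      1 / ((m : ℝ) * (m + 1)) * (sr N a / ((N a).card + 1) *
      ((zv a (m + 1) - zu a (m + 1)) -
        1 / ((N a).card : ℝ) * ∑ b ∈ N a, (zv a b - zu a b))) := by
    intro a ha
    have hd : (0 : ℝ) < (N a).card := by
      exact_mod_cast card_pos.2 (hN.ne a ha)
    rw [hI, sum_insert hnot]
    have h1 : ∀ b ∈ Icc 1 m, q N m a * q (att N m a) (m + 1) b * (zv a b - zu a b) =
        1 / ((m : ℝ) * (m + 1)) * (sr N a * sr N b * (zv a b - zu a b)) -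
        1 / ((m : ℝ) * (m + 1)) * (sr N a / ((N a).card + 1) * (1 / ((N a).card : ℝ))) *
          (if b ∈ N a then zv a b - zu a b else 0) := by
      intro b hb
      simp only [q]
      push_cast
      by_cases hba : b ∈ N a
      · rw [if_pos hba, sr_att_nb hN ha hba]
        field_simp
      · rw [if_neg hba]
        by_cases hab : b = a
        · subst hab
          rw [hs b hb b hb]
          ring
        · rw [sr_att_far hN ha hb hab hba]
          field_simp
          ring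
    rw [sum_congr rfl h1, sum_sub_distrib, ← mul_sum, ← mul_sum, ← sum_filter]
    have h2 : (Icc 1 m).filter (fun b => b ∈ N a) = N a := by
      ext b
      rw [mem_filter]
      exact ⟨fun h => h.2, fun h => ⟨hN.sub a h, h⟩⟩
    rw [h2]
    simp only [q]
    rw [sr_att_new hN ha]
    push_cast
    field_simp
    ring
  rw [sum_congr rfl key, sum_add_distrib, ← mul_sum, ← mul_sum, hanti]
  ring

end Pool.Agent.RFT81
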