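import Pool.Agent.RFT81.Cert

/-!
# All conditions on the comparison functions
-/

namespace Pool.Agent.RFT81

/-- the value for a leaf at distance two of a vertex of degree `p`, minus the one for its
neighbour -/
noncomputable def lamC (P Q X : ℕ → ℕ → ℝ) (A : ℕ → ℝ) (p : ℕ) : ℝ :=
  Q 2 0 + X 2 0 / ((p : ℝ) + 1) - A (p + 1) * P 1 0

/-- upper bound for the probability that a leaf at a vertex of degree `p` gets linear degree -/
noncomputable def UC (Q Q' : ℕ → ℕ → ℝ) (p : ℕ) : ℝ := 1 - max (Q (p + 1) 0) (Q' (p + 1) 0)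

/-- lower bound for this probability -/
noncomputable def VC (B : ℕ → ℝ) (p : ℕ) : ℝ := 1 - B (p + 1)

/-- all conditions -/
structure AllC (θ c : ℝ) (H P h Q Q' X : ℕ → ℕ → ℝ) (A B : ℕ → ℝ) : Prop where
  U : UpC θ c H P A B
  L0 : Low0 h
  L1 : Low1 h Q
  L1' : Low1 h Q'
  L2 : Low2 Q X
  mQ : ∀ d L, L + 2 ≤ d → Q d 0 ≤ Q d L
  mQ' : ∀ d L, L + 2 ≤ d → Q' d 0 ≤ Q' d L
  C : ∀ p q, 1 ≤ p → p ≤ q → 0 ≤ Cf (lamC P Q X A) (UC Q Q') (VC B) p q
  s : P 1 0 ≤ Q 2 1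

end Pool.Agent.RFT81
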