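import Pool.Agent.RFT81.Defs

/-!
# Conditions on the comparison functions

The first argument of a function `ℕ → ℕ → ℝ` is a degree, the second one a number of leaves.
-/

namespace Pool.Agent.RFT81

/-- a lower function for a neighbour of a vertex of degree `2` -/
structure Low0 (h : ℕ → ℕ → ℝ) : Prop where
  nonneg : ∀ k l, 0 ≤ h k l
  le_one : ∀ k l, h k l ≤ 1
  mono : ∀ k l, l + 1 ≤ k → h k l ≤ h (k + 1) (l + 1)
  ineq : ∀ k l : ℕ, l + 1 ≤ k → (1 / (k : ℝ)) * h k l ≤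
    ((l : ℝ) + 1 / 2) * (h (k + 1) (l + 1) - h k l) + (l : ℝ) / k * (h k (l - 1) - h k l)

/-- a lower function for the neighbour of a leaf -/
structure Low1 (h Q : ℕ → ℕ → ℝ) : Prop where
  nonneg : ∀ k l, 0 ≤ Q k l
  le_one : ∀ k l, Q k l ≤ 1
  mono : ∀ k l, l + 1 ≤ k → Q k l ≤ Q (k + 1) (l + 1)
  ineq : ∀ k l : ℕ, l + 1 ≤ k → 0 ≤
    ((l : ℝ) + 1) * (Q (k + 1) (l + 1) - Q k l) + (l : ℝ) / k * (Q k (l - 1) - Q k l) +
      (1 / (k : ℝ)) * (h k l * h 1 0 - Q k l)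

/-- the correction of the lower function for a leaf at distance `2` of a marked vertex -/
structure Low2 (Q X : ℕ → ℕ → ℝ) : Prop where
  nonneg : ∀ k l, 0 ≤ X k l
  le_one : ∀ k l, l + 2 ≤ k → Q k l + X k l / 2 ≤ 1
  mono : ∀ k l, l + 2 ≤ k → Q k l + X k l / 2 ≤ Q (k + 1) (l + 1) + X (k + 1) (l + 1) / 2
  ineq : ∀ k l : ℕ, l + 2 ≤ k → 0 ≤ (Q (k + 1) (l + 1) - Q k l) +
    ((l : ℝ) + 1) * (X (k + 1) (l + 1) - X k l) + (l : ℝ) / k * (X k (l - 1) - X k l) -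
      (1 / (k : ℝ)) * X k l - X k l

/-- upper functions -/
structure UpC (θ c : ℝ) (H P : ℕ → ℕ → ℝ) (A B : ℕ → ℝ) : Prop where
  θ0 : 0 ≤ θ
  θ1 : θ ≤ 1
  c0 : 0 ≤ c
  H0 : ∀ k l, 0 ≤ H k l
  H1 : ∀ k l, H k l ≤ 1
  Hθ : H 1 0 ≤ θ
  Hmono : ∀ k l, l + 1 ≤ k → H k l ≤ H (k + 1) (l + 1)
  Hineq : ∀ k l : ℕ, l + 1 ≤ k →
    ((l : ℝ) + 1 / 3 + ((k : ℝ) - 1 - l) / 2) * (H (k + 1) (l + 1) - H k l) +
      (l : ℝ) / k * (H k (l - 1) - H k l) ≤ (1 - θ) / k * H k l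
  Hc : ∀ k l : ℕ, l + 1 ≤ k → 1 - H k l ≤ c / k
  HP : ∀ k l, l + 1 ≤ k → H k l ≤ P k l
  P1 : ∀ k l, P k l ≤ 1
  Pmono : ∀ k l, l + 1 ≤ k → P k l ≤ P (k + 1) (l + 1)
  Pineq : ∀ k l : ℕ, l + 1 ≤ k →
    ((l : ℝ) + 1 / 2 + ((k : ℝ) - 1 - l) / 2) * (P (k + 1) (l + 1) - P k l) +
      (l : ℝ) / k * (P k (l - 1) - P k l) + (1 / (k : ℝ)) * (θ * H k l - P k l) ≤ 0
  A0 : ∀ j, 0 ≤ A j
  A1 : ∀ j, A j ≤ 1
  Aineq : ∀ j : ℕ, 1 ≤ j → ((j : ℝ) - 1 / 2) * (A (j + 1) - A j) ≤ (1 - θ) / j * A j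
  Ac : ∀ j : ℕ, 1 ≤ j → 1 - A j ≤ c / j
  B0 : ∀ j, 0 ≤ B j
  B1 : ∀ j, B j ≤ 1
  Bmono : ∀ j, 1 ≤ j → B j ≤ B (j + 1)
  Bineq : ∀ j : ℕ, 1 ≤ j → (j : ℝ) * (B (j + 1) - B j) + (1 / (j : ℝ)) * (P 1 0 - B j) ≤ 0
  Bc : ∀ j : ℕ, 1 ≤ j → 1 - B j ≤ c / j

/-- the upper function for the probability that the degree of `x` is not linear, for a vertex `x`
with the neighbour `a` -/
noncomputable def Phi (H P : ℕ → ℕ → ℝ) (A B : ℕ → ℝ) (x a : ℕ) (N : Gr) : ℝ :=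
  if (N x).card = 1 then B (N a).card
  else if (N x).card = 2 then A (N a).card * ∏ c ∈ (N x).erase a, P (N c).card (lf N c x)
  else A (N a).card * ∏ c ∈ (N x).erase a, H (N c).card (lf N c x)

/-- the lower function for the vertex `y` with the neighbour `p` -/
noncomputable def Yf (h Q : ℕ → ℕ → ℝ) (y p : ℕ) (N : Gr) : ℝ :=
  if (N y).card = 1 then Q (N p).card (lf N p y)
  else if (N y).card = 2 then ∏ c ∈ N y, h (N c).card (lf N c y)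
  else 0

/-- the lower function for the vertex `y` with the neighbour `x`, which has the neighbour `a` -/
noncomputable def Yx (h Q X : ℕ → ℕ → ℝ) (y x a : ℕ) (N : Gr) : ℝ :=
  if (N y).card = 1 then Q (N x).card (lf N x y) + X (N x).card (lf N x y) / (N a).card
  else if (N y).card = 2 then ∏ c ∈ N y, h (N c).card (lf N c y)
  else 0

/-- the expression which has to be nonnegative for the degrees `p ≤ q` of the ends of an edge -/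
noncomputable def Cf (lam U V : ℕ → ℝ) (p q : ℕ) : ℝ :=
  ((p : ℝ) * lam p - ((p : ℝ) - 1) * U p) / ((p : ℝ) + 1) +
    ((q : ℝ) * lam q - ((q : ℝ) - 1) * U q) / ((q : ℝ) + 1) -
    (U p - V q) * (1 / ((p : ℝ) + 1) - 1 / ((q : ℝ) + 1))

end Pool.Agent.RFT81
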