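import Mathlib

/-!
# The random friend tree

A graph is given by its neighbourhoods, a function `N : ℕ → Finset ℕ`.  `tr h n` is the tree `T_n`
on `{1, ..., n}` if the vertex `i + 1` is attached to `h i` for `2 ≤ i < n`.
-/

namespace Pool.Agent.RFT81

open Finset MeasureTheory Filter
open scoped ENNReal

/-- a graph, given by the neighbourhoods -/
abbrev Gr := ℕ → Finset ℕ

/-- the single edge with the ends `1` and `2` -/
def edge12 : Gr := fun v => if v = 1 then {2} else if v = 2 then {1} else ∅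

/-- add the vertex `n + 1` and the edge between `n + 1` and `w` -/
def att (N : Gr) (n w : ℕ) : Gr := fun v =>
  if v = n + 1 then {w} else if v = w then insert (n + 1) (N v) else N v

/-- the tree `T_n` if the vertex `i + 1` is attached to `h i` for `2 ≤ i < n` -/
def tr (h : ℕ → ℕ) : ℕ → Gr
  | 0 => edge12
  | 1 => edge12
  | 2 => edge12
  | (n + 3) => att (tr h (n + 2)) (n + 2) (h (n + 2))

variable {Ω : Type*} [MeasurableSpace Ω]

/-- the random friend tree: given `T_n`, the vertex `V n` is uniform in `{1, ..., n}` and `W n` is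
uniform among the neighbours of `V n` in `T_n`; the vertex `n + 1` is attached to `W n` -/
structure IsRFT (μ : Measure Ω) (V W : ℕ → Ω → ℕ) : Prop where
  measV : ∀ n, Measurable (V n)
  measW : ∀ n, Measurable (W n)
  law : ∀ n, 2 ≤ n → ∀ (h : ℕ → ℕ) (v w : ℕ),
    μ {ω | (∀ i, 2 ≤ i → i < n → W i ω = h i) ∧ V n ω = v ∧ W n ω = w} =
      μ {ω | ∀ i, 2 ≤ i → i < n → W i ω = h i} *
        (if v ∈ Icc 1 n ∧ w ∈ tr h n v then (n : ℝ≥0∞)⁻¹ * ((tr h n v).card : ℝ≥0∞)⁻¹ else 0)

/-- the degree of `v` in `T_n` -/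
def dg (W : ℕ → Ω → ℕ) (n v : ℕ) (ω : Ω) : ℕ := (tr (fun i => W i ω) n v).card

/-- the lower limit of the degree of `v` in `T_n` divided by `n` -/
noncomputable def Z (W : ℕ → Ω → ℕ) (v : ℕ) (ω : Ω) : ℝ :=
  liminf (fun n : ℕ => (dg W n v ω : ℝ) / n) atTop

/-! ## Notions for the proof -/

/-- `N` is a graph on `{1, ..., n}` without isolated vertices -/
structure Ok (n : ℕ) (N : Gr) : Prop where
  two : 2 ≤ n
  sub : ∀ v, N v ⊆ Icc 1 n
  out : ∀ v, v ∉ Icc 1 n → N v = ∅
  symm : ∀ {u v}, u ∈ N v → v ∈ N u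
  irr : ∀ v, v ∉ N v
  ne : ∀ v, v ∈ Icc 1 n → (N v).Nonempty

/-- the sum of the inverse degrees of the neighbours -/
noncomputable def sr (N : Gr) (v : ℕ) : ℝ := ∑ x ∈ N v, ((N x).card : ℝ)⁻¹

/-- the probability of attaching the vertex `n + 1` to `w` -/
noncomputable def q (N : Gr) (n w : ℕ) : ℝ := sr N w / n

/-- the neighbours of `c` other than `e` which are leaves -/
def lfs (N : Gr) (c e : ℕ) : Finset ℕ := (N c).filter fun v => v ≠ e ∧ (N v).card = 1

/-- the number of leaves adjacent to `c`, without `e` -/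
def lf (N : Gr) (c e : ℕ) : ℕ := (lfs N c e).card

/-- the drift of `f` in the tree `N` with `n` vertices, times `n` -/
noncomputable def gen (f : Gr → ℝ) (N : Gr) (n : ℕ) : ℝ :=
  ∑ w ∈ Icc 1 n, sr N w * (f (att N n w) - f N)

/-- a history: `h i` is the vertex to which `i + 1` is attached, for `2 ≤ i < n` -/
def Good (n : ℕ) (h : ℕ → ℕ) : Prop := 2 ≤ n ∧ ∀ i, 2 ≤ i → i < n → h i ∈ Icc 1 i

/-- the event that the history is `h` up to time `n` -/
def cyl (W : ℕ → Ω → ℕ) (n : ℕ) (h : ℕ → ℕ) : Set Ω := {ω | ∀ i, 2 ≤ i → i < n → W i ω = h i}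

/-- the law of the attachments -/
structure Wlaw (μ : Measure Ω) (W : ℕ → Ω → ℕ) : Prop where
  meas : ∀ n, Measurable (W n)
  law : ∀ n h w, Good n h → w ∈ Icc 1 n →
    μ.real (cyl W (n + 1) (Function.update h n w)) = μ.real (cyl W n h) * q (tr h n) n w

/-- the event that the degree of `v` is not linear -/
def Z0 (W : ℕ → Ω → ℕ) (v : ℕ) : Set Ω := {ω | ¬ 0 < Z W v ω}

end Pool.Agent.RFT81
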