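import Pool.Agent.RFT81.Sr
import Pool.Agent.RFT81.Cert

/-!
# [RFT-Edge] The sum over the edges

Paper proof.  Let `d a = |N a|`, `br a = D a - (1 / d a) ∑ b ∈ N a, δ a b`.  Since
`sr N a = ∑ c ∈ N a, 1 / d c`, the sum is
`∑ a, ∑ c ∈ N a, 1 / (d a * d c) * (d a / (d a + 1)) * br a`, and, by symmetry, it is half of
`∑ a, ∑ c ∈ N a, 1 / (d a * d c) * (d a / (d a + 1) * br a + d c / (d c + 1) * br c)`.
So it suffices that `E a c = d a / (d a + 1) * br a + d c / (d c + 1) * br c ≥ 0` for `c ∈ N a`; by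
symmetry let `p = d a ≤ q = d c`.  Then
`E a c = p/(p+1) D a + q/(q+1) D c - 1/(p+1) ∑ b ∈ N a \ c, δ a b - 1/(q+1) ∑ b ∈ N c \ a, δ c b`
`        - δ a c (1/(p+1) - 1/(q+1))`,
`δ a b ≤ U p`, `δ c b ≤ U q`, `δ a c ≤ U p - V q`, so `E a c ≥ Cf lam U V p q ≥ 0`.
-/

namespace Pool.Agent.RFT81

open Finset

/-- the sum over the neighbours of `a` is at most the summand at `c` plus the bound for the others -/
private theorem sum_le_aux {N : Gr} {U V : ℕ → ℝ} (hV : ∀ j, 0 ≤ V j) {δ : ℕ → ℕ → ℝ}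
    (hδ : ∀ a, ∀ b ∈ N a, δ a b ≤ U (N a).card - V (N b).card) {a c : ℕ} (hc : c ∈ N a) :
    ∑ b ∈ N a, δ a b ≤ δ a c + (((N a).card : ℝ) - 1) * U (N a).card := by
  rw [← Finset.add_sum_erase _ _ hc]
  have h1 : ∑ b ∈ (N a).erase c, δ a b ≤ ∑ _b ∈ (N a).erase c, U (N a).card := by
    refine Finset.sum_le_sum fun b hb => ?_
    have := hδ a b (Finset.mem_of_mem_erase hb)
    have h2 := hV (N b).card
    linarith
  have h3 : ∑ _b ∈ (N a).erase c, U (N a).card = (((N a).card : ℝ) - 1) * U (N a).card := by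
    rw [Finset.sum_const, Finset.card_erase_of_mem hc, nsmul_eq_mul]
    have h4 : 1 ≤ (N a).card := Finset.card_pos.2 ⟨c, hc⟩
    push_cast [Nat.cast_sub h4]
    ring
  linarith

/-- the estimate for one edge with `d a ≤ d c` -/
private theorem edge_aux {m : ℕ} {N : Gr} {lam U V : ℕ → ℝ} (hV : ∀ j, 0 ≤ V j)
    (hC : ∀ p q, 1 ≤ p → p ≤ q → 0 ≤ Cf lam U V p q) {D : ℕ → ℝ}
    (hD : ∀ a ∈ Icc 1 m, lam (N a).card ≤ D a) {δ : ℕ → ℕ → ℝ}
    (hanti : ∀ a, ∀ b ∈ N a, δ b a = -δ a b)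
    (hδ : ∀ a, ∀ b ∈ N a, δ a b ≤ U (N a).card - V (N b).card) {a c : ℕ}
    (ha : a ∈ Icc 1 m) (hc : c ∈ Icc 1 m) (hac : c ∈ N a) (hca : a ∈ N c)
    (hle : (N a).card ≤ (N c).card) :
    0 ≤ (((N a).card : ℝ) * D a - ∑ b ∈ N a, δ a b) / ((N a).card + 1) +
      (((N c).card : ℝ) * D c - ∑ b ∈ N c, δ c b) / ((N c).card + 1) := by
  have hp1 : 1 ≤ (N a).card := Finset.card_pos.2 ⟨c, hac⟩
  have hcf := hC _ _ hp1 hle
  have s1 := sum_le_aux hV hδ hac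
  have s2 := sum_le_aux hV hδ hca
  have hd := hδ a c hac
  rw [hanti a c hac] at s2
  have hDa := hD a ha
  have hDc := hD c hc
  unfold Cf at hcf
  set p : ℝ := ((N a).card : ℝ) with hp
  set q : ℝ := ((N c).card : ℝ) with hq
  have p1 : (1 : ℝ) ≤ p := by rw [hp]; exact_mod_cast hp1
  have pq : p ≤ q := by rw [hp, hq]; exact_mod_cast hle
  have hinv : 0 ≤ 1 / (p + 1) - 1 / (q + 1) := by
    have : 1 / (q + 1) ≤ 1 / (p + 1) := one_div_le_one_div_of_le (by linarith) (by linarith)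
    linarith
  have e1 : (p * lam (N a).card - (δ a c + (p - 1) * U (N a).card)) / (p + 1) ≤
      (p * D a - ∑ b ∈ N a, δ a b) / (p + 1) := by
    apply div_le_div_of_nonneg_right _ (by linarith)
    have : p * lam (N a).card ≤ p * D a := mul_le_mul_of_nonneg_left hDa (by linarith)
    linarith
  have e2 : (q * lam (N c).card - (-δ a c + (q - 1) * U (N c).card)) / (q + 1) ≤
      (q * D c - ∑ b ∈ N c, δ c b) / (q + 1) := by
    apply div_le_div_of_nonneg_right _ (by linarith)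
    have : q * lam (N c).card ≤ q * D c := mul_le_mul_of_nonneg_left hDc (by linarith)
    linarith
  have e3 : δ a c * (1 / (p + 1) - 1 / (q + 1)) ≤
      (U (N a).card - V (N c).card) * (1 / (p + 1) - 1 / (q + 1)) :=
    mul_le_mul_of_nonneg_right hd hinv
  have e4 : (p * lam (N a).card - (δ a c + (p - 1) * U (N a).card)) / (p + 1) +
      (q * lam (N c).card - (-δ a c + (q - 1) * U (N c).card)) / (q + 1) =
      (p * lam (N a).card - (p - 1) * U (N a).card) / (p + 1) +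
      (q * lam (N c).card - (q - 1) * U (N c).card) / (q + 1) -
      δ a c * (1 / (p + 1) - 1 / (q + 1)) := by
    ring
  linarith

theorem edge_nonneg {m : ℕ} {N : Gr} (hN : Ok m N) {lam U V : ℕ → ℝ} (hV : ∀ j, 0 ≤ V j)
    (hC : ∀ p q, 1 ≤ p → p ≤ q → 0 ≤ Cf lam U V p q) {D : ℕ → ℝ}
    (hD : ∀ a ∈ Icc 1 m, lam (N a).card ≤ D a) {δ : ℕ → ℕ → ℝ}
    (hanti : ∀ a, ∀ b ∈ N a, δ b a = -δ a b)
    (hδ : ∀ a, ∀ b ∈ N a, δ a b ≤ U (N a).card - V (N b).card) :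
    0 ≤ ∑ a ∈ Icc 1 m, sr N a / ((N a).card + 1) *
      (D a - 1 / ((N a).card : ℝ) * ∑ b ∈ N a, δ a b) := by
  have hcard : ∀ a ∈ Icc 1 m, (0 : ℝ) < (N a).card := fun a ha => by
    exact_mod_cast Finset.card_pos.2 (hN.ne a ha)
  set F : ℕ → ℕ → ℝ := fun a c => ((N a).card : ℝ)⁻¹ * ((N c).card : ℝ)⁻¹ *
    ((((N a).card : ℝ) * D a - ∑ b ∈ N a, δ a b) / ((N a).card + 1)) with hF
  have h1 : ∑ a ∈ Icc 1 m, sr N a / ((N a).card + 1) *
      (D a - 1 / ((N a).card : ℝ) * ∑ b ∈ N a, δ a b) = ∑ a ∈ Icc 1 m, ∑ c ∈ N a, F a c := by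
    refine Finset.sum_congr rfl fun a ha => ?_
    have h0 := hcard a ha
    rw [sr, Finset.sum_div, Finset.sum_mul]
    refine Finset.sum_congr rfl fun c _ => ?_
    rw [hF]
    field_simp
  have h2 : ∑ a ∈ Icc 1 m, ∑ c ∈ N a, F a c = ∑ a ∈ Icc 1 m, ∑ c ∈ N a, F c a := by
    refine Finset.sum_comm' fun a c => ?_
    constructor
    · rintro ⟨_, hc⟩
      exact ⟨hN.symm hc, hN.sub a hc⟩
    · rintro ⟨ha, _⟩
      exact ⟨hN.sub c ha, hN.symm ha⟩
  have h3 : 0 ≤ ∑ a ∈ Icc 1 m, ∑ c ∈ N a, (F a c + F c a) := by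
    refine Finset.sum_nonneg fun a ha => Finset.sum_nonneg fun c hc => ?_
    have hc' : c ∈ Icc 1 m := hN.sub a hc
    have ha' : a ∈ N c := hN.symm hc
    have e : F a c + F c a = ((N a).card : ℝ)⁻¹ * ((N c).card : ℝ)⁻¹ *
      ((((N a).card : ℝ) * D a - ∑ b ∈ N a, δ a b) / ((N a).card + 1) +
      (((N c).card : ℝ) * D c - ∑ b ∈ N c, δ c b) / ((N c).card + 1)) := by
      rw [hF]
      ring
    rw [e]
    refine mul_nonneg (mul_nonneg (inv_nonneg.2 (hcard a ha).le)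
      (inv_nonneg.2 (hcard c hc').le)) ?_
    rcases le_total (N a).card (N c).card with hle | hle
    · exact edge_aux hV hC hD hanti hδ ha hc' hc ha' hle
    · have := edge_aux hV hC hD hanti hδ hc' ha ha' hc hle
      linarith
  have h4 : ∑ a ∈ Icc 1 m, ∑ c ∈ N a, (F a c + F c a) =
      ∑ a ∈ Icc 1 m, ∑ c ∈ N a, F a c + ∑ a ∈ Icc 1 m, ∑ c ∈ N a, F c a := by
    rw [← Finset.sum_add_distrib]
    exact Finset.sum_congr rfl fun a _ => Finset.sum_add_distrib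
  rw [h1]
  rw [h4, ← h2] at h3
  linarith

end Pool.Agent.RFT81
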