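import Pool.Agent.RFT81.Relab

/-!
# [RFT-Swap] Swapping the two last vertices

`hab h m a b` is the history `h` up to time `m`, and then `m + 1` is attached to `a` and `m + 2` is
attached to `b`.

`rel_swap`: the tree of `hab h m a b` at time `m + 2` has the vertex set `Icc 1 (m + 2)`, it is
`tr h m` with the leaf `m + 1` at `a` and the leaf `m + 2` at `b`.
-/

namespace Pool.Agent.RFT81

open Finset MeasureTheory

variable {Ω : Type*} [MeasurableSpace Ω] {μ : Measure Ω} [IsProbabilityMeasure μ] {W : ℕ → Ω → ℕ}

/-- the history `h` up to time `m`, followed by `a` and `b` -/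
def hab (h : ℕ → ℕ) (m a b : ℕ) : ℕ → ℕ := Function.update (Function.update h m a) (m + 1) b

theorem tr_hab {h : ℕ → ℕ} {m : ℕ} (hm : 2 ≤ m) (a b : ℕ) :
    tr (hab h m a b) (m + 2) = att (att (tr h m) m a) (m + 1) b := by
  have h1 : tr (hab h m a b) (m + 1 + 1) = att (tr (Function.update h m a) (m + 1)) (m + 1) b :=
    tr_update (by omega) _ _
  rw [tr_update hm] at h1
  exact h1

private theorem swx_map_fix {s : Finset ℕ} {i j : ℕ} (hi : i ∉ s) (hj : j ∉ s) :
    s.map (Equiv.swap i j).toEmbedding = s := by
  ext x
  rw [Finset.mem_map_equiv, Equiv.symm_swap]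
  by_cases h1 : x = i
  · subst h1
    simp [Equiv.swap_apply_left, hi, hj]
  · by_cases h2 : x = j
    · subst h2
      simp [Equiv.swap_apply_right, hi, hj]
    · rw [Equiv.swap_apply_of_ne_of_ne h1 h2]

theorem rel_swap {h : ℕ → ℕ} {m : ℕ} (hh : Good m h) {a b : ℕ} (ha : a ∈ Icc 1 m)
    (hb : b ∈ Icc 1 m) :
    Rel (Equiv.swap (m + 1) (m + 2)) (m + 2) (hab h m a b) (hab h m b a) := by
  have hm : 2 ≤ m := hh.1
  have hok : Ok m (tr h m) := hh.ok
  have ha' : a ∈ Icc 1 (m + 1) := by simp only [mem_Icc] at ha ⊢; omega
  have hb' : b ∈ Icc 1 (m + 1) := by simp only [mem_Icc] at hb ⊢; omega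
  simp only [mem_Icc] at ha hb
  refine ⟨?_, ?_, ?_, ?_⟩
  · exact (hh.upd (by simp only [mem_Icc]; omega)).upd hb'
  · exact (hh.upd (by simp only [mem_Icc]; omega)).upd ha'
  · intro i hi
    simp only [mem_Icc] at hi
    exact Equiv.swap_apply_of_ne_of_ne (by omega) (by omega)
  · intro v
    rw [tr_hab hm, tr_hab hm]
    have hfix : ∀ v, (tr h m v).map (Equiv.swap (m + 1) (m + 2)).toEmbedding = tr h m v := by
      intro v
      apply swx_map_fix
      · intro h1
        have := hok.sub v h1
        simp only [mem_Icc] at this
        omega
      · intro h1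
        have := hok.sub v h1
        simp only [mem_Icc] at this
        omega
    have hsa : Equiv.swap (m + 1) (m + 2) a = a :=
      Equiv.swap_apply_of_ne_of_ne (by omega) (by omega)
    have hsb : Equiv.swap (m + 1) (m + 2) b = b :=
      Equiv.swap_apply_of_ne_of_ne (by omega) (by omega)
    by_cases h1 : v = m + 1
    · subst h1
      rw [Equiv.swap_apply_left]
      have e1 : att (att (tr h m) m b) (m + 1) a (m + 2) = {a} := by
        unfold att
        rw [if_pos rfl]
      have e2 : att (att (tr h m) m a) (m + 1) b (m + 1) = {a} := by
        unfold att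
        rw [if_neg (by omega), if_neg (by omega), if_pos rfl]
      rw [e1, e2, map_singleton]
      simp [hsa]
    · by_cases h2 : v = m + 2
      · subst h2
        rw [Equiv.swap_apply_right]
        have e1 : att (att (tr h m) m b) (m + 1) a (m + 1) = {b} := by
          unfold att
          rw [if_neg (by omega), if_neg (by omega), if_pos rfl]
        have e2 : att (att (tr h m) m a) (m + 1) b (m + 2) = {b} := by
          unfold att
          rw [if_pos rfl]
        rw [e1, e2, map_singleton]
        simp [hsb]
      · rw [Equiv.swap_apply_of_ne_of_ne h1 h2]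
        have e3 : ∀ c, att (tr h m) m c v = if v = c then insert (m + 1) (tr h m v) else tr h m v := by
          intro c
          unfold att
          rw [if_neg h1]
        have e4 : ∀ c d, att (att (tr h m) m c) (m + 1) d v =
            if v = d then insert (m + 2) (att (tr h m) m c v) else att (tr h m) m c v := by
          intro c d
          conv_lhs => unfold att
          rw [if_neg h2]
          rfl
        rw [e4, e4, e3, e3]
        by_cases h3 : v = a
        · by_cases h4 : v = b
          · simp only [if_pos h3, if_pos h4, map_insert, hfix]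
            simp only [Equiv.coe_toEmbedding, Equiv.swap_apply_left, Equiv.swap_apply_right]
            exact Finset.insert_comm _ _ _
          · simp only [if_pos h3, if_neg h4, map_insert, hfix]
            simp only [Equiv.coe_toEmbedding, Equiv.swap_apply_left]
        · by_cases h4 : v = b
          · simp only [if_neg h3, if_pos h4, map_insert, hfix]
            simp only [Equiv.coe_toEmbedding, Equiv.swap_apply_right]
          · simp only [if_neg h3, if_neg h4, hfix]

/-- the two ends of the edge are exchangeable -/
theorem swap_one_two (hW : Wlaw μ W) : μ.real (Z0 W 1) = μ.real (Z0 W 2) := by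
  have hg : Good 2 (fun _ => 1) := ⟨le_refl 2, fun i h1 h2 => by omega⟩
  have hR : Rel (Equiv.swap 1 2) 2 (fun _ => 1) (fun _ => 1) := by
    refine ⟨hg, hg, ?_, ?_⟩
    · intro i hi
      simp only [mem_Icc] at hi
      exact Equiv.swap_apply_of_ne_of_ne (by omega) (by omega)
    · intro v
      rw [tr_two]
      by_cases h1 : v = 1
      · subst h1
        rw [Equiv.swap_apply_left]
        unfold edge12
        simp
      · by_cases h2 : v = 2
        · subst h2
          rw [Equiv.swap_apply_right]
          unfold edge12
          simp
        · rw [Equiv.swap_apply_of_ne_of_ne h1 h2]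
          unfold edge12
          simp [h1, h2]
  have key := relab (μ := μ) hW hR 1
  rw [cyl_two, Equiv.swap_apply_left] at key
  simpa using key

/-- if `3` is attached to `1` then `2` and `3` are exchangeable -/
theorem swap_two_three (hW : Wlaw μ W) {h : ℕ → ℕ} (h2 : h 2 = 1) :
    μ.real (Z0 W 2 ∩ cyl W 3 h) = μ.real (Z0 W 3 ∩ cyl W 3 h) := by
  have hg : Good 3 h := by
    refine ⟨by omega, fun i h1 h3 => ?_⟩
    have : i = 2 := by omega
    subst this
    rw [h2]
    simp
  have ht : tr h 3 = att edge12 2 1 := by
    have := tr_succ (le_refl 2) h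
    rw [tr_two, h2] at this
    exact this
  have hR : Rel (Equiv.swap 2 3) 3 h h := by
    refine ⟨hg, hg, ?_, ?_⟩
    · intro i hi
      simp only [mem_Icc] at hi
      exact Equiv.swap_apply_of_ne_of_ne (by omega) (by omega)
    · intro v
      rw [ht]
      have s1 : Equiv.swap 2 3 1 = 1 := Equiv.swap_apply_of_ne_of_ne (by omega) (by omega)
      by_cases h3 : v = 2
      · subst h3
        rw [Equiv.swap_apply_left]
        unfold att edge12
        simp [s1]
      · by_cases h4 : v = 3
        · subst h4
          rw [Equiv.swap_apply_right]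
          unfold att edge12
          simp [s1]
        · rw [Equiv.swap_apply_of_ne_of_ne h3 h4]
          by_cases h5 : v = 1
          · subst h5
            unfold att edge12
            simp only [if_neg (show ¬ (1 : ℕ) = 2 + 1 by omega), if_true, map_insert, map_singleton,
              Equiv.coe_toEmbedding, Equiv.swap_apply_left, Equiv.swap_apply_right]
            exact Finset.pair_comm _ _
          · unfold att edge12
            simp [h3, h4, h5]
  have key := relab (μ := μ) hW hR 2
  rw [Equiv.swap_apply_left] at key
  exact mul_right_cancel₀ (cyl_pos hW hg).ne' key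

end Pool.Agent.RFT81
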