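import Pool.Agent.RFT81.SubY

/-!
# [RFT-SubYx] `Yx` is a submartingale

Paper proof of `gen_Yx` for `|N y| = 1`, `N y = {x}` (the other cases are as for `Yf`, `gen_two`).
Put `d = |N x|`, `L = lf N x y`, `j = |N a| ≥ 2`, so `L + 2 ≤ d` (`lf_lt2`), `F = Q d L + X d L / j`.
The function changes only for
* `w = y`, rate `1 / d`, new value `h d L * h 1 0` (neighbours `x` and the new leaf);
* `w = x`, rate `≥ L + 1 + 1 / j` (`sr_ge'`), new value `Q (d+1) (L+1) + X (d+1) (L+1) / j ≥ F`: this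
  is `Low2.mono` if `X` decreases (as `1 / j ≤ 1 / 2`), and `Low1.mono` otherwise;
* `w ∈ lfs N x y`, total rate `L / d`, new value `Q d (L-1) + X d (L-1) / j`;
* `w = a`, rate `≤ j - 1/2` (`sr_le'` and `d ≥ 2`), new value `Q d L + X d L / (j + 1)`.
Write `Xup = X (d+1) (L+1)` etc.  By `Low1.ineq` and `1/j` times `Low2.ineq` the total is at least
`(1/j) (X + (Xup - X)/j - (j - 1/2) X/(j+1)) ≥ (1/j) X (1 - 1/j - (j - 1/2)/(j+1)) ≥ 0` for `j ≥ 2`.
-/

namespace Pool.Agent.RFT81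

open Finset

variable {h Q X : ℕ → ℕ → ℝ}

private theorem sbX_att_other {n : ℕ} {N : Gr} {w y : ℕ} (hy : y ∈ Icc 1 n) (hwy : w ≠ y) :
    att N n w y = N y := by
  have hy' : y ≠ n + 1 := by
    simp only [mem_Icc] at hy
    omega
  unfold att
  rw [if_neg hy', if_neg (Ne.symm hwy)]

private theorem sbX_att_self {n : ℕ} {N : Gr} {y : ℕ} (hy : y ∈ Icc 1 n) :
    att N n y y = insert (n + 1) (N y) := by
  have hy' : y ≠ n + 1 := by
    simp only [mem_Icc] at hy
    omega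
  unfold att
  rw [if_neg hy', if_pos rfl]

private theorem sbX_mem {n : ℕ} {N : Gr} (hN : Ok n N) {y c : ℕ} (hc : c ∈ N y) : y ∈ Icc 1 n :=
  hN.sub c (hN.symm hc)

/-- the algebra for degree one -/
private theorem sbX_alg {L d j Q0 X0 Qu Xu Qd Xd H sx sa : ℝ} (hj : 2 ≤ j)
    (hd : 0 < d) (hX0 : 0 ≤ X0) (hXu : 0 ≤ Xu)
    (hsx : L + 1 + 1 / j ≤ sx) (hsa : sa ≤ j - 1 / 2)
    (hA : 0 ≤ Qu + Xu / j - (Q0 + X0 / j))
    (i1 : 0 ≤ (L + 1) * (Qu - Q0) + L / d * (Qd - Q0) + (1 / d) * (H - Q0))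
    (i2 : 0 ≤ (Qu - Q0) + (L + 1) * (Xu - X0) + L / d * (Xd - X0) - (1 / d) * X0 - X0) :
    0 ≤ (1 / d) * (H - (Q0 + X0 / j)) + (sx * (Qu + Xu / j - (Q0 + X0 / j)) +
      L / d * (Qd + Xd / j - (Q0 + X0 / j)) +
      sa * (Q0 + X0 / (j + 1) - (Q0 + X0 / j))) := by
  have hj0 : 0 < j := by linarith
  have e1 : (L + 1 + 1 / j) * (Qu + Xu / j - (Q0 + X0 / j)) ≤
      sx * (Qu + Xu / j - (Q0 + X0 / j)) := mul_le_mul_of_nonneg_right hsx hA
  have e2 : X0 / j - X0 / (j + 1) = X0 / (j * (j + 1)) := by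
    field_simp
    ring
  have e3 : 0 ≤ X0 / (j * (j + 1)) := by positivity
  have e4 : (j - 1 / 2) * (Q0 + X0 / (j + 1) - (Q0 + X0 / j)) ≤
      sa * (Q0 + X0 / (j + 1) - (Q0 + X0 / j)) := by
    have e5 : Q0 + X0 / (j + 1) - (Q0 + X0 / j) = - (X0 / (j * (j + 1))) := by
      rw [← e2]; ring
    rw [e5]
    nlinarith
  have e6 : 0 ≤ (1 / j) * ((Qu - Q0) + (L + 1) * (Xu - X0) + L / d * (Xd - X0) -
      (1 / d) * X0 - X0) := mul_nonneg (by positivity) i2
  have e7 : 0 ≤ Xu / j ^ 2 := by positivity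
  have e8 : 0 ≤ X0 * ((j / 2 - 1) / (j ^ 2 * (j + 1))) := by
    apply mul_nonneg hX0
    apply div_nonneg
    · linarith
    · positivity
  have key : (1 / d) * (H - (Q0 + X0 / j)) +
      ((L + 1 + 1 / j) * (Qu + Xu / j - (Q0 + X0 / j)) +
      L / d * (Qd + Xd / j - (Q0 + X0 / j)) +
      (j - 1 / 2) * (Q0 + X0 / (j + 1) - (Q0 + X0 / j))) =
      ((L + 1) * (Qu - Q0) + L / d * (Qd - Q0) + (1 / d) * (H - Q0)) +
      (1 / j) * ((Qu - Q0) + (L + 1) * (Xu - X0) + L / d * (Xd - X0) - (1 / d) * X0 - X0) +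
      Xu / j ^ 2 + X0 * ((j / 2 - 1) / (j ^ 2 * (j + 1))) := by
    field_simp
    ring
  linarith

private theorem sbX_up (h1 : Low1 h Q) (h2 : Low2 Q X) {d L : ℕ} (hL : L + 2 ≤ d) {j : ℝ}
    (hj : 2 ≤ j) : 0 ≤ Q (d + 1) (L + 1) + X (d + 1) (L + 1) / j - (Q d L + X d L / j) := by
  have hj0 : 0 < j := by linarith
  have m1 := h1.mono d L (by omega)
  have m2 := h2.mono d L hL
  rcases le_total (X d L) (X (d + 1) (L + 1)) with hc | hc
  · have := div_le_div_of_nonneg_right hc hj0.le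
    linarith
  · have h3 : (X d L - X (d + 1) (L + 1)) / j ≤ (X d L - X (d + 1) (L + 1)) / 2 :=
      div_le_div_of_nonneg_left (by linarith) (by norm_num) hj
    rw [sub_div, sub_div] at h3
    linarith

private theorem sbX_one (h1 : Low1 h Q) (h2 : Low2 Q X) {n : ℕ} {N : Gr}
    (hN : Ok n N) {y x a : ℕ} (hx : x ∈ N y) (ha : a ∈ N x) (hay : a ≠ y)
    (ha2 : 2 ≤ (N a).card) (hy1 : (N y).card = 1) :
    0 ≤ gen (Yx h Q X y x a) N n := by
  have hyI : y ∈ Icc 1 n := sbX_mem hN hx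
  have hxI : x ∈ Icc 1 n := hN.sub y hx
  have haI : a ∈ Icc 1 n := hN.sub x ha
  have hyx : y ∈ N x := hN.symm hx
  have hNy : N y = {x} := by
    obtain ⟨b, hb⟩ := card_eq_one.1 hy1
    rw [hb, mem_singleton] at hx
    rw [hb, hx]
  have hxy : x ≠ y := by
    rintro rfl
    exact hN.irr _ hx
  have hax : a ≠ x := by
    rintro rfl
    exact hN.irr _ ha
  have hxn : x ≠ n + 1 := by
    simp only [mem_Icc] at hxI
    omega
  have hyn : y ≠ n + 1 := by
    simp only [mem_Icc] at hyI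
    omega
  have hyl : y ∉ lfs N x y := by
    intro hh
    exact (mem_filter.1 hh).2.1 rfl
  have hxl : x ∉ lfs N x y := by
    intro hh
    exact hN.irr _ (mem_filter.1 hh).1
  have hal : a ∉ lfs N x y := by
    intro hh
    have := (mem_filter.1 hh).2.2
    omega
  have hlt2 := lf_lt2 hyx ha hay ha2
  obtain ⟨d, hd⟩ : ∃ d, d = (N x).card := ⟨_, rfl⟩
  obtain ⟨L, hL⟩ : ∃ L, L = lf N x y := ⟨_, rfl⟩
  obtain ⟨j, hj⟩ : ∃ j, j = (N a).card := ⟨_, rfl⟩
  rw [← hd, ← hL] at hlt2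
  have hf0 : Yx h Q X y x a N = Q d L + X d L / j := by
    unfold Yx
    rw [if_pos hy1, ← hd, ← hL, ← hj]
  -- the values after the step
  have hfy : Yx h Q X y x a (att N n y) = h d L * h 1 0 := by
    have h2 : (att N n y y).card = 2 := by
      rw [card_att hN hyI hyI, hy1, if_pos rfl]
    have h3 : att N n y y = insert (n + 1) {x} := by
      rw [sbX_att_self hyI, hNy]
    have h4 : n + 1 ∉ ({x} : Finset ℕ) := by
      rw [mem_singleton]
      exact Ne.symm hxn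
    unfold Yx
    rw [h2, if_neg (by norm_num), if_pos rfl, h3, prod_insert h4, prod_singleton,
      card_att_new, lf_att_new, card_att hN hyI hxI, if_neg hxy, add_zero,
      lf_att_other hN hxI hyI hxy hyl, mul_comm, ← hd, ← hL]
  have hgen : ∀ w, w ≠ y → Yx h Q X y x a (att N n w) =
      Q (att N n w x).card (lf (att N n w) x y) +
        X (att N n w x).card (lf (att N n w) x y) / (att N n w a).card := by
    intro w hwy
    unfold Yx
    rw [sbX_att_other (N := N) hyI hwy, if_pos hy1]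
  have hfx : Yx h Q X y x a (att N n x) = Q (d + 1) (L + 1) + X (d + 1) (L + 1) / j := by
    rw [hgen x hxy, card_att hN hxI hxI, if_pos rfl, lf_att_self hN hxI hyn,
      card_att hN hxI haI, if_neg hax, add_zero, ← hd, ← hL, ← hj]
  have hfa : Yx h Q X y x a (att N n a) = Q d L + X d L / (j + 1) := by
    rw [hgen a hay, card_att hN haI hxI, if_neg (Ne.symm hax), add_zero,
      lf_att_other hN hxI haI (Ne.symm hax) hal,
      card_att hN haI haI, if_pos rfl, ← hd, ← hL, ← hj]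
    push_cast
    rfl
  have hfl : ∀ w ∈ lfs N x y, Yx h Q X y x a (att N n w) = Q d (L - 1) + X d (L - 1) / j := by
    intro w hw
    have hw' := mem_filter.1 hw
    have hwI : w ∈ Icc 1 n := hN.sub x hw'.1
    have hwy : w ≠ y := hw'.2.1
    have hxw : x ≠ w := by
      rintro rfl
      exact hxl hw
    have haw : a ≠ w := by
      rintro rfl
      exact hal hw
    rw [hgen w hwy, card_att hN hwI hxI, if_neg hxw, add_zero, lf_att_leaf hN hxI hw,
      card_att hN hwI haI, if_neg haw, add_zero, ← hd, ← hL, ← hj]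
  have hfo : ∀ w ∈ Icc 1 n, w ≠ y → w ≠ x → w ≠ a → w ∉ lfs N x y →
      Yx h Q X y x a (att N n w) = Q d L + X d L / j := by
    intro w hwI hwy hwx hwa hwl
    rw [hgen w hwy, card_att hN hwI hxI, if_neg (Ne.symm hwx), add_zero,
      lf_att_other hN hxI hwI (Ne.symm hwx) hwl,
      card_att hN hwI haI, if_neg (Ne.symm hwa), add_zero, ← hd, ← hL, ← hj]
  -- the sum
  obtain ⟨F0, hF0⟩ : ∃ F0, F0 = Q d L + X d L / (j : ℝ) := ⟨_, rfl⟩
  obtain ⟨Fx, hFx⟩ : ∃ Fx, Fx = Q (d + 1) (L + 1) + X (d + 1) (L + 1) / (j : ℝ) := ⟨_, rfl⟩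
  obtain ⟨Fa, hFa⟩ : ∃ Fa, Fa = Q d L + X d L / ((j : ℝ) + 1) := ⟨_, rfl⟩
  obtain ⟨Fl, hFl⟩ : ∃ Fl, Fl = Q d (L - 1) + X d (L - 1) / (j : ℝ) := ⟨_, rfl⟩
  obtain ⟨Fy, hFy⟩ : ∃ Fy, Fy = h d L * h 1 0 := ⟨_, rfl⟩
  rw [← hF0] at hf0 hfo
  rw [← hFx] at hfx
  rw [← hFa] at hfa
  rw [← hFl] at hfl
  rw [← hFy] at hfy
  have hterm : ∀ w ∈ Icc 1 n, sr N w * (Yx h Q X y x a (att N n w) - Yx h Q X y x a N) =
      (if w = y then sr N w * (Fy - F0) else 0) + ((if w = x then sr N w * (Fx - F0) else 0) +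
      (if w ∈ lfs N x y then sr N w * (Fl - F0) else 0) +
      (if w = a then sr N w * (Fa - F0) else 0)) := by
    intro w hwI
    rw [hf0]
    by_cases hwy : w = y
    · subst hwy
      rw [hfy, if_pos rfl, if_neg (Ne.symm hxy), if_neg hyl, if_neg (Ne.symm hay)]
      ring
    · rw [if_neg hwy]
      by_cases hwx : w = x
      · subst hwx
        rw [hfx, if_pos rfl, if_neg hxl, if_neg (Ne.symm hax)]
        ring
      · rw [if_neg hwx]
        by_cases hwa : w = a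
        · subst hwa
          rw [hfa, if_pos rfl, if_neg hal]
          ring
        · rw [if_neg hwa]
          by_cases hwl : w ∈ lfs N x y
          · rw [if_pos hwl, hfl w hwl]
            ring
          · rw [if_neg hwl, hfo w hwI hwy hwx hwa hwl]
            ring
  have hlsub : lfs N x y ⊆ Icc 1 n := fun w hw => hN.sub x (mem_filter.1 hw).1
  have hsl : ∑ w ∈ Icc 1 n, (if w ∈ lfs N x y then sr N w * (Fl - F0) else 0) =
      (L : ℝ) / d * (Fl - F0) := by
    rw [← sum_filter]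
    have e1 : (Icc 1 n).filter (fun w => w ∈ lfs N x y) = lfs N x y := by
      ext w
      simp only [mem_filter]
      constructor
      · rintro ⟨_, h⟩
        exact h
      · intro h
        exact ⟨hlsub h, h⟩
    rw [e1]
    have e2 : ∀ w ∈ lfs N x y, sr N w * (Fl - F0) = (d : ℝ)⁻¹ * (Fl - F0) := by
      intro w hw
      have hw' := mem_filter.1 hw
      rw [sr_leaf hw'.2.2 (hN.symm hw'.1), ← hd]
    rw [sum_congr rfl e2, sum_const, nsmul_eq_mul, hL, lf]
    ring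
  have hgenval : gen (Yx h Q X y x a) N n = sr N y * (Fy - F0) + (sr N x * (Fx - F0) +
      (L : ℝ) / d * (Fl - F0) + sr N a * (Fa - F0)) := by
    unfold gen
    rw [sum_congr rfl hterm, sum_add_distrib, sum_add_distrib, sum_add_distrib, hsl,
      sum_ite_eq', if_pos hyI, sum_ite_eq', if_pos hxI, sum_ite_eq', if_pos haI]
  have hsy : sr N y = 1 / (d : ℝ) := by
    rw [sr_leaf hy1 hx, ← hd, one_div]
  have hj2 : (2 : ℝ) ≤ j := by
    rw [hj]
    exact_mod_cast ha2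
  have hd2 : (2 : ℝ) ≤ d := by
    have : 2 ≤ d := by omega
    exact_mod_cast this
  have hsx : (L : ℝ) + 1 + 1 / j ≤ sr N x := by
    have h3 := sr_ge' hyx ha hay ha2
    rw [hy1, ← hL, ← hj] at h3
    rw [one_div]
    have h4 : (((1 : ℕ) : ℝ))⁻¹ = 1 := by norm_num
    rw [h4] at h3
    linarith
  have hsa : sr N a ≤ (j : ℝ) - 1 / 2 := by
    have h3 := sr_le' hN (hN.symm ha)
    rw [← hd, ← hj] at h3
    have h4 : (d : ℝ)⁻¹ ≤ 2⁻¹ := inv_anti₀ (by norm_num) hd2
    linarith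
  rw [hgenval, hsy, hFy, hFx, hFl, hFa, hF0]
  exact sbX_alg hj2 (by linarith) (h2.nonneg _ _) (h2.nonneg _ _) hsx hsa
    (sbX_up h1 h2 hlt2 hj2) (h1.ineq d L (by omega)) (h2.ineq d L hlt2)

theorem gen_Yx (h0 : Low0 h) (h1 : Low1 h Q) (h2 : Low2 Q X) {n : ℕ} {N : Gr} (hN : Ok n N)
    {y x a : ℕ} (hx : x ∈ N y) (ha : a ∈ N x) (hay : a ≠ y) (ha2 : 2 ≤ (N a).card) :
    0 ≤ gen (Yx h Q X y x a) N n := by
  have hyI : y ∈ Icc 1 n := sbX_mem hN hx
  have hcard : 0 < (N y).card := card_pos.2 ⟨x, hx⟩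
  rcases Nat.lt_or_ge (N y).card 3 with hlt | hge
  · rcases Nat.lt_or_ge (N y).card 2 with hlt1 | hge2
    · exact sbX_one h1 h2 hN hx ha hay ha2 (by omega)
    · have hy2 : (N y).card = 2 := by omega
      refine gen_two h0 hN hy2 _ ?_ ?_
      · intro N' hN'
        unfold Yx
        rw [hN', if_neg (by norm_num), if_pos rfl]
      · intro N' hN'
        unfold Yx
        rw [if_neg (by omega), if_neg (by omega)]
  · have hz : ∀ N' : Gr, 3 ≤ (N' y).card → Yx h Q X y x a N' = 0 := by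
      intro N' hN'
      unfold Yx
      rw [if_neg (by omega), if_neg (by omega)]
    unfold gen
    apply le_of_eq
    symm
    apply Finset.sum_eq_zero
    intro w hw
    have h2 : 3 ≤ (att N n w y).card := by
      rw [card_att hN hw hyI]
      omega
    rw [hz _ h2, hz _ hge, sub_zero, mul_zero]

theorem Yx_le (h0 : Low0 h) (h1 : Low1 h Q) (h2 : Low2 Q X) {n : ℕ} {N : Gr} (hN : Ok n N)
    {y x a : ℕ} (hx : x ∈ N y) (ha : a ∈ N x) (hay : a ≠ y) (ha2 : 2 ≤ (N a).card) :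
    Yx h Q X y x a N ≤ 1 := by
  unfold Yx
  split_ifs with h3 h4
  · have hlt2 := lf_lt2 (hN.symm hx) ha hay ha2
    have h5 := h2.le_one _ _ hlt2
    have h6 : (2 : ℝ) ≤ (N a).card := by exact_mod_cast ha2
    have h7 : X (N x).card (lf N x y) / (N a).card ≤ X (N x).card (lf N x y) / 2 :=
      div_le_div_of_nonneg_left (h2.nonneg _ _) (by norm_num) h6
    linarith
  · exact Finset.prod_le_one (fun c _ => h0.nonneg _ _) fun c _ => h0.le_one _ _
  · exact zero_le_one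

theorem Yx_zero {N : Gr} {y x a : ℕ} (hy : 3 ≤ (N y).card) : Yx h Q X y x a N = 0 := by
  unfold Yx
  rw [if_neg (by omega), if_neg (by omega)]

end Pool.Agent.RFT81
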