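import Pool.Agent.RFT81.SupPhi
import Pool.Agent.RFT81.SubYx

/-!
# [RFT-Vals] Values of the comparison functions

`T1` is the graph `N` with the new vertex `m + 1` attached to `a` and then `m + 2` attached to
`m + 1`; so `T1 (m + 2) = {m + 1}`, `T1 (m + 1) = {m + 2, a}`, `|T1 a| = |N a| + 1 ≥ 2`.
`T2` is the graph `N` with `m + 1` attached to `a` and `m + 2` attached to the neighbour `b` of `a`;
so `T2 (m + 1) = {a}`, `T2 (m + 2) = {b}`, `|T2 a| = |N a| + 1`, `|T2 b| = |N b| + 1`; among the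
neighbours of `a` in `T2` there are `m + 1` and `b`, and `b` is not a leaf (`lf_lt2`).
-/

namespace Pool.Agent.RFT81

open Finset

variable {H P h Q X : ℕ → ℕ → ℝ} {A B : ℕ → ℝ}

/-- both new vertices form a path attached to `a` -/
def T1 (N : Gr) (m a : ℕ) : Gr := att (att N m a) (m + 1) (m + 1)

/-- the new vertices are attached to `a` and to `b` -/
def T2 (N : Gr) (m a b : ℕ) : Gr := att (att N m a) (m + 1) b

private theorem vals_ne {m : ℕ} {N : Gr} (hN : Ok m N) {a : ℕ} (ha : a ∈ Icc 1 m) :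
    a ≠ m + 1 ∧ a ≠ m + 1 + 1 ∧ m + 1 ∉ N a ∧ m + 1 + 1 ∉ N a ∧ 1 ≤ (N a).card := by
  have h1 := (mem_Icc.1 ha).2
  refine ⟨by omega, by omega, ?_, ?_, card_pos.2 (hN.ne a ha)⟩
  · intro h
    have := (mem_Icc.1 (hN.sub _ h)).2
    omega
  · intro h
    have := (mem_Icc.1 (hN.sub _ h)).2
    omega

private theorem T1_new {m : ℕ} {N : Gr} {a : ℕ} : T1 N m a (m + 2) = {m + 1} := by
  simp [T1, att]

private theorem T1_mid {m : ℕ} {N : Gr} {a : ℕ} : T1 N m a (m + 1) = insert (m + 1 + 1) {a} := by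
  simp [T1, att]

private theorem T1_a {m : ℕ} {N : Gr} (hN : Ok m N) {a : ℕ} (ha : a ∈ Icc 1 m) :
    T1 N m a a = insert (m + 1) (N a) := by
  obtain ⟨h1, h2, -, -, -⟩ := vals_ne hN ha
  unfold T1 att
  rw [if_neg h2, if_neg h1, if_neg h1, if_pos rfl]

theorem T1_mem {m : ℕ} {N : Gr} (hN : Ok m N) {a : ℕ} (ha : a ∈ Icc 1 m) :
    m + 1 ∈ T1 N m a (m + 2) ∧ a ∈ T1 N m a (m + 1) ∧ (T1 N m a a).card = (N a).card + 1 ∧
      (T1 N m a (m + 1)).card = 2 := by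
  obtain ⟨h1, h2, h3, -, -⟩ := vals_ne hN ha
  refine ⟨?_, ?_, ?_, ?_⟩
  · rw [T1_new]
    exact mem_singleton_self _
  · rw [T1_mid]
    exact mem_insert_of_mem (mem_singleton_self _)
  · rw [T1_a hN ha, card_insert_of_notMem h3]
  · rw [T1_mid, card_insert_of_notMem, card_singleton]
    rw [mem_singleton]
    exact Ne.symm h2

theorem T1_Yx {m : ℕ} {N : Gr} (hN : Ok m N) {a : ℕ} (ha : a ∈ Icc 1 m) :
    Yx h Q X (m + 2) (m + 1) a (T1 N m a) = Q 2 0 + X 2 0 / (((N a).card : ℝ) + 1) := by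
  obtain ⟨h1, h2, h3, -, h5⟩ := vals_ne hN ha
  obtain ⟨-, -, c1, c2⟩ := T1_mem hN ha
  have hl : lf (T1 N m a) (m + 1) (m + 2) = 0 := by
    unfold lf lfs
    rw [card_eq_zero, filter_eq_empty_iff]
    intro v hv hv'
    rw [T1_mid, mem_insert, mem_singleton] at hv
    rcases hv with hv | hv
    · exact hv'.1 hv
    · rw [hv, c1] at hv'
      omega
  have h0 : (T1 N m a (m + 2)).card = 1 := by rw [T1_new, card_singleton]
  unfold Yx
  rw [if_pos h0, hl, c1, c2]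
  push_cast
  rfl

theorem T1_Phi {m : ℕ} {N : Gr} (hN : Ok m N) {a : ℕ} (ha : a ∈ Icc 1 m) :
    Phi H P A B (m + 1) a (T1 N m a) = A ((N a).card + 1) * P 1 0 := by
  obtain ⟨h1, h2, h3, -, h5⟩ := vals_ne hN ha
  obtain ⟨-, -, c1, c2⟩ := T1_mem hN ha
  have he : (T1 N m a (m + 1)).erase a = {m + 1 + 1} := by
    rw [T1_mid]
    ext v
    simp only [mem_erase, mem_insert, mem_singleton]
    constructor
    · rintro ⟨k1, k2 | k2⟩
      · exact k2
      · exact absurd k2 k1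
    · intro k
      exact ⟨by rw [k]; exact Ne.symm h2, Or.inl k⟩
  have hl : lf (T1 N m a) (m + 1 + 1) (m + 1) = 0 := lf_att_new
  have h0 : (T1 N m a (m + 1 + 1)).card = 1 := card_att_new _ _ _
  unfold Phi
  rw [if_neg (by omega), if_pos c2, he, prod_singleton, hl, h0, c1]

private theorem vals_a {m : ℕ} {N : Gr} (hN : Ok m N) {a b : ℕ} (hb : b ∈ N a) :
    a ∈ Icc 1 m ∧ b ∈ Icc 1 m ∧ a ≠ b := by
  refine ⟨hN.sub b (hN.symm hb), hN.sub a hb, ?_⟩
  rintro rfl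
  exact hN.irr _ hb

private theorem T2_new {m : ℕ} {N : Gr} {a b : ℕ} : T2 N m a b (m + 2) = {b} := by
  simp [T2, att]

private theorem T2_mid {m : ℕ} {N : Gr} (hN : Ok m N) {a b : ℕ} (hb : b ∈ N a) :
    T2 N m a b (m + 1) = {a} := by
  obtain ⟨h1, -⟩ := vals_ne hN (vals_a hN hb).2.1
  unfold T2 att
  rw [if_neg (by omega), if_neg (Ne.symm h1), if_pos rfl]

private theorem T2_b {m : ℕ} {N : Gr} (hN : Ok m N) {a b : ℕ} (hb : b ∈ N a) :
    T2 N m a b b = insert (m + 1 + 1) (N b) := by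
  obtain ⟨ha', hb', hab⟩ := vals_a hN hb
  obtain ⟨h1, h2, -⟩ := vals_ne hN hb'
  unfold T2 att
  rw [if_neg h2, if_pos rfl, if_neg h1, if_neg (Ne.symm hab)]

private theorem T2_a {m : ℕ} {N : Gr} (hN : Ok m N) {a b : ℕ} (hb : b ∈ N a) :
    T2 N m a b a = insert (m + 1) (N a) := by
  obtain ⟨ha', hb', hab⟩ := vals_a hN hb
  obtain ⟨h1, h2, -⟩ := vals_ne hN ha'
  unfold T2 att
  rw [if_neg h2, if_neg hab, if_neg h1, if_pos rfl]

theorem T2_mem {m : ℕ} {N : Gr} (hN : Ok m N) {a b : ℕ} (hb : b ∈ N a) :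
    a ∈ T2 N m a b (m + 1) ∧ b ∈ T2 N m a b (m + 2) ∧ (T2 N m a b b).card = (N b).card + 1 ∧
      (T2 N m a b (m + 2)).card = 1 := by
  obtain ⟨ha', hb', hab⟩ := vals_a hN hb
  obtain ⟨h1, h2, h3, h4, -⟩ := vals_ne hN hb'
  refine ⟨?_, ?_, ?_, ?_⟩
  · rw [T2_mid hN hb]
    exact mem_singleton_self _
  · rw [T2_new]
    exact mem_singleton_self _
  · rw [T2_b hN hb, card_insert_of_notMem h4]
  · rw [T2_new, card_singleton]

theorem T2_Yf {m : ℕ} {N : Gr} (hN : Ok m N) {a b : ℕ} (hb : b ∈ N a) :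
    ∃ L, L + 2 ≤ (N a).card + 1 ∧ Yf h Q (m + 1) a (T2 N m a b) = Q ((N a).card + 1) L := by
  obtain ⟨ha', hb', hab⟩ := vals_a hN hb
  obtain ⟨h1, h2, h3, h4, h5⟩ := vals_ne hN hb'
  obtain ⟨k1, k2, k3, k4, k5⟩ := vals_ne hN ha'
  have hca : (T2 N m a b a).card = (N a).card + 1 := by
    rw [T2_a hN hb, card_insert_of_notMem k3]
  refine ⟨lf (T2 N m a b) a (m + 1), ?_, ?_⟩
  · rw [← hca]
    refine lf_lt2 (a := b) ?_ ?_ h1 ?_
    · rw [T2_a hN hb]
      exact mem_insert_self _ _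
    · rw [T2_a hN hb]
      exact mem_insert_of_mem hb
    · rw [(T2_mem hN hb).2.2.1]
      omega
  · have h0 : (T2 N m a b (m + 1)).card = 1 := by rw [T2_mid hN hb, card_singleton]
    unfold Yf
    rw [if_pos h0, hca]

theorem T2_Phi {m : ℕ} {N : Gr} (hN : Ok m N) {a b : ℕ} (hb : b ∈ N a) :
    Phi H P A B (m + 2) b (T2 N m a b) = B ((N b).card + 1) := by
  obtain ⟨-, -, c1, c2⟩ := T2_mem hN hb
  unfold Phi
  rw [if_pos c2, c1]

end Pool.Agent.RFT81
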