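import Pool.Agent.RFT81.Local
import Pool.Agent.RFT81.Vals
import Pool.Agent.RFT81.Swap
import Pool.Agent.RFT81.Alg
import Pool.Agent.RFT81.Edge
import Pool.Agent.RFT81.AllC

/-!
# [RFT-Exch] The vertex `m + 1` is at least as good as `m + 2`

Paper proof of `exch`.  Let `c = μ (cyl W m h)`, `N = tr h m`,
`c_ab = μ (cyl W (m+2) (hab h m a b)) = c * q N m a * q (att N m a) (m+1) b` (`Wlaw.law` twice),
`zu a b = μ (Z0 W (m+1) ∩ cyl W (m+2) (hab h m a b)) / c_ab`, and `zv a b` the same with `m + 2`.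
By `part`, used twice, the difference of the right and the left side is the sum over
`a ∈ Icc 1 m`, `b ∈ Icc 1 (m+1)` of `c_ab * (zv a b - zu a b)`.  Now use `exch_alg` and
`edge_nonneg` with `D a = zv a (m+1) - zu a (m+1)`, `δ a b = zv a b - zu a b`:
* `zu a b = zv b a` for `a, b ∈ Icc 1 m`, by `relab` and `rel_swap`;
* `zv a (m+1) ≥ Q 2 0 + X 2 0 / (|N a| + 1)` (`low_Yx`, `T1_Yx`) and
  `zu a (m+1) ≤ A (|N a| + 1) * P 1 0` (`up_Phi`, `T1_Phi`);
* for `b ∈ N a`: `zv a b ≤ B (|N b| + 1)` (`up_Phi`, `T2_Phi`), and `zu a b ≥ Q (|N a| + 1) L` and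
  `zu a b ≥ Q' (|N a| + 1) L` (`low_Yf`, `T2_Yf`), which are at least the values for `L = 0`.
-/

namespace Pool.Agent.RFT81

open Finset MeasureTheory

variable {Ω : Type*} [MeasurableSpace Ω] {μ : Measure Ω} [IsProbabilityMeasure μ] {W : ℕ → Ω → ℕ}
variable {θ c : ℝ} {H P h₀ Q Q' X : ℕ → ℕ → ℝ} {A B : ℕ → ℝ}

private theorem cyl_hab (hW : Wlaw μ W) {m : ℕ} {h : ℕ → ℕ} (hh : Good m h) {a b : ℕ}
    (ha : a ∈ Icc 1 m) (hb : b ∈ Icc 1 (m + 1)) :
    μ.real (cyl W (m + 2) (hab h m a b)) =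
      μ.real (cyl W m h) * (q (tr h m) m a * q (att (tr h m) m a) (m + 1) b) := by
  have h1 := hW.law (m + 1) (Function.update h m a) b (hh.upd ha) hb
  have h2 := hW.law m h a hh ha
  rw [tr_update hh.1] at h1
  unfold hab
  rw [show m + 2 = m + 1 + 1 from rfl, h1, h2]
  ring

private theorem good_hab {m : ℕ} {h : ℕ → ℕ} (hh : Good m h) {a b : ℕ}
    (ha : a ∈ Icc 1 m) (hb : b ∈ Icc 1 (m + 1)) : Good (m + 2) (hab h m a b) :=
  (hh.upd ha).upd hb

private theorem part2 (hW : Wlaw μ W) {m : ℕ} {h : ℕ → ℕ} (hh : Good m h) {E : Set Ω}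
    (hE : MeasurableSet E) :
    μ.real (E ∩ cyl W m h) =
      ∑ a ∈ Icc 1 m, ∑ b ∈ Icc 1 (m + 1), μ.real (E ∩ cyl W (m + 2) (hab h m a b)) := by
  rw [part hW hh hE]
  refine Finset.sum_congr rfl fun a ha => ?_
  rw [part hW (hh.upd ha) hE]
  rfl

private theorem exch_aux (hW : Wlaw μ W) (hC : AllC θ c H P h₀ Q Q' X A B) {m : ℕ} {h : ℕ → ℕ}
    (hh : Good m h) {zu zv : ℕ → ℕ → ℝ}
    (hzu : ∀ a ∈ Icc 1 m, ∀ b ∈ Icc 1 (m + 1), zu a b * μ.real (cyl W (m + 2) (hab h m a b)) =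
      μ.real (Z0 W (m + 1) ∩ cyl W (m + 2) (hab h m a b)))
    (hzv : ∀ a ∈ Icc 1 m, ∀ b ∈ Icc 1 (m + 1), zv a b * μ.real (cyl W (m + 2) (hab h m a b)) =
      μ.real (Z0 W (m + 2) ∩ cyl W (m + 2) (hab h m a b))) :
    0 ≤ ∑ a ∈ Icc 1 m, ∑ b ∈ Icc 1 (m + 1),
      q (tr h m) m a * q (att (tr h m) m a) (m + 1) b * (zv a b - zu a b) := by
  have hN : Ok m (tr h m) := hh.ok
  have hm2 : 2 ≤ m := hN.two
  have hpos : ∀ a ∈ Icc 1 m, ∀ b ∈ Icc 1 (m + 1), 0 < μ.real (cyl W (m + 2) (hab h m a b)) :=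
    fun a ha b hb => cyl_pos hW (good_hab hh ha hb)
  have hIcc : ∀ b, b ∈ Icc 1 m → b ∈ Icc 1 (m + 1) := fun b hb => by
    rw [mem_Icc] at hb ⊢; omega
  have hs : ∀ a ∈ Icc 1 m, ∀ b ∈ Icc 1 m, zu a b = zv b a := by
    intro a ha b hb
    have h1 := relab hW (rel_swap hh ha hb) (m + 1)
    rw [Equiv.swap_apply_left] at h1
    rw [← hzu a ha b (hIcc b hb), ← hzv b hb a (hIcc a ha)] at h1
    have p1 := hpos a ha b (hIcc b hb)
    have p2 := hpos b hb a (hIcc a ha)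
    have h2 : (zu a b - zv b a) * (μ.real (cyl W (m + 2) (hab h m a b)) *
        μ.real (cyl W (m + 2) (hab h m b a))) = 0 := by
      linear_combination h1
    rcases mul_eq_zero.1 h2 with h3 | h3
    · linarith
    · exact absurd h3 (by positivity)
  rw [exch_alg hN hs]
  have hm0 : (0 : ℝ) < m := by exact_mod_cast (by omega : 0 < m)
  refine mul_nonneg (by positivity) ?_
  refine edge_nonneg hN (lam := lamC P Q X A) (U := UC Q Q') (V := VC B) ?_ hC.C
    (D := fun a => zv a (m + 1) - zu a (m + 1)) ?_ (δ := fun a b => zv a b - zu a b) ?_ ?_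
  · intro j
    have := hC.U.B1 (j + 1)
    unfold VC
    linarith
  · intro a ha
    have hb : m + 1 ∈ Icc 1 (m + 1) := by rw [mem_Icc]; omega
    have hg := good_hab hh ha hb
    have htr : tr (hab h m a (m + 1)) (m + 2) = T1 (tr h m) m a := tr_hab hm2 a (m + 1)
    obtain ⟨t1, t2, t3, t4⟩ := T1_mem hN ha
    have hca : 1 ≤ (tr h m a).card := card_pos.2 (hN.ne a ha)
    have hp := hpos a ha _ hb
    have e1 : Q 2 0 + X 2 0 / (((tr h m a).card : ℝ) + 1) ≤ zv a (m + 1) := by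
      have h1 := low_Yx hW hC.L0 hC.L1 hC.L2 hg (y := m + 2) (x := m + 1) (a := a)
        (by rw [htr]; exact t1) (by rw [htr]; exact t2)
        (by rw [mem_Icc] at ha; omega) (by rw [htr, t3]; omega)
      rw [htr, T1_Yx hN ha, ← hzv a ha _ hb] at h1
      exact le_of_mul_le_mul_right h1 hp
    have e2 : zu a (m + 1) ≤ A ((tr h m a).card + 1) * P 1 0 := by
      have h1 := up_Phi hW hC.U hg (x := m + 1) (a := a)
        (by rw [htr]; exact t2) (by rw [htr, t3, t4]; omega)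
      rw [htr, T1_Phi hN ha, ← hzu a ha _ hb] at h1
      exact le_of_mul_le_mul_right h1 hp
    show lamC P Q X A (tr h m a).card ≤ zv a (m + 1) - zu a (m + 1)
    unfold lamC
    linarith
  · intro a b hb
    have hb' : b ∈ Icc 1 m := hN.sub a hb
    have ha' : a ∈ Icc 1 m := hN.sub b (hN.symm hb)
    have h1 := hs a ha' b hb'
    have h2 := hs b hb' a ha'
    show zv b a - zu b a = -(zv a b - zu a b)
    linarith
  · intro a b hb
    have hb' : b ∈ Icc 1 m := hN.sub a hb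
    have ha : a ∈ Icc 1 m := hN.sub b (hN.symm hb)
    have hb1 := hIcc b hb'
    have hg := good_hab hh ha hb1
    have htr : tr (hab h m a b) (m + 2) = T2 (tr h m) m a b := tr_hab hm2 a b
    obtain ⟨t1, t2, t3, t4⟩ := T2_mem hN hb
    have hcb : 1 ≤ (tr h m b).card := card_pos.2 (hN.ne b hb')
    have hp := hpos a ha _ hb1
    have e1 : zv a b ≤ B ((tr h m b).card + 1) := by
      have h1 := up_Phi hW hC.U hg (x := m + 2) (a := b)
        (by rw [htr]; exact t2) (by rw [htr, t3, t4]; omega)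
      rw [htr, T2_Phi hN hb, ← hzv a ha _ hb1] at h1
      exact le_of_mul_le_mul_right h1 hp
    have e2 : ∀ R : ℕ → ℕ → ℝ, Low1 h₀ R → (∀ d L, L + 2 ≤ d → R d 0 ≤ R d L) →
        R ((tr h m a).card + 1) 0 ≤ zu a b := by
      intro R hR hmR
      have h1 := low_Yf hW hC.L0 hR hg (y := m + 1) (p := a) (by rw [htr]; exact t1)
      obtain ⟨L, hL, hL2⟩ := T2_Yf (h := h₀) (Q := R) hN hb
      rw [htr, hL2, ← hzu a ha _ hb1] at h1
      exact (hmR _ _ hL).trans (le_of_mul_le_mul_right h1 hp)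
    have e3 := max_le (e2 Q hC.L1 hC.mQ) (e2 Q' hC.L1' hC.mQ')
    show zv a b - zu a b ≤ UC Q Q' (tr h m a).card - VC B (tr h m b).card
    unfold UC VC
    linarith

theorem exch (hW : Wlaw μ W) (hC : AllC θ c H P h₀ Q Q' X A B) {m : ℕ} {h : ℕ → ℕ}
    (hh : Good m h) :
    μ.real (Z0 W (m + 1) ∩ cyl W m h) ≤ μ.real (Z0 W (m + 2) ∩ cyl W m h) := by
  have hpos : ∀ a ∈ Icc 1 m, ∀ b ∈ Icc 1 (m + 1), 0 < μ.real (cyl W (m + 2) (hab h m a b)) :=
    fun a ha b hb => cyl_pos hW (good_hab hh ha hb)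
  have hdiv : ∀ v, ∀ a ∈ Icc 1 m, ∀ b ∈ Icc 1 (m + 1),
      μ.real (Z0 W v ∩ cyl W (m + 2) (hab h m a b)) / μ.real (cyl W (m + 2) (hab h m a b)) *
        μ.real (cyl W (m + 2) (hab h m a b)) =
      μ.real (Z0 W v ∩ cyl W (m + 2) (hab h m a b)) := by
    intro v a ha b hb
    exact div_mul_cancel₀ _ (hpos a ha b hb).ne'
  have key := exch_aux hW hC hh
    (zu := fun a b => μ.real (Z0 W (m + 1) ∩ cyl W (m + 2) (hab h m a b)) /
      μ.real (cyl W (m + 2) (hab h m a b)))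
    (zv := fun a b => μ.real (Z0 W (m + 2) ∩ cyl W (m + 2) (hab h m a b)) /
      μ.real (cyl W (m + 2) (hab h m a b)))
    (hdiv (m + 1)) (hdiv (m + 2))
  have hsum : μ.real (Z0 W (m + 2) ∩ cyl W m h) - μ.real (Z0 W (m + 1) ∩ cyl W m h) =
      μ.real (cyl W m h) * ∑ a ∈ Icc 1 m, ∑ b ∈ Icc 1 (m + 1),
        q (tr h m) m a * q (att (tr h m) m a) (m + 1) b *
          (μ.real (Z0 W (m + 2) ∩ cyl W (m + 2) (hab h m a b)) /
              μ.real (cyl W (m + 2) (hab h m a b)) -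
            μ.real (Z0 W (m + 1) ∩ cyl W (m + 2) (hab h m a b)) /
              μ.real (cyl W (m + 2) (hab h m a b))) := by
    rw [part2 hW hh (Z0_meas hW.meas (m + 2)), part2 hW hh (Z0_meas hW.meas (m + 1)),
      ← Finset.sum_sub_distrib, Finset.mul_sum]
    refine Finset.sum_congr rfl fun a ha => ?_
    rw [← Finset.sum_sub_distrib, Finset.mul_sum]
    refine Finset.sum_congr rfl fun b hb => ?_
    rw [← mul_assoc, ← cyl_hab hW hh ha hb]
    have h1 := hdiv (m + 1) a ha b hb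
    have h2 := hdiv (m + 2) a ha b hb
    linear_combination h1 - h2
  have h0 : 0 ≤ μ.real (cyl W m h) := measureReal_nonneg
  have := mul_nonneg h0 key
  rw [← hsum] at this
  linarith

end Pool.Agent.RFT81
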