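import Pool.Agent.RFT81.Gr

/-!
# Existence of the random friend tree

The process is constructed with the Ionescu-Tulcea theorem.
-/

namespace Pool.Agent.RFT81

open Finset MeasureTheory ProbabilityTheory
open scoped ENNReal

/-- the law of the pair `(V n, W n)` given the tree `N` -/
noncomputable def stepLaw (N : Gr) (n : ℕ) : Measure (ℕ × ℕ) :=
  ∑ v ∈ Icc 1 n, ∑ w ∈ N v, ((n : ℝ≥0∞)⁻¹ * ((N v).card : ℝ≥0∞)⁻¹) • Measure.dirac (v, w)

theorem tr_nonempty (h : ℕ → ℕ) (n : ℕ) {v : ℕ} (hv : v ∈ Icc 1 n) : (tr h n v).Nonempty := by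
  induction n with
  | zero => simp at hv
  | succ n ih =>
    rcases n with _ | _ | n
    · have : v = 1 := by
        rw [mem_Icc] at hv
        omega
      subst this
      exact ⟨2, by simp [tr, edge12]⟩
    · have : v = 1 ∨ v = 2 := by
        rw [mem_Icc] at hv
        omega
      rcases this with rfl | rfl
      · exact ⟨2, by simp [tr, edge12]⟩
      · exact ⟨1, by simp [tr, edge12]⟩
    · change (att (tr h (n + 2)) (n + 2) (h (n + 2)) v).Nonempty
      rw [mem_Icc] at hv
      unfold att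
      split_ifs with h1 h2
      · exact ⟨_, mem_singleton_self _⟩
      · exact ⟨_, mem_insert_self _ _⟩
      · exact ih (mem_Icc.2 ⟨hv.1, by omega⟩)

theorem stepLaw_univ {N : Gr} {n : ℕ} (hn : 1 ≤ n) (hN : ∀ v ∈ Icc 1 n, (N v).Nonempty) :
    stepLaw N n Set.univ = 1 := by
  rw [stepLaw]
  simp only [Measure.coe_finsetSum, Measure.coe_smul, Finset.sum_apply, Pi.smul_apply,
    measure_univ, smul_eq_mul, mul_one, sum_const, nsmul_eq_mul]
  have : ∀ v ∈ Icc 1 n, ((N v).card : ℝ≥0∞) * ((n : ℝ≥0∞)⁻¹ * ((N v).card : ℝ≥0∞)⁻¹) =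
      (n : ℝ≥0∞)⁻¹ := by
    intro v hv
    rw [mul_comm, mul_assoc, ENNReal.inv_mul_cancel, mul_one]
    · exact_mod_cast (Finset.card_pos.2 (hN v hv)).ne'
    · exact ENNReal.natCast_ne_top _
  rw [sum_congr rfl this, sum_const, Nat.card_Icc, nsmul_eq_mul, Nat.add_sub_cancel]
  exact ENNReal.mul_inv_cancel (by exact_mod_cast (show n ≠ 0 by omega))
    (ENNReal.natCast_ne_top _)

theorem stepLaw_apply (N : Gr) (n v w : ℕ) :
    stepLaw N n {(v, w)} =
      if v ∈ Icc 1 n ∧ w ∈ N v then (n : ℝ≥0∞)⁻¹ * ((N v).card : ℝ≥0∞)⁻¹ else 0 := by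
  rw [stepLaw]
  simp only [Measure.coe_finsetSum, Measure.coe_smul, Finset.sum_apply, Pi.smul_apply,
    smul_eq_mul, Measure.dirac_apply, Set.indicator_apply, Set.mem_singleton_iff, Prod.mk.injEq,
    Pi.one_apply, mul_ite, mul_one, mul_zero]
  split_ifs with h
  · rw [sum_eq_single v, sum_eq_single w]
    · simp
    · intro b _ hb
      simp [hb]
    · intro h1
      exact absurd h.2 h1
    · intro b _ hb
      apply sum_eq_zero
      intro c _
      simp [hb]
    · intro h1
      exact absurd h.1 h1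
  · apply sum_eq_zero
    intro b hb
    apply sum_eq_zero
    intro c hc
    rw [if_neg]
    rintro ⟨rfl, rfl⟩
    exact h ⟨hb, hc⟩

/-- the history of a finite trajectory -/
def hist {a : ℕ} (f : (i : Iic a) → ℕ × ℕ) (i : ℕ) : ℕ :=
  if h : i ∈ Iic a then (f ⟨i, h⟩).2 else 0

/-- the transition kernels -/
noncomputable def ker (a : ℕ) : Kernel ((i : Iic a) → ℕ × ℕ) (ℕ × ℕ) :=
  Kernel.ofFunOfCountable fun f => stepLaw (tr (hist f) (a + 1)) (a + 1)

theorem ker_apply (a : ℕ) (f : (i : Iic a) → ℕ × ℕ) :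
    ker a f = stepLaw (tr (hist f) (a + 1)) (a + 1) := rfl

instance (a : ℕ) : IsMarkovKernel (ker a) :=
  ⟨fun f => ⟨by
    rw [ker_apply]
    exact stepLaw_univ (by omega) fun v hv => tr_nonempty _ _ hv⟩⟩

/-- the law of the process of the pairs -/
noncomputable def law : Measure (ℕ → ℕ × ℕ) :=
  Kernel.trajMeasure (X := fun _ => ℕ × ℕ) (Measure.dirac (0, 0)) ker

instance : IsProbabilityMeasure law := by
  unfold law
  infer_instance

theorem isRFT_law : IsRFT law (fun n x => (x n).1) (fun n x => (x n).2) where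
  measV n := (measurable_pi_apply n).fst
  measW n := (measurable_pi_apply n).snd
  law n hn h v w := by
    obtain ⟨a, rfl⟩ : ∃ a, n = a + 1 := ⟨n - 1, by omega⟩
    set S : Set ((i : Iic a) → ℕ × ℕ) := {f | ∀ i, 2 ≤ i → i < a + 1 → hist f i = h i} with hS
    have hmS : MeasurableSet S := S.to_countable.measurableSet
    have h1 : {x : ℕ → ℕ × ℕ | (∀ i, 2 ≤ i → i < a + 1 → (x i).2 = h i) ∧
        (x (a + 1)).1 = v ∧ (x (a + 1)).2 = w} =
        (fun x : ℕ → ℕ × ℕ => (Preorder.frestrictLe (π := fun _ => ℕ × ℕ) a x, x (a + 1))) ⁻¹'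
          (S ×ˢ {(v, w)}) := by
      ext x
      simp only [Set.mem_ofPred_eq, Set.mem_preimage, Set.mem_prod, Set.mem_singleton_iff, hS,
        Prod.ext_iff]
      refine and_congr_left fun _ => ?_
      refine forall_congr' fun i => forall_congr' fun _ => forall_congr' fun hi => ?_
      rw [hist, dif_pos (by simp; omega)]
      rfl
    have h2 : {x : ℕ → ℕ × ℕ | ∀ i, 2 ≤ i → i < a + 1 → (x i).2 = h i} =
        Preorder.frestrictLe (π := fun _ => ℕ × ℕ) a ⁻¹' S := by
      ext x
      simp only [Set.mem_ofPred_eq, Set.mem_preimage, hS]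
      refine forall_congr' fun i => forall_congr' fun _ => forall_congr' fun hi => ?_
      rw [hist, dif_pos (by simp; omega)]
      rfl
    have h3 := Kernel.map_frestrictLe_trajMeasure_compProd_eq_map_trajMeasure
      (X := fun _ => ℕ × ℕ) (μ₀ := Measure.dirac (0, 0)) (κ := ker) (a := a)
    rw [h1, h2]
    have hm1 : Measurable (fun x : ℕ → ℕ × ℕ =>
        (Preorder.frestrictLe (π := fun _ => ℕ × ℕ) a x, x (a + 1))) := by fun_prop
    have hm2 : Measurable (Preorder.frestrictLe (π := fun _ => ℕ × ℕ) a) := by fun_prop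
    rw [← Measure.map_apply hm1 (hmS.prod (measurableSet_singleton _)), law, ← h3,
      Measure.compProd_apply_prod hmS (measurableSet_singleton _), ← Measure.map_apply hm2 hmS]
    rw [setLIntegral_congr_fun (g := fun _ => if v ∈ Icc 1 (a + 1) ∧ w ∈ tr h (a + 1) v then
      ((a + 1 : ℕ) : ℝ≥0∞)⁻¹ * ((tr h (a + 1) v).card : ℝ≥0∞)⁻¹ else 0) hmS ?_]
    · rw [setLIntegral_const, mul_comm]
    · intro f hf
      change ker a f {(v, w)} = _
      rw [ker_apply, stepLaw_apply]
      have : tr (hist f) (a + 1) = tr h (a + 1) := tr_congr hf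
      rw [this]

end Pool.Agent.RFT81
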