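import Pool.Agent.RFT81.Exch

/-!
# [RFT-Fin] Monotonicity for consecutive vertices

Paper proof.  `lift`: downward induction on `n` with `part`.
`two_three`: by `part` (twice: `cyl W 2 h = univ`), for `W 2 = 1` use `swap_two_three`.  If `W 2 = 2`
then `T_3` is the path `1, 2, 3`; `up_Phi` with `x = 2`, `a = 1` gives the bound
`A 1 * P 1 0 ≤ P 1 0` and `low_Yf` with `y = 3`, `p = 2` gives `Q 2 1 ≥ P 1 0`.
`mono_succ`: `u = 1`: `swap_one_two`; `u = 2`: `two_three`; `u ≥ 3`: `exch` with `m = u - 1` and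
`lift`, `cyl_two`.
-/

namespace Pool.Agent.RFT81

open Finset MeasureTheory

variable {Ω : Type*} [MeasurableSpace Ω] {μ : Measure Ω} [IsProbabilityMeasure μ] {W : ℕ → Ω → ℕ}
variable {θ c : ℝ} {H P h₀ Q Q' X : ℕ → ℕ → ℝ} {A B : ℕ → ℝ}

private theorem good_two (h : ℕ → ℕ) : Good 2 h :=
  ⟨le_rfl, fun _ h1 h2 => absurd (lt_of_le_of_lt h1 h2) (lt_irrefl 2)⟩

private theorem N_path {h : ℕ → ℕ} (h2 : h 2 = 2) :
    tr h 3 1 = {2} ∧ tr h 3 2 = {3, 1} ∧ tr h 3 3 = {2} := by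
  have e : tr h 3 = att edge12 2 (h 2) := rfl
  rw [e, h2]
  refine ⟨?_, ?_, ?_⟩ <;> simp [att, edge12]

theorem lift (hW : Wlaw μ W) {E F : Set Ω} (hE : MeasurableSet E) (hF : MeasurableSet F) {m : ℕ}
    (hm : 2 ≤ m)
    (H : ∀ h, Good m h → μ.real (E ∩ cyl W m h) ≤ μ.real (F ∩ cyl W m h)) :
    μ.real E ≤ μ.real F := by
  have key : ∀ k n : ℕ, 2 ≤ n → n + k = m → ∀ h, Good n h →
      μ.real (E ∩ cyl W n h) ≤ μ.real (F ∩ cyl W n h) := by
    intro k
    induction k with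
    | zero =>
      intro n _ hnm h hh
      have hnm' : n = m := by omega
      subst hnm'
      exact H h hh
    | succ k ih =>
      intro n hn hnm h hh
      rw [part hW hh hE, part hW hh hF]
      apply Finset.sum_le_sum
      intro w hw
      exact ih (n + 1) (by omega) (by omega) _ (hh.upd hw)
  have hg : Good 2 (fun _ => 1) := good_two _
  have h2 := key (m - 2) 2 le_rfl (by omega) (fun _ => 1) hg
  rw [cyl_two, Set.inter_univ, Set.inter_univ] at h2
  exact h2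

private theorem two_three_path (hW : Wlaw μ W) (hC : AllC θ c H P h₀ Q Q' X A B) {h : ℕ → ℕ}
    (hh : Good 3 h) (h2 : h 2 = 2) :
    μ.real (Z0 W 2 ∩ cyl W 3 h) ≤ μ.real (Z0 W 3 ∩ cyl W 3 h) := by
  obtain ⟨e1, e2, e3⟩ := N_path h2
  have c1 : (tr h 3 1).card = 1 := by rw [e1]; rfl
  have c2 : (tr h 3 2).card = 2 := by rw [e2]; rfl
  have c3 : (tr h 3 3).card = 1 := by rw [e3]; rfl
  have hup := up_Phi hW hC.U hh (x := 2) (a := 1) (by rw [e2]; simp) (by rw [c1, c2])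
  have hlow := low_Yf hW hC.L0 hC.L1 hh (y := 3) (p := 2) (by rw [e3]; simp)
  have l3 : lf (tr h 3) 3 2 = 0 := by
    unfold lf lfs
    rw [e3, Finset.card_eq_zero, Finset.filter_eq_empty_iff]
    intro v hv
    rw [Finset.mem_singleton] at hv
    subst hv
    simp
  have l2 : lf (tr h 3) 2 3 = 1 := by
    unfold lf lfs
    have : ((tr h 3 2).filter fun v => v ≠ 3 ∧ (tr h 3 v).card = 1) = {1} := by
      rw [e2]
      ext v
      simp only [Finset.mem_filter, Finset.mem_insert, Finset.mem_singleton]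
      constructor
      · rintro ⟨h1 | h1, h3, _⟩
        · exact absurd h1 h3
        · exact h1
      · intro hv
        subst hv
        exact ⟨Or.inr rfl, by norm_num, c1⟩
    rw [this]; rfl
  have vup : Phi H P A B 2 1 (tr h 3) = A 1 * P 1 0 := by
    unfold Phi
    have he : (tr h 3 2).erase 1 = {3} := by
      rw [e2]; rfl
    rw [if_neg (by rw [c2]; norm_num), if_pos c2, he, Finset.prod_singleton, c1, c3, l3]
  have vlow : Yf h₀ Q 3 2 (tr h 3) = Q 2 1 := by
    unfold Yf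
    rw [if_pos c3, c2, l2]
  rw [vup] at hup
  rw [vlow] at hlow
  have hP : 0 ≤ P 1 0 := le_trans (hC.U.H0 1 0) (hC.U.HP 1 0 (by norm_num))
  have hAP : A 1 * P 1 0 ≤ Q 2 1 :=
    le_trans (mul_le_of_le_one_left hP (hC.U.A1 1)) hC.s
  calc μ.real (Z0 W 2 ∩ cyl W 3 h) ≤ A 1 * P 1 0 * μ.real (cyl W 3 h) := hup
    _ ≤ Q 2 1 * μ.real (cyl W 3 h) := mul_le_mul_of_nonneg_right hAP measureReal_nonneg
    _ ≤ _ := hlow

theorem two_three (hW : Wlaw μ W) (hC : AllC θ c H P h₀ Q Q' X A B) :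
    μ.real (Z0 W 2) ≤ μ.real (Z0 W 3) := by
  have hg : Good 2 (fun _ => 1) := good_two _
  have m2 := Z0_meas hW.meas 2
  have m3 := Z0_meas hW.meas 3
  have p2 := part hW hg m2
  have p3 := part hW hg m3
  rw [cyl_two, Set.inter_univ] at p2 p3
  rw [p2, p3]
  apply Finset.sum_le_sum
  intro w hw
  have hw' : w = 1 ∨ w = 2 := by
    rw [Finset.mem_Icc] at hw
    omega
  rcases hw' with rfl | rfl
  · exact le_of_eq (swap_two_three hW (by simp))
  · exact two_three_path hW hC (hg.upd (by simp)) (by simp)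

theorem mono_succ (hW : Wlaw μ W) (hC : AllC θ c H P h₀ Q Q' X A B) {u : ℕ} (hu : 1 ≤ u) :
    μ.real (Z0 W u) ≤ μ.real (Z0 W (u + 1)) := by
  have hu' : u = 1 ∨ u = 2 ∨ 3 ≤ u := by omega
  rcases hu' with rfl | rfl | h3
  · exact le_of_eq (swap_one_two hW)
  · exact two_three hW hC
  · obtain ⟨m, rfl⟩ : ∃ m, u = m + 1 := ⟨u - 1, by omega⟩
    exact lift hW (Z0_meas hW.meas _) (Z0_meas hW.meas _) (m := m) (by omega)
      (fun h hh => exch hW hC hh)

end Pool.Agent.RFT81
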