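import Pool.Agent.RFT81.Gr

/-!
# [RFT-Gen] The total weight

`∑ w, sr N w = ∑ w, ∑ x ∈ N w, 1 / |N x| = ∑ x, ∑ w ∈ N x, 1 / |N x| = n`, by symmetry and since
there are no isolated vertices.
-/

namespace Pool.Agent.RFT81

open Finset

theorem sum_sr {n : ℕ} {N : Gr} (hN : Ok n N) : ∑ w ∈ Icc 1 n, sr N w = n := by
  unfold sr
  have hsw : ∑ w ∈ Icc 1 n, ∑ x ∈ N w, ((N x).card : ℝ)⁻¹ =
      ∑ x ∈ Icc 1 n, ∑ _w ∈ N x, ((N x).card : ℝ)⁻¹ := by
    refine Finset.sum_comm' ?_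
    intro x y
    constructor
    · rintro ⟨_, hy⟩
      exact ⟨hN.symm hy, hN.sub _ hy⟩
    · rintro ⟨hx, _⟩
      exact ⟨hN.sub _ hx, hN.symm hx⟩
  rw [hsw]
  have hone : ∀ x ∈ Icc 1 n, ∑ _w ∈ N x, ((N x).card : ℝ)⁻¹ = 1 := by
    intro x hx
    rw [Finset.sum_const, nsmul_eq_mul]
    have hc : ((N x).card : ℝ) ≠ 0 := by
      have := (hN.ne x hx).card_pos
      positivity
    exact mul_inv_cancel₀ hc
  rw [Finset.sum_congr rfl hone, Finset.sum_const, nsmul_eq_mul, Nat.card_Icc]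
  simp

theorem sr_pos {n : ℕ} {N : Gr} (hN : Ok n N) {w : ℕ} (hw : w ∈ Icc 1 n) : 0 < sr N w := by
  unfold sr
  refine Finset.sum_pos ?_ (hN.ne w hw)
  intro x hx
  have := (hN.ne x (hN.sub _ hx)).card_pos
  positivity

theorem sr_nonneg (N : Gr) (w : ℕ) : 0 ≤ sr N w := by
  unfold sr
  exact Finset.sum_nonneg fun x _ => by positivity

theorem sum_q {n : ℕ} {N : Gr} (hN : Ok n N) : ∑ w ∈ Icc 1 n, q N n w = 1 := by
  unfold q
  rw [← Finset.sum_div, sum_sr hN]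
  have h2 := hN.two
  have : (n : ℝ) ≠ 0 := by positivity
  exact div_self this

theorem q_pos {n : ℕ} {N : Gr} (hN : Ok n N) {w : ℕ} (hw : w ∈ Icc 1 n) : 0 < q N n w := by
  unfold q
  have h2 := hN.two
  have hn : (0 : ℝ) < n := by positivity
  exact div_pos (sr_pos hN hw) hn

theorem sum_q_mul {n : ℕ} {N : Gr} (hN : Ok n N) (f : Gr → ℝ) :
    ∑ w ∈ Icc 1 n, q N n w * f (att N n w) = f N + gen f N n / n := by
  have h1 : f N = ∑ w ∈ Icc 1 n, q N n w * f N := by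
    rw [← Finset.sum_mul, sum_q hN, one_mul]
  have h2 : gen f N n / n = ∑ w ∈ Icc 1 n, q N n w * (f (att N n w) - f N) := by
    unfold gen q
    rw [Finset.sum_div]
    refine Finset.sum_congr rfl fun w _ => ?_
    ring
  calc ∑ w ∈ Icc 1 n, q N n w * f (att N n w)
      = ∑ w ∈ Icc 1 n, q N n w * f N + ∑ w ∈ Icc 1 n, q N n w * (f (att N n w) - f N) := by
        rw [← Finset.sum_add_distrib]
        refine Finset.sum_congr rfl fun w _ => ?_
        ring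
    _ = f N + gen f N n / n := by rw [← h1, ← h2]

end Pool.Agent.RFT81
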