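import Pool.Agent.RFT81.Defs

/-!
# [RFT-Gr] Basic facts about the trees

Everything here is a direct unfolding of `tr`, `att`, `Ok`, `Good`, `cyl`.  `Ok.att`: the new vertex
`n + 1` is adjacent only to `w`, and `w` only gets the new neighbour `n + 1`.
-/

namespace Pool.Agent.RFT81

open Finset MeasureTheory

theorem tr_two (h : ℕ → ℕ) : tr h 2 = edge12 := rfl

theorem tr_succ {n : ℕ} (hn : 2 ≤ n) (h : ℕ → ℕ) : tr h (n + 1) = att (tr h n) n (h n) := by
  obtain ⟨k, rfl⟩ := Nat.exists_eq_add_of_le hn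
  rw [Nat.add_comm 2 k]
  rfl

theorem tr_congr {n : ℕ} {h h' : ℕ → ℕ} (H : ∀ i, 2 ≤ i → i < n → h i = h' i) :
    tr h n = tr h' n := by
  induction n with
  | zero => rfl
  | succ n ih =>
    by_cases hn : 2 ≤ n
    · rw [tr_succ hn, tr_succ hn, ih fun i hi hin => H i hi (by omega), H n hn (by omega)]
    · have hn' : n = 0 ∨ n = 1 := by omega
      rcases hn' with rfl | rfl <;> rfl

private theorem tr_update_aux {n m : ℕ} (hm : m ≤ n) (h : ℕ → ℕ) (w : ℕ) :
    tr (Function.update h n w) m = tr h m :=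
  tr_congr fun i _ hi => Function.update_of_ne (by omega) _ _

theorem tr_update {n : ℕ} (hn : 2 ≤ n) (h : ℕ → ℕ) (w : ℕ) :
    tr (Function.update h n w) (n + 1) = att (tr h n) n w := by
  rw [tr_succ hn, Function.update_self, tr_update_aux le_rfl]

theorem tr_update_le {n m : ℕ} (hm : m ≤ n) (h : ℕ → ℕ) (w : ℕ) :
    tr (Function.update h n w) m = tr h m :=
  tr_update_aux hm h w

private theorem mem_edge {u v : ℕ} : u ∈ edge12 v ↔ (v = 1 ∧ u = 2) ∨ (v = 2 ∧ u = 1) := by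
  unfold edge12
  by_cases h1 : v = 1
  · subst h1; simp
  · by_cases h2 : v = 2
    · subst h2; simp
    · simp [h1, h2]

private theorem mem_att {N : Gr} {n w u v : ℕ} :
    u ∈ att N n w v ↔
      (v = n + 1 ∧ u = w) ∨ (v ≠ n + 1 ∧ v = w ∧ u = n + 1) ∨ (v ≠ n + 1 ∧ u ∈ N v) := by
  unfold att
  by_cases h1 : v = n + 1
  · subst h1; simp
  · by_cases h2 : v = w
    · subst h2; simp [h1]
    · simp [h1, h2]

theorem ok_edge12 : Ok 2 edge12 where
  two := le_rfl
  sub v u hu := by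
    rw [mem_edge] at hu
    rw [mem_Icc]
    omega
  out v hv := by
    rw [mem_Icc] at hv
    rw [Finset.eq_empty_iff_forall_notMem]
    intro u hu
    rw [mem_edge] at hu
    omega
  symm {u v} h := by
    rw [mem_edge] at h ⊢
    omega
  irr v h := by
    rw [mem_edge] at h
    omega
  ne v hv := by
    rw [mem_Icc] at hv
    refine ⟨3 - v, ?_⟩
    rw [mem_edge]
    omega

theorem Ok.att {n : ℕ} {N : Gr} (hN : Ok n N) {w : ℕ} (hw : w ∈ Icc 1 n) :
    Ok (n + 1) (att N n w) where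
  two := by have := hN.two; omega
  sub v u hu := by
    rw [mem_att] at hu
    rw [mem_Icc] at hw ⊢
    rcases hu with ⟨_, h⟩ | ⟨_, _, h⟩ | ⟨_, h⟩
    · omega
    · omega
    · have := mem_Icc.1 (hN.sub v h)
      omega
  out v hv := by
    rw [mem_Icc] at hv hw
    rw [Finset.eq_empty_iff_forall_notMem]
    intro u hu
    rw [mem_att] at hu
    rcases hu with ⟨h, _⟩ | ⟨_, h, _⟩ | ⟨_, h⟩
    · omega
    · omega
    · rw [hN.out v (by rw [mem_Icc]; omega)] at h
      simp at h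
  symm {u v} h := by
    rw [mem_Icc] at hw
    have hu : ∀ {u v : ℕ}, u ∈ N v → u ≠ n + 1 := by
      intro u v h he
      have := mem_Icc.1 (hN.sub v h)
      omega
    rw [mem_att] at h ⊢
    rcases h with ⟨h1, h2⟩ | ⟨h1, h2, h3⟩ | ⟨h1, h2⟩
    · refine Or.inr (Or.inl ⟨by omega, h2, h1⟩)
    · exact Or.inl ⟨h3, h2⟩
    · exact Or.inr (Or.inr ⟨hu h2, hN.symm h2⟩)
  irr v h := by
    rw [mem_Icc] at hw
    rw [mem_att] at h
    rcases h with ⟨h1, h2⟩ | ⟨h1, h2, h3⟩ | ⟨h1, h2⟩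
    · omega
    · omega
    · exact hN.irr v h2
  ne v hv := by
    rw [mem_Icc] at hv
    by_cases h : v = n + 1
    · exact ⟨w, mem_att.2 (Or.inl ⟨h, rfl⟩)⟩
    · obtain ⟨u, hu⟩ := hN.ne v (mem_Icc.2 (by omega))
      exact ⟨u, mem_att.2 (Or.inr (Or.inr ⟨h, hu⟩))⟩

theorem Good.ok {n : ℕ} {h : ℕ → ℕ} (hh : Good n h) : Ok n (tr h n) := by
  induction n with
  | zero => exact absurd hh.1 (by omega)
  | succ n ih =>
    by_cases hn : 2 ≤ n
    · rw [tr_succ hn]
      exact (ih ⟨hn, fun i hi hin => hh.2 i hi (by omega)⟩).att (hh.2 n hn (by omega))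
    · have hn' : n = 1 := by have := hh.1; omega
      subst hn'
      exact ok_edge12

theorem Good.upd {n : ℕ} {h : ℕ → ℕ} (hh : Good n h) {w : ℕ} (hw : w ∈ Icc 1 n) :
    Good (n + 1) (Function.update h n w) := by
  refine ⟨by have := hh.1; omega, fun i hi hin => ?_⟩
  by_cases he : i = n
  · subst he
    rwa [Function.update_self]
  · rw [Function.update_of_ne he]
    exact hh.2 i hi (by omega)

theorem cyl_two {Ω : Type*} (W : ℕ → Ω → ℕ) (h : ℕ → ℕ) : cyl W 2 h = Set.univ := by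
  ext ω
  simp only [cyl, Set.mem_ofPred_eq, Set.mem_univ, iff_true]
  intro i hi hi2
  omega

theorem cyl_upd {Ω : Type*} (W : ℕ → Ω → ℕ) {n : ℕ} (hn : 2 ≤ n) (h : ℕ → ℕ) (w : ℕ) :
    cyl W (n + 1) (Function.update h n w) = cyl W n h ∩ {ω | W n ω = w} := by
  ext ω
  simp only [cyl, Set.mem_ofPred_eq, Set.mem_inter_iff]
  constructor
  · intro H
    refine ⟨fun i hi hin => ?_, ?_⟩
    · rw [H i hi (by omega), Function.update_of_ne (by omega)]
    · rw [H n hn (by omega), Function.update_self]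
  · rintro ⟨H, Hn⟩ i hi hin
    by_cases he : i = n
    · subst he
      rw [Hn, Function.update_self]
    · rw [H i hi (by omega), Function.update_of_ne he]

/-- on the event `cyl W n h` the tree `T_m` is `tr h m`, for `m ≤ n` -/
theorem tr_of_cyl {Ω : Type*} {W : ℕ → Ω → ℕ} {n m : ℕ} {h : ℕ → ℕ} {ω : Ω} (hω : ω ∈ cyl W n h)
    (hm : m ≤ n) : tr (fun i => W i ω) m = tr h m :=
  tr_congr fun i hi him => hω i hi (by omega)

end Pool.Agent.RFT81
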