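import Pool.Agent.RFT81.AllC

/-!
# [RFT-Harm] A lower function for large degrees

`Q' d L = max 0 (1 - (3/2 + H_d - H_L) / d)` for `L + 1 ≤ d`, with the harmonic numbers `H_n`.

Paper proof of `ineq` (where `Q' d L > 0`; otherwise it is trivial, all terms are `≥ 0`).  Let
`M = L + 1`, `S = 3/2 + H_d - H_L ≥ 3/2`, `ε = S / d`.  Then
`ε (d+1) (L+1) = (S + 1/(d+1) - 1/M) / (d+1)` and `ε d (L-1) = (S + 1/L) / d`, so (dropping the reward,
which is `≥ 0`, and the maxima, which only help: `Q' ≥ 1 - ε` everywhere) the expression is at least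
`S (M/(d(d+1)) + 1/d^2) - 1/(d(d+1)) - M/(d+1)^2 - 1/d^2`, and this is `≥ 0` for `S ≥ 3/2`,
`M ≥ 1`, `d ≥ 1`, since
`3/2 (M d (d+1) + (d+1)^2) ≥ d (d+1) + M d^2 + (d+1)^2`.
-/

namespace Pool.Agent.RFT81

/-- lower function with harmonic numbers -/
noncomputable def Qh (d L : ℕ) : ℝ :=
  if L + 1 ≤ d then max 0 (1 - (3 / 2 + (harmonic d : ℝ) - (harmonic L : ℝ)) / d) else 0

/-- the harmonic numbers as real numbers -/
private noncomputable def hr (n : ℕ) : ℝ := (harmonic n : ℝ)

private theorem hr_succ (n : ℕ) : hr (n + 1) = hr n + 1 / ((n : ℝ) + 1) := by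
  unfold hr
  rw [harmonic_succ]
  push_cast
  ring

private theorem hr_mono {m n : ℕ} (h : m ≤ n) : hr m ≤ hr n := by
  induction n, h using Nat.le_induction with
  | base => exact le_rfl
  | succ n _ ih =>
    rw [hr_succ]
    have : (0 : ℝ) < (n : ℝ) + 1 := by positivity
    have h1 : 0 < 1 / ((n : ℝ) + 1) := by positivity
    linarith

private theorem Qh_eq {d L : ℕ} (h : L + 1 ≤ d) :
    Qh d L = max 0 (1 - (3 / 2 + hr d - hr L) / d) := by
  unfold Qh hr
  rw [if_pos h]

private theorem Qh_nonneg (d L : ℕ) : 0 ≤ Qh d L := by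
  unfold Qh
  split_ifs
  · exact le_max_left _ _
  · exact le_rfl

private theorem Qh_lower {d L : ℕ} (h : L + 1 ≤ d) :
    1 - (3 / 2 + hr d - hr L) / d ≤ Qh d L := by
  rw [Qh_eq h]
  exact le_max_right _ _

theorem low1_Qh {h : ℕ → ℕ → ℝ} (h0 : Low0 h) : Low1 h Qh := by
  refine ⟨Qh_nonneg, ?_, ?_, ?_⟩
  · intro k l
    by_cases hl : l + 1 ≤ k
    · rw [Qh_eq hl]
      refine max_le zero_le_one ?_
      have h1 := hr_mono (show l ≤ k by omega)
      have h2 : 0 ≤ (3 / 2 + hr k - hr l) / k := by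
        apply div_nonneg _ (Nat.cast_nonneg _)
        linarith
      linarith
    · unfold Qh
      rw [if_neg hl]
      exact zero_le_one
  · intro k l hl
    rw [Qh_eq hl, Qh_eq (show l + 1 + 1 ≤ k + 1 by omega)]
    refine max_le_max le_rfl ?_
    have hk : (0 : ℝ) < k := by
      have : 0 < k := by omega
      exact_mod_cast this
    have hlk : (l : ℝ) + 1 ≤ k := by exact_mod_cast hl
    have hl0 : (0 : ℝ) ≤ l := Nat.cast_nonneg _
    have h1 := hr_mono (show l ≤ k by omega)
    have h2 : 1 / ((k : ℝ) + 1) ≤ 1 / ((l : ℝ) + 1) :=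
      one_div_le_one_div_of_le (by linarith) (by linarith)
    have h3 : (3 / 2 + hr (k + 1) - hr (l + 1)) / ((k : ℝ) + 1) ≤
        (3 / 2 + hr k - hr l) / k := by
      rw [hr_succ, hr_succ]
      refine div_le_div₀ ?_ ?_ hk (by linarith)
      · linarith
      · linarith
    push_cast
    linarith
  · intro k l hl
    have hk : (0 : ℝ) < k := by
      have : 0 < k := by omega
      exact_mod_cast this
    have hlk : (l : ℝ) + 1 ≤ k := by exact_mod_cast hl
    have hl0 : (0 : ℝ) ≤ l := Nat.cast_nonneg _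
    have hh : 0 ≤ h k l * h 1 0 := mul_nonneg (h0.nonneg _ _) (h0.nonneg _ _)
    have q1 := Qh_nonneg (k + 1) (l + 1)
    have q2 := Qh_nonneg k (l - 1)
    by_cases hpos : 0 < Qh k l
    · have hQ : Qh k l = 1 - (3 / 2 + hr k - hr l) / k := by
        rw [Qh_eq hl] at hpos ⊢
        rcases le_total (1 - (3 / 2 + hr k - hr l) / k) 0 with h1 | h1
        · rw [max_eq_left h1] at hpos
          exact absurd hpos (lt_irrefl _)
        · exact max_eq_right h1
      obtain ⟨S, hS⟩ : ∃ S : ℝ, S = 3 / 2 + hr k - hr l := ⟨_, rfl⟩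
      have hS1 : 3 / 2 ≤ S := by
        have := hr_mono (show l ≤ k by omega)
        rw [hS]
        linarith
      have e1 := Qh_lower (show l + 1 + 1 ≤ k + 1 by omega)
      rw [hr_succ, hr_succ] at e1
      push_cast at e1
      have e1' : 1 - (S + 1 / ((k : ℝ) + 1) - 1 / ((l : ℝ) + 1)) / ((k : ℝ) + 1) ≤
          Qh (k + 1) (l + 1) := by
        rw [hS]
        refine le_trans (le_of_eq ?_) e1
        ring
      have e2 : (l : ℝ) / k * (Qh k (l - 1) - Qh k l) ≥ - (1 / (k : ℝ) ^ 2) := by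
        rcases Nat.eq_zero_or_pos l with h1 | h1
        · subst h1
          have : (0 : ℝ) ≤ 1 / (k : ℝ) ^ 2 := by positivity
          simp only [Nat.cast_zero, zero_div, zero_mul]
          linarith
        · obtain ⟨m, rfl⟩ : ∃ m, l = m + 1 := ⟨l - 1, by omega⟩
          have e3 := Qh_lower (show m + 1 ≤ k by omega)
          have e4 : m + 1 - 1 = m := by omega
          rw [e4, hQ]
          have e5 : hr (m + 1) = hr m + 1 / ((m : ℝ) + 1) := hr_succ m
          have hm : (0 : ℝ) < (m : ℝ) + 1 := by positivity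
          have e6 : - (1 / (((m : ℝ) + 1) * k)) ≤
              Qh k m - (1 - (3 / 2 + hr k - hr (m + 1)) / k) := by
            rw [e5]
            have e7 : (3 / 2 + hr k - hr m) / k - (3 / 2 + hr k - (hr m + 1 / ((m : ℝ) + 1))) / k
                = 1 / (((m : ℝ) + 1) * k) := by
              field_simp
              ring
            linarith
          have e8 : 0 ≤ ((m : ℝ) + 1) / k := by positivity
          have e9 := mul_le_mul_of_nonneg_left e6 e8
          push_cast
          refine le_trans (le_of_eq ?_) e9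
          field_simp
      have e3 : ((l : ℝ) + 1) * (Qh (k + 1) (l + 1) - Qh k l) ≥
          ((l : ℝ) + 1) * (S / k - (S + 1 / ((k : ℝ) + 1) - 1 / ((l : ℝ) + 1)) / ((k : ℝ) + 1)) := by
        refine mul_le_mul_of_nonneg_left ?_ (by linarith)
        rw [hQ, ← hS]
        linarith
      have e4 : (1 / (k : ℝ)) * (h k l * h 1 0 - Qh k l) ≥ (1 / (k : ℝ)) * (0 - (1 - S / k)) := by
        refine mul_le_mul_of_nonneg_left ?_ (by positivity)
        rw [hQ, ← hS]
        linarith
      have key : 0 ≤ ((l : ℝ) + 1) *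
          (S / k - (S + 1 / ((k : ℝ) + 1) - 1 / ((l : ℝ) + 1)) / ((k : ℝ) + 1)) +
          - (1 / (k : ℝ) ^ 2) + (1 / (k : ℝ)) * (0 - (1 - S / k)) := by
        have hl1 : (0 : ℝ) < (l : ℝ) + 1 := by linarith
        have hk1 : (0 : ℝ) < (k : ℝ) + 1 := by linarith
        have e5 : ((l : ℝ) + 1) *
          (S / k - (S + 1 / ((k : ℝ) + 1) - 1 / ((l : ℝ) + 1)) / ((k : ℝ) + 1)) +
          - (1 / (k : ℝ) ^ 2) + (1 / (k : ℝ)) * (0 - (1 - S / k)) =
            (S * (((l : ℝ) + 1) * k * (k + 1) + (k + 1) ^ 2) - k * (k + 1) -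
              ((l : ℝ) + 1) * k ^ 2 - (k + 1) ^ 2) / ((k : ℝ) ^ 2 * (k + 1) ^ 2) := by
          field_simp
          ring
        rw [e5]
        refine div_nonneg ?_ (by positivity)
        have e6 : 3 / 2 * (((l : ℝ) + 1) * k * (k + 1) + (k + 1) ^ 2) ≤
            S * (((l : ℝ) + 1) * k * (k + 1) + (k + 1) ^ 2) :=
          mul_le_mul_of_nonneg_right hS1 (by positivity)
        nlinarith [mul_nonneg hl0 hk.le, mul_nonneg (mul_nonneg hl0 hk.le) hk.le]
      linarith
    · have h1 : Qh k l = 0 := le_antisymm (not_lt.1 hpos) (Qh_nonneg _ _)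
      rw [h1]
      have t1 : 0 ≤ ((l : ℝ) + 1) * (Qh (k + 1) (l + 1) - 0) := by
        rw [sub_zero]
        positivity
      have t2 : 0 ≤ (l : ℝ) / k * (Qh k (l - 1) - 0) := by
        rw [sub_zero]
        positivity
      have t3 : 0 ≤ (1 / (k : ℝ)) * (h k l * h 1 0 - 0) := by
        rw [sub_zero]
        exact mul_nonneg (by positivity) hh
      linarith

theorem mono_Qh (d L : ℕ) (hL : L + 2 ≤ d) : Qh d 0 ≤ Qh d L := by
  rw [Qh_eq (show 0 + 1 ≤ d by omega), Qh_eq (show L + 1 ≤ d by omega)]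
  refine max_le_max le_rfl ?_
  have h1 := hr_mono (Nat.zero_le L)
  have h2 : (3 / 2 + hr d - hr L) / (d : ℝ) ≤ (3 / 2 + hr d - hr 0) / d :=
    div_le_div_of_nonneg_right (by linarith) (Nat.cast_nonneg _)
  linarith

/-- `U` is small for large `p` -/
theorem Qh_ge {p : ℕ} (hp : 44 ≤ p) : 1 - 1415 / 10000 ≤ Qh (p + 1) 0 := by
  have key : ∀ n : ℕ, 45 ≤ n → 3 / 2 + hr n ≤ 1415 / 10000 * (n : ℝ) := by
    intro n hn
    induction n, hn using Nat.le_induction with
    | base =>
      have h1 : harmonic 45 ≤ 48 / 10 := by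
        simp only [harmonic, Finset.sum_range_succ, Finset.sum_range_zero]
        norm_num
      have h2 : hr 45 ≤ 48 / 10 := by
        unfold hr
        have := (Rat.cast_le (K := ℝ)).2 h1
        push_cast at this
        exact this
      push_cast
      linarith
    | succ n hn ih =>
      rw [hr_succ]
      have hn' : (45 : ℝ) ≤ n := by exact_mod_cast hn
      have h1 : 1 / ((n : ℝ) + 1) ≤ 1 / 46 := one_div_le_one_div_of_le (by norm_num) (by linarith)
      push_cast
      linarith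
  have h1 := key (p + 1) (by omega)
  have h2 := Qh_lower (show 0 + 1 ≤ p + 1 by omega)
  refine le_trans ?_ h2
  have h0 : hr 0 = 0 := by simp [hr]
  rw [h0]
  have h3 : (0 : ℝ) < ((p + 1 : ℕ) : ℝ) := by positivity
  have h4 : (3 / 2 + hr (p + 1) - 0) / ((p + 1 : ℕ) : ℝ) ≤ 1415 / 10000 := by
    rw [div_le_iff₀ h3]
    linarith
  linarith

end Pool.Agent.RFT81
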