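import Pool.Agent.RFT81.Gen

/-!
# [RFT-Law] The law of the attachments

Paper proof of `wlaw`.  The event `cyl W (n+1) (update h n w)` is `cyl W n h ∩ {W n = w}`
(`cyl_upd`).  Sum the law over the values `v` of `V n` (countable disjoint union): only
`v ∈ Icc 1 n` with `w ∈ tr h n v`, i.e. `v ∈ tr h n w`, contribute, each
`μ (cyl W n h) / (n * |tr h n v|)`, and the sum is `μ (cyl W n h) * q (tr h n) n w`.

`part`: the events `W n = w`, `w ∈ Icc 1 n`, have total probability `μ (cyl W n h)` inside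
`cyl W n h` by `sum_q`, so the rest of `cyl W n h` is a null set.
`cyl_pos`: induction on `n` from `cyl W 2 h = univ` and `q_pos` (`Good n h` gives `Good m h` for
`2 ≤ m ≤ n`, and `update h m (h m) = h`).
-/

namespace Pool.Agent.RFT81

open Finset MeasureTheory

variable {Ω : Type*} [MeasurableSpace Ω] {μ : Measure Ω} [IsProbabilityMeasure μ]
  {V W : ℕ → Ω → ℕ}

private theorem cyl_meas_aux (hm : ∀ n, Measurable (W n)) (n : ℕ) (h : ℕ → ℕ) :
    MeasurableSet (cyl W n h) := by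
  have : cyl W n h = ⋂ i : ℕ, ⋂ _ : 2 ≤ i, ⋂ _ : i < n, W i ⁻¹' {h i} := by
    ext ω
    simp [cyl]
  rw [this]
  exact MeasurableSet.iInter fun i => MeasurableSet.iInter fun _ =>
    MeasurableSet.iInter fun _ => hm i (measurableSet_singleton _)

theorem wlaw (hVW : IsRFT μ V W) : Wlaw μ W := by
  refine ⟨hVW.measW, fun n h w hh hw => ?_⟩
  have hN : Ok n (tr h n) := hh.ok
  rw [cyl_upd W hh.1]
  have hU : cyl W n h ∩ {ω | W n ω = w} =
      ⋃ v : ℕ, {ω | (∀ i, 2 ≤ i → i < n → W i ω = h i) ∧ V n ω = v ∧ W n ω = w} := by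
    ext ω
    simp [cyl]
  have hms : ∀ v : ℕ, MeasurableSet
      {ω | (∀ i, 2 ≤ i → i < n → W i ω = h i) ∧ V n ω = v ∧ W n ω = w} := by
    intro v
    have e : {ω | (∀ i, 2 ≤ i → i < n → W i ω = h i) ∧ V n ω = v ∧ W n ω = w} =
        cyl W n h ∩ (V n ⁻¹' {v} ∩ W n ⁻¹' {w}) := by
      ext ω
      simp [cyl]
    rw [e]
    exact (cyl_meas_aux hVW.measW n h).inter
      ((hVW.measV n (measurableSet_singleton _)).inter (hVW.measW n (measurableSet_singleton _)))
  have hdis : Pairwise (Function.onFun Disjoint fun v : ℕ =>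
      {ω | (∀ i, 2 ≤ i → i < n → W i ω = h i) ∧ V n ω = v ∧ W n ω = w}) := by
    intro a b hab
    rw [Function.onFun, Set.disjoint_left]
    rintro ω ⟨_, h1, _⟩ ⟨_, h2, _⟩
    exact hab (h1.symm.trans h2)
  have hsum : μ (cyl W n h ∩ {ω | W n ω = w}) =
      ∑ v ∈ tr h n w, μ (cyl W n h) * ((n : ENNReal)⁻¹ * ((tr h n v).card : ENNReal)⁻¹) := by
    rw [hU, measure_iUnion hdis hms, tsum_eq_sum (s := tr h n w)]
    · refine Finset.sum_congr rfl fun v hv => ?_
      rw [hVW.law n hh.1 h v w, if_pos ⟨hN.sub _ hv, hN.symm hv⟩]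
      rfl
    · intro v hv
      rw [hVW.law n hh.1 h v w, if_neg, mul_zero]
      rintro ⟨_, h2⟩
      exact hv (hN.symm h2)
  have hne : ∀ v ∈ tr h n w,
      μ (cyl W n h) * ((n : ENNReal)⁻¹ * ((tr h n v).card : ENNReal)⁻¹) ≠ ⊤ := by
    intro v hv
    have hc := (hN.ne v (hN.sub _ hv)).card_pos
    have hn := hN.two
    refine ENNReal.mul_ne_top (measure_ne_top _ _) (ENNReal.mul_ne_top ?_ ?_)
    · rw [ENNReal.inv_ne_top]
      exact_mod_cast (by omega : n ≠ 0)
    · rw [ENNReal.inv_ne_top]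
      exact_mod_cast (by omega : (tr h n v).card ≠ 0)
  rw [measureReal_def, hsum, ENNReal.toReal_sum hne]
  unfold q sr
  rw [measureReal_def, Finset.sum_div, Finset.mul_sum]
  refine Finset.sum_congr rfl fun v _ => ?_
  rw [ENNReal.toReal_mul, ENNReal.toReal_mul, ENNReal.toReal_inv, ENNReal.toReal_inv,
    ENNReal.toReal_natCast, ENNReal.toReal_natCast]
  ring

theorem cyl_meas (hW : Wlaw μ W) (n : ℕ) (h : ℕ → ℕ) : MeasurableSet (cyl W n h) :=
  cyl_meas_aux hW.meas n h

theorem cyl_pos (hW : Wlaw μ W) {n : ℕ} {h : ℕ → ℕ} (hh : Good n h) :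
    0 < μ.real (cyl W n h) := by
  have key : ∀ m, 2 ≤ m → m ≤ n → 0 < μ.real (cyl W m h) := by
    intro m hm
    induction m, hm using Nat.le_induction with
    | base =>
      intro _
      rw [cyl_two]
      simp
    | succ m hm ih =>
      intro hmn
      have hg : Good m h := ⟨hm, fun i hi him => hh.2 i hi (by omega)⟩
      have hw : h m ∈ Icc 1 m := hh.2 m hm (by omega)
      have e := hW.law m h (h m) hg hw
      rw [Function.update_eq_self] at e
      rw [e]
      exact mul_pos (ih (by omega)) (q_pos hg.ok hw)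
  exact key n hh.1 le_rfl

theorem part (hW : Wlaw μ W) {n : ℕ} {h : ℕ → ℕ} (hh : Good n h) {E : Set Ω}
    (hE : MeasurableSet E) :
    μ.real (E ∩ cyl W n h) =
      ∑ w ∈ Icc 1 n, μ.real (E ∩ cyl W (n + 1) (Function.update h n w)) := by
  have hdis : ∀ (F : Set Ω), Set.PairwiseDisjoint (↑(Icc 1 n) : Set ℕ)
      (fun w => F ∩ cyl W (n + 1) (Function.update h n w)) := by
    intro F a _ b _ hab
    rw [Function.onFun, Set.disjoint_left]
    rintro ω ⟨_, h1⟩ ⟨_, h2⟩
    rw [cyl_upd W hh.1] at h1 h2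
    exact hab (h1.2.symm.trans h2.2)
  have hms : ∀ (F : Set Ω), MeasurableSet F → ∀ w ∈ Icc 1 n,
      MeasurableSet (F ∩ cyl W (n + 1) (Function.update h n w)) :=
    fun F hF w _ => hF.inter (cyl_meas hW _ _)
  have hS : ∀ (F : Set Ω), MeasurableSet F →
      μ.real (⋃ w ∈ Icc 1 n, F ∩ cyl W (n + 1) (Function.update h n w)) =
      ∑ w ∈ Icc 1 n, μ.real (F ∩ cyl W (n + 1) (Function.update h n w)) := fun F hF =>
    measureReal_biUnion_finset (hdis F) (hms F hF)
  have hfull : μ.real (⋃ w ∈ Icc 1 n, cyl W (n + 1) (Function.update h n w)) =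
      μ.real (cyl W n h) := by
    have h1 := hS Set.univ MeasurableSet.univ
    simp only [Set.univ_inter] at h1
    rw [h1, Finset.sum_congr rfl fun w hw => hW.law n h w hh hw, ← Finset.mul_sum, sum_q hh.ok,
      mul_one]
  have hsub : (⋃ w ∈ Icc 1 n, cyl W (n + 1) (Function.update h n w)) ⊆ cyl W n h := by
    intro ω hω
    simp only [Set.mem_iUnion] at hω
    obtain ⟨w, _, hω⟩ := hω
    rw [cyl_upd W hh.1] at hω
    exact hω.1
  have hUm : MeasurableSet (⋃ w ∈ Icc 1 n, cyl W (n + 1) (Function.update h n w)) :=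
    Finset.measurableSet_biUnion _ fun w _ => cyl_meas hW _ _
  have hnull : μ (cyl W n h \ ⋃ w ∈ Icc 1 n, cyl W (n + 1) (Function.update h n w)) = 0 := by
    have h2 := measureReal_sdiff (μ := μ) hsub hUm
    rw [hfull, sub_self] at h2
    rwa [measureReal_def, ENNReal.toReal_eq_zero_iff, or_iff_left (measure_ne_top _ _)] at h2
  rw [← hS E hE]
  have hsplit : E ∩ cyl W n h =
      (⋃ w ∈ Icc 1 n, E ∩ cyl W (n + 1) (Function.update h n w)) ∪
      (E ∩ (cyl W n h \ ⋃ w ∈ Icc 1 n, cyl W (n + 1) (Function.update h n w))) := by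
    have e1 : (⋃ w ∈ Icc 1 n, E ∩ cyl W (n + 1) (Function.update h n w)) =
        E ∩ ⋃ w ∈ Icc 1 n, cyl W (n + 1) (Function.update h n w) := by
      rw [Set.inter_iUnion₂]
    rw [e1, ← Set.inter_union_distrib_left, Set.union_sdiff_cancel hsub]
  rw [measureReal_def, measureReal_def, hsplit,
    measure_congr (union_ae_eq_left_of_ae_eq_empty
      (ae_eq_empty.mpr (measure_mono_null Set.inter_subset_right hnull)))]

end Pool.Agent.RFT81
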