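import Pool.Agent.RFT81.Gr

/-!
# [RFT-Lf] Degrees and numbers of adjacent leaves after one attachment

`att N n w v` is `N v`, except for `v = w` (one more neighbour, `n + 1`) and `v = n + 1`.  Hence a
vertex `v ≤ n` is a leaf of `att N n w` if and only if it is a leaf of `N` and `v ≠ w`; `n + 1` is a
leaf.  If `w` is a leaf of `N` adjacent to `c`, then `N w = {c}`.
-/

namespace Pool.Agent.RFT81

open Finset

private theorem lfx_notMem {n : ℕ} {N : Gr} (hN : Ok n N) (v : ℕ) : n + 1 ∉ N v := by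
  intro h
  have := hN.sub v h
  simp only [mem_Icc] at this
  omega

private theorem lfx_att_ne {n : ℕ} {N : Gr} {w v : ℕ} (h1 : v ≠ n + 1) (h2 : v ≠ w) :
    att N n w v = N v := by
  unfold att
  rw [if_neg h1, if_neg h2]

private theorem lfx_att_eq {n : ℕ} {N : Gr} {w : ℕ} (h1 : w ≠ n + 1) :
    att N n w w = insert (n + 1) (N w) := by
  unfold att
  rw [if_neg h1, if_pos rfl]

private theorem lfx_mem_ne {n : ℕ} {N : Gr} (hN : Ok n N) {c v : ℕ} (h : v ∈ N c) :
    v ≠ n + 1 ∧ v ≠ c := by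
  refine ⟨?_, ?_⟩
  · rintro rfl
    exact lfx_notMem hN c h
  · rintro rfl
    exact hN.irr _ h

theorem card_att {n : ℕ} {N : Gr} (hN : Ok n N) {w v : ℕ} (hw : w ∈ Icc 1 n) (hv : v ∈ Icc 1 n) :
    (att N n w v).card = (N v).card + if v = w then 1 else 0 := by
  have hv' : v ≠ n + 1 := by
    simp only [mem_Icc] at hv
    omega
  by_cases h : v = w
  · subst h
    rw [lfx_att_eq hv', if_pos rfl, card_insert_of_notMem (lfx_notMem hN v)]
  · rw [lfx_att_ne hv' h, if_neg h, add_zero]

theorem card_att_new (N : Gr) (n w : ℕ) : (att N n w (n + 1)).card = 1 := by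
  unfold att
  rw [if_pos rfl, card_singleton]

/-- attaching to `c` itself -/
theorem lf_att_self {n : ℕ} {N : Gr} (hN : Ok n N) {c e : ℕ} (hc : c ∈ Icc 1 n)
    (he : e ≠ n + 1) : lf (att N n c) c e = lf N c e + 1 := by
  have hc' : c ≠ n + 1 := by
    simp only [mem_Icc] at hc
    omega
  have key : lfs (att N n c) c e = insert (n + 1) (lfs N c e) := by
    unfold lfs
    rw [lfx_att_eq hc']
    ext v
    simp only [mem_filter, mem_insert]
    constructor
    · rintro ⟨h1 | h1, h2, h3⟩
      · exact Or.inl h1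
      · have h4 := lfx_mem_ne hN h1
        rw [lfx_att_ne h4.1 h4.2] at h3
        exact Or.inr ⟨h1, h2, h3⟩
    · rintro (h1 | ⟨h1, h2, h3⟩)
      · subst h1
        exact ⟨Or.inl rfl, fun h => he h.symm, card_att_new N n c⟩
      · have h4 := lfx_mem_ne hN h1
        refine ⟨Or.inr h1, h2, ?_⟩
        rw [lfx_att_ne h4.1 h4.2]
        exact h3
  unfold lf
  rw [key, card_insert_of_notMem]
  intro h
  unfold lfs at h
  exact lfx_notMem hN c (mem_filter.1 h).1

/-- attaching to a leaf adjacent to `c` -/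
theorem lf_att_leaf {n : ℕ} {N : Gr} (hN : Ok n N) {c w e : ℕ} (hc : c ∈ Icc 1 n)
    (hw : w ∈ lfs N c e) : lf (att N n w) c e = lf N c e - 1 := by
  have hc' : c ≠ n + 1 := by
    simp only [mem_Icc] at hc
    omega
  have hw' := hw
  unfold lfs at hw'
  rw [mem_filter] at hw'
  obtain ⟨hw1, hw2, hw3⟩ := hw'
  have hwn := lfx_mem_ne hN hw1
  have key : lfs (att N n w) c e = (lfs N c e).erase w := by
    unfold lfs
    rw [lfx_att_ne hc' hwn.2.symm]
    ext v
    simp only [mem_filter, mem_erase]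
    constructor
    · rintro ⟨h1, h2, h3⟩
      by_cases h : v = w
      · exfalso
        subst h
        rw [lfx_att_eq hwn.1, card_insert_of_notMem (lfx_notMem hN v), hw3] at h3
        omega
      · rw [lfx_att_ne (lfx_mem_ne hN h1).1 h] at h3
        exact ⟨h, h1, h2, h3⟩
    · rintro ⟨h, h1, h2, h3⟩
      refine ⟨h1, h2, ?_⟩
      rw [lfx_att_ne (lfx_mem_ne hN h1).1 h]
      exact h3
  unfold lf
  rw [key, card_erase_of_mem hw]

/-- attaching to any other vertex -/
theorem lf_att_other {n : ℕ} {N : Gr} (hN : Ok n N) {c w e : ℕ} (hc : c ∈ Icc 1 n)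
    (hw : w ∈ Icc 1 n) (hcw : c ≠ w) (hwl : w ∉ lfs N c e) :
    lf (att N n w) c e = lf N c e := by
  have hc' : c ≠ n + 1 := by
    simp only [mem_Icc] at hc
    omega
  have hw' : w ≠ n + 1 := by
    simp only [mem_Icc] at hw
    omega
  have key : lfs (att N n w) c e = lfs N c e := by
    unfold lfs at hwl ⊢
    rw [lfx_att_ne hc' hcw]
    ext v
    simp only [mem_filter]
    by_cases h : v = w
    · subst h
      constructor
      · rintro ⟨h1, h2, h3⟩
        exfalso
        rw [lfx_att_eq hw', card_insert_of_notMem (lfx_notMem hN v)] at h3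
        have h4 := card_pos.2 (hN.ne v hw)
        omega
      · intro h1
        exact absurd (mem_filter.2 h1) hwl
    · constructor
      · rintro ⟨h1, h2, h3⟩
        rw [lfx_att_ne (lfx_mem_ne hN h1).1 h] at h3
        exact ⟨h1, h2, h3⟩
      · rintro ⟨h1, h2, h3⟩
        refine ⟨h1, h2, ?_⟩
        rw [lfx_att_ne (lfx_mem_ne hN h1).1 h]
        exact h3
  unfold lf
  rw [key]

theorem lf_att_new {n : ℕ} {N : Gr} {w : ℕ} : lf (att N n w) (n + 1) w = 0 := by
  unfold lf lfs
  rw [card_eq_zero, filter_eq_empty_iff]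
  intro v hv
  have h1 : att N n w (n + 1) = {w} := by
    unfold att
    rw [if_pos rfl]
  rw [h1, mem_singleton] at hv
  intro h
  exact h.1 hv

/-- a leaf has only one neighbour -/
theorem eq_of_leaf {N : Gr} {v c c' : ℕ} (hv : (N v).card = 1) (hc : c ∈ N v) (hc' : c' ∈ N v) :
    c = c' := by
  obtain ⟨a, ha⟩ := card_eq_one.1 hv
  rw [ha, mem_singleton] at hc hc'
  rw [hc, hc']

theorem sr_leaf {N : Gr} {v c : ℕ} (hv : (N v).card = 1) (hc : c ∈ N v) :
    sr N v = ((N c).card : ℝ)⁻¹ := by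
  obtain ⟨a, ha⟩ := card_eq_one.1 hv
  rw [ha, mem_singleton] at hc
  subst hc
  unfold sr
  rw [ha, sum_singleton]

end Pool.Agent.RFT81
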