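import Pool.Agent.RFT81.Lf

/-!
# [RFT-Sr] Bounds for the rates

`sr N c = ∑ v ∈ N c, 1 / |N v|`.  The neighbour `e` contributes `1 / |N e|`, the `lf N c e` leaves
other than `e` contribute `1` each, and the other `|N c| - 1 - lf N c e` neighbours have degree at
least `2` and contribute between `0` and `1 / 2` each.
-/

namespace Pool.Agent.RFT81

open Finset

private theorem lfs_sub (N : Gr) (c e : ℕ) : lfs N c e ⊆ (N c).erase e := by
  intro v hv
  simp only [lfs, mem_filter] at hv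
  exact mem_erase.2 ⟨hv.2.1, hv.1⟩

private theorem g_nonneg (N : Gr) (v : ℕ) : (0 : ℝ) ≤ ((N v).card : ℝ)⁻¹ := by positivity

private theorem sr_split {N : Gr} {c e : ℕ} (he : e ∈ N c) :
    sr N c = ((N e).card : ℝ)⁻¹ + ∑ x ∈ (N c).erase e, ((N x).card : ℝ)⁻¹ := by
  rw [sr, ← Finset.add_sum_erase (N c) _ he]

private theorem sum_lfs (N : Gr) (c e : ℕ) : ∑ x ∈ lfs N c e, ((N x).card : ℝ)⁻¹ = lf N c e := by
  have h : ∀ x ∈ lfs N c e, ((N x).card : ℝ)⁻¹ = 1 := by
    intro x hx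
    simp only [lfs, mem_filter] at hx
    rw [hx.2.2]
    norm_num
  rw [Finset.sum_congr rfl h]
  simp [lf]

theorem lf_lt {N : Gr} {c e : ℕ} (he : e ∈ N c) : lf N c e + 1 ≤ (N c).card := by
  have h := card_le_card (lfs_sub N c e)
  rw [card_erase_of_mem he] at h
  have h1 : 0 < (N c).card := card_pos.2 ⟨e, he⟩
  simp only [lf]
  omega

theorem lf_lt2 {N : Gr} {c e a : ℕ} (he : e ∈ N c) (ha : a ∈ N c) (hae : a ≠ e)
    (ha2 : 2 ≤ (N a).card) : lf N c e + 2 ≤ (N c).card := by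
  have hsub : insert a (lfs N c e) ⊆ (N c).erase e := by
    intro v hv
    rcases mem_insert.1 hv with rfl | hv
    · exact mem_erase.2 ⟨hae, ha⟩
    · exact lfs_sub N c e hv
  have hna : a ∉ lfs N c e := by
    intro h
    simp only [lfs, mem_filter] at h
    omega
  have h := card_le_card hsub
  rw [card_erase_of_mem he, card_insert_of_notMem hna] at h
  simp only [lf]
  have h1 : 0 < (N c).card := card_pos.2 ⟨e, he⟩
  omega

theorem sr_ge {N : Gr} {c e : ℕ} (he : e ∈ N c) : ((N e).card : ℝ)⁻¹ + lf N c e ≤ sr N c := by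
  rw [sr_split he, ← sum_lfs]
  have := Finset.sum_le_sum_of_subset_of_nonneg (lfs_sub N c e)
    (f := fun x => ((N x).card : ℝ)⁻¹) (fun i _ _ => g_nonneg N i)
  linarith

theorem sr_ge' {N : Gr} {c e a : ℕ} (he : e ∈ N c) (ha : a ∈ N c) (hae : a ≠ e)
    (ha2 : 2 ≤ (N a).card) :
    ((N e).card : ℝ)⁻¹ + lf N c e + ((N a).card : ℝ)⁻¹ ≤ sr N c := by
  have hsub : insert a (lfs N c e) ⊆ (N c).erase e := by
    intro v hv
    rcases mem_insert.1 hv with rfl | hv
    · exact mem_erase.2 ⟨hae, ha⟩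
    · exact lfs_sub N c e hv
  have hna : a ∉ lfs N c e := by
    intro h
    simp only [lfs, mem_filter] at h
    omega
  have := Finset.sum_le_sum_of_subset_of_nonneg hsub
    (f := fun x => ((N x).card : ℝ)⁻¹) (fun i _ _ => g_nonneg N i)
  rw [Finset.sum_insert hna] at this
  rw [sr_split he, ← sum_lfs]
  linarith

theorem sr_le {n : ℕ} {N : Gr} (hN : Ok n N) {c e : ℕ} (he : e ∈ N c) :
    sr N c ≤ ((N e).card : ℝ)⁻¹ + lf N c e + ((N c).card - 1 - lf N c e) / 2 := by
  have hpos : ∀ v ∈ N c, 1 ≤ (N v).card := fun v hv =>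
    card_pos.2 (hN.ne v (hN.sub c hv))
  have h1 : ∀ v ∈ (N c).erase e, ((N v).card : ℝ)⁻¹ ≤
      1 / 2 + (if v ∈ lfs N c e then (1 : ℝ) / 2 else 0) := by
    intro v hv
    have hv1 := hpos v (mem_of_mem_erase hv)
    by_cases hl : v ∈ lfs N c e
    · rw [if_pos hl]
      have : (1 : ℝ) ≤ (N v).card := by exact_mod_cast hv1
      have h2 : ((N v).card : ℝ)⁻¹ ≤ 1 := inv_le_one_of_one_le₀ this
      linarith
    · rw [if_neg hl]
      have h3 : 2 ≤ (N v).card := by
        by_contra hlt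
        apply hl
        simp only [lfs, mem_filter]
        exact ⟨mem_of_mem_erase hv, ne_of_mem_erase hv, by omega⟩
      have h4 : (2 : ℝ) ≤ (N v).card := by exact_mod_cast h3
      have h5 : ((N v).card : ℝ)⁻¹ ≤ (2 : ℝ)⁻¹ := inv_anti₀ (by norm_num) h4
      linarith
  have h2 := Finset.sum_le_sum h1
  rw [Finset.sum_add_distrib] at h2
  have h3 : ∑ v ∈ (N c).erase e, (if v ∈ lfs N c e then (1 : ℝ) / 2 else 0) =
      (lf N c e : ℝ) / 2 := by
    rw [← Finset.sum_filter]
    have h4 : ((N c).erase e).filter (fun v => v ∈ lfs N c e) = lfs N c e := by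
      ext v
      simp only [mem_filter]
      exact ⟨fun h => h.2, fun h => ⟨lfs_sub N c e h, h⟩⟩
    rw [h4, Finset.sum_const, lf, nsmul_eq_mul]
    ring
  have h5 : ∑ v ∈ (N c).erase e, (1 : ℝ) / 2 = ((N c).card - 1) / 2 := by
    rw [Finset.sum_const, card_erase_of_mem he, nsmul_eq_mul]
    have h6 : 1 ≤ (N c).card := card_pos.2 ⟨e, he⟩
    push_cast [Nat.cast_sub h6]
    ring
  rw [sr_split he]
  rw [h3, h5] at h2
  linarith

theorem sr_le' {n : ℕ} {N : Gr} (hN : Ok n N) {a x : ℕ} (hx : x ∈ N a) :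
    sr N a ≤ ((N x).card : ℝ)⁻¹ + ((N a).card - 1) := by
  have h1 : ∀ v ∈ (N a).erase x, ((N v).card : ℝ)⁻¹ ≤ 1 := by
    intro v hv
    have hv1 : 1 ≤ (N v).card := card_pos.2 (hN.ne v (hN.sub a (mem_of_mem_erase hv)))
    have : (1 : ℝ) ≤ (N v).card := by exact_mod_cast hv1
    exact inv_le_one_of_one_le₀ this
  have h2 := Finset.sum_le_sum h1
  have h5 : ∑ v ∈ (N a).erase x, (1 : ℝ) = (N a).card - 1 := by
    rw [Finset.sum_const, card_erase_of_mem hx, nsmul_eq_mul]
    have h6 : 1 ≤ (N a).card := card_pos.2 ⟨x, hx⟩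
    push_cast [Nat.cast_sub h6]
    ring
  rw [sr_split hx]
  rw [h5] at h2
  linarith

/-- the rate at which `x` loses adjacent leaves is at most half of the rate of growth of `x` -/
theorem lf_div_le {n : ℕ} {N : Gr} (hN : Ok n N) {x a : ℕ} (ha : a ∈ N x)
    (h : 3 ≤ (N x).card + (N a).card) : (lf N x 0 : ℝ) / (N x).card ≤ sr N x / 2 := by
  have hd : 1 ≤ (N x).card := card_pos.2 ⟨a, ha⟩
  have hsr : (lf N x 0 : ℝ) ≤ sr N x := by
    rw [← sum_lfs, sr]
    exact Finset.sum_le_sum_of_subset_of_nonneg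
      ((lfs_sub N x 0).trans (erase_subset _ _)) (fun i _ _ => g_nonneg N i)
  by_cases h1 : (N x).card = 1
  · have hlf : lf N x 0 = 0 := by
      simp only [lf, card_eq_zero]
      rw [eq_empty_iff_forall_notMem]
      intro v hv
      simp only [lfs, mem_filter] at hv
      have hva : v = a := by
        obtain ⟨y, hy⟩ := card_eq_one.1 h1
        rw [hy] at hv ha
        rw [mem_singleton.1 hv.1, mem_singleton.1 ha]
      rw [hva] at hv
      omega
    rw [hlf]
    have h0 : (0 : ℝ) ≤ sr N x := Finset.sum_nonneg fun i _ => g_nonneg N i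
    simp only [Nat.cast_zero, zero_div]
    linarith
  · have h2 : (2 : ℝ) ≤ (N x).card := by
      have : 2 ≤ (N x).card := by omega
      exact_mod_cast this
    have h3 : (lf N x 0 : ℝ) / (N x).card ≤ (lf N x 0 : ℝ) / 2 :=
      div_le_div_of_nonneg_left (by positivity) (by norm_num) h2
    linarith

end Pool.Agent.RFT81
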