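import Pool.Agent.RFT81.Prod
import Pool.Agent.RFT81.Sr
import Pool.Agent.RFT81.Cert

/-!
# [RFT-SupPhi] `Phi` is a supermartingale

Paper proof of `gen_Phi`.  Put `j = |N a|`, `k = |N c|`, `l = lf N c x`.  In all cases split off the
term `w = x` from `gen`, and use `gen_prod` for the others, with `G a k l = A k` and `G c = P` or
`H` for `c ≠ a` (resp. `G a k l = B k`); for `w ≠ x` we have `att N n w x = N x`.
If the difference `G c (k+1) (l+1) - G c k l` is nonnegative then it is multiplied by at most the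
upper bound for the rate (`sr_le`, `sr_le'`), otherwise the product is at most `0`.

* `|N x| = 1`, so `N x = {a}`.  `sr N a ≤ j`, and `sr N x = 1 / j`; for `w = x` the new vertex
  `x' = n + 1` is the other neighbour of `x` and `Phi` becomes `A j * P 1 0 ≤ P 1 0`.  Use `Bineq`.
* `|N x| = 2`, so `N x = {a, y}`, and `Phi = A j * P k l` for the type `(k, l)` of `y`.  For `w = x`
  it becomes `A j * H k l * H 1 0 ≤ A j * H k l * θ`, with rate `sr N x = 1 / j + 1 / k`.
  `Pineq` for `y` (rate at most `l + 1/2 + (k-1-l)/2`), `Aineq` for `a` (rate at most `j - 1/2`):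
  the sum is at most `(1-θ)/j A P + 1/j (θ A H - A P) ≤ 0` by `HP`.
* `|N x| = d ≥ 3`.  For `w = x` the new factor is `H 1 0 ≤ θ`, so this term is at most
  `-(1-θ) sr N x Phi`.  For `c ≠ a` the rate is at most `l + 1/3 + (k-1-l)/2`, and `Hineq` bounds the
  contribution of `c` by `(1-θ)/k Phi`; `Aineq` bounds the one of `a` by `(1-θ)/j Phi`.  The sum
  over the neighbours is `(1-θ) sr N x Phi`.

`Phi_near`: `1 - ∏ (1 - x_i) ≤ ∑ x_i` for `x_i` in `[0, 1]`.
-/

namespace Pool.Agent.RFT81

open Finset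

variable {θ c : ℝ} {H P : ℕ → ℕ → ℝ} {A B : ℕ → ℝ}

private theorem Phi_mem {n : ℕ} {N : Gr} (hN : Ok n N) {x a : ℕ} (ha : a ∈ N x) :
    x ∈ Icc 1 n ∧ a ∈ Icc 1 n ∧ x ∈ N a ∧ a ≠ x ∧ x ≠ n + 1 ∧ a ≠ n + 1 := by
  have hxa : x ∈ N a := hN.symm ha
  have hx : x ∈ Icc 1 n := hN.sub a hxa
  have ha' : a ∈ Icc 1 n := hN.sub x ha
  refine ⟨hx, ha', hxa, ?_, ?_, ?_⟩
  · rintro rfl
    exact hN.irr _ ha
  · have := (mem_Icc.1 hx).2
    omega
  · have := (mem_Icc.1 ha').2
    omega

private theorem Phi_lf {n : ℕ} {N : Gr} (hN : Ok n N) {x c : ℕ} (hc : c ∈ N x) :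
    lf N c x + 1 ≤ (N c).card :=
  lf_lt (hN.symm hc)

/-- the factors for the product over the neighbours -/
private noncomputable def GG (a : ℕ) (A : ℕ → ℝ) (K : ℕ → ℕ → ℝ) : ℕ → ℕ → ℕ → ℝ :=
  fun c k l => if c = a then A k else K k l

private theorem GG_prod {N : Gr} {x a : ℕ} (s : Finset ℕ) (ha : a ∈ s) (A : ℕ → ℝ)
    (K : ℕ → ℕ → ℝ) : PG (GG a A K) s x N =
      A (N a).card * ∏ c ∈ s.erase a, K (N c).card (lf N c x) := by
  unfold PG
  rw [← mul_prod_erase s _ ha]
  congr 1
  · simp [GG]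
  · refine prod_congr rfl fun c hc => ?_
    simp [GG, ne_of_mem_erase hc]

private theorem K_nonneg {N : Gr} {x : ℕ} {K : ℕ → ℕ → ℝ} (hK : ∀ k l, l + 1 ≤ k → 0 ≤ K k l)
    (s : Finset ℕ) (hs : ∀ c ∈ s, lf N c x + 1 ≤ (N c).card) :
    0 ≤ ∏ c ∈ s, K (N c).card (lf N c x) :=
  prod_nonneg fun c hc => hK _ _ (hs c hc)

private theorem P0 (hU : UpC θ c H P A B) : ∀ k l, l + 1 ≤ k → 0 ≤ P k l :=
  fun k l h => (hU.H0 k l).trans (hU.HP k l h)

theorem Phi_nonneg (hU : UpC θ c H P A B) {n : ℕ} {N : Gr} (hN : Ok n N) {x a : ℕ}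
    (ha : a ∈ N x) : 0 ≤ Phi H P A B x a N := by
  have hl : ∀ c ∈ (N x).erase a, lf N c x + 1 ≤ (N c).card :=
    fun c hc => Phi_lf hN (mem_of_mem_erase hc)
  unfold Phi
  split_ifs
  · exact hU.B0 _
  · exact mul_nonneg (hU.A0 _) (K_nonneg (P0 hU) _ hl)
  · exact mul_nonneg (hU.A0 _) (K_nonneg (fun k l _ => hU.H0 k l) _ hl)

private theorem one_sub_prod_le (s : Finset ℕ) (f g : ℕ → ℝ) (h0 : ∀ i ∈ s, 0 ≤ f i)
    (h1 : ∀ i ∈ s, f i ≤ 1) (hg : ∀ i ∈ s, 1 - f i ≤ g i) :
    1 - ∏ i ∈ s, f i ≤ ∑ i ∈ s, g i ∧ ∏ i ∈ s, f i ≤ 1 := by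
  induction s using Finset.induction_on with
  | empty => simp
  | insert i s hi ih =>
    have ih' := ih (fun j hj => h0 j (mem_insert_of_mem hj))
      (fun j hj => h1 j (mem_insert_of_mem hj)) (fun j hj => hg j (mem_insert_of_mem hj))
    have hp : 0 ≤ ∏ j ∈ s, f j := prod_nonneg fun j hj => h0 j (mem_insert_of_mem hj)
    have a0 := h0 i (mem_insert_self _ _)
    have a1 := h1 i (mem_insert_self _ _)
    have a2 := hg i (mem_insert_self _ _)
    rw [prod_insert hi, sum_insert hi]
    constructor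
    · nlinarith [mul_nonneg (sub_nonneg.2 a1) (sub_nonneg.2 ih'.2)]
    · nlinarith

private theorem near_aux {n : ℕ} {N : Gr} (hN : Ok n N) {x a : ℕ} (ha : a ∈ N x) {A : ℕ → ℝ}
    {K : ℕ → ℕ → ℝ} {c : ℝ} (A0 : ∀ j, 0 ≤ A j) (A1 : ∀ j, A j ≤ 1)
    (Ac : ∀ j : ℕ, 1 ≤ j → 1 - A j ≤ c / j) (K0 : ∀ k l, l + 1 ≤ k → 0 ≤ K k l)
    (K1 : ∀ k l, l + 1 ≤ k → K k l ≤ 1) (Kc : ∀ k l : ℕ, l + 1 ≤ k → 1 - K k l ≤ c / k) :
    1 - A (N a).card * ∏ c ∈ (N x).erase a, K (N c).card (lf N c x) ≤ c * sr N x := by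
  rw [← GG_prod (N x) ha A K]
  have hcard : ∀ b ∈ N x, 1 ≤ (N b).card := fun b hb =>
    card_pos.2 ⟨x, hN.symm hb⟩
  have := (one_sub_prod_le (N x) (fun b => GG a A K b (N b).card (lf N b x))
    (fun b => c * ((N b).card : ℝ)⁻¹) ?_ ?_ ?_).1
  · unfold PG
    unfold sr
    rw [mul_sum]
    exact this
  · intro b hb
    unfold GG
    split_ifs
    · exact A0 _
    · exact K0 _ _ (Phi_lf hN hb)
  · intro b hb
    unfold GG
    split_ifs
    · exact A1 _
    · exact K1 _ _ (Phi_lf hN hb)
  · intro b hb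
    unfold GG
    rw [← div_eq_mul_inv]
    split_ifs
    · exact Ac _ (hcard b hb)
    · exact Kc _ _ (Phi_lf hN hb)

theorem Phi_near (hU : UpC θ c H P A B) {n : ℕ} {N : Gr} (hN : Ok n N) {x a : ℕ}
    (ha : a ∈ N x) : 1 - Phi H P A B x a N ≤ c * sr N x := by
  unfold Phi
  split_ifs with h1 h2
  · obtain ⟨b, hb⟩ := card_eq_one.1 h1
    have hab : a = b := by
      rw [hb] at ha
      exact mem_singleton.1 ha
    subst hab
    have : sr N x = ((N a).card : ℝ)⁻¹ := by
      unfold sr
      rw [hb, sum_singleton]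
    rw [this, ← div_eq_mul_inv]
    exact hU.Bc _ (card_pos.2 ⟨x, hN.symm ha⟩)
  · exact near_aux hN ha hU.A0 hU.A1 hU.Ac (P0 hU) (fun k l _ => hU.P1 k l)
      (fun k l h => (sub_le_sub_left (hU.HP k l h) 1).trans (hU.Hc k l h))
  · exact near_aux hN ha hU.A0 hU.A1 hU.Ac (fun k l _ => hU.H0 k l) (fun k l _ => hU.H1 k l)
      (fun k l h => hU.Hc k l h)

private theorem att_ne {N : Gr} {n w v : ℕ} (h1 : v ≠ n + 1) (h2 : v ≠ w) :
    att N n w v = N v := by
  simp [att, h1, h2]

private theorem att_self {N : Gr} {n v : ℕ} (h1 : v ≠ n + 1) :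
    att N n v v = insert (n + 1) (N v) := by
  simp [att, h1]

/-- splitting off the term of `x` -/
private theorem gen_split {n : ℕ} {N : Gr} (hN : Ok n N) {x a : ℕ} (ha : a ∈ N x)
    (f : Gr → ℝ) (A : ℕ → ℝ) (K : ℕ → ℕ → ℝ)
    (hf : ∀ w ∈ (Icc 1 n).erase x, f (att N n w) = PG (GG a A K) (N x) x (att N n w))
    (hf0 : f N = PG (GG a A K) (N x) x N) :
    gen f N n = sr N x * (f (att N n x) - f N) +
      ∑ c ∈ N x,
        (sr N c * (GG a A K c ((N c).card + 1) (lf N c x + 1) -
            GG a A K c (N c).card (lf N c x)) +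
          (lf N c x : ℝ) / (N c).card *
            (GG a A K c (N c).card (lf N c x - 1) - GG a A K c (N c).card (lf N c x))) *
        ∏ c' ∈ (N x).erase c, GG a A K c' (N c').card (lf N c' x) := by
  obtain ⟨hx, -⟩ := Phi_mem hN ha
  rw [← gen_prod hN hx (GG a A K)]
  unfold gen
  rw [← add_sum_erase _ _ hx]
  congr 1
  refine sum_congr rfl fun w hw => ?_
  rw [hf w hw, hf0]

private theorem prod_new {n : ℕ} {N : Gr} (hN : Ok n N) {x a : ℕ} (ha : a ∈ N x)
    (K : ℕ → ℕ → ℝ) :
    (att N n x a).card = (N a).card ∧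
    ∏ c ∈ (att N n x x).erase a, K (att N n x c).card (lf (att N n x) c x) =
      K 1 0 * ∏ c ∈ (N x).erase a, K (N c).card (lf N c x) := by
  obtain ⟨hx, ha', hxa, hax, hxn, han⟩ := Phi_mem hN ha
  constructor
  · rw [att_ne han hax]
  · have hnew : n + 1 ∉ (N x).erase a := fun h => by
      have := (mem_Icc.1 (hN.sub x (mem_of_mem_erase h))).2
      omega
    rw [att_self hxn, erase_insert_of_ne (Ne.symm han), prod_insert hnew, card_att_new, lf_att_new]
    congr 1
    refine prod_congr rfl fun c hc => ?_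
    have hc' : c ∈ N x := mem_of_mem_erase hc
    obtain ⟨-, hci, -, hcx, -, hcn⟩ := Phi_mem hN hc'
    rw [att_ne hcn hcx, lf_att_other hN hci hx hcx ?_]
    simp [lfs]

private theorem le_of_ineq {r R D T : ℝ} (hrR : r ≤ R) (hr : 0 ≤ r) (hT : 0 ≤ T)
    (h : R * D ≤ T) : r * D ≤ T := by
  rcases le_total 0 D with hD | hD
  · exact (mul_le_mul_of_nonneg_right hrR hD).trans h
  · exact (mul_nonpos_of_nonneg_of_nonpos hr hD).trans hT

theorem gen_Phi (hU : UpC θ c H P A B) {n : ℕ} {N : Gr} (hN : Ok n N) {x a : ℕ}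
    (ha : a ∈ N x) : gen (Phi H P A B x a) N n ≤ 0 := by
  obtain ⟨hx, ha', hxa, hax, hxn, han⟩ := Phi_mem hN ha
  have hj : 1 ≤ (N a).card := card_pos.2 ⟨x, hxa⟩
  have hj0 : (0 : ℝ) < (N a).card := by exact_mod_cast hj
  have hj1 : (1 : ℝ) ≤ (N a).card := by exact_mod_cast hj
  have hw : ∀ w ∈ (Icc 1 n).erase x, att N n w x = N x := fun w hw =>
    att_ne hxn (ne_of_mem_erase hw).symm
  have hcardx : (att N n x x).card = (N x).card + 1 := by
    rw [card_att hN hx hx]
    simp
  have hpos : 1 ≤ (N x).card := card_pos.2 ⟨a, ha⟩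
  have hsra0 : 0 ≤ sr N a := sr_nonneg N a
  rcases Nat.lt_or_ge (N x).card 2 with hlt | hge2
  · -- a leaf
    have h1 : (N x).card = 1 := by omega
    obtain ⟨b, hb⟩ := card_eq_one.1 h1
    have hab : a = b := by
      rw [hb] at ha
      exact mem_singleton.1 ha
    subst hab
    have hsr : sr N x = ((N a).card : ℝ)⁻¹ := by
      unfold sr
      rw [hb, sum_singleton]
    have hPG : ∀ M : Gr, PG (GG a B P) {a} x M = B (M a).card := by
      intro M
      unfold PG
      rw [prod_singleton]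
      simp [GG]
    have hf : ∀ w ∈ (Icc 1 n).erase x,
        Phi H P A B x a (att N n w) = PG (GG a B P) (N x) x (att N n w) := by
      intro w hw'
      rw [hb, hPG]
      unfold Phi
      rw [hw w hw', if_pos h1]
    have hf0 : Phi H P A B x a N = PG (GG a B P) (N x) x N := by
      rw [hb, hPG]
      unfold Phi
      rw [if_pos h1]
    have hfx : Phi H P A B x a (att N n x) = A (N a).card * P 1 0 := by
      unfold Phi
      rw [hcardx, if_neg (by omega), if_pos (by omega), (prod_new hN ha P).2,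
        (prod_new hN ha P).1, hb]
      simp
    have hfN : Phi H P A B x a N = B (N a).card := by
      unfold Phi
      rw [if_pos h1]
    rw [gen_split hN ha _ B P hf hf0, hfx, hfN, hsr, hb, sum_singleton]
    have hG : ∀ k l, GG a B P a k l = B k := fun k l => by simp [GG]
    simp only [hG, erase_singleton, prod_empty, mul_one, sub_self, mul_zero, add_zero]
    have hsra : sr N a ≤ (N a).card := by
      have := sr_le' hN hxa
      rw [h1] at this
      simpa using this
    have hmono := hU.Bmono _ hj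
    have hB := hU.Bineq _ hj
    have h10 : 0 ≤ P 1 0 := P0 hU 1 0 (by omega)
    have hA := hU.A1 (N a).card
    have e1 : sr N a * (B ((N a).card + 1) - B (N a).card) ≤
        (N a).card * (B ((N a).card + 1) - B (N a).card) :=
      mul_le_mul_of_nonneg_right hsra (sub_nonneg.2 hmono)
    have e2 : ((N a).card : ℝ)⁻¹ * (A (N a).card * P 1 0 - B (N a).card) ≤
        ((N a).card : ℝ)⁻¹ * (P 1 0 - B (N a).card) := by
      refine mul_le_mul_of_nonneg_left ?_ (inv_nonneg.2 hj0.le)
      nlinarith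
    rw [one_div] at hB
    linarith
  rcases Nat.lt_or_ge (N x).card 3 with hlt | hge3
  · -- degree two
    have h2 : (N x).card = 2 := by omega
    have hey : ((N x).erase a).card = 1 := by
      rw [card_erase_of_mem ha, h2]
    obtain ⟨y, hy⟩ := card_eq_one.1 hey
    have hyx : y ∈ N x := mem_of_mem_erase (a := a) (by rw [hy]; exact mem_singleton_self y)
    have hya : y ≠ a := ne_of_mem_erase (s := N x) (by rw [hy]; exact mem_singleton_self y)
    have hNx : N x = insert a {y} := by rw [← hy, insert_erase ha]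
    have hay' : a ∉ ({y} : Finset ℕ) := by simp [Ne.symm hya]
    have hey2 : (N x).erase y = {a} := by
      rw [hNx]
      ext v
      simp only [mem_erase, mem_insert, mem_singleton]
      constructor
      · rintro ⟨h1, h2 | h2⟩
        · exact h2
        · exact absurd h2 h1
      · intro h
        exact ⟨by rw [h]; exact Ne.symm hya, Or.inl h⟩
    obtain ⟨-, hyi, hxy, hyx', -, hyn⟩ := Phi_mem hN hyx
    have hk : 1 ≤ (N y).card := card_pos.2 ⟨x, hxy⟩
    have hk0 : (0 : ℝ) < (N y).card := by exact_mod_cast hk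
    have hl : lf N y x + 1 ≤ (N y).card := Phi_lf hN hyx
    have hsr : sr N x = ((N a).card : ℝ)⁻¹ + ((N y).card : ℝ)⁻¹ := by
      unfold sr
      rw [hNx, sum_insert hay', sum_singleton]
    have hf : ∀ w ∈ (Icc 1 n).erase x,
        Phi H P A B x a (att N n w) = PG (GG a A P) (N x) x (att N n w) := by
      intro w hw'
      rw [GG_prod (N x) ha]
      unfold Phi
      rw [hw w hw', if_neg (by omega), if_pos h2]
    have hf0 : Phi H P A B x a N = PG (GG a A P) (N x) x N := by
      rw [GG_prod (N x) ha]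
      unfold Phi
      rw [if_neg (by omega), if_pos h2]
    have hfx : Phi H P A B x a (att N n x) =
        A (N a).card * (H 1 0 * H (N y).card (lf N y x)) := by
      unfold Phi
      rw [hcardx, if_neg (by omega), if_neg (by omega), (prod_new hN ha H).2,
        (prod_new hN ha H).1, hy, prod_singleton]
    have hfN : Phi H P A B x a N = A (N a).card * P (N y).card (lf N y x) := by
      unfold Phi
      rw [if_neg (by omega), if_pos h2, hy, prod_singleton]
    rw [gen_split hN ha _ A P hf hf0, hfx, hfN, hsr]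
    have hsum : ∀ F : ℕ → ℝ, ∑ v ∈ N x, F v = F a + F y := by
      intro F
      rw [hNx, sum_insert hay', sum_singleton]
    rw [hsum, hy, hey2, prod_singleton, prod_singleton]
    have hGa : ∀ k l, GG a A P a k l = A k := fun k l => by simp [GG]
    have hGy : ∀ k l, GG a A P y k l = P k l := fun k l => by simp [GG, hya]
    simp only [hGa, hGy, sub_self, mul_zero, add_zero]
    set j : ℝ := ((N a).card : ℝ) with hjdef
    set k : ℝ := ((N y).card : ℝ) with hkdef
    have hA0 := hU.A0 (N a).card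
    have hP0 := P0 hU _ _ hl
    have hH0 := hU.H0 (N y).card (lf N y x)
    have hHP := hU.HP _ _ hl
    have hθ := hU.Hθ
    have hsra : sr N a ≤ j - 1 / 2 := by
      have := sr_le' hN hxa
      rw [h2] at this
      push_cast at this
      linarith
    have e1 : sr N a * (A ((N a).card + 1) - A (N a).card) ≤ (1 - θ) / j * A (N a).card :=
      le_of_ineq hsra hsra0
        (mul_nonneg (div_nonneg (sub_nonneg.2 hU.θ1) hj0.le) hA0) (hU.Aineq _ hj)
    have hsry : sr N y ≤ (lf N y x : ℝ) + 1 / 2 + (k - 1 - lf N y x) / 2 := by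
      have := sr_le hN hxy
      rw [h2] at this
      push_cast at this
      linarith
    have e2 := hU.Pineq _ _ hl
    have e3 : sr N y * (P ((N y).card + 1) (lf N y x + 1) - P (N y).card (lf N y x)) ≤
        ((lf N y x : ℝ) + 1 / 2 + (k - 1 - lf N y x) / 2) *
          (P ((N y).card + 1) (lf N y x + 1) - P (N y).card (lf N y x)) :=
      mul_le_mul_of_nonneg_right hsry (sub_nonneg.2 (hU.Pmono _ _ hl))
    have e4 : sr N y * (P ((N y).card + 1) (lf N y x + 1) - P (N y).card (lf N y x)) +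
        (lf N y x : ℝ) / k * (P (N y).card (lf N y x - 1) - P (N y).card (lf N y x)) ≤
        k⁻¹ * (P (N y).card (lf N y x) - θ * H (N y).card (lf N y x)) := by
      rw [inv_eq_one_div k]
      linarith
    have e5 := mul_le_mul_of_nonneg_right e1 hP0
    have e6 := mul_le_mul_of_nonneg_right e4 hA0
    have hHH : H 1 0 * H (N y).card (lf N y x) ≤ θ * H (N y).card (lf N y x) :=
      mul_le_mul_of_nonneg_right hθ hH0
    have hji : 0 ≤ j⁻¹ := inv_nonneg.2 hj0.le
    have hki : 0 ≤ k⁻¹ := inv_nonneg.2 hk0.le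
    have e7 : (j⁻¹ + k⁻¹) * (A (N a).card * (H 1 0 * H (N y).card (lf N y x)) -
        A (N a).card * P (N y).card (lf N y x)) ≤
        (j⁻¹ + k⁻¹) * (A (N a).card * (θ * H (N y).card (lf N y x)) -
        A (N a).card * P (N y).card (lf N y x)) := by
      refine mul_le_mul_of_nonneg_left ?_ (add_nonneg hji hki)
      exact sub_le_sub_right (mul_le_mul_of_nonneg_left hHH hA0) _
    have e8 : 0 ≤ j⁻¹ * (θ * (A (N a).card *
        (P (N y).card (lf N y x) - H (N y).card (lf N y x)))) :=
      mul_nonneg hji (mul_nonneg hU.θ0 (mul_nonneg hA0 (sub_nonneg.2 hHP)))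
    rw [div_eq_mul_inv (1 - θ) j] at e5
    linear_combination e5 + e6 + e7 + e8
  · -- degree at least three
    have hf : ∀ w ∈ (Icc 1 n).erase x,
        Phi H P A B x a (att N n w) = PG (GG a A H) (N x) x (att N n w) := by
      intro w hw'
      rw [GG_prod (N x) ha]
      unfold Phi
      rw [hw w hw', if_neg (by omega), if_neg (by omega)]
    have hfN : Phi H P A B x a N =
        A (N a).card * ∏ c ∈ (N x).erase a, H (N c).card (lf N c x) := by
      unfold Phi
      rw [if_neg (by omega), if_neg (by omega)]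
    have hf0 : Phi H P A B x a N = PG (GG a A H) (N x) x N := by
      rw [GG_prod (N x) ha, hfN]
    have hfx : Phi H P A B x a (att N n x) = H 1 0 * Phi H P A B x a N := by
      rw [hfN]
      unfold Phi
      rw [hcardx, if_neg (by omega), if_neg (by omega), (prod_new hN ha H).2,
        (prod_new hN ha H).1]
      ring
    have hPhi0 : 0 ≤ Phi H P A B x a N := Phi_nonneg hU hN ha
    rw [gen_split hN ha _ A H hf hf0, hfx]
    have hd : ((N x).card : ℝ)⁻¹ ≤ 1 / 3 := by
      rw [inv_eq_one_div]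
      exact one_div_le_one_div_of_le (by norm_num) (by exact_mod_cast hge3)
    have hsum : ∑ c ∈ N x,
        (sr N c * (GG a A H c ((N c).card + 1) (lf N c x + 1) -
            GG a A H c (N c).card (lf N c x)) +
          (lf N c x : ℝ) / (N c).card *
            (GG a A H c (N c).card (lf N c x - 1) - GG a A H c (N c).card (lf N c x))) *
        ∏ c' ∈ (N x).erase c, GG a A H c' (N c').card (lf N c' x) ≤
        ∑ c ∈ N x, (1 - θ) * Phi H P A B x a N * ((N c).card : ℝ)⁻¹ := by
      refine sum_le_sum fun v hv => ?_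
      obtain ⟨-, hvi, hxv, hvx, -, hvn⟩ := Phi_mem hN hv
      have hk : 1 ≤ (N v).card := card_pos.2 ⟨x, hxv⟩
      have hk0 : (0 : ℝ) < (N v).card := by exact_mod_cast hk
      have hl : lf N v x + 1 ≤ (N v).card := Phi_lf hN hv
      have hP : Phi H P A B x a N = GG a A H v (N v).card (lf N v x) *
          ∏ c' ∈ (N x).erase v, GG a A H c' (N c').card (lf N c' x) := by
        rw [hf0]
        unfold PG
        rw [← mul_prod_erase _ _ hv]
      have hprod : 0 ≤ ∏ c' ∈ (N x).erase v, GG a A H c' (N c').card (lf N c' x) := by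
        refine prod_nonneg fun c' hc' => ?_
        unfold GG
        split_ifs
        · exact hU.A0 _
        · exact hU.H0 _ _
      rw [hP]
      suffices hs : sr N v * (GG a A H v ((N v).card + 1) (lf N v x + 1) -
            GG a A H v (N v).card (lf N v x)) +
          (lf N v x : ℝ) / (N v).card *
            (GG a A H v (N v).card (lf N v x - 1) - GG a A H v (N v).card (lf N v x)) ≤
          (1 - θ) / (N v).card * GG a A H v (N v).card (lf N v x) by
        have := mul_le_mul_of_nonneg_right hs hprod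
        refine this.trans (le_of_eq ?_)
        ring
      by_cases hva : v = a
      · subst hva
        have hG : ∀ k l, GG v A H v k l = A k := fun k l => by simp [GG]
        simp only [hG, sub_self, mul_zero, add_zero]
        have hsra : sr N v ≤ ((N v).card : ℝ) - 1 / 2 := by
          have := sr_le' hN hxv
          linarith
        exact le_of_ineq hsra hsra0
          (mul_nonneg (div_nonneg (sub_nonneg.2 hU.θ1) hk0.le) (hU.A0 _)) (hU.Aineq _ hk)
      · have hG : ∀ k l, GG a A H v k l = H k l := fun k l => by simp [GG, hva]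
        simp only [hG]
        have hsrv : sr N v ≤ (lf N v x : ℝ) + 1 / 3 + (((N v).card : ℝ) - 1 - lf N v x) / 2 := by
          have := sr_le hN hxv
          linarith
        have e3 := mul_le_mul_of_nonneg_right hsrv (sub_nonneg.2 (hU.Hmono _ _ hl))
        have e2 := hU.Hineq _ _ hl
        linarith
    have hsr : ∑ c ∈ N x, (1 - θ) * Phi H P A B x a N * ((N c).card : ℝ)⁻¹ =
        (1 - θ) * Phi H P A B x a N * sr N x := by
      unfold sr
      rw [mul_sum]
    rw [hsr] at hsum
    have hθ := hU.Hθ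
    have e1 : sr N x * (H 1 0 * Phi H P A B x a N - Phi H P A B x a N) ≤
        sr N x * (θ * Phi H P A B x a N - Phi H P A B x a N) := by
      refine mul_le_mul_of_nonneg_left ?_ (sr_nonneg N x)
      exact sub_le_sub_right (mul_le_mul_of_nonneg_right hθ hPhi0) _
    linarith

end Pool.Agent.RFT81
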