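import Pool.Agent.RFT81.Law
import Pool.Agent.RFT81.Sr

/-!
# [RFT-UpJ] The upper bound from a supermartingale, first part

`J R x g k n h` is the integral of `g (T_{n+k})` over the event that the history is `h` up to time
`n` and `L_i < R` for `n ≤ i ≤ n + k`, where `L_i = lf T_i x 0`.

Paper proof.  `J_super`: induction on `k`, with `sum_q_mul` and `Wlaw.law`.  `J_mono`, `J_add`,
`J_one`: inductions on `k` (`part` for `J_one`).
`J_pot`: let `φ N = R - lf N x 0`.  For a state with `L < R`: if `n + 1` is attached to `x` (weight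
`sr N x`) then `L` grows by one, so `φ` drops by one (to `0` if `L + 1 = R`, and the state
is removed); if it is attached to one of the `L` leaves adjacent to `x` (weight `1 / |N x|` each)
`φ` grows by one; `L / |N x| ≤ sr N x / 2` (`lf_div_le`).  So the drift is at most
`-sr N x / (2 n)`, and `J φ (k+1) ≤ J φ k - J (sr · x) k / (2 (n + k))`, by induction on `k`.
-/

namespace Pool.Agent.RFT81

open Finset MeasureTheory Filter

variable {Ω : Type*} [MeasurableSpace Ω] {μ : Measure Ω} [IsProbabilityMeasure μ] {W : ℕ → Ω → ℕ}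

open Classical in
/-- the integral of `g` over the event that there are always less than `R` leaves -/
noncomputable def J (μ : Measure Ω) (W : ℕ → Ω → ℕ) (R x : ℕ) (g : Gr → ℝ) :
    ℕ → ℕ → (ℕ → ℕ) → ℝ
  | 0, n, h => if lf (tr h n) x 0 < R then g (tr h n) * μ.real (cyl W n h) else 0
  | k + 1, n, h => if lf (tr h n) x 0 < R then
      ∑ w ∈ Icc 1 n, J μ W R x g k (n + 1) (Function.update h n w) else 0

/-- the invariant: `a` is a neighbour of `x`, and not both are leaves -/
def Inv2 (x a : ℕ) (N : Gr) : Prop := a ∈ N x ∧ 3 ≤ (N x).card + (N a).card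

theorem Inv2.att {n : ℕ} {N : Gr} (hN : Ok n N) {x a w : ℕ} (h : Inv2 x a N)
    (hw : w ∈ Icc 1 n) : Inv2 x a (att N n w) := by
  obtain ⟨ha, hc⟩ := h
  have hx : x ∈ Icc 1 n := by
    by_contra hx
    rw [hN.out x hx] at ha
    exact notMem_empty a ha
  have haI : a ∈ Icc 1 n := hN.sub x ha
  have hx' : x ≠ n + 1 := by
    rw [mem_Icc] at hx
    omega
  refine ⟨?_, ?_⟩
  · unfold RFT81.att
    rw [if_neg hx']
    by_cases hxw : x = w
    · rw [if_pos hxw]
      exact mem_insert_of_mem ha
    · rw [if_neg hxw]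
      exact ha
  · have h1 := card_att hN hw hx
    have h2 := card_att hN hw haI
    omega

private theorem upj_law (hW : Wlaw μ W) {n : ℕ} {h : ℕ → ℕ} (hh : Good n h) (f : Gr → ℝ) :
    ∑ w ∈ Icc 1 n, f (tr (Function.update h n w) (n + 1)) *
      μ.real (cyl W (n + 1) (Function.update h n w)) =
      (f (tr h n) + gen f (tr h n) n / n) * μ.real (cyl W n h) := by
  rw [← sum_q_mul hh.ok f, Finset.sum_mul]
  refine Finset.sum_congr rfl fun w hw => ?_
  rw [tr_update hh.1, hW.law n h w hh hw]
  ring

theorem J_super (hW : Wlaw μ W) {R x a : ℕ} {f : Gr → ℝ}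
    (hf0 : ∀ n N, Ok n N → Inv2 x a N → 0 ≤ f N)
    (hg : ∀ n N, Ok n N → Inv2 x a N → gen f N n ≤ 0) (k : ℕ) {n : ℕ} {h : ℕ → ℕ}
    (hh : Good n h) (hI : Inv2 x a (tr h n)) :
    J μ W R x f k n h ≤ f (tr h n) * μ.real (cyl W n h) := by
  induction k generalizing n h with
  | zero =>
    unfold J
    split_ifs
    · exact le_refl _
    · exact mul_nonneg (hf0 n _ hh.ok hI) measureReal_nonneg
  | succ k ih =>
    unfold J
    split_ifs
    · have h1 : ∑ w ∈ Icc 1 n, J μ W R x f k (n + 1) (Function.update h n w) ≤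
          ∑ w ∈ Icc 1 n, f (tr (Function.update h n w) (n + 1)) *
            μ.real (cyl W (n + 1) (Function.update h n w)) := by
        refine Finset.sum_le_sum fun w hw => ?_
        refine ih (hh.upd hw) ?_
        rw [tr_update hh.1]
        exact hI.att hh.ok hw
      rw [upj_law hW hh f] at h1
      refine h1.trans ?_
      refine mul_le_mul_of_nonneg_right ?_ measureReal_nonneg
      have h2 : gen f (tr h n) n / n ≤ 0 :=
        div_nonpos_of_nonpos_of_nonneg (hg n _ hh.ok hI) (Nat.cast_nonneg n)
      linarith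
    · exact mul_nonneg (hf0 n _ hh.ok hI) measureReal_nonneg

theorem J_mono (hW : Wlaw μ W) {R x a : ℕ} {f g : Gr → ℝ}
    (hfg : ∀ n N, Ok n N → Inv2 x a N → f N ≤ g N) (k : ℕ) {n : ℕ} {h : ℕ → ℕ}
    (hh : Good n h) (hI : Inv2 x a (tr h n)) : J μ W R x f k n h ≤ J μ W R x g k n h := by
  induction k generalizing n h with
  | zero =>
    unfold J
    split_ifs
    · exact mul_le_mul_of_nonneg_right (hfg n _ hh.ok hI) measureReal_nonneg
    · exact le_refl _
  | succ k ih =>
    unfold J
    split_ifs
    · refine Finset.sum_le_sum fun w hw => ?_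
      refine ih (hh.upd hw) ?_
      rw [tr_update hh.1]
      exact hI.att hh.ok hw
    · exact le_refl _

theorem J_lin (hW : Wlaw μ W) {R x : ℕ} {f g : Gr → ℝ} (s t : ℝ) (k : ℕ) {n : ℕ} {h : ℕ → ℕ} :
    J μ W R x (fun N => s * f N + t * g N) k n h =
      s * J μ W R x f k n h + t * J μ W R x g k n h := by
  induction k generalizing n h with
  | zero =>
    unfold J
    split_ifs
    · ring
    · ring
  | succ k ih =>
    unfold J
    split_ifs
    · rw [Finset.mul_sum, Finset.mul_sum, ← Finset.sum_add_distrib]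
      exact Finset.sum_congr rfl fun w _ => ih
    · ring

private theorem upj_gen {n : ℕ} {N : Gr} (hN : Ok n N) {x a : ℕ} (hI : Inv2 x a N) (R : ℕ) :
    gen (fun N => (R : ℝ) - lf N x 0) N n ≤ - (sr N x / 2) := by
  have hx : x ∈ Icc 1 n := by
    by_contra hx
    have ha := hI.1
    rw [hN.out x hx] at ha
    exact notMem_empty a ha
  have hterm : ∀ w ∈ Icc 1 n, sr N w * (((R : ℝ) - lf (RFT81.att N n w) x 0) - ((R : ℝ) - lf N x 0)) =
      (if w = x then - sr N x else 0) + (if w ∈ lfs N x 0 then ((N x).card : ℝ)⁻¹ else 0) := by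
    intro w hw
    by_cases hwx : w = x
    · subst hwx
      have h1 : w ∉ lfs N w 0 := by
        intro h
        rw [lfs, mem_filter] at h
        exact hN.irr w h.1
      rw [if_pos rfl, if_neg h1, lf_att_self hN hw (by omega)]
      push_cast
      ring
    · rw [if_neg hwx]
      by_cases hl : w ∈ lfs N x 0
      · rw [if_pos hl, lf_att_leaf hN hx hl]
        have hpos : 1 ≤ lf N x 0 := by
          rw [lf]
          exact card_pos.2 ⟨w, hl⟩
        have hl' := hl
        rw [lfs, mem_filter] at hl'
        rw [sr_leaf hl'.2.2 (hN.symm hl'.1), Nat.cast_sub hpos]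
        push_cast
        ring
      · rw [if_neg hl, lf_att_other hN hx hw (fun h => hwx h.symm) hl]
        ring
  unfold gen
  rw [Finset.sum_congr rfl hterm, Finset.sum_add_distrib, Finset.sum_ite_eq' (Icc 1 n) x,
    if_pos hx, ← Finset.sum_filter]
  have hfil : (Icc 1 n).filter (fun w => w ∈ lfs N x 0) = lfs N x 0 := by
    ext w
    rw [mem_filter]
    refine ⟨fun h => h.2, fun h => ⟨?_, h⟩⟩
    rw [lfs, mem_filter] at h
    exact hN.sub x h.1
  rw [hfil, Finset.sum_const, nsmul_eq_mul]
  have h1 := lf_div_le hN hI.1 hI.2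
  rw [div_eq_mul_inv] at h1
  have h2 : ((lfs N x 0).card : ℝ) = (lf N x 0 : ℝ) := by rw [lf]
  rw [h2]
  linarith

private theorem upj_lf_le {n : ℕ} {N : Gr} (hN : Ok n N) {x w : ℕ} (hx : x ∈ Icc 1 n)
    (hw : w ∈ Icc 1 n) : lf (RFT81.att N n w) x 0 ≤ lf N x 0 + 1 := by
  by_cases hwx : w = x
  · subst hwx
    rw [lf_att_self hN hw (by omega)]
  · by_cases hl : w ∈ lfs N x 0
    · rw [lf_att_leaf hN hx hl]
      omega
    · rw [lf_att_other hN hx hw (fun h => hwx h.symm) hl]
      omega

theorem J_pot (hW : Wlaw μ W) {R x a : ℕ} (k : ℕ) {n : ℕ} {h : ℕ → ℕ}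
    (hh : Good n h) (hI : Inv2 x a (tr h n)) :
    J μ W R x (fun N => (R : ℝ) - lf N x 0) (k + 1) n h ≤
      J μ W R x (fun N => (R : ℝ) - lf N x 0) k n h -
        J μ W R x (fun N => sr N x) k n h / (2 * (n + k)) := by
  induction k generalizing n h with
  | zero =>
    have hN := hh.ok
    have hx : x ∈ Icc 1 n := by
      by_contra hx
      have ha := hI.1
      rw [hN.out x hx] at ha
      exact notMem_empty a ha
    by_cases hL : lf (tr h n) x 0 < R
    · have e1 : J μ W R x (fun N => (R : ℝ) - lf N x 0) (0 + 1) n h =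
          ∑ w ∈ Icc 1 n, ((R : ℝ) - lf (tr (Function.update h n w) (n + 1)) x 0) *
            μ.real (cyl W (n + 1) (Function.update h n w)) := by
        rw [J, if_pos hL]
        refine Finset.sum_congr rfl fun w hw => ?_
        rw [J]
        split_ifs with h3
        · rfl
        · have h4 : lf (tr (Function.update h n w) (n + 1)) x 0 ≤ lf (tr h n) x 0 + 1 := by
            rw [tr_update hh.1]
            exact upj_lf_le hN hx hw
          have h5 : lf (tr (Function.update h n w) (n + 1)) x 0 = R := by omega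
          rw [h5]
          ring
      have e2 := upj_law hW hh (fun N => (R : ℝ) - lf N x 0)
      have e3 : J μ W R x (fun N => (R : ℝ) - lf N x 0) 0 n h =
          ((R : ℝ) - lf (tr h n) x 0) * μ.real (cyl W n h) := by
        rw [J, if_pos hL]
      have e4 : J μ W R x (fun N => sr N x) 0 n h = sr (tr h n) x * μ.real (cyl W n h) := by
        rw [J, if_pos hL]
      rw [e1, e2, e3, e4]
      have h6 := upj_gen hN hI R
      have hn : (0 : ℝ) < n := by
        have := hh.1
        positivity
      have h7 : gen (fun N => (R : ℝ) - lf N x 0) (tr h n) n / n ≤ - (sr (tr h n) x / 2) / n :=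
        div_le_div_of_nonneg_right h6 hn.le
      have h8 := mul_le_mul_of_nonneg_right h7 (measureReal_nonneg (μ := μ) (s := cyl W n h))
      have h9 : sr (tr h n) x * μ.real (cyl W n h) / (2 * ((n : ℝ) + ((0 : ℕ) : ℝ))) =
          sr (tr h n) x / 2 / n * μ.real (cyl W n h) := by
        rw [Nat.cast_zero, add_zero]
        field_simp
      rw [h9]
      have h10 : - (sr (tr h n) x / 2) / n * μ.real (cyl W n h) =
          - (sr (tr h n) x / 2 / n * μ.real (cyl W n h)) := by ring
      rw [h10] at h8
      linarith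
    · simp only [J, if_neg hL]
      norm_num
  | succ k ih =>
    by_cases hL : lf (tr h n) x 0 < R
    · have e1 : ∀ (f : Gr → ℝ) (j : ℕ), J μ W R x f (j + 1) n h =
          ∑ w ∈ Icc 1 n, J μ W R x f j (n + 1) (Function.update h n w) := by
        intro f j
        rw [J, if_pos hL]
      rw [e1 _ (k + 1), e1 _ k, e1 _ k, Finset.sum_div, ← Finset.sum_sub_distrib]
      refine Finset.sum_le_sum fun w hw => ?_
      have hI' : Inv2 x a (tr (Function.update h n w) (n + 1)) := by
        rw [tr_update hh.1]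
        exact hI.att hh.ok hw
      have h1 := ih (hh.upd hw) hI'
      have h2 : (2 : ℝ) * (((n + 1 : ℕ) : ℝ) + k) = 2 * (n + ((k + 1 : ℕ) : ℝ)) := by
        push_cast
        ring
      rw [h2] at h1
      exact h1
    · simp only [J, if_neg hL]
      norm_num

end Pool.Agent.RFT81
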