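import Pool.Agent.RFT81.StepA
import Pool.Agent.RFT81.UpJ

/-!
# [RFT-UpB] The upper bound from a supermartingale, second part

`J_small`: sum `J_pot` over `k` (telescoping; `J` of `R - lf N x 0` is `≥ 0` and at most
`R * μ (cyl W n h)` for `k = 0`), and `∑ 1 / (n + k) = ∞`.
`stepC`: induction on `k`; if `R ≤ L` use `stepA` (`R ≥ 6`, `5 / L ≤ 5 / R`), otherwise `part`.
`up_bound`: for all `R ≥ 6`, `η > 0` take `k` from `J_small`; then
`J 1 = J f + J (1 - f) ≤ f μ(cyl) + c J (sr · x) ≤ f μ(cyl) + c η`, and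
`μ (Z0 W x ∩ cyl) ≤ (5 / R) μ(cyl) + J 1`.
-/

namespace Pool.Agent.RFT81

open Finset MeasureTheory Filter

variable {Ω : Type*} [MeasurableSpace Ω] {μ : Measure Ω} [IsProbabilityMeasure μ] {W : ℕ → Ω → ℕ}

private theorem upb_J_nonneg {R x : ℕ} (k : ℕ) {n : ℕ} {h : ℕ → ℕ} :
    0 ≤ J μ W R x (fun N => (R : ℝ) - lf N x 0) k n h := by
  induction k generalizing n h with
  | zero =>
    unfold J
    split_ifs with hL
    · refine mul_nonneg ?_ measureReal_nonneg
      have : (lf (tr h n) x 0 : ℝ) ≤ R := by exact_mod_cast hL.le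
      linarith
    · exact le_refl _
  | succ k ih =>
    unfold J
    split_ifs
    · exact Finset.sum_nonneg fun w _ => ih
    · exact le_refl _

private theorem upb_sum (hW : Wlaw μ W) {R x a : ℕ} {n : ℕ} {h : ℕ → ℕ}
    (hh : Good n h) (hI : Inv2 x a (tr h n)) {η : ℝ}
    (hall : ∀ k, η < J μ W R x (fun N => sr N x) k n h) (k : ℕ) :
    J μ W R x (fun N => (R : ℝ) - lf N x 0) k n h ≤
      J μ W R x (fun N => (R : ℝ) - lf N x 0) 0 n h -
        η / 2 * ∑ i ∈ Finset.range k, 1 / ((n : ℝ) + i) := by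
  have hn : (0 : ℝ) < n := by
    have := hh.1
    positivity
  induction k with
  | zero => simp
  | succ k ih =>
    have h1 := J_pot (R := R) hW k hh hI
    have h2 : η / (2 * ((n : ℝ) + k)) ≤
        J μ W R x (fun N => sr N x) k n h / (2 * ((n : ℝ) + k)) := by
      apply div_le_div_of_nonneg_right (hall k).le
      positivity
    have h3 : η / (2 * ((n : ℝ) + k)) = η / 2 * (1 / ((n : ℝ) + k)) := by
      have : (n : ℝ) + k ≠ 0 := by positivity
      field_simp
    rw [Finset.sum_range_succ, mul_add]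
    linarith

theorem J_small (hW : Wlaw μ W) {R x a : ℕ} {n : ℕ} {h : ℕ → ℕ}
    (hh : Good n h) (hI : Inv2 x a (tr h n)) {η : ℝ} (hη : 0 < η) :
    ∃ k, J μ W R x (fun N => sr N x) k n h ≤ η := by
  by_contra hcon
  push Not at hcon
  have h1 := upb_sum hW hh hI hcon
  have hn : (0 : ℝ) < n := by
    have := hh.1
    positivity
  have htend : Tendsto (fun k : ℕ => ∑ i ∈ Finset.range k, 1 / ((n : ℝ) + i)) atTop atTop := by
    have h2 := Real.tendsto_sum_range_one_div_nat_succ_atTop
    have h3 : Tendsto (fun k : ℕ => (1 / (n : ℝ)) * ∑ i ∈ Finset.range k, (1 / ((i : ℝ) + 1)))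
        atTop atTop := Tendsto.const_mul_atTop (by positivity) h2
    refine tendsto_atTop_mono ?_ h3
    intro k
    rw [Finset.mul_sum]
    refine Finset.sum_le_sum fun i _ => ?_
    rw [div_mul_div_comm, one_mul]
    apply one_div_le_one_div_of_le (by positivity)
    have : (1 : ℝ) ≤ n := by
      have := hh.1
      exact_mod_cast (by omega : 1 ≤ n)
    nlinarith [(Nat.cast_nonneg i : (0 : ℝ) ≤ i)]
  obtain ⟨k, hk⟩ := (htend.eventually_gt_atTop
    (J μ W R x (fun N => (R : ℝ) - lf N x 0) 0 n h / (η / 2))).exists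
  have h4 := h1 k
  have h5 := upb_J_nonneg (μ := μ) (W := W) (R := R) (x := x) k (n := n) (h := h)
  rw [div_lt_iff₀ (by positivity)] at hk
  linarith

theorem stepC (hW : Wlaw μ W) {R x a : ℕ} (hR : 6 ≤ R) (k : ℕ) {n : ℕ} {h : ℕ → ℕ}
    (hh : Good n h) (hI : Inv2 x a (tr h n)) :
    μ.real (Z0 W x ∩ cyl W n h) ≤
      5 / R * μ.real (cyl W n h) + J μ W R x (fun _ => 1) k n h := by
  have hbig : ∀ {n : ℕ} {h : ℕ → ℕ}, Good n h → Inv2 x a (tr h n) →
      ¬ lf (tr h n) x 0 < R → μ.real (Z0 W x ∩ cyl W n h) ≤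
      5 / R * μ.real (cyl W n h) + 0 := by
    intro n h hh hI hL
    have hL' : R ≤ lf (tr h n) x 0 := by omega
    have hN := hh.ok
    have hx : x ∈ Icc 1 n := by
      by_contra hx
      have ha := hI.1
      rw [hN.out x hx] at ha
      exact notMem_empty a ha
    have h1 := stepA hW hh hx (by omega)
    have h2 : (5 : ℝ) / (lf (tr h n) x 0 : ℝ) ≤ 5 / R := by
      apply div_le_div_of_nonneg_left (by norm_num)
      · have : 0 < R := by omega
        positivity
      · exact_mod_cast hL'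
    have h3 := mul_le_mul_of_nonneg_right h2 (measureReal_nonneg (μ := μ) (s := cyl W n h))
    linarith
  induction k generalizing n h with
  | zero =>
    unfold J
    split_ifs with hL
    · have h1 : μ.real (Z0 W x ∩ cyl W n h) ≤ μ.real (cyl W n h) :=
        measureReal_mono Set.inter_subset_right
      have h2 : (0 : ℝ) ≤ 5 / R * μ.real (cyl W n h) :=
        mul_nonneg (by positivity) measureReal_nonneg
      linarith
    · exact hbig hh hI hL
  | succ k ih =>
    unfold J
    split_ifs with hL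
    · rw [part hW hh (Z0_meas hW.meas x)]
      have h1 : μ.real (cyl W n h) =
          ∑ w ∈ Icc 1 n, μ.real (cyl W (n + 1) (Function.update h n w)) := by
        have := part hW hh (E := Set.univ) MeasurableSet.univ
        simpa [Set.univ_inter] using this
      rw [h1, Finset.mul_sum, ← Finset.sum_add_distrib]
      refine Finset.sum_le_sum fun w hw => ?_
      refine ih (hh.upd hw) ?_
      rw [tr_update hh.1]
      exact hI.att hh.ok hw
    · exact hbig hh hI hL

theorem up_bound (hW : Wlaw μ W) {x a : ℕ} {f : Gr → ℝ} {c : ℝ} (hc : 0 ≤ c)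
    (hf0 : ∀ n N, Ok n N → Inv2 x a N → 0 ≤ f N)
    (hg : ∀ n N, Ok n N → Inv2 x a N → gen f N n ≤ 0)
    (hn : ∀ n N, Ok n N → Inv2 x a N → 1 - f N ≤ c * sr N x)
    {n : ℕ} {h : ℕ → ℕ} (hh : Good n h) (hI : Inv2 x a (tr h n)) :
    μ.real (Z0 W x ∩ cyl W n h) ≤ f (tr h n) * μ.real (cyl W n h) := by
  have key : ∀ R : ℕ, 6 ≤ R → ∀ η : ℝ, 0 < η → μ.real (Z0 W x ∩ cyl W n h) ≤
      5 / R * μ.real (cyl W n h) + (f (tr h n) * μ.real (cyl W n h) + c * η) := by
    intro R hR η hη
    obtain ⟨k, hk⟩ := J_small (R := R) hW hh hI hη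
    have h1 := stepC hW hR k hh hI
    have h2 : J μ W R x (fun _ => 1) k n h ≤
        J μ W R x (fun N => 1 * f N + c * sr N x) k n h := by
      refine J_mono hW ?_ k hh hI
      intro m N hN hI'
      have := hn m N hN hI'
      linarith
    rw [J_lin hW (f := f) (g := fun N => sr N x) 1 c k] at h2
    have h3 := J_super (R := R) hW hf0 hg k hh hI
    have h4 := mul_le_mul_of_nonneg_left hk hc
    linarith
  have key2 : ∀ R : ℕ, 6 ≤ R → μ.real (Z0 W x ∩ cyl W n h) ≤
      5 / R * μ.real (cyl W n h) + f (tr h n) * μ.real (cyl W n h) := by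
    intro R hR
    refine le_of_forall_pos_le_add fun ε hε => ?_
    have h1 := key R hR (ε / (c + 1)) (by positivity)
    have h2 : c * (ε / (c + 1)) ≤ ε := by
      rw [mul_div_assoc', div_le_iff₀ (by linarith)]
      nlinarith
    linarith
  have hlim : Tendsto (fun R : ℕ => 5 / (R : ℝ) * μ.real (cyl W n h) +
      f (tr h n) * μ.real (cyl W n h)) atTop
      (nhds (0 * μ.real (cyl W n h) + f (tr h n) * μ.real (cyl W n h))) := by
    apply Tendsto.add_const
    apply Tendsto.mul_const
    exact tendsto_const_div_atTop_nhds_zero_nat 5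
  rw [zero_mul, zero_add] at hlim
  refine ge_of_tendsto hlim ?_
  filter_upwards [eventually_ge_atTop 6] with R hR
  exact key2 R hR

end Pool.Agent.RFT81
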