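import Pool.Agent.RFT81.LowB
import Pool.Agent.RFT81.UpB
import Pool.Agent.RFT81.SupPhi
import Pool.Agent.RFT81.SubYx

/-!
# [RFT-Local] The bounds for the two last vertices

In all cases apply `low_bound` (with `Yf` or `Yx`) or `up_bound` (with `Phi`).  For `Yf` the
invariant is `p ∈ N y`, for `Yx` it is `x ∈ N y ∧ a ∈ N x ∧ a ≠ y ∧ 2 ≤ |N a|`; they are kept by
attachments since neighbourhoods only grow (for vertices `≤ n`).
-/

namespace Pool.Agent.RFT81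

open Finset MeasureTheory

variable {Ω : Type*} [MeasurableSpace Ω] {μ : Measure Ω} [IsProbabilityMeasure μ] {W : ℕ → Ω → ℕ}
variable {θ c : ℝ} {H P h₀ Q X : ℕ → ℕ → ℝ} {A B : ℕ → ℝ}

private theorem sub_att {n : ℕ} {N : Gr} {w v : ℕ} (hv : v ∈ Icc 1 n) : N v ⊆ att N n w v := by
  have hv' : v ≠ n + 1 := by
    simp only [mem_Icc] at hv
    omega
  unfold att
  rw [if_neg hv']
  split_ifs
  · exact subset_insert _ _
  · exact Subset.refl _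

private theorem nb_mem {n : ℕ} {N : Gr} (hN : Ok n N) {y c : ℕ} (hc : c ∈ N y) : y ∈ Icc 1 n :=
  hN.sub c (hN.symm hc)

theorem low_Yf (hW : Wlaw μ W) (h0 : Low0 h₀) (h1 : Low1 h₀ Q) {n : ℕ} {h : ℕ → ℕ}
    (hh : Good n h) {y p : ℕ} (hp : p ∈ tr h n y) :
    Yf h₀ Q y p (tr h n) * μ.real (cyl W n h) ≤ μ.real (Z0 W y ∩ cyl W n h) := by
  refine low_bound hW (f := Yf h₀ Q y p) (Inv := fun _ N => p ∈ N y) (y := y) ?_ ?_ ?_ ?_ ?_ hh hp
  · intro n N w hN hI _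
    exact sub_att (nb_mem hN hI) hI
  · intro n N hN hI
    exact nb_mem hN hI
  · intro n N _ _
    exact Yf_le h0 h1
  · intro n N _ _ h3
    exact (Yf_zero h3).le
  · intro n N hN hI
    exact gen_Yf h0 h1 hN hI

theorem low_Yx (hW : Wlaw μ W) (h0 : Low0 h₀) (h1 : Low1 h₀ Q) (h2 : Low2 Q X) {n : ℕ}
    {h : ℕ → ℕ} (hh : Good n h) {y x a : ℕ} (hx : x ∈ tr h n y) (ha : a ∈ tr h n x)
    (hay : a ≠ y) (ha2 : 2 ≤ (tr h n a).card) :
    Yx h₀ Q X y x a (tr h n) * μ.real (cyl W n h) ≤ μ.real (Z0 W y ∩ cyl W n h) := by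
  refine low_bound hW (f := Yx h₀ Q X y x a)
    (Inv := fun _ N => x ∈ N y ∧ a ∈ N x ∧ 2 ≤ (N a).card) (y := y) ?_ ?_ ?_ ?_ ?_ hh
    ⟨hx, ha, ha2⟩
  · rintro n N w hN ⟨hx', ha', h2'⟩ _
    refine ⟨sub_att (nb_mem hN hx') hx', sub_att (nb_mem hN ha') ha', ?_⟩
    exact h2'.trans (card_le_card (sub_att (nb_mem hN (hN.symm ha'))))
  · intro n N hN hI
    exact nb_mem hN hI.1
  · rintro n N hN ⟨hx', ha', h2'⟩
    exact Yx_le h0 h1 h2 hN hx' ha' hay h2'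
  · intro n N _ _ h3
    exact (Yx_zero h3).le
  · rintro n N hN ⟨hx', ha', h2'⟩
    exact gen_Yx h0 h1 h2 hN hx' ha' hay h2'

theorem up_Phi (hW : Wlaw μ W) (hU : UpC θ c H P A B) {n : ℕ} {h : ℕ → ℕ} (hh : Good n h)
    {x a : ℕ} (ha : a ∈ tr h n x) (h3 : 3 ≤ (tr h n x).card + (tr h n a).card) :
    μ.real (Z0 W x ∩ cyl W n h) ≤ Phi H P A B x a (tr h n) * μ.real (cyl W n h) := by
  refine up_bound hW (x := x) (a := a) (f := Phi H P A B x a) hU.c0 ?_ ?_ ?_ hh ⟨ha, h3⟩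
  · intro n N hN hI
    exact Phi_nonneg hU hN hI.1
  · intro n N hN hI
    exact gen_Phi hU hN hI.1
  · intro n N hN hI
    exact Phi_near hU hN hI.1

end Pool.Agent.RFT81
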