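import Pool.Agent.RFT81.Zset

/-!
# [RFT-LowB] The lower bound from a submartingale

Paper proof.  First, by induction on `k`, for all `n`, `h` with `Good n h` and `Inv n (tr h n)`:
`f (tr h n) * μ (cyl W n h) ≤ μ ({ω | dg W (n + k) y ω ≤ 2} ∩ cyl W n h)`.  For `k = 0` the event
contains `cyl W n h` or is disjoint from it (`tr_of_cyl`), according to `|tr h n y| ≤ 2`.  In the
step use `part`, the induction hypothesis for `update h n w` (`tr_update`), `Wlaw.law` and
`∑ q f (att ..) = f + gen f / n ≥ f` (`sum_q_mul`).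
Then let `k → ∞`: `dg W n y ω` is nondecreasing in `n`, so the events decrease to the event that
`dg W m y ω ≤ 2` for all `m` (continuity from above), which is contained in `Z0 W y` (`mem_Z0`).
-/

namespace Pool.Agent.RFT81

open Finset MeasureTheory Filter

variable {Ω : Type*} [MeasurableSpace Ω] {μ : Measure Ω} [IsProbabilityMeasure μ] {W : ℕ → Ω → ℕ}

theorem card_mono (h : ℕ → ℕ) (v : ℕ) {n m : ℕ} (hn : 2 ≤ n) (hnm : n ≤ m) (hv : v ≤ n) :
    (tr h n v).card ≤ (tr h m v).card := by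
  induction m, hnm using Nat.le_induction with
  | base => exact le_rfl
  | succ m hm ih =>
    refine ih.trans ?_
    rw [tr_succ (hn.trans hm)]
    refine Finset.card_le_card ?_
    unfold att
    rw [if_neg (by omega)]
    split_ifs
    · exact Finset.subset_insert _ _
    · exact Finset.Subset.refl _

private theorem low_aux (hW : Wlaw μ W) {f : Gr → ℝ} {Inv : ℕ → Gr → Prop} {y : ℕ}
    (hInv : ∀ n N w, Ok n N → Inv n N → w ∈ Icc 1 n → Inv (n + 1) (att N n w))
    (hf : ∀ n N, Ok n N → Inv n N → f N ≤ 1)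
    (hf3 : ∀ n N, Ok n N → Inv n N → 3 ≤ (N y).card → f N ≤ 0)
    (hg : ∀ n N, Ok n N → Inv n N → 0 ≤ gen f N n) (k : ℕ) :
    ∀ (n : ℕ) (h : ℕ → ℕ), Good n h → Inv n (tr h n) →
      f (tr h n) * μ.real (cyl W n h) ≤ μ.real ({ω | dg W (n + k) y ω ≤ 2} ∩ cyl W n h) := by
  induction k with
  | zero =>
    intro n h hh hI
    by_cases hc : (tr h n y).card ≤ 2
    · have hE : {ω | dg W (n + 0) y ω ≤ 2} ∩ cyl W n h = cyl W n h := by
        refine Set.inter_eq_right.2 fun ω hω => ?_
        show (tr (fun i => W i ω) (n + 0) y).card ≤ 2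
        rw [Nat.add_zero, tr_of_cyl hω le_rfl]
        exact hc
      rw [hE]
      exact mul_le_of_le_one_left measureReal_nonneg (hf n _ hh.ok hI)
    · refine le_trans ?_ measureReal_nonneg
      exact mul_nonpos_of_nonpos_of_nonneg (hf3 n _ hh.ok hI (by omega)) measureReal_nonneg
  | succ k ih =>
    intro n h hh hI
    have hE : MeasurableSet {ω | dg W (n + (k + 1)) y ω ≤ 2} :=
      (dg_meas hW.meas (n + (k + 1)) y) (measurableSet_Iic (a := 2))
    rw [part hW hh hE]
    have hn0 : (0 : ℝ) < n := by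
      have := hh.1
      positivity
    have h1 : ∀ w ∈ Icc 1 n, μ.real (cyl W n h) * (q (tr h n) n w * f (att (tr h n) n w)) ≤
        μ.real ({ω | dg W (n + (k + 1)) y ω ≤ 2} ∩ cyl W (n + 1) (Function.update h n w)) := by
      intro w hw
      have h2 := ih (n + 1) (Function.update h n w) (hh.upd hw)
        (by rw [tr_update hh.1]; exact hInv n _ w hh.ok hI hw)
      rw [tr_update hh.1, hW.law n h w hh hw] at h2
      have h3 : n + 1 + k = n + (k + 1) := by omega
      rw [h3] at h2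
      refine le_trans (le_of_eq ?_) h2
      ring
    refine le_trans ?_ (Finset.sum_le_sum h1)
    rw [← Finset.mul_sum, sum_q_mul hh.ok]
    have h4 : 0 ≤ gen f (tr h n) n / n := div_nonneg (hg n _ hh.ok hI) hn0.le
    have h5 : 0 ≤ μ.real (cyl W n h) := measureReal_nonneg
    nlinarith [mul_nonneg h5 h4]

theorem low_bound (hW : Wlaw μ W) {f : Gr → ℝ} {Inv : ℕ → Gr → Prop} {y : ℕ}
    (hInv : ∀ n N w, Ok n N → Inv n N → w ∈ Icc 1 n → Inv (n + 1) (att N n w))
    (hy : ∀ n N, Ok n N → Inv n N → y ∈ Icc 1 n)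
    (hf : ∀ n N, Ok n N → Inv n N → f N ≤ 1)
    (hf3 : ∀ n N, Ok n N → Inv n N → 3 ≤ (N y).card → f N ≤ 0)
    (hg : ∀ n N, Ok n N → Inv n N → 0 ≤ gen f N n)
    {n : ℕ} {h : ℕ → ℕ} (hh : Good n h) (hI : Inv n (tr h n)) :
    f (tr h n) * μ.real (cyl W n h) ≤ μ.real (Z0 W y ∩ cyl W n h) := by
  have key := low_aux hW hInv hf hf3 hg
  have hyn : y ∈ Icc 1 n := hy n _ hh.ok hI
  rw [mem_Icc] at hyn
  set A : ℕ → Set Ω := fun k => {ω | dg W (n + k) y ω ≤ 2} ∩ cyl W n h with hA
  have hAm : ∀ k, MeasurableSet (A k) := fun k =>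
    ((dg_meas hW.meas (n + k) y) (measurableSet_Iic (a := 2))).inter (cyl_meas hW n h)
  have hanti : Antitone A := by
    intro k l hkl ω hω
    refine ⟨le_trans (card_mono (fun i => W i ω) y (by have := hh.1; omega) (by omega)
      (by omega)) hω.1, hω.2⟩
  have hlim : Tendsto (fun k => μ (A k)) atTop (nhds (μ (⋂ k, A k))) :=
    tendsto_measure_iInter_atTop (fun k => (hAm k).nullMeasurableSet) hanti
      ⟨0, measure_ne_top _ _⟩
  have hlim' : Tendsto (fun k => μ.real (A k)) atTop (nhds (μ.real (⋂ k, A k))) := by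
    have := (ENNReal.tendsto_toReal (measure_ne_top μ (⋂ k, A k))).comp hlim
    exact this
  have hle : f (tr h n) * μ.real (cyl W n h) ≤ μ.real (⋂ k, A k) :=
    ge_of_tendsto' hlim' fun k => key k n h hh hI
  refine hle.trans (measureReal_mono ?_ (measure_ne_top _ _))
  intro ω hω
  rw [Set.mem_iInter] at hω
  refine ⟨mem_Z0 (b := n + 2) ?_, (hω 0).2⟩
  intro m
  by_cases hm : n ≤ m
  · obtain ⟨k, rfl⟩ := Nat.exists_eq_add_of_le hm
    have := (hω k).1
    have h2 : dg W (n + k) y ω ≤ 2 := this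
    omega
  · have := card_le (fun i => W i ω) m y
    unfold dg
    omega

end Pool.Agent.RFT81
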