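import Pool.Agent.RFT81.TabB
import Pool.Agent.RFT81.AllC

/-!
# [RFT-TabL] The lower functions from the tables

Paper proof.  For `k < 60` all conditions are the recursions `eh_rec` etc. (floor division) divided
by `sc`, and the checks of `TabB`; in the row `59` the entries of the row `60` of the tables are at
most the exact values (`eh_top`, `eq_top`).  For `k ≥ 60` they are computations with the explicit
functions:
* `h k l = (2l - 1)/(2(l + 1))` for `l ≥ 1`, `h k 0 = 0`;
* `Q k l = l/(l+1)` for `l + 2 ≤ k`: the expression is at least `1/(l+2) - 1/k ≥ 0`; for `l = k - 1`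
  it is `(50 l - 1)/(50 (l+1)) = 1 - c/(l+1)` with `c = 51/50`, and the expression is at least
  `c/(M+1) + c/M - 2/M ≥ 0` with `M = l + 1 ≥ 60`;
* `X k l = 0`.
-/

namespace Pool.Agent.RFT81

/-- lower function for a neighbour -/
noncomputable def hR (k l : ℕ) : ℝ :=
  if k < 60 then (eh k l : ℝ) / sc
  else if l = 0 then 0 else (2 * (l : ℝ) - 1) / (2 * ((l : ℝ) + 1))

/-- lower function for a leaf -/
noncomputable def QR (k l : ℕ) : ℝ :=
  if k < 60 then (eq k l : ℝ) / sc
  else if l + 2 ≤ k then (l : ℝ) / ((l : ℝ) + 1)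
  else (50 * (l : ℝ) - 1) / (50 * ((l : ℝ) + 1))

/-- correction -/
noncomputable def XR (k l : ℕ) : ℝ := if k < 60 then (ex k l : ℝ) / sc else 0

private theorem sc_pos : (0 : ℝ) < sc := by
  unfold sc
  norm_num

/-- multiplying a floor quotient by the divisor -/
private theorem fl (a b c : ℕ) (h : a = b / c) : (a : ℝ) * c ≤ b := by
  have h1 : a * c ≤ b := by
    rw [h]
    exact Nat.div_mul_le_self b c
  exact_mod_cast h1

/-- the entries of the row `k + 1` of the table of `h` -/
private theorem eh_le_hR {k l : ℕ} (hk : k < 60) (hl : l < k) :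
    (eh (k + 1) (l + 1) : ℝ) ≤ sc * hR (k + 1) (l + 1) := by
  by_cases h : k + 1 < 60
  · unfold hR
    rw [if_pos h, mul_div_cancel₀ _ sc_pos.ne']
  · have e : k + 1 = 60 := by omega
    rw [e]
    unfold hR
    rw [if_neg (by omega), if_neg (by omega)]
    have h1 := fl _ _ _ (eh_top (l := l + 1) (by omega))
    have h2 : ((2 * (l + 1) - 1 : ℕ) : ℝ) = 2 * ((l + 1 : ℕ) : ℝ) - 1 := by
      rw [Nat.cast_sub (by omega)]
      push_cast
      ring
    rw [Nat.cast_mul sc, h2] at h1
    have h3 : (0 : ℝ) < 2 * (((l + 1 : ℕ) : ℝ) + 1) := by positivity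
    rw [← mul_div_assoc, le_div_iff₀ h3]
    refine le_trans (le_of_eq ?_) h1
    push_cast
    ring

/-- the entries of the row `k + 1` of the table of `Q` -/
private theorem eq_le_QR {k l : ℕ} (hk : k < 60) (hl : l < k) :
    (eq (k + 1) (l + 1) : ℝ) ≤ sc * QR (k + 1) (l + 1) := by
  by_cases h : k + 1 < 60
  · unfold QR
    rw [if_pos h, mul_div_cancel₀ _ sc_pos.ne']
  · have e : k + 1 = 60 := by omega
    rw [e]
    unfold QR
    rw [if_neg (by omega)]
    have h0 := eq_top (l := l + 1) (by omega)
    by_cases h5 : l + 1 + 2 ≤ 60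
    · rw [if_pos h5] at h0 ⊢
      have h1 := fl _ _ _ h0
      have h3 : (0 : ℝ) < (((l + 1 : ℕ) : ℝ) + 1) := by positivity
      rw [← mul_div_assoc, le_div_iff₀ h3]
      refine le_trans (le_of_eq ?_) (le_trans h1 (le_of_eq ?_))
      · push_cast
        ring
      · push_cast
        ring
    · rw [if_neg h5] at h0 ⊢
      have h1 := fl _ _ _ h0
      have h2 : ((50 * (l + 1) - 1 : ℕ) : ℝ) = 50 * ((l + 1 : ℕ) : ℝ) - 1 := by
        rw [Nat.cast_sub (by omega)]
        push_cast
        ring
      rw [Nat.cast_mul sc, h2] at h1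
      have h3 : (0 : ℝ) < 50 * (((l + 1 : ℕ) : ℝ) + 1) := by positivity
      rw [← mul_div_assoc, le_div_iff₀ h3]
      refine le_trans (le_of_eq ?_) h1
      push_cast
      ring

/-- the entries of the row `k + 1` of the table of `X` -/
private theorem ex_eq_XR {k l : ℕ} (hk : k < 60) :
    (ex (k + 1) (l + 1) : ℝ) = sc * XR (k + 1) (l + 1) := by
  by_cases h : k + 1 < 60
  · unfold XR
    rw [if_pos h, mul_div_cancel₀ _ sc_pos.ne']
  · have e : k + 1 = 60 := by omega
    rw [e]
    unfold XR
    rw [if_neg (by omega), ex_top]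
    simp

private theorem hR_nonneg (k l : ℕ) : 0 ≤ hR k l := by
  unfold hR
  split_ifs with h1 h2
  · positivity
  · exact le_rfl
  · have h3 : (1 : ℝ) ≤ l := by
      have : 1 ≤ l := by omega
      exact_mod_cast this
    apply div_nonneg
    · linarith
    · linarith

private theorem hR_low {k : ℕ} (hk : k < 60) (l : ℕ) : (eh k l : ℝ) = sc * hR k l := by
  unfold hR
  rw [if_pos hk, mul_div_cancel₀ _ sc_pos.ne']

private theorem QR_low {k : ℕ} (hk : k < 60) (l : ℕ) : (eq k l : ℝ) = sc * QR k l := by
  unfold QR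
  rw [if_pos hk, mul_div_cancel₀ _ sc_pos.ne']

private theorem XR_low {k : ℕ} (hk : k < 60) (l : ℕ) : (ex k l : ℝ) = sc * XR k l := by
  unfold XR
  rw [if_pos hk, mul_div_cancel₀ _ sc_pos.ne']

private theorem hR_big {k l : ℕ} (hk : 60 ≤ k) (hl : 1 ≤ l) :
    hR k l = (2 * (l : ℝ) - 1) / (2 * ((l : ℝ) + 1)) := by
  unfold hR
  rw [if_neg (by omega), if_neg (by omega)]

private theorem hR_big0 {k : ℕ} (hk : 60 ≤ k) : hR k 0 = 0 := by
  unfold hR
  rw [if_neg (by omega), if_pos rfl]

private theorem QR_big {k l : ℕ} (hk : 60 ≤ k) (hl : l + 2 ≤ k) :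
    QR k l = (l : ℝ) / ((l : ℝ) + 1) := by
  unfold QR
  rw [if_neg (by omega), if_pos hl]

private theorem QR_big1 {k l : ℕ} (hk : 60 ≤ k) (hl : k < l + 2) :
    QR k l = (50 * (l : ℝ) - 1) / (50 * ((l : ℝ) + 1)) := by
  unfold QR
  rw [if_neg (by omega), if_neg (by omega)]

private theorem XR_big {k : ℕ} (hk : 60 ≤ k) (l : ℕ) : XR k l = 0 := by
  unfold XR
  rw [if_neg (by omega)]

private theorem le_of_sc {a b : ℝ} (h : (sc : ℝ) * a ≤ sc * b) : a ≤ b :=
  le_of_mul_le_mul_left h sc_pos

private theorem hR_mono (k l : ℕ) (hl : l + 1 ≤ k) : hR k l ≤ hR (k + 1) (l + 1) := by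
  by_cases hk : k < 60
  · apply le_of_sc
    rw [← hR_low hk]
    refine le_trans ?_ (eh_le_hR hk (by omega))
    exact_mod_cast eh_mono (by omega) hk (by omega)
  · rcases Nat.eq_zero_or_pos l with h0 | h0
    · subst h0
      rw [hR_big0 (by omega)]
      exact hR_nonneg _ _
    · rw [hR_big (by omega) h0, hR_big (by omega) (by omega)]
      have h3 : (1 : ℝ) ≤ l := by exact_mod_cast h0
      push_cast
      rw [div_le_div_iff₀ (by linarith) (by linarith)]
      nlinarith

theorem low0_hR : Low0 hR := by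
  refine ⟨hR_nonneg, ?_, hR_mono, ?_⟩
  · intro k l
    by_cases hk : k < 60
    · apply le_of_sc
      rw [← hR_low hk, mul_one]
      exact_mod_cast eh_le hk
    · rcases Nat.eq_zero_or_pos l with h0 | h0
      · subst h0
        rw [hR_big0 (by omega)]
        exact zero_le_one
      · rw [hR_big (by omega) h0]
        have h3 : (1 : ℝ) ≤ l := by exact_mod_cast h0
        rw [div_le_one (by linarith)]
        linarith
  · intro k l hl
    have hk0 : (0 : ℝ) < k := by
      have : 0 < k := by omega
      exact_mod_cast this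
    by_cases hk : k < 60
    · have h1 := fl _ _ _ (eh_rec hk (show l < k by omega))
      have h2 := eh_le_hR hk (show l < k by omega)
      push_cast at h1
      rw [hR_low hk, hR_low hk] at h1
      have h3 : (k : ℝ) * (2 * l + 1) * (eh (k + 1) (l + 1) : ℝ) ≤
          (k : ℝ) * (2 * l + 1) * (sc * hR (k + 1) (l + 1)) :=
        mul_le_mul_of_nonneg_left h2 (by positivity)
      have h4 : hR k l * (k * (2 * (l : ℝ) + 1) + 2 * l + 2) ≤
          k * (2 * (l : ℝ) + 1) * hR (k + 1) (l + 1) + 2 * l * hR k (l - 1) := by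
        apply le_of_sc
        refine le_trans (le_of_eq ?_) (le_trans (le_trans h1 (add_le_add_left h3 _)) (le_of_eq ?_))
        · ring
        · ring
      have e : ((l : ℝ) + 1 / 2) * (hR (k + 1) (l + 1) - hR k l) +
          (l : ℝ) / k * (hR k (l - 1) - hR k l) - (1 / (k : ℝ)) * hR k l =
          (k * (2 * (l : ℝ) + 1) * hR (k + 1) (l + 1) + 2 * l * hR k (l - 1) -
            hR k l * (k * (2 * (l : ℝ) + 1) + 2 * l + 2)) / (2 * k) := by
        field_simp
        ring
      have h5 : 0 ≤ (k * (2 * (l : ℝ) + 1) * hR (k + 1) (l + 1) + 2 * l * hR k (l - 1) -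
            hR k l * (k * (2 * (l : ℝ) + 1) + 2 * l + 2)) / (2 * k) :=
        div_nonneg (by linarith) (by linarith)
      linarith
    · rcases Nat.eq_zero_or_pos l with h0 | h0
      · subst h0
        rw [hR_big0 (by omega)]
        have := hR_nonneg (k + 1) (0 + 1)
        simp
        simpa using this
      · have h3 : (1 : ℝ) ≤ l := by exact_mod_cast h0
        have hm : (2 * (l : ℝ) - 3) / (2 * l) ≤ hR k (l - 1) := by
          rcases Nat.eq_zero_or_pos (l - 1) with h1 | h1
          · have : l = 1 := by omega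
            subst this
            have := hR_nonneg k (1 - 1)
            refine le_trans ?_ this
            norm_num
          · rw [hR_big (by omega) h1]
            have e : ((l - 1 : ℕ) : ℝ) = l - 1 := by
              rw [Nat.cast_sub h0]
              simp
            rw [e]
            apply le_of_eq
            congr 1
            · ring
            · ring
        rw [hR_big (by omega) h0, hR_big (by omega) (show 1 ≤ l + 1 by omega)]
        have e : ((l : ℝ) + 1 / 2) * ((2 * ((l + 1 : ℕ) : ℝ) - 1) / (2 * (((l + 1 : ℕ) : ℝ) + 1)) -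
            (2 * (l : ℝ) - 1) / (2 * ((l : ℝ) + 1))) +
            (l : ℝ) / k * ((2 * (l : ℝ) - 3) / (2 * l) - (2 * (l : ℝ) - 1) / (2 * ((l : ℝ) + 1))) -
            (1 / (k : ℝ)) * ((2 * (l : ℝ) - 1) / (2 * ((l : ℝ) + 1))) =
            (3 * (2 * (l : ℝ) + 1) * k - 4 * (l + 1) * (l + 2)) / (4 * (l + 1) * (l + 2) * k) := by
          have h4 : (l : ℝ) ≠ 0 := by linarith
          have h5 : (l : ℝ) + 1 ≠ 0 := by linarith
          have h6 : (l : ℝ) + 2 ≠ 0 := by linarith
          have h7 : (l : ℝ) + 1 + 1 ≠ 0 := by linarith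
          push_cast
          field_simp
          ring
        have h8 : 4 * ((l : ℝ) + 1) * (l + 2) ≤ 3 * (2 * (l : ℝ) + 1) * k := by
          have h9 : (l : ℝ) + 1 ≤ k := by exact_mod_cast hl
          have h10 : (60 : ℝ) ≤ k := by
            have : 60 ≤ k := by omega
            exact_mod_cast this
          by_cases h11 : l < 3
          · have h12 : (l : ℝ) ≤ 3 := by exact_mod_cast h11.le
            nlinarith
          · have h12 : (3 : ℝ) ≤ l := by
              have : 3 ≤ l := by omega
              exact_mod_cast this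
            nlinarith
        have h13 : 0 ≤ (3 * (2 * (l : ℝ) + 1) * k - 4 * (l + 1) * (l + 2)) /
            (4 * (l + 1) * (l + 2) * k) := by
          apply div_nonneg (by linarith)
          positivity
        have h14 : (l : ℝ) / k * ((2 * (l : ℝ) - 3) / (2 * l) -
            (2 * (l : ℝ) - 1) / (2 * ((l : ℝ) + 1))) ≤
            (l : ℝ) / k * (hR k (l - 1) - (2 * (l : ℝ) - 1) / (2 * ((l : ℝ) + 1))) := by
          apply mul_le_mul_of_nonneg_left _ (by positivity)
          linarith
        linarith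

private theorem QR_le_one (k l : ℕ) : QR k l ≤ 1 := by
  by_cases hk : k < 60
  · apply le_of_sc
    rw [← QR_low hk, mul_one]
    have h := ex_le (k := k) (l := l) hk
    have h2 : eq k l ≤ sc := by omega
    exact_mod_cast h2
  · have hl0 : (0 : ℝ) ≤ l := Nat.cast_nonneg _
    by_cases hl : l + 2 ≤ k
    · rw [QR_big (by omega) hl, div_le_one (by linarith)]
      linarith
    · rw [QR_big1 (by omega) (by omega), div_le_one (by linarith)]
      linarith

private theorem QR_nonneg (k l : ℕ) : 0 ≤ QR k l := by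
  by_cases hk : k < 60
  · unfold QR
    rw [if_pos hk]
    positivity
  · by_cases hl : l + 2 ≤ k
    · rw [QR_big (by omega) hl]
      positivity
    · rw [QR_big1 (by omega) (by omega)]
      have h3 : (1 : ℝ) ≤ l := by
        have : 1 ≤ l := by omega
        exact_mod_cast this
      apply div_nonneg
      · linarith
      · linarith

private theorem QR_mono (k l : ℕ) (hl : l + 1 ≤ k) : QR k l ≤ QR (k + 1) (l + 1) := by
  by_cases hk : k < 60
  · apply le_of_sc
    rw [← QR_low hk]
    refine le_trans ?_ (eq_le_QR hk (by omega))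
    exact_mod_cast eq_mono (by omega) hk (by omega)
  · have hl0 : (0 : ℝ) ≤ l := Nat.cast_nonneg _
    by_cases h2 : l + 2 ≤ k
    · rw [QR_big (by omega) h2, QR_big (by omega) (by omega)]
      push_cast
      rw [div_le_div_iff₀ (by linarith) (by linarith)]
      nlinarith
    · rw [QR_big1 (by omega) (by omega), QR_big1 (by omega) (by omega)]
      push_cast
      rw [div_le_div_iff₀ (by linarith) (by linarith)]
      nlinarith

private theorem hR_one : hR 1 0 = zz / sc := by
  unfold hR
  rw [if_pos (by norm_num), eh_one]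

theorem low1_QR : Low1 hR QR := by
  refine ⟨QR_nonneg, QR_le_one, QR_mono, ?_⟩
  intro k l hl
  have hk0 : (0 : ℝ) < k := by
    have : 0 < k := by omega
    exact_mod_cast this
  have hl0 : (0 : ℝ) ≤ l := Nat.cast_nonneg _
  by_cases hk : k < 60
  · have h1 := fl _ _ _ (eq_rec hk (show l < k by omega))
    have h2 := eq_le_QR hk (show l < k by omega)
    have h0 := fl _ _ _ (show eh k l * zz / sc = eh k l * zz / sc from rfl)
    have h0' : ((eh k l * zz / sc : ℕ) : ℝ) ≤ sc * (hR k l * hR 1 0) := by
      rw [hR_one]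
      rw [← le_div_iff₀ sc_pos] at h0
      refine le_trans h0 (le_of_eq ?_)
      rw [Nat.cast_mul, hR_low hk]
      have := sc_pos.ne'
      field_simp
    obtain ⟨z, hz⟩ : ∃ z : ℕ, z = eh k l * zz / sc := ⟨_, rfl⟩
    rw [← hz] at h1 h0'
    push_cast at h1
    rw [QR_low hk, QR_low hk] at h1
    have h3 : (k : ℝ) * (l + 1) * (eq (k + 1) (l + 1) : ℝ) ≤
        (k : ℝ) * (l + 1) * (sc * QR (k + 1) (l + 1)) :=
      mul_le_mul_of_nonneg_left h2 (by positivity)
    have h4 : QR k l * (k * ((l : ℝ) + 1) + l + 1) ≤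
        k * ((l : ℝ) + 1) * QR (k + 1) (l + 1) + l * QR k (l - 1) + hR k l * hR 1 0 := by
      apply le_of_sc
      have e1 : (sc : ℝ) * (QR k l * (k * ((l : ℝ) + 1) + l + 1)) =
          sc * QR k l * (k * ((l : ℝ) + 1) + l + 1) := by ring
      have e2 : (sc : ℝ) * (k * ((l : ℝ) + 1) * QR (k + 1) (l + 1) + l * QR k (l - 1) +
          hR k l * hR 1 0) = k * ((l : ℝ) + 1) * (sc * QR (k + 1) (l + 1)) +
          l * (sc * QR k (l - 1)) + sc * (hR k l * hR 1 0) := by ring
      rw [e1, e2]
      linarith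
    have e : ((l : ℝ) + 1) * (QR (k + 1) (l + 1) - QR k l) +
        (l : ℝ) / k * (QR k (l - 1) - QR k l) + (1 / (k : ℝ)) * (hR k l * hR 1 0 - QR k l) =
        (k * ((l : ℝ) + 1) * QR (k + 1) (l + 1) + l * QR k (l - 1) + hR k l * hR 1 0 -
          QR k l * (k * ((l : ℝ) + 1) + l + 1)) / k := by
      field_simp
      ring
    rw [e]
    exact div_nonneg (by linarith) hk0.le
  · have hr : 0 ≤ (1 / (k : ℝ)) * (hR k l * hR 1 0) :=
      mul_nonneg (by positivity) (mul_nonneg (hR_nonneg _ _) (hR_nonneg _ _))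
    by_cases h2 : l + 2 ≤ k
    · have hlk : (l : ℝ) + 2 ≤ k := by exact_mod_cast h2
      have key : 0 ≤ ((l : ℝ) + 1) * (QR (k + 1) (l + 1) - QR k l) +
          (l : ℝ) / k * (QR k (l - 1) - QR k l) - (1 / (k : ℝ)) * QR k l := by
        rw [QR_big (by omega) h2, QR_big (by omega) (show l + 1 + 2 ≤ k + 1 by omega)]
        rcases Nat.eq_zero_or_pos l with h0 | h0
        · subst h0
          simp
        · rw [QR_big (by omega) (show l - 1 + 2 ≤ k by omega)]
          have e0 : ((l - 1 : ℕ) : ℝ) = l - 1 := by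
            rw [Nat.cast_sub h0]
            simp
          rw [e0]
          have h3 : (1 : ℝ) ≤ l := by exact_mod_cast h0
          have h4 : (l : ℝ) ≠ 0 := by linarith
          have h5 : (l : ℝ) + 1 ≠ 0 := by linarith
          have h6 : (l : ℝ) + 2 ≠ 0 := by linarith
          have e : ((l : ℝ) + 1) * (((l + 1 : ℕ) : ℝ) / (((l + 1 : ℕ) : ℝ) + 1) -
              (l : ℝ) / (l + 1)) + (l : ℝ) / k * (((l : ℝ) - 1) / ((l : ℝ) - 1 + 1) -
              (l : ℝ) / (l + 1)) - (1 / (k : ℝ)) * ((l : ℝ) / (l + 1)) =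
              1 / ((l : ℝ) + 2) - 1 / k := by
            have h7 : (l : ℝ) + 1 + 1 ≠ 0 := by linarith
            have h8 : (l : ℝ) - 1 + 1 = l := by ring
            rw [h8]
            push_cast
            have h9 : (l : ℝ) + 1 + 1 = l + 2 := by ring
            rw [h9]
            field_simp
            ring
          rw [e]
          have : 1 / (k : ℝ) ≤ 1 / ((l : ℝ) + 2) :=
            one_div_le_one_div_of_le (by linarith) hlk
          linarith
      have e3 : (1 / (k : ℝ)) * (hR k l * hR 1 0 - QR k l) =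
          (1 / (k : ℝ)) * (hR k l * hR 1 0) - (1 / (k : ℝ)) * QR k l := by ring
      rw [e3]
      linarith
    · have hkl : k = l + 1 := by omega
      have h0 : 1 ≤ l := by omega
      have key : 0 ≤ ((l : ℝ) + 1) * (QR (k + 1) (l + 1) - QR k l) +
          (l : ℝ) / k * (QR k (l - 1) - QR k l) - (1 / (k : ℝ)) * QR k l := by
        rw [QR_big1 (by omega) (show k < l + 2 by omega),
          QR_big1 (by omega) (show k + 1 < l + 1 + 2 by omega),
          QR_big (by omega) (show l - 1 + 2 ≤ k by omega)]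
        have e0 : ((l - 1 : ℕ) : ℝ) = l - 1 := by
          rw [Nat.cast_sub h0]
          simp
        have e00 : (k : ℝ) = l + 1 := by
          rw [hkl]
          push_cast
          ring
        rw [e0, e00]
        have h59 : (59 : ℝ) ≤ l := by
          have : 59 ≤ l := by omega
          exact_mod_cast this
        have h4 : (l : ℝ) ≠ 0 := by linarith
        have h5 : (l : ℝ) + 1 ≠ 0 := by linarith
        have h6 : (l : ℝ) + 2 ≠ 0 := by linarith
        have e : ((l : ℝ) + 1) * ((50 * ((l + 1 : ℕ) : ℝ) - 1) / (50 * (((l + 1 : ℕ) : ℝ) + 1)) -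
            (50 * (l : ℝ) - 1) / (50 * ((l : ℝ) + 1))) + (l : ℝ) / (l + 1) *
            (((l : ℝ) - 1) / ((l : ℝ) - 1 + 1) - (50 * (l : ℝ) - 1) / (50 * ((l : ℝ) + 1))) -
            (1 / ((l : ℝ) + 1)) * ((50 * (l : ℝ) - 1) / (50 * ((l : ℝ) + 1))) =
            (51 * ((l : ℝ) + 1) - 49 * (l + 2)) / (50 * (l + 1) * (l + 2)) := by
          have h8 : (l : ℝ) - 1 + 1 = l := by ring
          rw [h8]
          push_cast
          have h9 : (l : ℝ) + 1 + 1 = l + 2 := by ring
          rw [h9]
          field_simp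
          ring
        rw [e]
        apply div_nonneg
        · linarith
        · positivity
      have e3 : (1 / (k : ℝ)) * (hR k l * hR 1 0 - QR k l) =
          (1 / (k : ℝ)) * (hR k l * hR 1 0) - (1 / (k : ℝ)) * QR k l := by ring
      rw [e3]
      linarith

private theorem XR_nonneg (k l : ℕ) : 0 ≤ XR k l := by
  unfold XR
  split_ifs
  · positivity
  · exact le_rfl

theorem low2_XR : Low2 QR XR := by
  refine ⟨XR_nonneg, ?_, ?_, ?_⟩
  · intro k l hl
    by_cases hk : k < 60
    · have h : ((ex k l + 2 * eq k l : ℕ) : ℝ) ≤ ((2 * sc : ℕ) : ℝ) := by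
        exact_mod_cast ex_le hk
      push_cast at h
      rw [XR_low hk, QR_low hk] at h
      apply le_of_sc
      linarith
    · rw [XR_big (by omega)]
      have := QR_le_one k l
      linarith
  · intro k l hl
    by_cases hk : k < 60
    · have h : ((ex k l + 2 * eq k l : ℕ) : ℝ) ≤
          ((ex (k + 1) (l + 1) + 2 * eq (k + 1) (l + 1) : ℕ) : ℝ) := by
        exact_mod_cast ex_mono (by omega) hk hl
      push_cast at h
      rw [XR_low hk, QR_low hk, ex_eq_XR hk] at h
      have h2 := eq_le_QR hk (show l < k by omega)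
      apply le_of_sc
      linarith
    · rw [XR_big (by omega), XR_big (by omega)]
      have := QR_mono k l (by omega)
      linarith
  · intro k l hl
    have hk0 : (0 : ℝ) < k := by
      have : 0 < k := by omega
      exact_mod_cast this
    have hl0 : (0 : ℝ) ≤ l := Nat.cast_nonneg _
    by_cases hk : k < 60
    · have h1 := fl _ _ _ (ex_rec hk (show l < k by omega))
      have h2 := eq_le_QR hk (show l < k by omega)
      have hm := eq_mono (show 1 ≤ k by omega) hk (show l < k by omega)
      push_cast [Nat.cast_sub hm] at h1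
      rw [XR_low hk, QR_low hk, XR_low hk, ex_eq_XR hk] at h1
      have h3 : (k : ℝ) * (eq (k + 1) (l + 1) : ℝ) ≤ (k : ℝ) * (sc * QR (k + 1) (l + 1)) :=
        mul_le_mul_of_nonneg_left h2 hk0.le
      have h4 : XR k l * (k * ((l : ℝ) + 1) + l + 1 + k) ≤
          k * ((l : ℝ) + 1) * XR (k + 1) (l + 1) + l * XR k (l - 1) +
            k * (QR (k + 1) (l + 1) - QR k l) := by
        apply le_of_sc
        have e1 : (sc : ℝ) * (XR k l * (k * ((l : ℝ) + 1) + l + 1 + k)) =
            sc * XR k l * (k * ((l : ℝ) + 1) + l + 1 + k) := by ring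
        have e2 : (sc : ℝ) * (k * ((l : ℝ) + 1) * XR (k + 1) (l + 1) + l * XR k (l - 1) +
            k * (QR (k + 1) (l + 1) - QR k l)) =
            k * ((l : ℝ) + 1) * (sc * XR (k + 1) (l + 1)) + l * (sc * XR k (l - 1)) +
            (k * (sc * QR (k + 1) (l + 1)) - k * (sc * QR k l)) := by ring
        rw [e1, e2]
        have e3 : (k : ℝ) * ((eq (k + 1) (l + 1) : ℝ) - sc * QR k l) =
            k * (eq (k + 1) (l + 1) : ℝ) - k * (sc * QR k l) := by ring
        rw [e3] at h1
        linarith
      have e : (QR (k + 1) (l + 1) - QR k l) + ((l : ℝ) + 1) * (XR (k + 1) (l + 1) - XR k l) +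
          (l : ℝ) / k * (XR k (l - 1) - XR k l) - (1 / (k : ℝ)) * XR k l - XR k l =
          (k * ((l : ℝ) + 1) * XR (k + 1) (l + 1) + l * XR k (l - 1) +
            k * (QR (k + 1) (l + 1) - QR k l) -
            XR k l * (k * ((l : ℝ) + 1) + l + 1 + k)) / k := by
        field_simp
        ring
      rw [e]
      exact div_nonneg (by linarith) hk0.le
    · rw [XR_big (by omega), XR_big (by omega), XR_big (by omega)]
      have := QR_mono k l (by omega)
      simp
      exact this

theorem mono_QR (d L : ℕ) (hL : L + 2 ≤ d) : QR d 0 ≤ QR d L := by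
  by_cases hd : d < 60
  · apply le_of_sc
    rw [← QR_low hd, ← QR_low hd]
    exact_mod_cast eq_zero_le (by omega) hd hL
  · rw [QR_big (by omega) (show 0 + 2 ≤ d by omega)]
    simp
    exact QR_nonneg _ _

end Pool.Agent.RFT81
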