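import Pool.Agent.RFT81.TabB
import Pool.Agent.RFT81.AllC

/-!
# [RFT-TabU] The upper functions from the tables

Paper proof.  `θ = tt / sc`.  For `k < 12` the conditions are `eH_rec`, `eP_rec` (division rounded
up) divided by `sc`, and the checks of `TabB`; in the row `11` the entries of the row `12` of the
tables are at least the exact values `1 - (1 - θ)/12`, by less than `1 / sc` (`eH_eleven`, `eP_eleven`
give the monotonicity for `k = 11`).  For `k ≥ 12` put `T = 1 - (1 - θ)/k`: the rates are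
at most `k - 1/2`, so it suffices that `(k - 1/2)/(k + 1) ≤ 1 - (1 - θ)/k`.
`A j = (j - α)/(j + β)` with `α = 24/25`, `α + β = 1 - θ`: `Aineq` for `j ≥ 2` is
`j (j - 1/2) ≤ (j - α)(j + 1 + β)`, for `j = 1` it is trivial (`A 2 ≤ 1`).
`B j = 1 - (1 - ψ)(j + 1)/(j^2 + j + 1)`: `Bineq` follows from `1 - B j = g j / j` with
`g j = (1 - ψ)/(1 + 1/(j(j+1)))` nondecreasing.  `c = 12`.
-/

namespace Pool.Agent.RFT81

/-- the constant `θ` -/
noncomputable def θR : ℝ := (tt : ℝ) / sc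

/-- upper function for a neighbour of a vertex of degree at least `3` -/
noncomputable def HR (k l : ℕ) : ℝ := if k < 12 then (eH k l : ℝ) / sc else 1 - (1 - θR) / k

/-- upper function for a neighbour of a vertex of degree `2` -/
noncomputable def PR (k l : ℕ) : ℝ := if k < 12 then (eP k l : ℝ) / sc else 1 - (1 - θR) / k

/-- factor of the marked neighbour -/
noncomputable def AR (j : ℕ) : ℝ :=
  if j ≤ 1 then 1 else ((j : ℝ) - 24 / 25) / ((j : ℝ) + (1 - θR) - 24 / 25)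

/-- upper function for a leaf -/
noncomputable def BR (j : ℕ) : ℝ := 1 - (1 - PR 1 0) * ((j : ℝ) + 1) / ((j : ℝ) ^ 2 + j + 1)

private theorem θR_eq : θR = 1349658 / 10000000 := by
  unfold θR tt sc; norm_num

private theorem scR_pos : (0 : ℝ) < (sc : ℝ) := by unfold sc; norm_num

private theorem le_cdv_mul {a b : ℕ} (hb : 0 < b) : a ≤ cdv a b * b := by
  unfold cdv
  have h1 := Nat.div_add_mod (a + b - 1) b
  have h2 := Nat.mod_lt (a + b - 1) hb
  rw [mul_comm] at h1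
  omega

private theorem top_val_le : (1 : ℝ) - (1 - θR) / 12 ≤ ((cdv (sc * 12 - (sc - tt)) 12 : ℕ) : ℝ) / sc := by
  have h : cdv (sc * 12 - (sc - tt)) 12 = 9279139 := by decide +kernel
  rw [h, θR_eq]
  unfold sc
  norm_num

private theorem le_top_val {x : ℕ} (hx : x + 1 ≤ cdv (sc * 12 - (sc - tt)) 12) :
    (x : ℝ) / sc ≤ 1 - (1 - θR) / 12 := by
  have h : cdv (sc * 12 - (sc - tt)) 12 = 9279139 := by decide +kernel
  rw [h] at hx
  have hx' : (x : ℝ) + 1 ≤ 9279139 := by exact_mod_cast hx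
  rw [θR_eq, div_le_iff₀ scR_pos]
  unfold sc
  push_cast
  linarith

private theorem top_mono {k : ℕ} (hk : 12 ≤ k) : (1 : ℝ) - (1 - θR) / (k : ℝ) ≤ 1 - (1 - θR) / ((k + 1 : ℕ) : ℝ) := by
  have hk' : (12 : ℝ) ≤ (k : ℝ) := by exact_mod_cast hk
  have hs : (0 : ℝ) ≤ 1 - θR := by rw [θR_eq]; norm_num
  have : (1 - θR) / ((k + 1 : ℕ) : ℝ) ≤ (1 - θR) / (k : ℝ) := by
    apply div_le_div_of_nonneg_left hs (by linarith)
    push_cast
    linarith
  linarith

private theorem top_key {k : ℕ} (hk : 12 ≤ k) {r : ℝ} (hr : r ≤ (k : ℝ) - 1 / 2) :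
    r * ((1 - (1 - θR) / ((k + 1 : ℕ) : ℝ)) - (1 - (1 - θR) / (k : ℝ))) ≤
      (1 - θR) / (k : ℝ) * (1 - (1 - θR) / (k : ℝ)) := by
  have hk' : (12 : ℝ) ≤ (k : ℝ) := by exact_mod_cast hk
  have hs : (0 : ℝ) ≤ 1 - θR := by rw [θR_eq]; norm_num
  have hs1 : 1 - θR ≤ 1 := by rw [θR_eq]; norm_num
  have hk0 : (0 : ℝ) < (k : ℝ) := by linarith
  have hk1 : (0 : ℝ) < (k : ℝ) + 1 := by linarith
  have h1 : (1 - (1 - θR) / ((k + 1 : ℕ) : ℝ)) - (1 - (1 - θR) / (k : ℝ)) =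
      (1 - θR) / (k : ℝ) * (1 / ((k : ℝ) + 1)) := by
    push_cast
    field_simp
    ring
  rw [h1]
  have h2 : r * ((1 - θR) / (k : ℝ) * (1 / ((k : ℝ) + 1))) =
      (1 - θR) / (k : ℝ) * (r / ((k : ℝ) + 1)) := by ring
  rw [h2]
  apply mul_le_mul_of_nonneg_left _ (div_nonneg hs hk0.le)
  have h3 : r / ((k : ℝ) + 1) ≤ 1 - (3 / 2) / ((k : ℝ) + 1) := by
    rw [div_le_iff₀ hk1, sub_mul, div_mul_cancel₀ _ hk1.ne']
    linarith
  have h4 : (1 - θR) / (k : ℝ) ≤ (3 / 2) / ((k : ℝ) + 1) := by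
    rw [div_le_div_iff₀ hk0 hk1]
    nlinarith
  linarith

private theorem HR_lt {k l : ℕ} (hk : k < 12) : HR k l = (eH k l : ℝ) / sc := by
  unfold HR; rw [if_pos hk]

private theorem HR_ge {k l : ℕ} (hk : 12 ≤ k) : HR k l = 1 - (1 - θR) / k := by
  unfold HR; rw [if_neg (by omega)]

private theorem PR_lt {k l : ℕ} (hk : k < 12) : PR k l = (eP k l : ℝ) / sc := by
  unfold PR; rw [if_pos hk]

private theorem PR_ge {k l : ℕ} (hk : 12 ≤ k) : PR k l = 1 - (1 - θR) / k := by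
  unfold PR; rw [if_neg (by omega)]

private theorem θR_nonneg : 0 ≤ θR := by rw [θR_eq]; norm_num

private theorem θR_le_one : θR ≤ 1 := by rw [θR_eq]; norm_num

private theorem top_nonneg {k : ℕ} (hk : 12 ≤ k) : (0 : ℝ) ≤ 1 - (1 - θR) / (k : ℝ) := by
  have hk' : (12 : ℝ) ≤ (k : ℝ) := by exact_mod_cast hk
  have hs1 : 1 - θR ≤ 1 := by linarith [θR_nonneg]
  have : (1 - θR) / (k : ℝ) ≤ 1 := by
    rw [div_le_one (by linarith)]
    linarith
  linarith

private theorem top_le {k : ℕ} : (1 : ℝ) - (1 - θR) / (k : ℝ) ≤ 1 := by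
  have : 0 ≤ (1 - θR) / (k : ℝ) := div_nonneg (by linarith [θR_le_one]) (Nat.cast_nonneg _)
  linarith

private theorem HR_nonneg (k l : ℕ) : 0 ≤ HR k l := by
  by_cases hk : k < 12
  · rw [HR_lt hk]; exact div_nonneg (Nat.cast_nonneg _) scR_pos.le
  · rw [HR_ge (by omega)]; exact top_nonneg (by omega)

private theorem HR_le_one (k l : ℕ) : HR k l ≤ 1 := by
  by_cases hk : k < 12
  · rw [HR_lt hk, div_le_one scR_pos]; exact_mod_cast eH_le hk
  · rw [HR_ge (by omega)]; exact top_le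

private theorem PR_le_one (k l : ℕ) : PR k l ≤ 1 := by
  by_cases hk : k < 12
  · rw [PR_lt hk, div_le_one scR_pos]; exact_mod_cast eP_le hk
  · rw [PR_ge (by omega)]; exact top_le

private theorem PR_nonneg (k l : ℕ) : 0 ≤ PR k l := by
  by_cases hk : k < 12
  · rw [PR_lt hk]; exact div_nonneg (Nat.cast_nonneg _) scR_pos.le
  · rw [PR_ge (by omega)]; exact top_nonneg (by omega)

private theorem HR_mono {k l : ℕ} (hl : l + 1 ≤ k) : HR k l ≤ HR (k + 1) (l + 1) := by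
  rcases Nat.lt_or_ge k 11 with hk | hk
  · rw [HR_lt (by omega), HR_lt (by omega)]
    apply div_le_div_of_nonneg_right _ scR_pos.le
    exact_mod_cast eH_mono (by omega) (by omega) (by omega)
  · rcases Nat.lt_or_ge k 12 with hk2 | hk2
    · obtain rfl : k = 11 := by omega
      rw [HR_lt (by omega), HR_ge (by omega)]
      have h := eH_eleven (l := l) (by omega)
      rw [eH_top (by omega)] at h
      have := le_top_val h
      push_cast
      norm_num at this ⊢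
      exact this
    · rw [HR_ge hk2, HR_ge (by omega)]
      exact top_mono hk2

private theorem PR_mono {k l : ℕ} (hl : l + 1 ≤ k) : PR k l ≤ PR (k + 1) (l + 1) := by
  rcases Nat.lt_or_ge k 11 with hk | hk
  · rw [PR_lt (by omega), PR_lt (by omega)]
    apply div_le_div_of_nonneg_right _ scR_pos.le
    exact_mod_cast eP_mono (by omega) (by omega) (by omega)
  · rcases Nat.lt_or_ge k 12 with hk2 | hk2
    · obtain rfl : k = 11 := by omega
      rw [PR_lt (by omega), PR_ge (by omega)]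
      have h := eP_eleven (l := l) (by omega)
      rw [eP_top (by omega)] at h
      have := le_top_val h
      push_cast
      norm_num at this ⊢
      exact this
    · rw [PR_ge hk2, PR_ge (by omega)]
      exact top_mono hk2

/-- the next value is at most the entry of the table -/
private theorem HR_next {k l : ℕ} (hk : k < 12) (hl : l + 1 ≤ k) :
    HR (k + 1) (l + 1) * sc ≤ (eH (k + 1) (l + 1) : ℝ) := by
  rcases Nat.lt_or_ge k 11 with hk1 | hk1
  · rw [HR_lt (by omega), div_mul_cancel₀ _ scR_pos.ne']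
  · obtain rfl : k = 11 := by omega
    rw [HR_ge (by omega), eH_top (by omega), ← le_div_iff₀ scR_pos]
    have := top_val_le
    push_cast at this ⊢
    norm_num at this ⊢
    exact this

private theorem PR_next {k l : ℕ} (hk : k < 12) (hl : l + 1 ≤ k) :
    PR (k + 1) (l + 1) * sc ≤ (eP (k + 1) (l + 1) : ℝ) := by
  rcases Nat.lt_or_ge k 11 with hk1 | hk1
  · rw [PR_lt (by omega), div_mul_cancel₀ _ scR_pos.ne']
  · obtain rfl : k = 11 := by omega
    rw [PR_ge (by omega), eP_top (by omega), ← le_div_iff₀ scR_pos]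
    have := top_val_le
    push_cast at this ⊢
    norm_num at this ⊢
    exact this

private theorem tt_eq : (tt : ℝ) = θR * sc := by
  unfold θR; rw [div_mul_cancel₀ _ scR_pos.ne']

private theorem HR_ineq {k l : ℕ} (hl : l + 1 ≤ k) :
    ((l : ℝ) + 1 / 3 + ((k : ℝ) - 1 - l) / 2) * (HR (k + 1) (l + 1) - HR k l) +
      (l : ℝ) / k * (HR k (l - 1) - HR k l) ≤ (1 - θR) / k * HR k l := by
  have hk0 : (0 : ℝ) < (k : ℝ) := by
    have : 1 ≤ k := by omega
    exact_mod_cast this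
  rcases Nat.lt_or_ge k 12 with hk | hk
  · have hrec := eH_rec (k := k) (l := l) hk (by omega)
    have hden : 0 < (k * (3 * k + 3 * l - 1) + 6 * l) * sc + 6 * (sc - tt) := by
      unfold sc tt; omega
    have h1 := le_cdv_mul (a := (k * (3 * k + 3 * l - 1) * eH (k + 1) (l + 1) + 6 * l * eH k (l - 1)) * sc) hden
    rw [← hrec] at h1
    have h2 : (((k * (3 * k + 3 * l - 1) * eH (k + 1) (l + 1) + 6 * l * eH k (l - 1)) * sc : ℕ) : ℝ) ≤
        ((eH k l * ((k * (3 * k + 3 * l - 1) + 6 * l) * sc + 6 * (sc - tt)) : ℕ) : ℝ) := by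
      exact_mod_cast h1
    have hsub : ((3 * k + 3 * l - 1 : ℕ) : ℝ) = 3 * (k : ℝ) + 3 * l - 1 := by
      rw [Nat.cast_sub (by omega)]; push_cast; ring
    have hsub2 : ((sc - tt : ℕ) : ℝ) = (sc : ℝ) - tt := by
      rw [Nat.cast_sub (by unfold sc tt; norm_num)]
    simp only [Nat.cast_mul, Nat.cast_add, Nat.cast_ofNat] at h2
    rw [hsub, hsub2, tt_eq] at h2
    have hH : (eH k l : ℝ) = HR k l * sc := by
      rw [HR_lt hk, div_mul_cancel₀ _ scR_pos.ne']
    have hH' : (eH k (l - 1) : ℝ) = HR k (l - 1) * sc := by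
      rw [HR_lt hk, div_mul_cancel₀ _ scR_pos.ne']
    have hN := HR_next hk hl
    rw [hH, hH'] at h2
    have hcoef : (0 : ℝ) ≤ (k : ℝ) * (3 * (k : ℝ) + 3 * l - 1) := by
      apply mul_nonneg hk0.le
      have : (1 : ℝ) ≤ (k : ℝ) := by
        have : 1 ≤ k := by omega
        exact_mod_cast this
      have : (0 : ℝ) ≤ (l : ℝ) := Nat.cast_nonneg _
      linarith
    have h3 := mul_le_mul_of_nonneg_left hN hcoef
    -- divide by `sc ^ 2`
    have hs := scR_pos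
    have h4 : ((k : ℝ) * (3 * (k : ℝ) + 3 * l - 1) * (HR (k + 1) (l + 1) * sc) +
        6 * l * (HR k (l - 1) * sc)) * sc ≤
        HR k l * sc * (((k : ℝ) * (3 * (k : ℝ) + 3 * l - 1) + 6 * l) * sc + 6 * (sc - θR * sc)) := by
      refine le_trans ?_ h2
      apply mul_le_mul_of_nonneg_right _ hs.le
      linarith
    have h5 : (k : ℝ) * (3 * (k : ℝ) + 3 * l - 1) * HR (k + 1) (l + 1) + 6 * l * HR k (l - 1) ≤
        HR k l * (((k : ℝ) * (3 * (k : ℝ) + 3 * l - 1) + 6 * l) + 6 * (1 - θR)) := by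
      have h6 : ((k : ℝ) * (3 * (k : ℝ) + 3 * l - 1) * HR (k + 1) (l + 1) + 6 * l * HR k (l - 1)) * (sc * sc) ≤
        (HR k l * (((k : ℝ) * (3 * (k : ℝ) + 3 * l - 1) + 6 * l) + 6 * (1 - θR))) * (sc * sc) := by
        linarith
      exact le_of_mul_le_mul_right h6 (mul_pos hs hs)
    have h7 : ((l : ℝ) + 1 / 3 + ((k : ℝ) - 1 - l) / 2) * (HR (k + 1) (l + 1) - HR k l) +
      (l : ℝ) / k * (HR k (l - 1) - HR k l) - (1 - θR) / k * HR k l =
      ((k : ℝ) * (3 * (k : ℝ) + 3 * l - 1) * HR (k + 1) (l + 1) + 6 * l * HR k (l - 1) -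
        HR k l * (((k : ℝ) * (3 * (k : ℝ) + 3 * l - 1) + 6 * l) + 6 * (1 - θR))) / (6 * k) := by
      field_simp
      ring
    have h8 : ((l : ℝ) + 1 / 3 + ((k : ℝ) - 1 - l) / 2) * (HR (k + 1) (l + 1) - HR k l) +
      (l : ℝ) / k * (HR k (l - 1) - HR k l) - (1 - θR) / k * HR k l ≤ 0 := by
      rw [h7]
      apply div_nonpos_of_nonpos_of_nonneg
      · linarith
      · linarith
    linarith
  · rw [HR_ge hk, HR_ge hk, HR_ge (by omega : 12 ≤ k + 1)]
    have hl' : (l : ℝ) + 1 ≤ (k : ℝ) := by exact_mod_cast hl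
    have := top_key hk (r := (l : ℝ) + 1 / 3 + ((k : ℝ) - 1 - l) / 2) (by linarith)
    rw [sub_self, mul_zero, add_zero]
    exact this

private theorem PR_ineq {k l : ℕ} (hl : l + 1 ≤ k) :
    ((l : ℝ) + 1 / 2 + ((k : ℝ) - 1 - l) / 2) * (PR (k + 1) (l + 1) - PR k l) +
      (l : ℝ) / k * (PR k (l - 1) - PR k l) + (1 / (k : ℝ)) * (θR * HR k l - PR k l) ≤ 0 := by
  have hk0 : (0 : ℝ) < (k : ℝ) := by
    have : 1 ≤ k := by omega
    exact_mod_cast this
  rcases Nat.lt_or_ge k 12 with hk | hk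
  · have hrec := eP_rec (k := k) (l := l) hk (by omega)
    have hden : 0 < k * (k + l) + 2 * l + 2 := by omega
    have h1 := le_cdv_mul (a := k * (k + l) * eP (k + 1) (l + 1) + 2 * l * eP k (l - 1) +
      cdv (2 * eH k l * tt) sc) hden
    rw [← hrec] at h1
    have hsc : 0 < sc := by unfold sc; norm_num
    have h1' := le_cdv_mul (a := 2 * eH k l * tt) hsc
    have h2 : ((k * (k + l) * eP (k + 1) (l + 1) + 2 * l * eP k (l - 1) +
      cdv (2 * eH k l * tt) sc : ℕ) : ℝ) ≤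
        ((eP k l * (k * (k + l) + 2 * l + 2) : ℕ) : ℝ) := by
      exact_mod_cast h1
    have h2' : ((2 * eH k l * tt : ℕ) : ℝ) ≤ ((cdv (2 * eH k l * tt) sc * sc : ℕ) : ℝ) := by
      exact_mod_cast h1'
    simp only [Nat.cast_mul, Nat.cast_add, Nat.cast_ofNat] at h2 h2'
    rw [tt_eq] at h2'
    have hs := scR_pos
    have hH : (eH k l : ℝ) = HR k l * sc := by
      rw [HR_lt hk, div_mul_cancel₀ _ scR_pos.ne']
    have hP : (eP k l : ℝ) = PR k l * sc := by
      rw [PR_lt hk, div_mul_cancel₀ _ scR_pos.ne']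
    have hP' : (eP k (l - 1) : ℝ) = PR k (l - 1) * sc := by
      rw [PR_lt hk, div_mul_cancel₀ _ scR_pos.ne']
    rw [hH] at h2'
    have h3 : 2 * (HR k l * sc) * θR ≤ ((cdv (2 * eH k l * tt) sc : ℕ) : ℝ) := by
      have h4 : (2 * (HR k l * sc) * θR) * sc ≤ ((cdv (2 * eH k l * tt) sc : ℕ) : ℝ) * sc := by
        linarith
      exact le_of_mul_le_mul_right h4 hs
    rw [hP, hP'] at h2
    have hN := PR_next hk hl
    have hcoef : (0 : ℝ) ≤ (k : ℝ) * ((k : ℝ) + l) := by positivity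
    have h5 := mul_le_mul_of_nonneg_left hN hcoef
    have h6 : (k : ℝ) * ((k : ℝ) + l) * PR (k + 1) (l + 1) + 2 * l * PR k (l - 1) + 2 * (θR * HR k l) ≤
        PR k l * ((k : ℝ) * ((k : ℝ) + l) + 2 * l + 2) := by
      have h7 : ((k : ℝ) * ((k : ℝ) + l) * PR (k + 1) (l + 1) + 2 * l * PR k (l - 1) +
          2 * (θR * HR k l)) * sc ≤
          (PR k l * ((k : ℝ) * ((k : ℝ) + l) + 2 * l + 2)) * sc := by
        linarith
      exact le_of_mul_le_mul_right h7 hs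
    have h7 : ((l : ℝ) + 1 / 2 + ((k : ℝ) - 1 - l) / 2) * (PR (k + 1) (l + 1) - PR k l) +
      (l : ℝ) / k * (PR k (l - 1) - PR k l) + (1 / (k : ℝ)) * (θR * HR k l - PR k l) =
      ((k : ℝ) * ((k : ℝ) + l) * PR (k + 1) (l + 1) + 2 * l * PR k (l - 1) + 2 * (θR * HR k l) -
        PR k l * ((k : ℝ) * ((k : ℝ) + l) + 2 * l + 2)) / (2 * k) := by
      field_simp
      ring
    rw [h7]
    apply div_nonpos_of_nonpos_of_nonneg
    · linarith
    · linarith
  · rw [PR_ge hk, PR_ge hk, PR_ge (by omega : 12 ≤ k + 1), HR_ge hk]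
    have hl' : (l : ℝ) + 1 ≤ (k : ℝ) := by exact_mod_cast hl
    have := top_key hk (r := (l : ℝ) + 1 / 2 + ((k : ℝ) - 1 - l) / 2) (by linarith)
    rw [sub_self, mul_zero, add_zero]
    have h2 : (1 / (k : ℝ)) * (θR * (1 - (1 - θR) / k) - (1 - (1 - θR) / k)) =
        - ((1 - θR) / (k : ℝ) * (1 - (1 - θR) / (k : ℝ))) := by ring
    rw [h2]
    linarith

private theorem AR_two {j : ℕ} (hj : 2 ≤ j) :
    AR j = ((j : ℝ) - 24 / 25) / ((j : ℝ) + (1 - θR) - 24 / 25) := by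
  unfold AR; rw [if_neg (by omega)]

private theorem AR_one {j : ℕ} (hj : j ≤ 1) : AR j = 1 := by
  unfold AR; rw [if_pos hj]

private theorem AR_nonneg (j : ℕ) : 0 ≤ AR j := by
  rcases Nat.lt_or_ge j 2 with hj | hj
  · rw [AR_one (by omega)]; norm_num
  · rw [AR_two hj]
    have hj' : (2 : ℝ) ≤ (j : ℝ) := by exact_mod_cast hj
    have := θR_le_one
    exact div_nonneg (by linarith) (by linarith)

private theorem AR_le_one (j : ℕ) : AR j ≤ 1 := by
  rcases Nat.lt_or_ge j 2 with hj | hj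
  · rw [AR_one (by omega)]
  · rw [AR_two hj]
    have hj' : (2 : ℝ) ≤ (j : ℝ) := by exact_mod_cast hj
    have := θR_le_one
    rw [div_le_one (by linarith)]
    linarith

private theorem AR_ineq {j : ℕ} (hj : 1 ≤ j) :
    ((j : ℝ) - 1 / 2) * (AR (j + 1) - AR j) ≤ (1 - θR) / j * AR j := by
  rcases Nat.lt_or_ge j 2 with hj2 | hj2
  · obtain rfl : j = 1 := by omega
    have h1 := AR_le_one (1 + 1)
    have h2 : AR 1 = 1 := AR_one (le_refl _)
    have h3 := θR_le_one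
    rw [h2]
    push_cast
    norm_num
    norm_num at h1
    linarith
  · rw [AR_two hj2, AR_two (by omega)]
    have hj' : (2 : ℝ) ≤ (j : ℝ) := by exact_mod_cast hj2
    have hd : (0 : ℝ) < (j : ℝ) + (1 - θR) - 24 / 25 := by linarith [θR_le_one]
    have hd1 : (0 : ℝ) < ((j + 1 : ℕ) : ℝ) + (1 - θR) - 24 / 25 := by push_cast; linarith [θR_le_one]
    have hj0 : (0 : ℝ) < (j : ℝ) := by linarith
    have h1 : (((j + 1 : ℕ) : ℝ) - 24 / 25) / (((j + 1 : ℕ) : ℝ) + (1 - θR) - 24 / 25) -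
        ((j : ℝ) - 24 / 25) / ((j : ℝ) + (1 - θR) - 24 / 25) =
        (1 - θR) / ((((j + 1 : ℕ) : ℝ) + (1 - θR) - 24 / 25) * ((j : ℝ) + (1 - θR) - 24 / 25)) := by
      rw [div_sub_div _ _ hd1.ne' hd.ne']
      congr 1
      push_cast
      ring
    rw [h1]
    have h2 : ((j : ℝ) - 1 / 2) * ((1 - θR) /
        ((((j + 1 : ℕ) : ℝ) + (1 - θR) - 24 / 25) * ((j : ℝ) + (1 - θR) - 24 / 25))) =
        ((1 - θR) / ((j : ℝ) + (1 - θR) - 24 / 25)) *
          (((j : ℝ) - 1 / 2) / (((j + 1 : ℕ) : ℝ) + (1 - θR) - 24 / 25)) := by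
      field_simp
    have h3 : (1 - θR) / (j : ℝ) * (((j : ℝ) - 24 / 25) / ((j : ℝ) + (1 - θR) - 24 / 25)) =
        ((1 - θR) / ((j : ℝ) + (1 - θR) - 24 / 25)) * (((j : ℝ) - 24 / 25) / (j : ℝ)) := by
      field_simp
    rw [h2, h3]
    apply mul_le_mul_of_nonneg_left _ (div_nonneg (by linarith [θR_le_one]) hd.le)
    rw [div_le_div_iff₀ hd1 hj0]
    push_cast
    rw [θR_eq]
    nlinarith

private theorem AR_c {j : ℕ} (hj : 1 ≤ j) : 1 - AR j ≤ 12 / j := by
  have hj0 : (1 : ℝ) ≤ (j : ℝ) := by exact_mod_cast hj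
  rcases Nat.lt_or_ge j 2 with hj2 | hj2
  · rw [AR_one (by omega)]
    rw [sub_self]
    positivity
  · rw [AR_two hj2]
    have hj' : (2 : ℝ) ≤ (j : ℝ) := by exact_mod_cast hj2
    have hd : (0 : ℝ) < (j : ℝ) + (1 - θR) - 24 / 25 := by linarith [θR_le_one]
    have h1 : 1 - ((j : ℝ) - 24 / 25) / ((j : ℝ) + (1 - θR) - 24 / 25) =
        (1 - θR) / ((j : ℝ) + (1 - θR) - 24 / 25) := by
      rw [eq_div_iff hd.ne', sub_mul, div_mul_cancel₀ _ hd.ne']
      ring
    rw [h1, div_le_div_iff₀ hd (by linarith), θR_eq]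
    nlinarith

private theorem BR_le_one (j : ℕ) : BR j ≤ 1 := by
  unfold BR
  have h1 := PR_le_one 1 0
  have : 0 ≤ (1 - PR 1 0) * ((j : ℝ) + 1) / ((j : ℝ) ^ 2 + j + 1) := by
    apply div_nonneg
    · apply mul_nonneg (by linarith) (by positivity)
    · positivity
  linarith

private theorem BR_nonneg (j : ℕ) : 0 ≤ BR j := by
  unfold BR
  have h1 := PR_le_one 1 0
  have h0 := PR_nonneg 1 0
  have hj : (0 : ℝ) ≤ (j : ℝ) := Nat.cast_nonneg _
  have : (1 - PR 1 0) * ((j : ℝ) + 1) / ((j : ℝ) ^ 2 + j + 1) ≤ 1 := by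
    rw [div_le_one (by positivity)]
    nlinarith [mul_nonneg h0 hj]
  linarith

private theorem BR_mono {j : ℕ} : BR j ≤ BR (j + 1) := by
  unfold BR
  have h1 := PR_le_one 1 0
  have hj : (0 : ℝ) ≤ (j : ℝ) := Nat.cast_nonneg _
  have hw : 0 ≤ 1 - PR 1 0 := by linarith
  have : (1 - PR 1 0) * (((j + 1 : ℕ) : ℝ) + 1) / ((((j + 1 : ℕ) : ℝ)) ^ 2 + ((j + 1 : ℕ) : ℝ) + 1) ≤
      (1 - PR 1 0) * ((j : ℝ) + 1) / ((j : ℝ) ^ 2 + j + 1) := by
    rw [mul_div_assoc, mul_div_assoc]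
    apply mul_le_mul_of_nonneg_left _ hw
    rw [div_le_div_iff₀ (by positivity) (by positivity)]
    push_cast
    nlinarith [mul_nonneg hj hj]
  linarith

private theorem BR_ineq {j : ℕ} (hj : 1 ≤ j) :
    (j : ℝ) * (BR (j + 1) - BR j) + (1 / (j : ℝ)) * (PR 1 0 - BR j) ≤ 0 := by
  unfold BR
  have h1 := PR_le_one 1 0
  have hj0 : (1 : ℝ) ≤ (j : ℝ) := by exact_mod_cast hj
  have hw : 0 ≤ 1 - PR 1 0 := by linarith
  generalize PR 1 0 = ψ at h1 hw ⊢
  have hj1 : (0 : ℝ) < (j : ℝ) := by linarith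
  have hd : (0 : ℝ) < (j : ℝ) ^ 2 + j + 1 := by positivity
  have hd1 : (0 : ℝ) < ((j : ℝ) + 1) ^ 2 + ((j : ℝ) + 1) + 1 := by positivity
  push_cast
  have h2 : (j : ℝ) * (1 - (1 - ψ) * ((j : ℝ) + 1 + 1) / (((j : ℝ) + 1) ^ 2 + ((j : ℝ) + 1) + 1) -
      (1 - (1 - ψ) * ((j : ℝ) + 1) / ((j : ℝ) ^ 2 + j + 1))) +
      1 / (j : ℝ) * (ψ - (1 - (1 - ψ) * ((j : ℝ) + 1) / ((j : ℝ) ^ 2 + j + 1))) =
      - ((1 - ψ) * (2 * j) / (((j : ℝ) ^ 2 + j + 1) * (((j : ℝ) + 1) ^ 2 + ((j : ℝ) + 1) + 1))) := by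
    field_simp
    ring
  rw [h2]
  have : 0 ≤ (1 - ψ) * (2 * j) / (((j : ℝ) ^ 2 + j + 1) * (((j : ℝ) + 1) ^ 2 + ((j : ℝ) + 1) + 1)) := by
    apply div_nonneg
    · exact mul_nonneg hw (by linarith)
    · exact (mul_pos hd hd1).le
  linarith

private theorem BR_c {j : ℕ} (hj : 1 ≤ j) : 1 - BR j ≤ 12 / j := by
  unfold BR
  have h1 := PR_le_one 1 0
  have h0 := PR_nonneg 1 0
  have hj0 : (1 : ℝ) ≤ (j : ℝ) := by exact_mod_cast hj
  have h2 : 1 - (1 - (1 - PR 1 0) * ((j : ℝ) + 1) / ((j : ℝ) ^ 2 + j + 1)) =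
      (1 - PR 1 0) * ((j : ℝ) + 1) / ((j : ℝ) ^ 2 + j + 1) := by ring
  rw [h2, div_le_div_iff₀ (by positivity) (by linarith)]
  have h3 : (1 - PR 1 0) * ((j : ℝ) + 1) * j ≤ 1 * ((j : ℝ) + 1) * j := by
    apply mul_le_mul_of_nonneg_right _ (by linarith)
    apply mul_le_mul_of_nonneg_right _ (by linarith)
    linarith
  nlinarith

theorem upC_R : UpC θR 12 HR PR AR BR where
  θ0 := θR_nonneg
  θ1 := θR_le_one
  c0 := by norm_num
  H0 := HR_nonneg
  H1 := HR_le_one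
  Hθ := by
    rw [HR_lt (by norm_num)]
    unfold θR
    apply div_le_div_of_nonneg_right _ scR_pos.le
    exact_mod_cast eH_one
  Hmono := fun _ _ h => HR_mono h
  Hineq := fun _ _ h => HR_ineq h
  Hc := by
    intro k l hl
    have hk1 : (1 : ℝ) ≤ (k : ℝ) := by
      have : 1 ≤ k := by omega
      exact_mod_cast this
    rcases Nat.lt_or_ge k 12 with hk | hk
    · have h1 := HR_nonneg k l
      have h2 : (1 : ℝ) ≤ 12 / k := by
        rw [le_div_iff₀ (by linarith)]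
        have : (k : ℝ) < 12 := by exact_mod_cast hk
        linarith
      linarith
    · rw [HR_ge hk]
      have : (1 - θR) / (k : ℝ) ≤ 12 / k := by
        apply div_le_div_of_nonneg_right _ (by linarith)
        linarith [θR_nonneg]
      linarith
  HP := by
    intro k l hl
    rcases Nat.lt_or_ge k 12 with hk | hk
    · rw [HR_lt hk, PR_lt hk]
      apply div_le_div_of_nonneg_right _ scR_pos.le
      exact_mod_cast eH_le_eP (by omega) hk (by omega)
    · rw [HR_ge hk, PR_ge hk]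
  P1 := PR_le_one
  Pmono := fun _ _ h => PR_mono h
  Pineq := fun _ _ h => PR_ineq h
  A0 := AR_nonneg
  A1 := AR_le_one
  Aineq := fun _ h => AR_ineq h
  Ac := fun _ h => AR_c h
  B0 := BR_nonneg
  B1 := BR_le_one
  Bmono := fun _ _ => BR_mono
  Bineq := fun _ h => BR_ineq h
  Bc := fun _ h => BR_c h

end Pool.Agent.RFT81
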