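import Pool.Agent.RFT81.NumT
import Pool.Agent.RFT81.TabL
import Pool.Agent.RFT81.TabU
import Pool.Agent.RFT81.Harm

/-!
# [RFT-Num] The final numerical inequality
-/

namespace Pool.Agent.RFT81

theorem le_cdv {x y : ℕ} (hy : 0 < y) : (x : ℝ) / y ≤ (cdv x y : ℝ) := by
  have h : x ≤ cdv x y * y := by
    unfold cdv
    have h1 := Nat.div_add_mod (x + y - 1) y
    have h2 := Nat.mod_lt (x + y - 1) hy
    rw [mul_comm y] at h1
    omega
  rw [div_le_iff₀ (by exact_mod_cast hy)]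
  exact_mod_cast h

/-- numerator of the factor `A (p + 1)`, scaled -/
def na (p : ℕ) : ℕ := 10000000 * p + 400000

/-- denominator of the factor `A (p + 1)`, scaled -/
def da (p : ℕ) : ℕ := 10000000 * p + 9050342

/-- scaled lower bound for `lamC` -/
def lI (p : ℕ) : ℤ := 4257290 + (992854 / (p + 1) : ℕ) - (cdv (1823839 * na p) (da p) : ℕ)

/-- scaled upper bound for `UC` -/
def uI (p : ℕ) : ℤ := (sc : ℤ) - (hdl.getD (58 - p) 0 : ℕ)

/-- scaled lower bound for `VC` -/
def vI (q : ℕ) : ℤ := ((sc - 1823839) * (q + 2) / ((q + 1) ^ 2 + (q + 1) + 1) : ℕ)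

/-- the integer check -/
def cI (p q : ℕ) : ℤ :=
  (q + 1) * (p * lI p - (p - 1) * uI p) + (p + 1) * (q * lI q - (q - 1) * uI q) -
    (uI p - vI q) * (q - p)

/-- the slope for large `q` -/
def sI (p : ℕ) : ℤ :=
  (p * lI p - (p - 1) * uI p) + (p + 1) * (2433451 - 1415000) - uI p

set_option maxRecDepth 100000 in
theorem check_c : ∀ p < 44, 1 ≤ p → ∀ q < 44, p ≤ q → 0 ≤ cI p q := by
  decide +kernel

set_option maxRecDepth 100000 in
theorem check_s : ∀ p < 44, 1 ≤ p → 0 ≤ sI p ∧ 0 ≤ lI p ∧ 0 ≤ uI p := by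
  decide +kernel

theorem Q20 : QR 2 0 = 4257290 / 10000000 := by
  rw [QR, if_pos (by norm_num), eq_two]
  norm_num [sc]

theorem X20 : XR 2 0 = 992854 / 10000000 := by
  rw [XR, if_pos (by norm_num), ex_two]
  norm_num [sc]

theorem P10 : PR 1 0 = 1823839 / 10000000 := by
  rw [PR, if_pos (by norm_num), eP_one]
  norm_num [sc]

theorem AR_eq {p : ℕ} (hp : 1 ≤ p) : AR (p + 1) = (na p : ℝ) / (da p : ℝ) := by
  rw [AR, if_neg (by omega)]
  have h1 : (na p : ℝ) = 10000000 * p + 400000 := by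
    rw [na]
    push_cast
    ring
  have h2 : (da p : ℝ) = 10000000 * p + 9050342 := by
    rw [da]
    push_cast
    ring
  have h3 : (0 : ℝ) ≤ p := Nat.cast_nonneg p
  have h4 : θR = 1349658 / 10000000 := by
    norm_num [θR, tt, sc]
  rw [h1, h2, h4]
  push_cast
  rw [div_eq_div_iff (by linarith) (by linarith)]
  ring

theorem AR_le (p : ℕ) : AR (p + 1) ≤ 1 := upC_R.A1 _

theorem lam_ge {p : ℕ} (hp : 1 ≤ p) : (lI p : ℝ) ≤ 10000000 * lamC PR QR XR AR p := by
  rw [lamC, Q20, X20, P10, AR_eq hp, lI]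
  have hd : 0 < da p := by
    rw [da]
    positivity
  have h1 := le_cdv (x := 1823839 * na p) hd
  have h2 : ((992854 / (p + 1) : ℕ) : ℝ) ≤ 992854 / ((p : ℝ) + 1) := by
    have := @Nat.cast_div_le ℝ _ _ _ 992854 (p + 1)
    push_cast at this
    exact this
  simp only [Int.cast_add, Int.cast_sub, Int.cast_natCast, Int.cast_ofNat]
  push_cast at h1
  have h3 : (1823839 : ℝ) * na p / da p = 1823839 * (na p / da p) := by ring
  rw [h3] at h1
  have h4 : 10000000 * (4257290 / 10000000 + 992854 / 10000000 / ((p : ℝ) + 1) -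
      na p / da p * (1823839 / 10000000)) =
      4257290 + 992854 / ((p : ℝ) + 1) - 1823839 * (na p / da p) := by ring
  rw [h4]
  linarith

theorem lam_inf (p : ℕ) : (2433451 : ℝ) ≤ 10000000 * lamC PR QR XR AR p := by
  rw [lamC, Q20, X20, P10]
  have h1 := AR_le p
  have h2 : (0 : ℝ) ≤ 992854 / 10000000 / ((p : ℝ) + 1) := by positivity
  linarith

theorem U_le {p : ℕ} (hp2 : p < 44) : 10000000 * UC QR Qh p ≤ (uI p : ℝ) := by
  have h1 : QR (p + 1) 0 = (hdl.getD (58 - p) 0 : ℕ) / 10000000 := by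
    rw [QR, if_pos (by omega), eq_head (by omega) (by omega), show 59 - (p + 1) = 58 - p by omega]
    norm_num [sc]
  have h2 := le_max_left (QR (p + 1) 0) (Qh (p + 1) 0)
  rw [UC, uI, sc]
  push_cast
  rw [h1] at h2 ⊢
  linarith

theorem U_inf {p : ℕ} (hp : 44 ≤ p) : 10000000 * UC QR Qh p ≤ 1415000 := by
  have h1 := Qh_ge hp
  have h2 := le_max_right (QR (p + 1) 0) (Qh (p + 1) 0)
  rw [UC]
  linarith

theorem V_ge (q : ℕ) : (vI q : ℝ) ≤ 10000000 * VC BR q := by
  rw [VC, BR, P10, vI, sc]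
  have := @Nat.cast_div_le ℝ _ _ _ ((10000000 - 1823839) * (q + 2)) ((q + 1) ^ 2 + (q + 1) + 1)
  push_cast at this ⊢
  refine this.trans (le_of_eq ?_)
  ring

theorem V_nn (q : ℕ) : 0 ≤ VC BR q := by
  rw [VC]
  linarith [upC_R.B1 (q + 1)]

theorem Cf_mul {lam U V : ℕ → ℝ} {p q : ℕ} (h : 0 ≤ ((q : ℝ) + 1) * (p * lam p - (p - 1) * U p) +
    (p + 1) * (q * lam q - (q - 1) * U q) - (U p - V q) * (q - p)) : 0 ≤ Cf lam U V p q := by
  have hp : (0 : ℝ) < (p : ℝ) + 1 := by positivity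
  have hq : (0 : ℝ) < (q : ℝ) + 1 := by positivity
  have : Cf lam U V p q = (((q : ℝ) + 1) * (p * lam p - (p - 1) * U p) +
    (p + 1) * (q * lam q - (q - 1) * U q) - (U p - V q) * (q - p)) / (((p : ℝ) + 1) * (q + 1)) := by
    rw [Cf]
    field_simp
    ring
  rw [this]
  positivity

theorem C_nonneg {p q : ℕ} (hp : 1 ≤ p) (hpq : p ≤ q) :
    0 ≤ Cf (lamC PR QR XR AR) (UC QR Qh) (VC BR) p q := by
  apply Cf_mul
  have hp1 : (1 : ℝ) ≤ p := by exact_mod_cast hp
  have hpq1 : (p : ℝ) ≤ q := by exact_mod_cast hpq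
  by_cases hq : q < 44
  · have h1 := lam_ge hp
    have h2 := lam_ge (hp.trans hpq)
    have h3 := U_le (show p < 44 by omega)
    have h4 := U_le hq
    have h5 := V_ge q
    have h6 : (0 : ℝ) ≤ (cI p q : ℝ) := by
      exact_mod_cast check_c p (by omega) hp q hq hpq
    rw [cI] at h6
    push_cast at h6
    have a1 := mul_le_mul_of_nonneg_left h1 (show (0 : ℝ) ≤ ((q : ℝ) + 1) * p by positivity)
    have a2 := mul_le_mul_of_nonneg_left h2 (show (0 : ℝ) ≤ ((p : ℝ) + 1) * q by positivity)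
    have a3 := mul_le_mul_of_nonneg_left h3
      (show (0 : ℝ) ≤ ((q : ℝ) + 1) * (p - 1) + (q - p) by
        have := mul_nonneg (show (0 : ℝ) ≤ (q : ℝ) + 1 by positivity)
          (show (0 : ℝ) ≤ (p : ℝ) - 1 by linarith)
        linarith)
    have a4 := mul_le_mul_of_nonneg_left h4
      (show (0 : ℝ) ≤ ((p : ℝ) + 1) * (q - 1) by
        exact mul_nonneg (by positivity) (by linarith))
    have a5 := mul_le_mul_of_nonneg_left h5 (show (0 : ℝ) ≤ (q : ℝ) - p by linarith)
    nlinarith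
  · push Not at hq
    have hq44 : (44 : ℝ) ≤ q := by exact_mod_cast hq
    have h2 := lam_inf q
    have h4 := U_inf hq
    have h5 := V_nn q
    by_cases hp2 : p < 44
    · have h1 := lam_ge hp
      have h3 := U_le hp2
      obtain ⟨k1, k2, k3⟩ := check_s p hp2 hp
      have h6 : (0 : ℝ) ≤ (sI p : ℝ) := by exact_mod_cast k1
      have h7 : (0 : ℝ) ≤ (lI p : ℝ) := by exact_mod_cast k2
      have h8 : (0 : ℝ) ≤ (uI p : ℝ) := by exact_mod_cast k3
      rw [sI] at h6
      push_cast at h6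
      have a1 := mul_le_mul_of_nonneg_left h1 (show (0 : ℝ) ≤ ((q : ℝ) + 1) * p by positivity)
      have a2 := mul_le_mul_of_nonneg_left h2 (show (0 : ℝ) ≤ ((p : ℝ) + 1) * q by positivity)
      have a3 := mul_le_mul_of_nonneg_left h3
        (show (0 : ℝ) ≤ ((q : ℝ) + 1) * (p - 1) + (q - p) by
          have := mul_nonneg (show (0 : ℝ) ≤ (q : ℝ) + 1 by positivity)
            (show (0 : ℝ) ≤ (p : ℝ) - 1 by linarith)
          linarith)
      have a4 := mul_le_mul_of_nonneg_left h4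
        (show (0 : ℝ) ≤ ((p : ℝ) + 1) * (q - 1) by
          exact mul_nonneg (by positivity) (by linarith))
      have a5 := mul_nonneg h5 (show (0 : ℝ) ≤ (q : ℝ) - p by linarith)
      have a6 := mul_nonneg h6 (show (0 : ℝ) ≤ (q : ℝ) by linarith)
      have a7 := mul_nonneg h7 (show (0 : ℝ) ≤ (p : ℝ) by linarith)
      nlinarith
    · push Not at hp2
      have h1 := lam_inf p
      have h3 := U_inf hp2
      have a1 := mul_le_mul_of_nonneg_left h1 (show (0 : ℝ) ≤ ((q : ℝ) + 1) * p by positivity)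
      have a2 := mul_le_mul_of_nonneg_left h2 (show (0 : ℝ) ≤ ((p : ℝ) + 1) * q by positivity)
      have a3 := mul_le_mul_of_nonneg_left h3
        (show (0 : ℝ) ≤ ((q : ℝ) + 1) * (p - 1) + (q - p) by
          have := mul_nonneg (show (0 : ℝ) ≤ (q : ℝ) + 1 by positivity)
            (show (0 : ℝ) ≤ (p : ℝ) - 1 by linarith)
          linarith)
      have a4 := mul_le_mul_of_nonneg_left h4
        (show (0 : ℝ) ≤ ((p : ℝ) + 1) * (q - 1) by
          exact mul_nonneg (by positivity) (by linarith))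
      have a5 := mul_nonneg h5 (show (0 : ℝ) ≤ (q : ℝ) - p by linarith)
      have a6 := mul_nonneg (show (0 : ℝ) ≤ (q : ℝ) by linarith) (show (0 : ℝ) ≤ (p : ℝ) by linarith)
      nlinarith

theorem allC_R : AllC θR 12 HR PR hR QR Qh XR AR BR := by
  refine ⟨upC_R, low0_hR, low1_QR, low1_Qh low0_hR, low2_XR, mono_QR, mono_Qh,
    fun p q hp hpq => C_nonneg hp hpq, ?_⟩
  rw [P10, QR, if_pos (by norm_num), eq_two_one]
  norm_num [sc]

end Pool.Agent.RFT81
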