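import Pool.Agent.RFT81.TabA

/-!
# Some values of the tables
-/

namespace Pool.Agent.RFT81

/-- the rows after `n` steps -/
def iterL : ℕ → ℕ → List ℕ × List ℕ × List ℕ → List ℕ × List ℕ × List ℕ
  | 0, _, r => r
  | n + 1, t, r => iterL n (t + 1) (nextL (59 - t) r)

/-- the rows after `n` steps -/
def iterU : ℕ → ℕ → List ℕ × List ℕ → List ℕ × List ℕ
  | 0, _, r => r
  | n + 1, t, r => iterU n (t + 1) (nextU (11 - t) r)

theorem iterL_eq (n t : ℕ) : iterL n t (rowsL t) = rowsL (t + n) := by
  induction n generalizing t with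
  | zero => rfl
  | succ n ih =>
    rw [iterL, ← rowsL_succ, ih]
    congr 1
    omega

theorem iterU_eq (n t : ℕ) : iterU n t (rowsU t) = rowsU (t + n) := by
  induction n generalizing t with
  | zero => rfl
  | succ n ih =>
    rw [iterU, ← rowsU_succ, ih]
    congr 1
    omega

theorem headsL_eq (n t i : ℕ) (hi : i < n) :
    (headsL n t (rowsL t)).getD i 0 = (rowsL (t + i + 1)).2.1.headD 0 := by
  induction n generalizing t i with
  | zero => omega
  | succ n ih =>
    rw [headsL, ← rowsL_succ]
    rcases i with _ | i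
    · simp
    · rw [List.getD_cons_succ, ih _ _ (by omega),
        show t + 1 + i + 1 = t + (i + 1) + 1 by omega]

/-- the numbers `eq 59 0, eq 58 0, ..., eq 1 0` -/
def hdl : List ℕ := [4922223, 6501426, 7275630, 7730151, 8025828, 8231250, 8380534, 8492525,
  8578474, 8645493, 8698292, 8740113, 8773246, 8799356, 8819682, 8835148, 8846475, 8854209,
  8858773, 8860503, 8859660, 8856445, 8851017, 8843483, 8833927, 8822402, 8808932, 8793520,
  8776145, 8756767, 8735316, 8711708, 8685830, 8657542, 8626674, 8593027, 8556358, 8516385,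
  8472770, 8425102, 8372906, 8315607, 8252509, 8182765, 8105342, 8018952, 7921986, 7812396,
  7687532, 7543906, 7376824, 7179817, 6943673, 6654803, 6292223, 5821620, 5182561, 4257290,
  2780436]

set_option maxRecDepth 100000 in
theorem heads_eq : headsL 59 0 (rowsL 0) = hdl := by
  decide +kernel

theorem eq_head {k : ℕ} (hk : 1 ≤ k) (hk2 : k < 60) : eq k 0 = hdl.getD (59 - k) 0 := by
  have h := headsL_eq 59 0 (59 - k) (by omega)
  rw [heads_eq] at h
  rw [h, eq, show 0 + (59 - k) + 1 = 60 - k by omega]
  cases (rowsL (60 - k)).2.1 <;> simp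

set_option maxRecDepth 100000 in
theorem ex_two : ex 2 0 = 992854 := by
  have h : (iterL 58 0 (rowsL 0)).2.2.getD 0 0 = 992854 := by decide +kernel
  rwa [iterL_eq] at h

set_option maxRecDepth 100000 in
theorem eP_one : eP 1 0 = 1823839 := by
  have h : (iterU 11 0 (rowsU 0)).2.getD 0 0 = 1823839 := by decide +kernel
  rwa [iterU_eq] at h

set_option maxRecDepth 100000 in
theorem eq_two_one : eq 2 1 = 5370756 := by
  have h : (iterL 58 0 (rowsL 0)).2.1.getD 1 0 = 5370756 := by decide +kernel
  rwa [iterL_eq] at h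

theorem eq_two : eq 2 0 = 4257290 := by
  rw [eq_head (by norm_num) (by norm_num)]
  decide

end Pool.Agent.RFT81
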