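import Pool.Agent.RFT81.Lf
import Pool.Agent.RFT81.Gen

/-!
# [RFT-Prod] The drift of a product over the neighbours of a vertex

`PG G s x N` is the product over `c ∈ s` of `G c |N c| (lf N c x)`.

Paper proof of `gen_prod`.  Let `w ≠ x`.  The factor of `c ∈ N x` changes only if `w = c` (then
`|N c|` and `lf N c x` grow by one, `lf_att_self`) or if `w ∈ lfs N c x` (then `lf N c x` drops by
one and `|N c|` stays, `lf_att_leaf`, `card_att`); see `lf_att_other`.  For given `w` at most one
`c` is affected: if `w ∈ lfs N c x` then `N w = {c}` (`eq_of_leaf`), so `w ∉ N x` (as `x ≠ c`) and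
`w` is not in `lfs N c' x` for `c' ≠ c`.  So the sum over `w` splits into a sum over `c ∈ N x` of
the term `w = c` and the terms `w ∈ lfs N c x`, and for the latter `sr N w = 1 / |N c|`
(`sr_leaf`); there are `lf N c x` of them.
-/

namespace Pool.Agent.RFT81

open Finset

/-- product over a set of vertices -/
noncomputable def PG (G : ℕ → ℕ → ℕ → ℝ) (s : Finset ℕ) (x : ℕ) (N : Gr) : ℝ :=
  ∏ c ∈ s, G c (N c).card (lf N c x)

private theorem lfs_spec {N : Gr} {c e v : ℕ} :
    v ∈ lfs N c e ↔ v ∈ N c ∧ v ≠ e ∧ (N v).card = 1 := by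
  simp only [lfs, mem_filter]

private theorem fac_other {n : ℕ} {N : Gr} (hN : Ok n N) {x : ℕ} (G : ℕ → ℕ → ℕ → ℝ) {c w : ℕ}
    (hc : c ∈ N x) (hw : w ∈ Icc 1 n) (hcw : c ≠ w) (hwl : w ∉ lfs N c x) :
    G c (att N n w c).card (lf (att N n w) c x) = G c (N c).card (lf N c x) := by
  have hc' := hN.sub x hc
  rw [card_att hN hw hc', if_neg hcw, add_zero, lf_att_other hN hc' hw hcw hwl]

private theorem fac_self {n : ℕ} {N : Gr} (hN : Ok n N) {x : ℕ} (hx : x ∈ Icc 1 n)
    (G : ℕ → ℕ → ℕ → ℝ) {c : ℕ} (hc : c ∈ N x) :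
    G c (att N n c c).card (lf (att N n c) c x) = G c ((N c).card + 1) (lf N c x + 1) := by
  have hc' := hN.sub x hc
  have hx' : x ≠ n + 1 := by
    simp only [mem_Icc] at hx
    omega
  rw [card_att hN hc' hc', if_pos rfl, lf_att_self hN hc' hx']

private theorem fac_leaf {n : ℕ} {N : Gr} (hN : Ok n N) {x : ℕ} (G : ℕ → ℕ → ℕ → ℝ) {c w : ℕ}
    (hc : c ∈ N x) (hw : w ∈ lfs N c x) :
    G c (att N n w c).card (lf (att N n w) c x) = G c (N c).card (lf N c x - 1) := by
  have hc' := hN.sub x hc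
  have hwc := (lfs_spec.1 hw).1
  have hw' : w ∈ Icc 1 n := hN.sub c hwc
  have hcw : c ≠ w := by
    rintro rfl
    exact hN.irr _ hwc
  rw [card_att hN hw' hc', if_neg hcw, add_zero, lf_att_leaf hN hc' hw]

private theorem prod_diff {s : Finset ℕ} {c : ℕ} (hc : c ∈ s) {f g : ℕ → ℝ}
    (h : ∀ a ∈ s, a ≠ c → f a = g a) :
    ∏ a ∈ s, f a - ∏ a ∈ s, g a = (f c - g c) * ∏ a ∈ s.erase c, g a := by
  have h1 : ∏ a ∈ s.erase c, f a = ∏ a ∈ s.erase c, g a :=
    Finset.prod_congr rfl fun a ha => h a (mem_of_mem_erase ha) (ne_of_mem_erase ha)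
  rw [← Finset.mul_prod_erase s f hc, ← Finset.mul_prod_erase s g hc, h1]
  ring

theorem PG_att_self {n : ℕ} {N : Gr} (hN : Ok n N) {x : ℕ} (hx : x ∈ Icc 1 n)
    (G : ℕ → ℕ → ℕ → ℝ) : PG G (N x) x (att N n x) = PG G (N x) x N := by
  unfold PG
  refine Finset.prod_congr rfl fun c hc => ?_
  refine fac_other hN G hc hx ?_ ?_
  · rintro rfl
    exact hN.irr _ hc
  · intro h
    exact (lfs_spec.1 h).2.1 rfl

/-- the change of the product for one attachment -/
private theorem PG_diff {n : ℕ} {N : Gr} (hN : Ok n N) {x : ℕ} (hx : x ∈ Icc 1 n)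
    (G : ℕ → ℕ → ℕ → ℝ) {w : ℕ} (hw : w ∈ (Icc 1 n).erase x) :
    PG G (N x) x (att N n w) - PG G (N x) x N =
      ∑ c ∈ N x,
        ((if w = c then (G c ((N c).card + 1) (lf N c x + 1) - G c (N c).card (lf N c x)) *
          ∏ c' ∈ (N x).erase c, G c' (N c').card (lf N c' x) else 0) +
        (if w ∈ lfs N c x then (G c (N c).card (lf N c x - 1) - G c (N c).card (lf N c x)) *
          ∏ c' ∈ (N x).erase c, G c' (N c').card (lf N c' x) else 0)) := by
  have hwx : w ≠ x := ne_of_mem_erase hw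
  have hw' : w ∈ Icc 1 n := mem_of_mem_erase hw
  unfold PG
  by_cases h1 : w ∈ N x
  · have hnl : ∀ c ∈ N x, w ∉ lfs N c x := by
      intro c hc hl
      have h2 := lfs_spec.1 hl
      have h3 : c = x := eq_of_leaf h2.2.2 (hN.symm h2.1) (hN.symm h1)
      rw [h3] at hc
      exact hN.irr x hc
    rw [prod_diff h1 (fun a ha haw => fac_other hN G ha hw' haw (hnl a ha)),
      Finset.sum_eq_single_of_mem w h1]
    · rw [if_pos rfl, if_neg (hnl w h1), add_zero, fac_self hN hx G h1]
    · intro c hc hcw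
      rw [if_neg (Ne.symm hcw), if_neg (hnl c hc), add_zero]
  · by_cases h2 : ∃ c ∈ N x, w ∈ lfs N c x
    · obtain ⟨c, hc, hl⟩ := h2
      have hlc := lfs_spec.1 hl
      have hnl : ∀ a ∈ N x, a ≠ c → w ∉ lfs N a x := by
        intro a ha hac hla
        have h3 := lfs_spec.1 hla
        exact hac (eq_of_leaf h3.2.2 (hN.symm h3.1) (hN.symm hlc.1))
      have hne : ∀ a ∈ N x, a ≠ w := by
        rintro a ha rfl
        exact h1 ha
      rw [prod_diff hc (fun a ha hac => fac_other hN G ha hw' (hne a ha) (hnl a ha hac)),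
        Finset.sum_eq_single_of_mem c hc]
      · rw [if_neg (Ne.symm (hne c hc)), if_pos hl, zero_add, fac_leaf hN G hc hl]
      · intro a ha hac
        rw [if_neg (Ne.symm (hne a ha)), if_neg (hnl a ha hac), add_zero]
    · have h3 : ∀ c ∈ N x, w ∉ lfs N c x := fun c hc hl => h2 ⟨c, hc, hl⟩
      have hne : ∀ a ∈ N x, a ≠ w := by
        rintro a ha rfl
        exact h1 ha
      rw [Finset.prod_congr rfl (fun a ha => fac_other hN G ha hw' (hne a ha) (h3 a ha)),
        sub_self, Finset.sum_eq_zero]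
      intro a ha
      rw [if_neg (Ne.symm (hne a ha)), if_neg (h3 a ha), add_zero]

theorem gen_prod {n : ℕ} {N : Gr} (hN : Ok n N) {x : ℕ} (hx : x ∈ Icc 1 n)
    (G : ℕ → ℕ → ℕ → ℝ) :
    ∑ w ∈ (Icc 1 n).erase x, sr N w * (PG G (N x) x (att N n w) - PG G (N x) x N) =
      ∑ c ∈ N x,
        (sr N c * (G c ((N c).card + 1) (lf N c x + 1) - G c (N c).card (lf N c x)) +
          (lf N c x : ℝ) / (N c).card *
            (G c (N c).card (lf N c x - 1) - G c (N c).card (lf N c x))) *
        ∏ c' ∈ (N x).erase c, G c' (N c').card (lf N c' x) := by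
  have h1 : ∑ w ∈ (Icc 1 n).erase x, sr N w * (PG G (N x) x (att N n w) - PG G (N x) x N) =
      ∑ w ∈ (Icc 1 n).erase x, ∑ c ∈ N x,
        ((if w = c then sr N w * ((G c ((N c).card + 1) (lf N c x + 1) -
            G c (N c).card (lf N c x)) *
          ∏ c' ∈ (N x).erase c, G c' (N c').card (lf N c' x)) else 0) +
        (if w ∈ lfs N c x then sr N w * ((G c (N c).card (lf N c x - 1) -
            G c (N c).card (lf N c x)) *
          ∏ c' ∈ (N x).erase c, G c' (N c').card (lf N c' x)) else 0)) := by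
    refine Finset.sum_congr rfl fun w hw => ?_
    rw [PG_diff hN hx G hw, Finset.mul_sum]
    refine Finset.sum_congr rfl fun c _ => ?_
    rw [mul_add, mul_ite, mul_ite, mul_zero]
  rw [h1, Finset.sum_comm]
  refine Finset.sum_congr rfl fun c hc => ?_
  rw [Finset.sum_add_distrib]
  have hcx : c ∈ (Icc 1 n).erase x := by
    refine mem_erase.2 ⟨?_, hN.sub x hc⟩
    rintro rfl
    exact hN.irr _ hc
  have h2 : ∑ w ∈ (Icc 1 n).erase x,
      (if w = c then sr N w * ((G c ((N c).card + 1) (lf N c x + 1) -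
            G c (N c).card (lf N c x)) *
          ∏ c' ∈ (N x).erase c, G c' (N c').card (lf N c' x)) else 0) =
      sr N c * ((G c ((N c).card + 1) (lf N c x + 1) -
            G c (N c).card (lf N c x)) *
          ∏ c' ∈ (N x).erase c, G c' (N c').card (lf N c' x)) := by
    rw [Finset.sum_eq_single_of_mem c hcx, if_pos rfl]
    intro b _ hb
    rw [if_neg hb]
  have h3 : ∑ w ∈ (Icc 1 n).erase x,
      (if w ∈ lfs N c x then sr N w * ((G c (N c).card (lf N c x - 1) -
            G c (N c).card (lf N c x)) *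
          ∏ c' ∈ (N x).erase c, G c' (N c').card (lf N c' x)) else 0) =
      (lf N c x : ℝ) / (N c).card * ((G c (N c).card (lf N c x - 1) -
            G c (N c).card (lf N c x)) *
          ∏ c' ∈ (N x).erase c, G c' (N c').card (lf N c' x)) := by
    rw [← Finset.sum_filter]
    have h4 : ((Icc 1 n).erase x).filter (fun w => w ∈ lfs N c x) = lfs N c x := by
      ext w
      simp only [mem_filter, mem_erase]
      constructor
      · exact fun h => h.2
      · intro h
        have h5 := lfs_spec.1 h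
        exact ⟨⟨h5.2.1, hN.sub c h5.1⟩, h⟩
    rw [h4]
    have h5 : ∀ w ∈ lfs N c x, sr N w * ((G c (N c).card (lf N c x - 1) -
            G c (N c).card (lf N c x)) *
          ∏ c' ∈ (N x).erase c, G c' (N c').card (lf N c' x)) =
        ((N c).card : ℝ)⁻¹ * ((G c (N c).card (lf N c x - 1) -
            G c (N c).card (lf N c x)) *
          ∏ c' ∈ (N x).erase c, G c' (N c').card (lf N c' x)) := by
      intro w hw
      have h6 := lfs_spec.1 hw
      rw [sr_leaf h6.2.2 (hN.symm h6.1)]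
    rw [Finset.sum_congr rfl h5, Finset.sum_const, nsmul_eq_mul, ← mul_assoc,
      ← div_eq_mul_inv]
    rfl
  rw [h2, h3]
  ring

end Pool.Agent.RFT81
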