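import Pool.Agent.RFT81.Zset

/-!
# [RFT-Relab] Relabelling the vertices

Paper proof.  `Rel.att`: `att N' n (σ w)` is the image of `att N n w`, since `σ (n + 1) = n + 1`.
`Rel.q_eq`: `sr` is the sum over the neighbours of the inverse degrees.
`relab_fin`: induction on `k`, for all `h`, `h'`, `n`.  For `k = 0` both events are determined by the
histories (`tr_of_cyl`), and the two conditions agree by `hpast` and `Rel.nb`.  In the step use `part`
for both sides, with the bijection `w ↦ σ w` of `Icc 1 n`; with `c_w = μ (cyl W (n+1) (h, w))`,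
`c'_w = μ (cyl W (n+1) (h', σ w))` we have `c_w = c q`, `c'_w = c' q` with the same `q > 0`, and the
induction hypothesis `E_w * c'_w = E'_w * c_w` gives `E_w * c' = E'_w * c`.
`relab`: `{0 < Z W v}` is the increasing union over `b` of the sets
`{∀ i ≥ b, i ≤ b * dg W i v}` (`Z_pos_iff`), and each of them (take `b > n`) is the
decreasing intersection over `k` of the events of `relab_fin`.
-/

namespace Pool.Agent.RFT81

open Finset MeasureTheory Filter

variable {Ω : Type*} [MeasurableSpace Ω] {μ : Measure Ω} [IsProbabilityMeasure μ] {W : ℕ → Ω → ℕ}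

/-- `h'` is the history `h` with the vertices relabelled by `σ` -/
structure Rel (σ : Equiv.Perm ℕ) (n : ℕ) (h h' : ℕ → ℕ) : Prop where
  good : Good n h
  good' : Good n h'
  fix : ∀ i, i ∉ Icc 1 n → σ i = i
  nb : ∀ v, tr h' n (σ v) = (tr h n v).map σ.toEmbedding

private theorem Rel.mem {σ : Equiv.Perm ℕ} {n : ℕ} {h h' : ℕ → ℕ} (H : Rel σ n h h') {w : ℕ}
    (hw : w ∈ Icc 1 n) : σ w ∈ Icc 1 n := by
  by_contra hc
  have h1 := H.fix _ hc
  have h2 := σ.injective h1
  rw [h2] at hc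
  exact hc hw

theorem Rel.card_eq {σ : Equiv.Perm ℕ} {n : ℕ} {h h' : ℕ → ℕ} (H : Rel σ n h h') (v : ℕ) :
    (tr h' n (σ v)).card = (tr h n v).card := by
  rw [H.nb v, Finset.card_map]

theorem Rel.upd {σ : Equiv.Perm ℕ} {n : ℕ} {h h' : ℕ → ℕ} (H : Rel σ n h h') {w : ℕ}
    (hw : w ∈ Icc 1 n) : Rel σ (n + 1) (Function.update h n w) (Function.update h' n (σ w)) := by
  have hn1 : σ (n + 1) = n + 1 := H.fix _ (by simp)
  refine ⟨H.good.upd hw, H.good'.upd (H.mem hw), ?_, ?_⟩
  · intro i hi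
    apply H.fix
    intro h1
    apply hi
    rw [mem_Icc] at h1 ⊢
    omega
  · intro v
    rw [tr_update H.good'.1, tr_update H.good.1]
    unfold att
    by_cases h1 : v = n + 1
    · rw [h1, hn1]
      simp
    · have h2 : σ v ≠ n + 1 := by
        intro hc
        apply h1
        exact σ.injective (hc.trans hn1.symm)
      rw [if_neg h1, if_neg h2]
      by_cases h3 : v = w
      · rw [h3]
        simp only [if_true]
        rw [Finset.map_insert, H.nb w]
        simp [hn1]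
      · have h4 : σ v ≠ σ w := fun hc => h3 (σ.injective hc)
        rw [if_neg h3, if_neg h4, H.nb v]

theorem Rel.q_eq {σ : Equiv.Perm ℕ} {n : ℕ} {h h' : ℕ → ℕ} (H : Rel σ n h h') (w : ℕ) :
    q (tr h' n) n (σ w) = q (tr h n) n w := by
  unfold q sr
  rw [H.nb w, Finset.sum_map]
  congr 1
  refine Finset.sum_congr rfl fun x _ => ?_
  have := H.card_eq x
  simp only [Equiv.coe_toEmbedding]
  rw [this]

omit [IsProbabilityMeasure μ] in
private theorem ev_meas (hW : Wlaw μ W) (b v m : ℕ) :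
    MeasurableSet {ω | ∀ i, b ≤ i → i ≤ m → i ≤ b * dg W i v ω} := by
  simp only [Set.ofPred_forall]
  refine MeasurableSet.iInter fun i => MeasurableSet.iInter fun _ => MeasurableSet.iInter fun _ => ?_
  exact measurableSet_le measurable_const ((dg_meas hW.meas i v).const_mul b)

theorem relab_fin (hW : Wlaw μ W) {σ : Equiv.Perm ℕ} (b v k : ℕ) {n : ℕ} {h h' : ℕ → ℕ}
    (H : Rel σ n h h') (hpast : ∀ i, b ≤ i → i ≤ n → (tr h' i (σ v)).card = (tr h i v).card) :
    μ.real ({ω | ∀ i, b ≤ i → i ≤ n + k → i ≤ b * dg W i v ω} ∩ cyl W n h) *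
        μ.real (cyl W n h') =
      μ.real ({ω | ∀ i, b ≤ i → i ≤ n + k → i ≤ b * dg W i (σ v) ω} ∩ cyl W n h') *
        μ.real (cyl W n h) := by
  induction k generalizing n h h' with
  | zero =>
    by_cases hC : ∀ i, b ≤ i → i ≤ n → i ≤ b * (tr h i v).card
    · have e1 : {ω | ∀ i, b ≤ i → i ≤ n + 0 → i ≤ b * dg W i v ω} ∩ cyl W n h = cyl W n h := by
        refine Set.inter_eq_right.2 fun ω hω i hb hi => ?_
        unfold dg
        rw [tr_of_cyl hω hi]
        exact hC i hb hi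
      have e2 : {ω | ∀ i, b ≤ i → i ≤ n + 0 → i ≤ b * dg W i (σ v) ω} ∩ cyl W n h' =
          cyl W n h' := by
        refine Set.inter_eq_right.2 fun ω hω i hb hi => ?_
        unfold dg
        rw [tr_of_cyl hω hi, hpast i hb hi]
        exact hC i hb hi
      rw [e1, e2, mul_comm]
    · push Not at hC
      obtain ⟨i, hb, hi, hlt⟩ := hC
      have e1 : {ω | ∀ i, b ≤ i → i ≤ n + 0 → i ≤ b * dg W i v ω} ∩ cyl W n h = ∅ := by
        rw [Set.eq_empty_iff_forall_notMem]
        rintro ω ⟨h1, hω⟩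
        have h2 := h1 i hb hi
        unfold dg at h2
        rw [tr_of_cyl hω hi] at h2
        omega
      have e2 : {ω | ∀ i, b ≤ i → i ≤ n + 0 → i ≤ b * dg W i (σ v) ω} ∩ cyl W n h' = ∅ := by
        rw [Set.eq_empty_iff_forall_notMem]
        rintro ω ⟨h1, hω⟩
        have h2 := h1 i hb hi
        unfold dg at h2
        rw [tr_of_cyl hω hi, hpast i hb hi] at h2
        omega
      rw [e1, e2]
      simp
  | succ k ih =>
    have hadd : n + (k + 1) = (n + 1) + k := by omega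
    rw [hadd, part hW H.good (ev_meas hW b v _), part hW H.good' (ev_meas hW b (σ v) _)]
    have hbij : ∑ w ∈ Icc 1 n, μ.real ({ω | ∀ i, b ≤ i → i ≤ n + 1 + k → i ≤ b * dg W i (σ v) ω} ∩
        cyl W (n + 1) (Function.update h' n w)) =
        ∑ w ∈ Icc 1 n, μ.real ({ω | ∀ i, b ≤ i → i ≤ n + 1 + k → i ≤ b * dg W i (σ v) ω} ∩
        cyl W (n + 1) (Function.update h' n (σ w))) := by
      symm
      refine Finset.sum_nbij (fun w => σ w) (fun w hw => H.mem hw) (σ.injective.injOn) ?_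
        (fun w _ => rfl)
      exact Finset.surjOn_of_injOn_of_card_le _ (fun w hw => H.mem hw) σ.injective.injOn le_rfl
    rw [hbij, Finset.sum_mul, Finset.sum_mul]
    refine Finset.sum_congr rfl fun w hw => ?_
    have h1 := ih (H.upd hw) (by
      intro i hb hi
      rcases Nat.lt_or_ge i (n + 1) with hlt | hge
      · rw [tr_update_le (by omega), tr_update_le (by omega)]
        exact hpast i hb (by omega)
      · have : i = n + 1 := by omega
        rw [this]
        exact (H.upd hw).card_eq v)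
    rw [hW.law n h w H.good hw, hW.law n h' (σ w) H.good' (H.mem hw), H.q_eq w] at h1
    have hq := q_pos H.good.ok hw
    have h2 : (μ.real ({ω | ∀ i, b ≤ i → i ≤ n + 1 + k → i ≤ b * dg W i v ω} ∩
        cyl W (n + 1) (Function.update h n w)) * μ.real (cyl W n h')) * q (tr h n) n w =
        (μ.real ({ω | ∀ i, b ≤ i → i ≤ n + 1 + k → i ≤ b * dg W i (σ v) ω} ∩
        cyl W (n + 1) (Function.update h' n (σ w))) * μ.real (cyl W n h)) * q (tr h n) n w := by
      linarith
    exact mul_right_cancel₀ hq.ne' h2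

private theorem ev_tendsto (hW : Wlaw μ W) (b v n : ℕ) (h : ℕ → ℕ) :
    Tendsto (fun k : ℕ => μ.real ({ω | ∀ i, b ≤ i → i ≤ n + k → i ≤ b * dg W i v ω} ∩ cyl W n h))
      atTop (nhds (μ.real ({ω | ∀ i, b ≤ i → i ≤ b * dg W i v ω} ∩ cyl W n h))) := by
  have hset : {ω | ∀ i, b ≤ i → i ≤ b * dg W i v ω} ∩ cyl W n h =
      ⋂ k : ℕ, ({ω | ∀ i, b ≤ i → i ≤ n + k → i ≤ b * dg W i v ω} ∩ cyl W n h) := by
    ext ω
    simp only [Set.mem_inter_iff, Set.mem_ofPred_eq, Set.mem_iInter]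
    constructor
    · rintro ⟨h1, h2⟩ k
      exact ⟨fun i hb _ => h1 i hb, h2⟩
    · intro h1
      exact ⟨fun i hb => (h1 i).1 i hb (by omega), (h1 0).2⟩
  rw [hset]
  simp only [measureReal_def]
  refine (ENNReal.tendsto_toReal (measure_ne_top _ _)).comp ?_
  refine tendsto_measure_iInter_atTop (fun k => ((ev_meas hW b v _).inter
    (cyl_meas hW n h)).nullMeasurableSet) ?_ ⟨0, measure_ne_top _ _⟩
  intro k l hkl ω hω
  exact ⟨fun i hb hi => hω.1 i hb (by omega), hω.2⟩

private theorem pos_tendsto (v n : ℕ) (h : ℕ → ℕ) :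
    Tendsto (fun b : ℕ => μ.real ({ω | ∀ i, b ≤ i → i ≤ b * dg W i v ω} ∩ cyl W n h))
      atTop (nhds (μ.real ({ω | 0 < Z W v ω} ∩ cyl W n h))) := by
  have hset : {ω | 0 < Z W v ω} ∩ cyl W n h =
      ⋃ b : ℕ, ({ω | ∀ i, b ≤ i → i ≤ b * dg W i v ω} ∩ cyl W n h) := by
    ext ω
    simp only [Set.mem_inter_iff, Set.mem_ofPred_eq, Set.mem_iUnion]
    rw [Z_pos_iff]
    constructor
    · rintro ⟨⟨b, h1⟩, h2⟩
      exact ⟨b, h1, h2⟩
    · rintro ⟨b, h1, h2⟩
      exact ⟨⟨b, h1⟩, h2⟩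
  rw [hset]
  simp only [measureReal_def]
  refine (ENNReal.tendsto_toReal (measure_ne_top _ _)).comp ?_
  refine tendsto_measure_iUnion_atTop ?_
  intro b c hbc ω hω
  refine ⟨fun i hb => ?_, hω.2⟩
  have h1 := hω.1 i (le_trans hbc hb)
  exact h1.trans (Nat.mul_le_mul_right _ hbc)

private theorem Z0_real (hW : Wlaw μ W) (v n : ℕ) (h : ℕ → ℕ) :
    μ.real (Z0 W v ∩ cyl W n h) =
      μ.real (cyl W n h) - μ.real ({ω | 0 < Z W v ω} ∩ cyl W n h) := by
  have h1 := measureReal_inter_add_sdiff (μ := μ) (s := cyl W n h) (Z0_meas hW.meas v)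
  have h2 : cyl W n h \ Z0 W v = {ω | 0 < Z W v ω} ∩ cyl W n h := by
    ext ω
    simp only [Z0, Set.mem_sdiff, Set.mem_ofPred_eq, not_not, Set.mem_inter_iff]
    tauto
  rw [h2, Set.inter_comm] at h1
  linarith

theorem relab (hW : Wlaw μ W) {σ : Equiv.Perm ℕ} {n : ℕ} {h h' : ℕ → ℕ} (H : Rel σ n h h')
    (v : ℕ) : μ.real (Z0 W v ∩ cyl W n h) * μ.real (cyl W n h') =
      μ.real (Z0 W (σ v) ∩ cyl W n h') * μ.real (cyl W n h) := by
  have hb : ∀ b : ℕ, n < b →
      μ.real ({ω | ∀ i, b ≤ i → i ≤ b * dg W i v ω} ∩ cyl W n h) * μ.real (cyl W n h') =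
      μ.real ({ω | ∀ i, b ≤ i → i ≤ b * dg W i (σ v) ω} ∩ cyl W n h') * μ.real (cyl W n h) := by
    intro b hbn
    have t1 := (ev_tendsto hW b v n h).mul_const (μ.real (cyl W n h'))
    have t2 := (ev_tendsto hW b (σ v) n h').mul_const (μ.real (cyl W n h))
    have heq : (fun k : ℕ =>
        μ.real ({ω | ∀ i, b ≤ i → i ≤ n + k → i ≤ b * dg W i v ω} ∩ cyl W n h) *
          μ.real (cyl W n h')) = (fun k : ℕ =>
        μ.real ({ω | ∀ i, b ≤ i → i ≤ n + k → i ≤ b * dg W i (σ v) ω} ∩ cyl W n h') *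
          μ.real (cyl W n h)) := by
      funext k
      exact relab_fin hW b v k H (fun i h1 h2 => by omega)
    rw [heq] at t1
    exact tendsto_nhds_unique t1 t2
  have t1 := (pos_tendsto (μ := μ) (W := W) v n h).mul_const (μ.real (cyl W n h'))
  have t2 := (pos_tendsto (μ := μ) (W := W) (σ v) n h').mul_const (μ.real (cyl W n h))
  have t3 := t1.congr' (f₂ := fun b : ℕ =>
      μ.real ({ω | ∀ i, b ≤ i → i ≤ b * dg W i (σ v) ω} ∩ cyl W n h') * μ.real (cyl W n h)) (by
    filter_upwards [eventually_gt_atTop n] with b hbn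
    exact hb b hbn)
  have h3 := tendsto_nhds_unique t3 t2
  rw [Z0_real hW v n h, Z0_real hW (σ v) n h']
  linarith

end Pool.Agent.RFT81
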