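import Pool.Agent.RFT81.Zset
import Pool.Agent.RFT81.Sr

/-!
# [RFT-StepA] Many leaves give linear growth

Let `L_i = lf T_i x 0` be the number of leaves adjacent to `x` in `T_i` (`0` is not a vertex).  The
state at time `i` is bad if `L_i < 6` or `i > B (L_i - 3)`.  Let `S i L = 5 / L + i / (B (L - 3))`.

Paper proof.  By induction on `k`, for all `n`, `h` with `Good n h` and a state which is not bad:
`μ ({some state at a time in [n, n + k] is bad} ∩ cyl W n h) ≤ S n L_n * μ (cyl W n h)`.
In the step, the next value of `L` is `L + 1` with probability `p ≥ L / n` (attaching to `x`, rate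
`sr N x ≥ L`), `L - 1` with probability `L / (n d) ≤ 1 / n` (attaching to a leaf adjacent to `x`,
each has weight `1 / |N x|`, and `L ≤ |N x|`), and `L` otherwise.  If the next state is bad its
contribution `1` is at most the formula for `S` (the next `L` is at least `5`); otherwise use the
induction hypothesis.  So it suffices that `E[S (n+1) L'] ≤ S n L`, which follows for each of the
two summands: `5 / L`: `-L/(L(L+1)) + 1/(L(L-1)) ≤ 0`;
`i/(L-3)`: `(n+1) (1/(L-3) - (1/n)(L/((L-3)(L-2)) - 1/((L-4)(L-3)))) ≤ n/(L-3)`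
since `L/(L-2) - 1/(L-4) ≥ 1` for `L ≥ 6`.
Let `k → ∞`.  If no state at a time `i ≥ n` is bad then `i ≤ B L_i ≤ B * dg W i x ω`, so the degree
is linear (`Z_pos_iff`).  So `μ (Z0 W x ∩ cyl W n h) ≤ S n L * μ (cyl W n h)` for all `B ≥ n`; let
`B → ∞`.
-/

namespace Pool.Agent.RFT81

open Finset MeasureTheory Filter

variable {Ω : Type*} [MeasurableSpace Ω] {μ : Measure Ω} [IsProbabilityMeasure μ] {W : ℕ → Ω → ℕ}

/-- a state which is not bad -/
def okS (B x i : ℕ) (N : Gr) : Prop := 6 ≤ lf N x 0 ∧ i ≤ B * (lf N x 0 - 3)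

/-- the bound for the probability of a bad state -/
noncomputable def SS (B i L : ℕ) : ℝ := 5 / L + i / (B * ((L : ℝ) - 3))

private lemma sa_lf_le_sr {n : ℕ} {N : Gr} (hN : Ok n N) (x : ℕ) : (lf N x 0 : ℝ) ≤ sr N x := by
  unfold lf sr
  calc ((lfs N x 0).card : ℝ) = ∑ v ∈ lfs N x 0, ((N v).card : ℝ)⁻¹ := by
        rw [Finset.sum_congr rfl (g := fun _ => (1 : ℝ))]
        · simp
        · intro v hv
          unfold lfs at hv
          rw [(Finset.mem_filter.1 hv).2.2]
          simp
    _ ≤ ∑ v ∈ N x, ((N v).card : ℝ)⁻¹ := by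
        apply Finset.sum_le_sum_of_subset_of_nonneg
        · unfold lfs
          exact Finset.filter_subset _ _
        · intro v _ _
          positivity

private lemma sa_alg {n L : ℝ} (hn : 0 < n) (hL : 6 ≤ L) {B : ℝ} (hB : 0 < B) :
    (5 / L + (n + 1) / (B * (L - 3)))
      + L / n * ((5 / (L + 1) + (n + 1) / (B * (L + 1 - 3))) - (5 / L + (n + 1) / (B * (L - 3))))
      + 1 / n * ((5 / (L - 1) + (n + 1) / (B * (L - 1 - 3))) - (5 / L + (n + 1) / (B * (L - 3))))
      ≤ 5 / L + n / (B * (L - 3)) := by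
  have h1 : L / n * (5 / (L + 1) - 5 / L) + 1 / n * (5 / (L - 1) - 5 / L) ≤ 0 := by
    have : L / n * (5 / (L + 1) - 5 / L) + 1 / n * (5 / (L - 1) - 5 / L)
        = - (5 / n) * ((L * (L - 1) - (L + 1)) / ((L + 1) * (L * (L - 1)))) := by
      have : L - 1 ≠ 0 := by linarith
      have : L + 1 ≠ 0 := by linarith
      have : L ≠ 0 := by linarith
      field_simp
      ring
    rw [this]
    have h2 : 0 ≤ (L * (L - 1) - (L + 1)) / ((L + 1) * (L * (L - 1))) := by
      apply div_nonneg
      · nlinarith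
      · have : 0 < L - 1 := by linarith
        positivity
    have h3 : 0 ≤ 5 / n := by positivity
    nlinarith
  have h2 : (n + 1) / (B * (L - 3))
      + L / n * ((n + 1) / (B * (L + 1 - 3)) - (n + 1) / (B * (L - 3)))
      + 1 / n * ((n + 1) / (B * (L - 1 - 3)) - (n + 1) / (B * (L - 3)))
      ≤ n / (B * (L - 3)) := by
    have e : n / (B * (L - 3)) - ((n + 1) / (B * (L - 3))
      + L / n * ((n + 1) / (B * (L + 1 - 3)) - (n + 1) / (B * (L - 3)))
      + 1 / n * ((n + 1) / (B * (L - 1 - 3)) - (n + 1) / (B * (L - 3))))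
      = 1 / (B * (L - 3)) * (((n + 1) * (L - 6) + (L - 2) * (L - 4)) / (n * ((L - 2) * (L - 4)))) := by
      have a1 : L - 3 ≠ 0 := by linarith
      have a2 : L - 2 ≠ 0 := by linarith
      have a3 : L - 4 ≠ 0 := by linarith
      have a4 : L + 1 - 3 ≠ 0 := by linarith
      have a5 : L - 1 - 3 ≠ 0 := by linarith
      have a6 : L + 1 - 3 = L - 2 := by ring
      have a7 : L - 1 - 3 = L - 4 := by ring
      rw [a6, a7]
      field_simp
      ring
    have p : 0 ≤ 1 / (B * (L - 3)) * (((n + 1) * (L - 6) + (L - 2) * (L - 4)) / (n * ((L - 2) * (L - 4)))) := by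
      have a1 : 0 < L - 3 := by linarith
      have a2 : 0 < L - 2 := by linarith
      have a3 : 0 < L - 4 := by linarith
      have a4 : 0 ≤ L - 6 := by linarith
      positivity
    linarith
  have h3 : (5 / L + (n + 1) / (B * (L - 3)))
      + L / n * ((5 / (L + 1) + (n + 1) / (B * (L + 1 - 3))) - (5 / L + (n + 1) / (B * (L - 3))))
      + 1 / n * ((5 / (L - 1) + (n + 1) / (B * (L - 1 - 3))) - (5 / L + (n + 1) / (B * (L - 3))))
      = 5 / L + (L / n * (5 / (L + 1) - 5 / L) + 1 / n * (5 / (L - 1) - 5 / L))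
      + ((n + 1) / (B * (L - 3))
      + L / n * ((n + 1) / (B * (L + 1 - 3)) - (n + 1) / (B * (L - 3)))
      + 1 / n * ((n + 1) / (B * (L - 1 - 3)) - (n + 1) / (B * (L - 3)))) := by ring
  rw [h3]
  linarith

/-- one step -/
theorem SS_step {B x n : ℕ} (hB : 1 ≤ B) {N : Gr} (hN : Ok n N) (hx : x ∈ Icc 1 n)
    (hL : 6 ≤ lf N x 0) :
    ∑ w ∈ Icc 1 n, q N n w * SS B (n + 1) (lf (att N n w) x 0) ≤ SS B n (lf N x 0) := by
  classical
  have hn2 := hN.two
  have hn : (0 : ℝ) < n := by positivity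
  have hBR : (0 : ℝ) < B := by exact_mod_cast hB
  set L := lf N x 0 with hLdef
  have hLR : (6 : ℝ) ≤ (L : ℝ) := by exact_mod_cast hL
  have hdisj : x ∉ lfs N x 0 := by
    intro h
    unfold lfs at h
    exact hN.irr x (Finset.mem_filter.1 h).1
  have hsub : lfs N x 0 ⊆ Icc 1 n := by
    intro v hv
    unfold lfs at hv
    exact hN.sub x (Finset.mem_filter.1 hv).1
  -- pointwise value
  have hval : ∀ w ∈ Icc 1 n, q N n w * SS B (n + 1) (lf (att N n w) x 0) =
      q N n w * SS B (n + 1) L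
        + (if w = x then q N n w * (SS B (n + 1) (L + 1) - SS B (n + 1) L) else 0)
        + (if w ∈ lfs N x 0 then q N n w * (SS B (n + 1) (L - 1) - SS B (n + 1) L) else 0) := by
    intro w hw
    by_cases h1 : w = x
    · subst h1
      rw [if_pos rfl, if_neg hdisj, lf_att_self hN hx (by omega), ← hLdef]
      ring
    · by_cases h2 : w ∈ lfs N x 0
      · rw [if_neg h1, if_pos h2, lf_att_leaf hN hx h2, ← hLdef]
        ring
      · rw [if_neg h1, if_neg h2, lf_att_other hN hx hw (fun h => h1 h.symm) h2, ← hLdef]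
        ring
  rw [Finset.sum_congr rfl hval, Finset.sum_add_distrib, Finset.sum_add_distrib,
    ← Finset.sum_mul, sum_q hN, one_mul, Finset.sum_ite_eq' (Icc 1 n) x, if_pos hx,
    ← Finset.sum_filter]
  have hfil : (Icc 1 n).filter (fun w => w ∈ lfs N x 0) = lfs N x 0 := by
    ext w
    simp only [Finset.mem_filter]
    exact ⟨fun h => h.2, fun h => ⟨hsub h, h⟩⟩
  rw [hfil]
  -- the leaves
  have hqle : ∀ w ∈ lfs N x 0, q N n w = ((N x).card : ℝ)⁻¹ / n := by
    intro w hw
    unfold lfs at hw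
    obtain ⟨h1, h2, h3⟩ := Finset.mem_filter.1 hw
    unfold q
    rw [sr_leaf h3 (hN.symm h1)]
  have hdL : L ≤ (N x).card := by
    rw [hLdef]
    unfold lf lfs
    exact Finset.card_le_card (Finset.filter_subset _ _)
  have hsum3 : ∑ w ∈ lfs N x 0, q N n w * (SS B (n + 1) (L - 1) - SS B (n + 1) L)
      = (L * (((N x).card : ℝ)⁻¹ / n)) * (SS B (n + 1) (L - 1) - SS B (n + 1) L) := by
    rw [← Finset.sum_mul, Finset.sum_congr rfl hqle, Finset.sum_const, nsmul_eq_mul]
    rfl
  rw [hsum3]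
  have hcL : ((L - 1 : ℕ) : ℝ) = (L : ℝ) - 1 := by
    rw [Nat.cast_sub (by omega)]
    simp
  have hS1 : SS B (n + 1) (L + 1) - SS B (n + 1) L ≤ 0 := by
    unfold SS
    push_cast
    have h5 : (5 : ℝ) / (L + 1) ≤ 5 / L := by
      apply div_le_div_of_nonneg_left (by norm_num) (by linarith) (by linarith)
    have h6 : ((n : ℝ) + 1) / (B * ((L : ℝ) + 1 - 3)) ≤ (n + 1) / (B * (L - 3)) := by
      apply div_le_div_of_nonneg_left (by positivity)
      · have : 0 < (L : ℝ) - 3 := by linarith
        positivity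
      · nlinarith
    linarith
  have hS2 : 0 ≤ SS B (n + 1) (L - 1) - SS B (n + 1) L := by
    unfold SS
    rw [hcL]
    push_cast
    have h5 : (5 : ℝ) / L ≤ 5 / ((L : ℝ) - 1) := by
      apply div_le_div_of_nonneg_left (by norm_num) (by linarith) (by linarith)
    have h6 : ((n : ℝ) + 1) / (B * ((L : ℝ) - 3)) ≤ (n + 1) / (B * (L - 1 - 3)) := by
      apply div_le_div_of_nonneg_left (by positivity)
      · have : 0 < (L : ℝ) - 1 - 3 := by linarith
        positivity
      · nlinarith
    linarith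
  have hq1 : (L : ℝ) / n ≤ q N n x := by
    unfold q
    apply div_le_div_of_nonneg_right _ hn.le
    rw [hLdef]
    exact sa_lf_le_sr hN x
  have hq2 : (L : ℝ) * (((N x).card : ℝ)⁻¹ / n) ≤ 1 / n := by
    rw [← mul_div_assoc]
    apply div_le_div_of_nonneg_right _ hn.le
    have hc : (0 : ℝ) < ((N x).card : ℝ) := by
      have : (6 : ℝ) ≤ ((N x).card : ℝ) := by exact_mod_cast (hL.trans hdL)
      linarith
    rw [← div_eq_mul_inv, div_le_one hc]
    exact_mod_cast hdL
  have hstep1 : q N n x * (SS B (n + 1) (L + 1) - SS B (n + 1) L)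
      ≤ (L : ℝ) / n * (SS B (n + 1) (L + 1) - SS B (n + 1) L) := by
    nlinarith
  have hstep2 : (L : ℝ) * (((N x).card : ℝ)⁻¹ / n) * (SS B (n + 1) (L - 1) - SS B (n + 1) L)
      ≤ 1 / n * (SS B (n + 1) (L - 1) - SS B (n + 1) L) :=
    mul_le_mul_of_nonneg_right hq2 hS2
  refine le_trans (add_le_add (add_le_add le_rfl hstep1) hstep2) ?_
  have := sa_alg (n := (n : ℝ)) (L := (L : ℝ)) hn hLR (B := (B : ℝ)) hBR
  unfold SS
  rw [hcL]
  push_cast
  exact this

private lemma sa_SS_nonneg {B i L : ℕ} (hL : 5 ≤ L) : 0 ≤ SS B i L := by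
  unfold SS
  have : (5 : ℝ) ≤ L := by exact_mod_cast hL
  have h3 : 0 ≤ (L : ℝ) - 3 := by linarith
  positivity

private lemma sa_SS_one {B x i : ℕ} (hB : 1 ≤ B) {N : Gr} (hL : 5 ≤ lf N x 0)
    (hb : ¬ okS B x i N) : 1 ≤ SS B i (lf N x 0) := by
  have hBR : (0 : ℝ) < B := by exact_mod_cast hB
  unfold okS at hb
  by_cases h6 : 6 ≤ lf N x 0
  · have h7 : ¬ i ≤ B * (lf N x 0 - 3) := fun h => hb ⟨h6, h⟩
    push Not at h7
    set L := lf N x 0
    have hLR : (6 : ℝ) ≤ L := by exact_mod_cast h6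
    have h8 : (B : ℝ) * ((L : ℝ) - 3) < i := by
      have : ((B * (L - 3) : ℕ) : ℝ) < (i : ℝ) := by exact_mod_cast h7
      rw [Nat.cast_mul, Nat.cast_sub (by omega)] at this
      simpa using this
    unfold SS
    have h9 : 0 < (B : ℝ) * ((L : ℝ) - 3) := by
      have : 0 < (L : ℝ) - 3 := by linarith
      positivity
    have h10 : 1 ≤ (i : ℝ) / (B * ((L : ℝ) - 3)) := by
      rw [le_div_iff₀ h9]
      linarith
    have h11 : 0 ≤ 5 / (L : ℝ) := by positivity
    linarith
  · have h7 : lf N x 0 = 5 := by omega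
    rw [h7]
    unfold SS
    push_cast
    have : 0 ≤ (i : ℝ) / (B * ((5 : ℝ) - 3)) := by
      have : (0 : ℝ) ≤ 5 - 3 := by norm_num
      positivity
    norm_num at *
    linarith

private lemma sa_meas (hW : ∀ n, Measurable (W n)) (i : ℕ) (P : Gr → Prop) :
    MeasurableSet {ω | P (tr (fun j => W j ω) i)} := by
  have hm : Measurable (fun ω => (fun j : Fin i => W j ω)) := by
    apply measurable_pi_lambda
    intro j
    exact hW j
  have he : {ω | P (tr (fun j => W j ω) i)} = (fun ω => (fun j : Fin i => W j ω)) ⁻¹'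
      {g : Fin i → ℕ | P (tr (fun j => if hj : j < i then g ⟨j, hj⟩ else 0) i)} := by
    ext ω
    simp only [Set.mem_setOf_eq, Set.mem_preimage]
    rw [tr_congr (h := fun j => W j ω)
      (h' := fun j => if hj : j < i then W j ω else 0)]
    intro j _ hj
    simp [hj]
  rw [he]
  exact hm (Set.to_countable _).measurableSet

private lemma sa_meas2 (hW : ∀ n, Measurable (W n)) (B x n k : ℕ) :
    MeasurableSet {ω | ∃ i, n ≤ i ∧ i ≤ n + k ∧ ¬ okS B x i (tr (fun j => W j ω) i)} := by
  have he : {ω | ∃ i, n ≤ i ∧ i ≤ n + k ∧ ¬ okS B x i (tr (fun j => W j ω) i)} =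
      ⋃ i ∈ Set.Icc n (n + k), {ω | ¬ okS B x i (tr (fun j => W j ω) i)} := by
    ext ω
    simp only [Set.mem_setOf_eq, Set.mem_iUnion, Set.mem_Icc, exists_prop]
    constructor
    · rintro ⟨i, h1, h2, h3⟩
      exact ⟨i, ⟨h1, h2⟩, h3⟩
    · rintro ⟨i, ⟨h1, h2⟩, h3⟩
      exact ⟨i, h1, h2, h3⟩
  rw [he]
  refine MeasurableSet.biUnion (Set.to_countable _) ?_
  intro i _
  exact sa_meas hW i (fun N => ¬ okS B x i N)

theorem stepA_fin (hW : Wlaw μ W) {B x : ℕ} (hB : 1 ≤ B) (k : ℕ) {n : ℕ} {h : ℕ → ℕ}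
    (hh : Good n h) (hx : x ∈ Icc 1 n) (hS : okS B x n (tr h n)) :
    μ.real ({ω | ∃ i, n ≤ i ∧ i ≤ n + k ∧ ¬ okS B x i (tr (fun j => W j ω) i)} ∩ cyl W n h) ≤
      SS B n (lf (tr h n) x 0) * μ.real (cyl W n h) := by
  induction k generalizing n h with
  | zero =>
    have he : {ω | ∃ i, n ≤ i ∧ i ≤ n + 0 ∧ ¬ okS B x i (tr (fun j => W j ω) i)} ∩ cyl W n h
        = ∅ := by
      rw [Set.eq_empty_iff_forall_notMem]
      rintro ω ⟨⟨i, h1, h2, h3⟩, h4⟩
      have h5 : i = n := by omega
      subst h5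
      rw [tr_of_cyl h4 le_rfl] at h3
      exact h3 hS
    rw [he, measureReal_empty]
    exact mul_nonneg (sa_SS_nonneg (by have := hS.1; omega)) measureReal_nonneg
  | succ k ih =>
    have hN := hh.ok
    rw [part hW hh (sa_meas2 hW.meas B x n (k + 1))]
    have hterm : ∀ w ∈ Icc 1 n,
        μ.real ({ω | ∃ i, n ≤ i ∧ i ≤ n + (k + 1) ∧ ¬ okS B x i (tr (fun j => W j ω) i)} ∩
          cyl W (n + 1) (Function.update h n w)) ≤
        μ.real (cyl W n h) * (q (tr h n) n w * SS B (n + 1) (lf (att (tr h n) n w) x 0)) := by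
      intro w hw
      have hlaw := hW.law n h w hh hw
      have htr : tr (Function.update h n w) (n + 1) = att (tr h n) n w := tr_update hh.1 h w
      have hrew : μ.real (cyl W n h) * (q (tr h n) n w * SS B (n + 1) (lf (att (tr h n) n w) x 0))
          = SS B (n + 1) (lf (att (tr h n) n w) x 0) *
            μ.real (cyl W (n + 1) (Function.update h n w)) := by
        rw [hlaw]
        ring
      rw [hrew]
      by_cases hok : okS B x (n + 1) (att (tr h n) n w)
      · have hh' := hh.upd hw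
        have hx' : x ∈ Icc 1 (n + 1) := by
          rw [mem_Icc] at hx ⊢
          omega
        have hih := ih hh' hx' (by rw [htr]; exact hok)
        rw [htr] at hih
        refine le_trans (measureReal_mono ?_) hih
        rintro ω ⟨⟨i, h1, h2, h3⟩, h4⟩
        refine ⟨⟨i, ?_, by omega, h3⟩, h4⟩
        by_contra hcon
        have h5 : i = n := by omega
        subst h5
        rw [tr_of_cyl h4 (Nat.le_succ _), tr_update_le le_rfl] at h3
        exact h3 hS
      · have h5 : 5 ≤ lf (att (tr h n) n w) x 0 := by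
          have hL := hS.1
          by_cases h1 : w = x
          · subst h1
            rw [lf_att_self hN hx (by have := hh.1; omega)]
            omega
          · by_cases h2 : w ∈ lfs (tr h n) x 0
            · rw [lf_att_leaf hN hx h2]
              omega
            · rw [lf_att_other hN hx hw (fun h => h1 h.symm) h2]
              omega
        have h6 := sa_SS_one hB h5 hok
        calc μ.real ({ω | ∃ i, n ≤ i ∧ i ≤ n + (k + 1) ∧ ¬ okS B x i (tr (fun j => W j ω) i)} ∩
              cyl W (n + 1) (Function.update h n w))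
            ≤ μ.real (cyl W (n + 1) (Function.update h n w)) :=
              measureReal_mono Set.inter_subset_right
          _ = 1 * μ.real (cyl W (n + 1) (Function.update h n w)) := by ring
          _ ≤ _ := mul_le_mul_of_nonneg_right h6 measureReal_nonneg
    refine le_trans (Finset.sum_le_sum hterm) ?_
    rw [← Finset.mul_sum, mul_comm]
    exact mul_le_mul_of_nonneg_right (SS_step hB hN hx hS.1) measureReal_nonneg

theorem stepA (hW : Wlaw μ W) {x n : ℕ} {h : ℕ → ℕ} (hh : Good n h) (hx : x ∈ Icc 1 n)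
    (hL : 6 ≤ lf (tr h n) x 0) :
    μ.real (Z0 W x ∩ cyl W n h) ≤ 5 / (lf (tr h n) x 0 : ℝ) * μ.real (cyl W n h) := by
  set L := lf (tr h n) x 0 with hLdef
  have hn2 := hh.1
  have hLR : (6 : ℝ) ≤ L := by exact_mod_cast hL
  have key : ∀ B : ℕ, n ≤ B → μ.real (Z0 W x ∩ cyl W n h) ≤ SS B n L * μ.real (cyl W n h) := by
    intro B hB
    have hB1 : 1 ≤ B := by omega
    have hS : okS B x n (tr h n) := by
      refine ⟨hL, ?_⟩
      calc n ≤ B := hB
        _ = B * 1 := (mul_one B).symm
        _ ≤ B * (lf (tr h n) x 0 - 3) := Nat.mul_le_mul_left B (by omega)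
    let E : ℕ → Set Ω := fun k =>
      {ω | ∃ i, n ≤ i ∧ i ≤ n + k ∧ ¬ okS B x i (tr (fun j => W j ω) i)} ∩ cyl W n h
    have hmono : Monotone E := by
      intro k k' hk
      rintro ω ⟨⟨i, h1, h2, h3⟩, h4⟩
      exact ⟨⟨i, h1, by omega, h3⟩, h4⟩
    have hsub : Z0 W x ∩ cyl W n h ⊆ ⋃ k, E k := by
      rintro ω ⟨hz, hc⟩
      by_contra hcon
      rw [Set.mem_iUnion] at hcon
      push Not at hcon
      have hall : ∀ i, n ≤ i → okS B x i (tr (fun j => W j ω) i) := by
        intro i hi
        by_contra hb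
        exact hcon (i - n) ⟨⟨i, hi, by omega, hb⟩, hc⟩
      apply hz
      rw [Z_pos_iff]
      refine ⟨B, ?_⟩
      intro i hi
      have h1 := (hall i (by omega)).2
      refine le_trans h1 (Nat.mul_le_mul_left B ?_)
      unfold dg
      refine le_trans (Nat.sub_le _ _) ?_
      unfold lf lfs
      exact Finset.card_le_card (Finset.filter_subset _ _)
    have hle : μ (⋃ k, E k) ≤ ENNReal.ofReal (SS B n L * μ.real (cyl W n h)) := by
      rw [hmono.measure_iUnion]
      refine iSup_le fun k => ?_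
      have h1 := stepA_fin hW hB1 k hh hx hS
      rw [← ofReal_measureReal (μ := μ) (s := E k)]
      exact ENNReal.ofReal_le_ofReal h1
    have h2 : μ (Z0 W x ∩ cyl W n h) ≤ ENNReal.ofReal (SS B n L * μ.real (cyl W n h)) :=
      le_trans (measure_mono hsub) hle
    have h3 : 0 ≤ SS B n L * μ.real (cyl W n h) :=
      mul_nonneg (sa_SS_nonneg (by omega)) measureReal_nonneg
    rw [Measure.real]
    exact ENNReal.toReal_le_of_le_ofReal h3 h2
  have hlim : Tendsto (fun B : ℕ => SS B n L * μ.real (cyl W n h)) atTop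
      (nhds ((5 / (L : ℝ) + 0) * μ.real (cyl W n h))) := by
    apply Tendsto.mul_const
    unfold SS
    apply Tendsto.const_add
    apply Tendsto.div_atTop tendsto_const_nhds
    apply Tendsto.atTop_mul_const (by linarith)
    exact tendsto_natCast_atTop_atTop
  rw [add_zero] at hlim
  refine ge_of_tendsto hlim ?_
  filter_upwards [eventually_ge_atTop n] with B hB
  exact key B hB

end Pool.Agent.RFT81
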