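import Pool.Agent.RFT81.Prod
import Pool.Agent.RFT81.Sr
import Pool.Agent.RFT81.Cert

/-!
# [RFT-SubY] `Yf` is a submartingale

Paper proof.  Split off the term `w = y` from `gen`, and use `gen_prod` (with `x := y`) for the
others; for `w ≠ y` we have `att N n w y = N y`.
* `|N y| = 1`, so `N y = {p}`; put `d = |N p|`, `L = lf N p y`.  For `w = y` (rate `1 / d`) the
  function becomes `h d L * h 1 0` (the neighbours of `y` are `p` and the new leaf `n + 1`).
  For `w = p` the rate is `≥ L + 1` by `sr_ge`, and the difference is nonnegative by `mono`.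
  Use `Low1.ineq`.
* `|N y| = 2`: for `w = y` the rate is `∑ c ∈ N y, 1 / |N c|` and the function becomes `0`.  For
  `c ∈ N y` the rate is `≥ l + 1/2`; multiply `Low0.ineq` by the other factor and sum.
* `|N y| ≥ 3`: the function is `0` and stays `0`.
-/

namespace Pool.Agent.RFT81

open Finset

variable {h Q : ℕ → ℕ → ℝ}

private theorem sbY_att_other {n : ℕ} {N : Gr} {w y : ℕ} (hy : y ∈ Icc 1 n) (hwy : w ≠ y) :
    att N n w y = N y := by
  have hy' : y ≠ n + 1 := by
    simp only [mem_Icc] at hy
    omega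
  unfold att
  rw [if_neg hy', if_neg (Ne.symm hwy)]

private theorem sbY_att_self {n : ℕ} {N : Gr} {y : ℕ} (hy : y ∈ Icc 1 n) :
    att N n y y = insert (n + 1) (N y) := by
  have hy' : y ≠ n + 1 := by
    simp only [mem_Icc] at hy
    omega
  unfold att
  rw [if_neg hy', if_pos rfl]

private theorem sbY_mem {n : ℕ} {N : Gr} (hN : Ok n N) {y c : ℕ} (hc : c ∈ N y) : y ∈ Icc 1 n :=
  hN.sub c (hN.symm hc)

private theorem sbY_gen_split {n : ℕ} {N : Gr} {y : ℕ} (hy : y ∈ Icc 1 n) (f : Gr → ℝ) :
    gen f N n = sr N y * (f (att N n y) - f N) +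
      ∑ w ∈ (Icc 1 n).erase y, sr N w * (f (att N n w) - f N) := by
  unfold gen
  exact (Finset.add_sum_erase _ _ hy).symm

/-- the part for degree `2`, also for `Yx` -/
theorem gen_two (h0 : Low0 h) {n : ℕ} {N : Gr} (hN : Ok n N) {y : ℕ} (hy : (N y).card = 2)
    (f : Gr → ℝ) (hf : ∀ N', (N' y).card = 2 → f N' = ∏ c ∈ N' y, h (N' c).card (lf N' c y))
    (hf0 : ∀ N', 3 ≤ (N' y).card → f N' = 0) : 0 ≤ gen f N n := by
  have hne : (N y).Nonempty := by
    rw [← card_pos, hy]
    norm_num
  obtain ⟨c₀, hc₀⟩ := hne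
  have hyI : y ∈ Icc 1 n := sbY_mem hN hc₀
  have hfN : f N = PG (fun _ => h) (N y) y N := hf N hy
  have hfy : f (att N n y) = 0 := by
    apply hf0
    rw [card_att hN hyI hyI, hy, if_pos rfl]
  have hfw : ∀ w ∈ (Icc 1 n).erase y, f (att N n w) = PG (fun _ => h) (N y) y (att N n w) := by
    intro w hw
    have hwy : w ≠ y := ne_of_mem_erase hw
    have h1 := sbY_att_other (N := N) hyI hwy
    rw [hf (att N n w) (by rw [h1, hy]), h1]
    rfl
  have hsum : ∑ w ∈ (Icc 1 n).erase y, sr N w * (f (att N n w) - f N) =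
      ∑ w ∈ (Icc 1 n).erase y, sr N w * (PG (fun _ => h) (N y) y (att N n w) -
        PG (fun _ => h) (N y) y N) :=
    Finset.sum_congr rfl fun w hw => by rw [hfw w hw, hfN]
  rw [sbY_gen_split hyI, hsum, gen_prod hN hyI, hfy]
  have hkey : ∀ c ∈ N y, ((N c).card : ℝ)⁻¹ * f N ≤
      (sr N c * (h ((N c).card + 1) (lf N c y + 1) - h (N c).card (lf N c y)) +
          (lf N c y : ℝ) / (N c).card *
            (h (N c).card (lf N c y - 1) - h (N c).card (lf N c y))) *
        ∏ c' ∈ (N y).erase c, h (N c').card (lf N c' y) := by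
    intro c hc
    have hyc : y ∈ N c := hN.symm hc
    have hlt := lf_lt hyc
    have hge := sr_ge hyc
    rw [hy] at hge
    have hmono := h0.mono _ _ hlt
    have hineq := h0.ineq _ _ hlt
    have hprod : 0 ≤ ∏ c' ∈ (N y).erase c, h (N c').card (lf N c' y) :=
      Finset.prod_nonneg fun c' _ => h0.nonneg _ _
    have hfN' : f N = h (N c).card (lf N c y) *
        ∏ c' ∈ (N y).erase c, h (N c').card (lf N c' y) := by
      rw [hf N hy, Finset.mul_prod_erase (N y) (fun c => h (N c).card (lf N c y)) hc]
    rw [hfN', ← mul_assoc]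
    apply mul_le_mul_of_nonneg_right _ hprod
    have h1 : ((lf N c y : ℝ) + 1 / 2) * (h ((N c).card + 1) (lf N c y + 1) -
        h (N c).card (lf N c y)) ≤
        sr N c * (h ((N c).card + 1) (lf N c y + 1) - h (N c).card (lf N c y)) := by
      apply mul_le_mul_of_nonneg_right _ (sub_nonneg.2 hmono)
      have h2 : (((2 : ℕ) : ℝ))⁻¹ = 1 / 2 := by norm_num
      rw [h2] at hge
      linarith
    rw [one_div] at hineq
    linarith
  have hs := Finset.sum_le_sum hkey
  rw [← Finset.sum_mul] at hs
  change sr N y * f N ≤ _ at hs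
  have h3 : sr N y * (0 - f N) = - (sr N y * f N) := by ring
  rw [h3]
  linarith

theorem gen_Yf (h0 : Low0 h) (h1 : Low1 h Q) {n : ℕ} {N : Gr} (hN : Ok n N) {y p : ℕ}
    (hp : p ∈ N y) : 0 ≤ gen (Yf h Q y p) N n := by
  have hyI : y ∈ Icc 1 n := sbY_mem hN hp
  have hcard : 0 < (N y).card := card_pos.2 ⟨p, hp⟩
  rcases Nat.lt_or_ge (N y).card 3 with hlt | hge
  · rcases Nat.lt_or_ge (N y).card 2 with hlt1 | hge2
    · -- degree one
      have hy1 : (N y).card = 1 := by omega
      have hNy : N y = {p} := by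
        obtain ⟨a, ha⟩ := card_eq_one.1 hy1
        rw [ha, mem_singleton] at hp
        rw [ha, hp]
      have hpy : p ≠ y := by
        rintro rfl
        exact hN.irr _ hp
      have hpI : p ∈ Icc 1 n := hN.sub y hp
      have hpn : p ≠ n + 1 := by
        simp only [mem_Icc] at hpI
        omega
      have hPG : ∀ N' : Gr, PG (fun _ => Q) (N y) y N' = Q (N' p).card (lf N' p y) := by
        intro N'
        unfold PG
        rw [hNy, prod_singleton]
      have hfN : Yf h Q y p N = PG (fun _ => Q) (N y) y N := by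
        rw [hPG]
        unfold Yf
        rw [if_pos hy1]
      have hfw : ∀ w ∈ (Icc 1 n).erase y, Yf h Q y p (att N n w) =
          PG (fun _ => Q) (N y) y (att N n w) := by
        intro w hw
        have hwy : w ≠ y := ne_of_mem_erase hw
        have h2 := sbY_att_other (N := N) hyI hwy
        rw [hPG]
        unfold Yf
        rw [h2, if_pos hy1]
      have hfy : Yf h Q y p (att N n y) = h (N p).card (lf N p y) * h 1 0 := by
        have h2 : (att N n y y).card = 2 := by
          rw [card_att hN hyI hyI, hy1, if_pos rfl]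
        have h3 : att N n y y = insert (n + 1) {p} := by
          rw [sbY_att_self hyI, hNy]
        have h4 : n + 1 ∉ ({p} : Finset ℕ) := by
          rw [mem_singleton]
          exact Ne.symm hpn
        have h5 : y ∉ lfs N p y := by
          intro h
          exact (mem_filter.1 h).2.1 rfl
        unfold Yf
        rw [h2, if_neg (by norm_num), if_pos rfl, h3, prod_insert h4, prod_singleton,
          card_att_new, lf_att_new, card_att hN hyI hpI, if_neg hpy, add_zero,
          lf_att_other hN hpI hyI hpy h5, mul_comm]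
      have hsum : ∑ w ∈ (Icc 1 n).erase y, sr N w *
          (Yf h Q y p (att N n w) - Yf h Q y p N) =
          ∑ w ∈ (Icc 1 n).erase y, sr N w * (PG (fun _ => Q) (N y) y (att N n w) -
            PG (fun _ => Q) (N y) y N) :=
        Finset.sum_congr rfl fun w hw => by rw [hfw w hw, hfN]
      rw [sbY_gen_split hyI, hsum, gen_prod hN hyI, hfy, hfN, hPG, sr_leaf hy1 hp]
      have hyp : y ∈ N p := hN.symm hp
      have hlt := lf_lt hyp
      have hge := sr_ge hyp
      rw [hy1] at hge
      have hmono := h1.mono _ _ hlt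
      have hineq := h1.ineq _ _ hlt
      have h6 : ((lf N p y : ℝ) + 1) * (Q ((N p).card + 1) (lf N p y + 1) -
          Q (N p).card (lf N p y)) ≤
          sr N p * (Q ((N p).card + 1) (lf N p y + 1) - Q (N p).card (lf N p y)) := by
        apply mul_le_mul_of_nonneg_right _ (sub_nonneg.2 hmono)
        have h7 : (((1 : ℕ) : ℝ))⁻¹ = 1 := by norm_num
        rw [h7] at hge
        linarith
      have h8 : ((N y).erase p) = ∅ := by
        rw [hNy, erase_singleton]
      have h9 : ∀ F : ℕ → ℝ, ∑ c ∈ N y, F c = F p := by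
        intro F
        rw [hNy, sum_singleton]
      rw [h9, h8, prod_empty, mul_one]
      rw [one_div] at hineq
      linarith
    · have hy2 : (N y).card = 2 := by omega
      refine gen_two h0 hN hy2 _ ?_ ?_
      · intro N' hN'
        unfold Yf
        rw [hN', if_neg (by norm_num), if_pos rfl]
      · intro N' hN'
        unfold Yf
        rw [if_neg (by omega), if_neg (by omega)]
  · have hz : ∀ N' : Gr, 3 ≤ (N' y).card → Yf h Q y p N' = 0 := by
      intro N' hN'
      unfold Yf
      rw [if_neg (by omega), if_neg (by omega)]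
    unfold gen
    apply le_of_eq
    symm
    apply Finset.sum_eq_zero
    intro w hw
    have h2 : 3 ≤ (att N n w y).card := by
      rw [card_att hN hw hyI]
      omega
    rw [hz _ h2, hz _ hge, sub_zero, mul_zero]

theorem Yf_le (h0 : Low0 h) (h1 : Low1 h Q) {N : Gr} {y p : ℕ} : Yf h Q y p N ≤ 1 := by
  unfold Yf
  split_ifs with h2 h3
  · exact h1.le_one _ _
  · exact Finset.prod_le_one (fun c _ => h0.nonneg _ _) fun c _ => h0.le_one _ _
  · exact zero_le_one

theorem Yf_zero {N : Gr} {y p : ℕ} (hy : 3 ≤ (N y).card) : Yf h Q y p N = 0 := by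
  unfold Yf
  rw [if_neg (by omega), if_neg (by omega)]

end Pool.Agent.RFT81
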