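import Pool.Agent.RFT81.TabDef

/-!
# [RFT-TabA] Entries of the tables

`run_getD`: the entry `i` of `run f l p s` is `f (l + i) (previous entry) s_i`, where the previous entry
is `p` for `i = 0`.  The rest are the definitions of the rows, written for the entries.
The functions `eh`, `eq`, `ex`, `eH`, `eP` are the entries of the tables.
-/

namespace Pool.Agent.RFT81

theorem run_length {α : Type} (f : ℕ → ℕ → α → ℕ) (l p : ℕ) (s : List α) :
    (run f l p s).length = s.length := by
  induction s generalizing l p with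
  | nil => rfl
  | cons a t ih => simp [run, ih]

theorem run_getD_zero {α : Type} (f : ℕ → ℕ → α → ℕ) (l p : ℕ) (s : List α) (d : α)
    (hs : 0 < s.length) : (run f l p s).getD 0 0 = f l p (s.getD 0 d) := by
  cases s with
  | nil => simp at hs
  | cons a t => simp [run]

theorem run_getD_succ {α : Type} (f : ℕ → ℕ → α → ℕ) (l p : ℕ) (s : List α) (d : α) (i : ℕ)
    (hi : i + 1 < s.length) :
    (run f l p s).getD (i + 1) 0 =
      f (l + (i + 1)) ((run f l p s).getD i 0) (s.getD (i + 1) d) := by
  induction i generalizing l p s with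
  | zero =>
    match s, hi with
    | [], hi => simp at hi
    | [_], hi => simp at hi
    | a :: b :: t, _ => simp [run]
  | succ i ih =>
    match s, hi with
    | [], hi => simp at hi
    | a :: t, hi =>
      have h1 : i + 1 < t.length := by simpa using hi
      have h2 := ih (l + 1) (f l p a) t h1
      have h3 : (run f l p (a :: t)).getD (i + 1 + 1) 0 =
          (run f (l + 1) (f l p a) t).getD (i + 1) 0 := by simp [run]
      have h4 : (run f l p (a :: t)).getD (i + 1) 0 =
          (run f (l + 1) (f l p a) t).getD i 0 := by simp [run]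
      have h5 : (a :: t).getD (i + 1 + 1) d = t.getD (i + 1) d := by simp
      rw [h3, h4, h5, h2]
      have h6 : l + 1 + (i + 1) = l + (i + 1 + 1) := by omega
      rw [h6]

/-- the entry `i` of a run whose function does not use the previous entry for `i = 0` -/
private theorem run_getD_gen {α : Type} (f : ℕ → ℕ → α → ℕ) (s : List α) (d : α) (i : ℕ)
    (hi : i < s.length) (hf : ∀ p q u, f 0 p u = f 0 q u) :
    (run f 0 0 s).getD i 0 = f i ((run f 0 0 s).getD (i - 1) 0) (s.getD i d) := by
  cases i with
  | zero =>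
    have h := run_getD_zero f 0 0 s d hi
    rw [h]
    exact hf _ _ _
  | succ i =>
    have h := run_getD_succ f 0 0 s d i hi
    rw [h]
    simp

private theorem getD_tail {α : Type} (s : List α) (d : α) (i : ℕ) :
    s.tail.getD i d = s.getD (i + 1) d := by
  cases s with
  | nil => simp
  | cons a t => simp

private theorem getD_zip {α β : Type} (s : List α) (t : List β) (a : α) (b : β) (i : ℕ)
    (hs : i < s.length) (ht : i < t.length) :
    (s.zip t).getD i (a, b) = (s.getD i a, t.getD i b) := by
  rw [List.getD_eq_getElem _ _ (by simp; omega), List.getD_eq_getElem _ _ hs,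
    List.getD_eq_getElem _ _ ht, List.getElem_zip]

private theorem rowsL_length (t : ℕ) : (rowsL t).1.length = 60 - t ∧
    (rowsL t).2.1.length = 60 - t ∧ (rowsL t).2.2.length = 60 - t := by
  induction t with
  | zero => simp [rowsL]
  | succ t ih =>
    obtain ⟨h1, h2, h3⟩ := ih
    refine ⟨?_, ?_, ?_⟩
    · simp only [rowsL, run_length, List.length_tail, h1]
      omega
    · simp only [rowsL, run_length, List.length_tail, List.length_zip, h1, h2]
      omega
    · simp only [rowsL, run_length, List.length_tail, List.length_zip, h1, h2, h3]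
      omega

private theorem rowsU_length (t : ℕ) : (rowsU t).1.length = 12 - t ∧
    (rowsU t).2.length = 12 - t := by
  induction t with
  | zero => simp [rowsU]
  | succ t ih =>
    obtain ⟨h1, h2⟩ := ih
    refine ⟨?_, ?_⟩
    · simp only [rowsU, run_length, List.length_tail, h1]
      omega
    · simp only [rowsU, run_length, List.length_tail, List.length_zip, h1, h2]
      omega

/-- entry of the table of `h` -/
def eh (k l : ℕ) : ℕ := (rowsL (60 - k)).1.getD l 0

/-- entry of the table of `Q` -/
def eq (k l : ℕ) : ℕ := (rowsL (60 - k)).2.1.getD l 0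

/-- entry of the table of `X` -/
def ex (k l : ℕ) : ℕ := (rowsL (60 - k)).2.2.getD l 0

/-- entry of the table of `H` -/
def eH (k l : ℕ) : ℕ := (rowsU (12 - k)).1.getD l 0

/-- entry of the table of `P` -/
def eP (k l : ℕ) : ℕ := (rowsU (12 - k)).2.getD l 0

theorem eh_top {l : ℕ} (hl : l < 60) : eh 60 l = sc * (2 * l - 1) / (2 * (l + 1)) := by
  unfold eh
  simp only [Nat.sub_self, rowsL]
  rw [List.getD_eq_getElem _ _ (by simpa using hl)]
  simp

theorem eq_top {l : ℕ} (hl : l < 60) :
    eq 60 l = if l + 2 ≤ 60 then sc * l / (l + 1) else sc * (50 * l - 1) / (50 * (l + 1)) := by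
  unfold eq
  simp only [Nat.sub_self, rowsL]
  rw [List.getD_eq_getElem _ _ (by simpa using hl)]
  simp only [List.getElem_map, List.getElem_range]

theorem ex_top (l : ℕ) : ex 60 l = 0 := by
  unfold ex
  simp only [Nat.sub_self, rowsL]
  by_cases hl : l < 60
  · rw [List.getD_eq_getElem _ _ (by simpa using hl)]
    simp only [List.getElem_map]
  · rw [List.getD_eq_default _ _ (by simpa using hl)]

theorem eH_top {l : ℕ} (hl : l < 12) : eH 12 l = cdv (sc * 12 - (sc - tt)) 12 := by
  unfold eH
  simp only [Nat.sub_self, rowsU]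
  rw [List.getD_eq_getElem _ _ (by simpa using hl)]
  simp only [List.getElem_map]

theorem eP_top {l : ℕ} (hl : l < 12) : eP 12 l = cdv (sc * 12 - (sc - tt)) 12 := by
  unfold eP
  simp only [Nat.sub_self, rowsU]
  rw [List.getD_eq_getElem _ _ (by simpa using hl)]
  simp only [List.getElem_map]

private theorem row_h (k : ℕ) (hk : k < 60) :
    (rowsL (60 - k)).1 = run (hF k) 0 0 (rowsL (60 - (k + 1))).1.tail := by
  have e1 : 60 - k = (60 - (k + 1)) + 1 := by omega
  have e2 : 59 - (60 - (k + 1)) = k := by omega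
  rw [e1]
  simp only [rowsL]
  rw [e2]

private theorem row_q (k : ℕ) (hk : k < 60) :
    (rowsL (60 - k)).2.1 =
      run (qF k) 0 0 ((rowsL (60 - (k + 1))).2.1.tail.zip (rowsL (60 - k)).1) := by
  rw [row_h k hk]
  have e1 : 60 - k = (60 - (k + 1)) + 1 := by omega
  have e2 : 59 - (60 - (k + 1)) = k := by omega
  rw [e1]
  simp only [rowsL]
  rw [e2]

private theorem row_x (k : ℕ) (hk : k < 60) :
    (rowsL (60 - k)).2.2 =
      run (xF k) 0 0 ((rowsL (60 - (k + 1))).2.2.tail.zip
        ((rowsL (60 - (k + 1))).2.1.tail.zip (rowsL (60 - k)).2.1)) := by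
  rw [row_q k hk, row_h k hk]
  have e1 : 60 - k = (60 - (k + 1)) + 1 := by omega
  have e2 : 59 - (60 - (k + 1)) = k := by omega
  rw [e1]
  simp only [rowsL]
  rw [e2]

private theorem row_H (k : ℕ) (hk : k < 12) :
    (rowsU (12 - k)).1 = run (uF k) 0 0 (rowsU (12 - (k + 1))).1.tail := by
  have e1 : 12 - k = (12 - (k + 1)) + 1 := by omega
  have e2 : 11 - (12 - (k + 1)) = k := by omega
  rw [e1]
  simp only [rowsU]
  rw [e2]

private theorem row_P (k : ℕ) (hk : k < 12) :
    (rowsU (12 - k)).2 =
      run (pF k) 0 0 ((rowsU (12 - (k + 1))).2.tail.zip (rowsU (12 - k)).1) := by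
  rw [row_H k hk]
  have e1 : 12 - k = (12 - (k + 1)) + 1 := by omega
  have e2 : 11 - (12 - (k + 1)) = k := by omega
  rw [e1]
  simp only [rowsU]
  rw [e2]

/-- for `l = 0` the term `l * eh k (l - 1)` is `0` -/
theorem eh_rec {k l : ℕ} (hk : k < 60) (hl : l < k) :
    eh k l = (k * (2 * l + 1) * eh (k + 1) (l + 1) + 2 * l * eh k (l - 1)) /
      (k * (2 * l + 1) + 2 * l + 2) := by
  have hlen : l < (rowsL (60 - (k + 1))).1.tail.length := by
    rw [List.length_tail, (rowsL_length _).1]
    omega
  have h := run_getD_gen (hF k) (rowsL (60 - (k + 1))).1.tail 0 l hlen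
    (by intro p q u; simp [hF])
  rw [← row_h k hk, getD_tail] at h
  exact h

theorem eq_rec {k l : ℕ} (hk : k < 60) (hl : l < k) :
    eq k l = (k * (l + 1) * eq (k + 1) (l + 1) + l * eq k (l - 1) + eh k l * zz / sc) /
      (k * (l + 1) + l + 1) := by
  have h1 : l < (rowsL (60 - (k + 1))).2.1.tail.length := by
    rw [List.length_tail, (rowsL_length _).2.1]
    omega
  have h2 : l < (rowsL (60 - k)).1.length := by
    rw [(rowsL_length _).1]
    omega
  have h := run_getD_gen (qF k) ((rowsL (60 - (k + 1))).2.1.tail.zip (rowsL (60 - k)).1) (0, 0) l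
    (by rw [List.length_zip]; omega) (by intro p q u; simp [qF])
  rw [← row_q k hk, getD_zip _ _ 0 0 l h1 h2, getD_tail] at h
  exact h

theorem ex_rec {k l : ℕ} (hk : k < 60) (hl : l < k) :
    ex k l = (k * (l + 1) * ex (k + 1) (l + 1) + l * ex k (l - 1) +
      k * (eq (k + 1) (l + 1) - eq k l)) / (k * (l + 1) + l + 1 + k) := by
  have h1 : l < (rowsL (60 - (k + 1))).2.2.tail.length := by
    rw [List.length_tail, (rowsL_length _).2.2]
    omega
  have h2 : l < (rowsL (60 - (k + 1))).2.1.tail.length := by
    rw [List.length_tail, (rowsL_length _).2.1]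
    omega
  have h3 : l < (rowsL (60 - k)).2.1.length := by
    rw [(rowsL_length _).2.1]
    omega
  have h4 : l < ((rowsL (60 - (k + 1))).2.1.tail.zip (rowsL (60 - k)).2.1).length := by
    rw [List.length_zip]
    omega
  have h := run_getD_gen (xF k) ((rowsL (60 - (k + 1))).2.2.tail.zip
    ((rowsL (60 - (k + 1))).2.1.tail.zip (rowsL (60 - k)).2.1)) (0, (0, 0)) l
    (by rw [List.length_zip]; omega) (by intro p q u; simp [xF])
  rw [← row_x k hk, getD_zip _ _ 0 (0, 0) l h1 h4, getD_zip _ _ 0 0 l h2 h3, getD_tail,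
    getD_tail] at h
  exact h

theorem eH_rec {k l : ℕ} (hk : k < 12) (hl : l < k) :
    eH k l = cdv ((k * (3 * k + 3 * l - 1) * eH (k + 1) (l + 1) + 6 * l * eH k (l - 1)) * sc)
      ((k * (3 * k + 3 * l - 1) + 6 * l) * sc + 6 * (sc - tt)) := by
  have hlen : l < (rowsU (12 - (k + 1))).1.tail.length := by
    rw [List.length_tail, (rowsU_length _).1]
    omega
  have h := run_getD_gen (uF k) (rowsU (12 - (k + 1))).1.tail 0 l hlen
    (by intro p q u; simp [uF])
  rw [← row_H k hk, getD_tail] at h
  exact h

theorem eP_rec {k l : ℕ} (hk : k < 12) (hl : l < k) :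
    eP k l = cdv (k * (k + l) * eP (k + 1) (l + 1) + 2 * l * eP k (l - 1) +
      cdv (2 * eH k l * tt) sc) (k * (k + l) + 2 * l + 2) := by
  have h1 : l < (rowsU (12 - (k + 1))).2.tail.length := by
    rw [List.length_tail, (rowsU_length _).2]
    omega
  have h2 : l < (rowsU (12 - k)).1.length := by
    rw [(rowsU_length _).1]
    omega
  have h := run_getD_gen (pF k) ((rowsU (12 - (k + 1))).2.tail.zip (rowsU (12 - k)).1) (0, 0) l
    (by rw [List.length_zip]; omega) (by intro p q u; simp [pF])
  rw [← row_P k hk, getD_zip _ _ 0 0 l h1 h2, getD_tail] at h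
  exact h

end Pool.Agent.RFT81
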