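import Pool.Agent.RFT81.TabA

/-!
# [RFT-TabB] The checks for the tables

The boolean checks are evaluated with `decide +kernel` (a few seconds, `set_option maxRecDepth`
large).  `goL_spec`: induction on `n`; `rowsL_succ` is `rfl`.  The rest unfolds `chkL` and `chkU`
for the rows `r = row k`, `r' = row (k + 1)`.
-/

namespace Pool.Agent.RFT81

set_option maxRecDepth 100000 in
theorem goL_true : goL 59 0 (rowsL 0) = true := by
  decide +kernel

set_option maxRecDepth 100000 in
theorem goU_true : goU 11 0 (rowsU 0) = true := by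
  decide +kernel

theorem goL_spec {n t : ℕ} (h : goL n t (rowsL t) = true) {i : ℕ} (hi : i < n) :
    chkL (rowsL (t + i + 1)) (rowsL (t + i)) = true := by
  induction n generalizing t i with
  | zero => omega
  | succ n ih =>
    have h' : (chkL (rowsL (t + 1)) (rowsL t) && goL n (t + 1) (rowsL (t + 1))) = true := h
    rw [Bool.and_eq_true] at h'
    cases i with
    | zero => exact h'.1
    | succ i =>
      have h2 := ih h'.2 (i := i) (by omega)
      have e : t + 1 + i = t + (i + 1) := by omega
      rw [e] at h2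
      exact h2

theorem goU_spec {n t : ℕ} (h : goU n t (rowsU t) = true) {i : ℕ} (hi : i < n) :
    chkU (rowsU (t + i + 1)) (rowsU (t + i)) = true := by
  induction n generalizing t i with
  | zero => omega
  | succ n ih =>
    have h' : (chkU (rowsU (t + 1)) (rowsU t) && goU n (t + 1) (rowsU (t + 1))) = true := h
    rw [Bool.and_eq_true] at h'
    cases i with
    | zero => exact h'.1
    | succ i =>
      have h2 := ih h'.2 (i := i) (by omega)
      have e : t + 1 + i = t + (i + 1) := by omega
      rw [e] at h2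
      exact h2

theorem leL_spec {s t : List ℕ} (h : leL s t = true) {i : ℕ} (hs : i < s.length)
    (ht : i < t.length) : s.getD i 0 ≤ t.getD i 0 := by
  induction s generalizing t i with
  | nil => simp at hs
  | cons a s ih =>
    cases t with
    | nil => simp at ht
    | cons b t =>
      have h' : (Nat.ble a b && leL s t) = true := h
      rw [Bool.and_eq_true] at h'
      cases i with
      | zero => simpa using Nat.le_of_ble_eq_true h'.1
      | succ i =>
        have h2 := ih h'.2 (i := i) (by simpa using hs) (by simpa using ht)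
        simpa using h2

private theorem lenL (t : ℕ) : (rowsL t).1.length = 60 - t ∧
    (rowsL t).2.1.length = 60 - t ∧ (rowsL t).2.2.length = 60 - t := by
  induction t with
  | zero => simp [rowsL]
  | succ t ih =>
    obtain ⟨h1, h2, h3⟩ := ih
    refine ⟨?_, ?_, ?_⟩
    · simp only [rowsL, run_length, List.length_tail, h1]
      omega
    · simp only [rowsL, run_length, List.length_tail, List.length_zip, h1, h2]
      omega
    · simp only [rowsL, run_length, List.length_tail, List.length_zip, h1, h2, h3]
      omega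

private theorem lenU (t : ℕ) : (rowsU t).1.length = 12 - t ∧
    (rowsU t).2.length = 12 - t := by
  induction t with
  | zero => simp [rowsU]
  | succ t ih =>
    obtain ⟨h1, h2⟩ := ih
    refine ⟨?_, ?_⟩
    · simp only [rowsU, run_length, List.length_tail, h1]
      omega
    · simp only [rowsU, run_length, List.length_tail, List.length_zip, h1, h2]
      omega

private theorem tailD {α : Type} (s : List α) (d : α) (i : ℕ) :
    s.tail.getD i d = s.getD (i + 1) d := by
  cases s with
  | nil => simp
  | cons a t => simp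

private theorem chkL_row {k : ℕ} (hk : 1 ≤ k) (hk2 : k < 60) :
    chkL (rowsL (60 - k)) (rowsL (60 - (k + 1))) = true := by
  have h := goL_spec goL_true (i := 59 - k) (by omega)
  have e1 : 0 + (59 - k) + 1 = 60 - k := by omega
  have e2 : 0 + (59 - k) = 60 - (k + 1) := by omega
  rw [e1, e2] at h
  exact h

private theorem chkU_row {k : ℕ} (hk : 1 ≤ k) (hk2 : k < 12) :
    chkU (rowsU (12 - k)) (rowsU (12 - (k + 1))) = true := by
  have h := goU_spec goU_true (i := 11 - k) (by omega)
  have e1 : 0 + (11 - k) + 1 = 12 - k := by omega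
  have e2 : 0 + (11 - k) = 12 - (k + 1) := by omega
  rw [e1, e2] at h
  exact h

private theorem ini_length (s : List ℕ) : (ini s).length = s.length - 1 := by
  induction s with
  | nil => rfl
  | cons a t ih =>
    cases t with
    | nil => rfl
    | cons b t =>
      have e : ini (a :: b :: t) = a :: ini (b :: t) := rfl
      rw [e, List.length_cons, ih]
      simp

private theorem ini_getD (s : List ℕ) {i : ℕ} (hi : i + 1 < s.length) :
    (ini s).getD i 0 = s.getD i 0 := by
  induction s generalizing i with
  | nil => simp at hi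
  | cons a t ih =>
    cases t with
    | nil => simp at hi
    | cons b t =>
      have e : ini (a :: b :: t) = a :: ini (b :: t) := rfl
      rw [e]
      cases i with
      | zero => simp
      | succ i =>
        have h := ih (i := i) (by simpa using hi)
        rw [List.getD_cons_succ, List.getD_cons_succ]
        exact h

private theorem all_getD {s : List ℕ} {f : ℕ → Bool} (h : s.all f = true) {i : ℕ}
    (hi : i < s.length) : f (s.getD i 0) = true := by
  rw [List.all_eq_true] at h
  rw [List.getD_eq_getElem _ _ hi]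
  exact h _ (List.getElem_mem hi)

private theorem zw_getD (s t : List ℕ) {i : ℕ} (hs : i < s.length) (ht : i < t.length) :
    (List.zipWith (fun x q => x + 2 * q) s t).getD i 0 = s.getD i 0 + 2 * t.getD i 0 := by
  rw [List.getD_eq_getElem _ _ (by rw [List.length_zipWith]; omega),
    List.getD_eq_getElem _ _ hs, List.getD_eq_getElem _ _ ht, List.getElem_zipWith]

private theorem chkL_parts {r r' : List ℕ × List ℕ × List ℕ} (h : chkL r r' = true) :
    leL r.1 r'.1.tail = true ∧ leL r.2.1 r'.2.1.tail = true ∧
    (ini r.2.1).all (fun a => Nat.ble (r.2.1.headD 0) a) = true ∧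
    leL (ini (List.zipWith (fun x q => x + 2 * q) r.2.2 r.2.1))
      (List.zipWith (fun x q => x + 2 * q) r'.2.2.tail r'.2.1.tail) = true ∧
    (List.zipWith (fun x q => x + 2 * q) r.2.2 r.2.1).all (fun a => Nat.ble a (2 * sc)) = true ∧
    r.1.all (fun a => Nat.ble a sc) = true := by
  unfold chkL at h
  simp only [Bool.and_eq_true] at h
  obtain ⟨⟨⟨⟨⟨h1, h2⟩, h3⟩, h4⟩, h5⟩, h6⟩ := h
  exact ⟨h1, h2, h3, h4, h5, h6⟩

private theorem chkU_parts {r r' : List ℕ × List ℕ} (h : chkU r r' = true) :
    leL r.1 r'.1.tail = true ∧ leL r.2 r'.2.tail = true ∧ leL r.1 r.2 = true ∧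
    r.2.all (fun a => Nat.ble a sc) = true := by
  unfold chkU at h
  simp only [Bool.and_eq_true] at h
  obtain ⟨⟨⟨h1, h2⟩, h3⟩, h4⟩ := h
  exact ⟨h1, h2, h3, h4⟩

theorem eh_mono {k l : ℕ} (hk : 1 ≤ k) (hk2 : k < 60) (hl : l < k) :
    eh k l ≤ eh (k + 1) (l + 1) := by
  have h := (chkL_parts (chkL_row hk hk2)).1
  have h1 := leL_spec h (i := l) (by rw [(lenL _).1]; omega)
    (by rw [List.length_tail, (lenL _).1]; omega)
  rw [tailD] at h1
  exact h1

theorem eq_mono {k l : ℕ} (hk : 1 ≤ k) (hk2 : k < 60) (hl : l < k) :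
    eq k l ≤ eq (k + 1) (l + 1) := by
  have h := (chkL_parts (chkL_row hk hk2)).2.1
  have h1 := leL_spec h (i := l) (by rw [(lenL _).2.1]; omega)
    (by rw [List.length_tail, (lenL _).2.1]; omega)
  rw [tailD] at h1
  exact h1

theorem eq_zero_le {k l : ℕ} (hk : 1 ≤ k) (hk2 : k < 60) (hl : l + 2 ≤ k) :
    eq k 0 ≤ eq k l := by
  have h := (chkL_parts (chkL_row hk hk2)).2.2.1
  have h1 := all_getD h (i := l) (by rw [ini_length, (lenL _).2.1]; omega)
  rw [ini_getD _ (by rw [(lenL _).2.1]; omega)] at h1
  have h2 := Nat.le_of_ble_eq_true h1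
  have e : (rowsL (60 - k)).2.1.headD 0 = (rowsL (60 - k)).2.1.getD 0 0 := by
    cases (rowsL (60 - k)).2.1 <;> simp
  rw [e] at h2
  exact h2

theorem ex_mono {k l : ℕ} (hk : 1 ≤ k) (hk2 : k < 60) (hl : l + 2 ≤ k) :
    ex k l + 2 * eq k l ≤ ex (k + 1) (l + 1) + 2 * eq (k + 1) (l + 1) := by
  have h := (chkL_parts (chkL_row hk hk2)).2.2.2.1
  have h1 := leL_spec h (i := l)
    (by rw [ini_length, List.length_zipWith, (lenL _).2.1, (lenL _).2.2]; omega)
    (by rw [List.length_zipWith, List.length_tail, List.length_tail, (lenL _).2.1,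
      (lenL _).2.2]; omega)
  rw [ini_getD _ (by rw [List.length_zipWith, (lenL _).2.1, (lenL _).2.2]; omega),
    zw_getD _ _ (by rw [(lenL _).2.2]; omega) (by rw [(lenL _).2.1]; omega),
    zw_getD _ _ (by rw [List.length_tail, (lenL _).2.2]; omega)
      (by rw [List.length_tail, (lenL _).2.1]; omega), tailD, tailD] at h1
  exact h1

theorem ex_le {k l : ℕ} (hk2 : k < 60) : ex k l + 2 * eq k l ≤ 2 * sc := by
  by_cases hl : l < k
  · have h := (chkL_parts (chkL_row (by omega) hk2)).2.2.2.2.1
    have h1 := all_getD h (i := l)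
      (by rw [List.length_zipWith, (lenL _).2.1, (lenL _).2.2]; omega)
    rw [zw_getD _ _ (by rw [(lenL _).2.2]; omega) (by rw [(lenL _).2.1]; omega)] at h1
    exact Nat.le_of_ble_eq_true h1
  · unfold ex eq
    rw [List.getD_eq_default _ _ (by rw [(lenL _).2.2]; omega),
      List.getD_eq_default _ _ (by rw [(lenL _).2.1]; omega)]
    omega

theorem eh_le {k l : ℕ} (hk2 : k < 60) : eh k l ≤ sc := by
  by_cases hl : l < k
  · have h := (chkL_parts (chkL_row (by omega) hk2)).2.2.2.2.2
    have h1 := all_getD h (i := l) (by rw [(lenL _).1]; omega)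
    exact Nat.le_of_ble_eq_true h1
  · unfold eh
    rw [List.getD_eq_default _ _ (by rw [(lenL _).1]; omega)]
    omega

/-- the rows, computed one after the other -/
private def itL : ℕ → ℕ → List ℕ × List ℕ × List ℕ → List ℕ × List ℕ × List ℕ
  | 0, _, r => r
  | n + 1, t, r => itL n (t + 1) (nextL (59 - t) r)

private theorem itL_eq (n t : ℕ) : itL n t (rowsL t) = rowsL (t + n) := by
  induction n generalizing t with
  | zero => rfl
  | succ n ih =>
    have h := ih (t + 1)
    rw [rowsL_succ] at h
    have e : t + 1 + n = t + (n + 1) := by omega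
    rw [e] at h
    exact h

set_option maxRecDepth 100000 in
private theorem itL_59 : (itL 59 0 (rowsL 0)).1.getD 0 0 = zz := by
  decide +kernel

theorem eh_one : eh 1 0 = zz := by
  have h := itL_59
  rw [itL_eq] at h
  exact h

theorem eH_one : eH 1 0 ≤ tt := by
  unfold eH
  decide +kernel

theorem eH_mono {k l : ℕ} (hk : 1 ≤ k) (hk2 : k < 12) (hl : l < k) :
    eH k l ≤ eH (k + 1) (l + 1) := by
  have h := (chkU_parts (chkU_row hk hk2)).1
  have h1 := leL_spec h (i := l) (by rw [(lenU _).1]; omega)
    (by rw [List.length_tail, (lenU _).1]; omega)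
  rw [tailD] at h1
  exact h1

theorem eP_mono {k l : ℕ} (hk : 1 ≤ k) (hk2 : k < 12) (hl : l < k) :
    eP k l ≤ eP (k + 1) (l + 1) := by
  have h := (chkU_parts (chkU_row hk hk2)).2.1
  have h1 := leL_spec h (i := l) (by rw [(lenU _).2]; omega)
    (by rw [List.length_tail, (lenU _).2]; omega)
  rw [tailD] at h1
  exact h1

theorem eH_le_eP {k l : ℕ} (hk : 1 ≤ k) (hk2 : k < 12) (hl : l < k) : eH k l ≤ eP k l := by
  have h := (chkU_parts (chkU_row hk hk2)).2.2.1
  exact leL_spec h (i := l) (by rw [(lenU _).1]; omega) (by rw [(lenU _).2]; omega)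

private theorem eleven : ∀ l, l < 11 → eH 11 l + 1 ≤ eH 12 (l + 1) ∧
    eP 11 l + 1 ≤ eP 12 (l + 1) := by
  unfold eH eP
  decide +kernel

theorem eH_eleven {l : ℕ} (hl : l < 11) : eH 11 l + 1 ≤ eH 12 (l + 1) := (eleven l hl).1

theorem eP_eleven {l : ℕ} (hl : l < 11) : eP 11 l + 1 ≤ eP 12 (l + 1) := (eleven l hl).2

theorem eP_le {k l : ℕ} (hk2 : k < 12) : eP k l ≤ sc := by
  by_cases hl : l < k
  · have h := (chkU_parts (chkU_row (by omega) hk2)).2.2.2
    have h1 := all_getD h (i := l) (by rw [(lenU _).2]; omega)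
    exact Nat.le_of_ble_eq_true h1
  · unfold eP
    rw [List.getD_eq_default _ _ (by rw [(lenU _).2]; omega)]
    omega

theorem eH_le {k l : ℕ} (hk2 : k < 12) : eH k l ≤ sc := by
  by_cases hl : l < k
  · exact le_trans (eH_le_eP (by omega) hk2 hl) (eP_le hk2)
  · unfold eH
    rw [List.getD_eq_default _ _ (by rw [(lenU _).1]; omega)]
    omega

end Pool.Agent.RFT81
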