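import Mathlib

/-!
# Tables of rational numbers

All numbers are scaled by `sc = 10 ^ 7`.  The lower tables have the rows `k = 60, 59, ..., 1`, the
upper tables the rows `k = 12, ..., 1`; the row `k` has `k` entries.
-/

namespace Pool.Agent.RFT81

/-- a row of a table, computed from a list, from the left to the right -/
def run {α : Type} (f : ℕ → ℕ → α → ℕ) : ℕ → ℕ → List α → List ℕ
  | _, _, [] => []
  | l, p, (a :: t) => f l p a :: run f (l + 1) (f l p a) t

/-- the scale -/
def sc : ℕ := 10000000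

/-- the value of `h 1 0` -/
def zz : ℕ := 1378832

/-- the value of `θ` -/
def tt : ℕ := 1349658

/-- division rounded up -/
def cdv (a b : ℕ) : ℕ := (a + b - 1) / b

/-- an entry of the row `k` of the table of `h`; `u` is the entry `(k + 1, l + 1)` and `p` the entry
`(k, l - 1)` -/
def hF (k l p u : ℕ) : ℕ := (k * (2 * l + 1) * u + 2 * l * p) / (k * (2 * l + 1) + 2 * l + 2)

/-- an entry of the row `d` of the table of `Q` -/
def qF (d L p : ℕ) (u : ℕ × ℕ) : ℕ :=
  (d * (L + 1) * u.1 + L * p + u.2 * zz / sc) / (d * (L + 1) + L + 1)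

/-- an entry of the row `d` of the table of `X` -/
def xF (d L p : ℕ) (u : ℕ × ℕ × ℕ) : ℕ :=
  (d * (L + 1) * u.1 + L * p + d * (u.2.1 - u.2.2)) / (d * (L + 1) + L + 1 + d)

/-- the three lower tables, row `60 - t` -/
def rowsL : ℕ → List ℕ × List ℕ × List ℕ
  | 0 => ((List.range 60).map fun l => sc * (2 * l - 1) / (2 * (l + 1)),
      (List.range 60).map fun L => if L + 2 ≤ 60 then sc * L / (L + 1) else sc * (50 * L - 1) / (50 * (L + 1)),
      (List.range 60).map fun _ => 0)
  | t + 1 =>
    (run (hF (59 - t)) 0 0 (rowsL t).1.tail,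
      run (qF (59 - t)) 0 0 ((rowsL t).2.1.tail.zip (run (hF (59 - t)) 0 0 (rowsL t).1.tail)),
      run (xF (59 - t)) 0 0 ((rowsL t).2.2.tail.zip ((rowsL t).2.1.tail.zip
        (run (qF (59 - t)) 0 0 ((rowsL t).2.1.tail.zip
          (run (hF (59 - t)) 0 0 (rowsL t).1.tail))))))

/-- the row after the row `k + 1` -/
def nextL (k : ℕ) (r : List ℕ × List ℕ × List ℕ) : List ℕ × List ℕ × List ℕ :=
  (fun h => (fun q => (h, q, run (xF k) 0 0 (r.2.2.tail.zip (r.2.1.tail.zip q))))
    (run (qF k) 0 0 (r.2.1.tail.zip h))) (run (hF k) 0 0 r.1.tail)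

theorem rowsL_succ (t : ℕ) : rowsL (t + 1) = nextL (59 - t) (rowsL t) := rfl

/-- all entries of the first list are at most the ones of the second one -/
def leL : List ℕ → List ℕ → Bool
  | a :: s, b :: t => Nat.ble a b && leL s t
  | _, _ => true

/-- the list without its last entry -/
def ini : List ℕ → List ℕ
  | [] => []
  | [_] => []
  | a :: b :: t => a :: ini (b :: t)

/-- the checks for the row `r` and the row `r'` above it -/
def chkL (r r' : List ℕ × List ℕ × List ℕ) : Bool :=
  leL r.1 r'.1.tail && leL r.2.1 r'.2.1.tail &&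
    (ini r.2.1).all (fun a => Nat.ble (r.2.1.headD 0) a) &&
    leL (ini (List.zipWith (fun x q => x + 2 * q) r.2.2 r.2.1))
      (List.zipWith (fun x q => x + 2 * q) r'.2.2.tail r'.2.1.tail) &&
    (List.zipWith (fun x q => x + 2 * q) r.2.2 r.2.1).all (fun a => Nat.ble a (2 * sc)) &&
    r.1.all (fun a => Nat.ble a sc)

/-- the checks for all rows -/
def goL : ℕ → ℕ → List ℕ × List ℕ × List ℕ → Bool
  | 0, _, _ => true
  | n + 1, t, r => (fun r' => chkL r' r && goL n (t + 1) r') (nextL (59 - t) r)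

/-- the first entries of the rows of `Q` -/
def headsL : ℕ → ℕ → List ℕ × List ℕ × List ℕ → List ℕ
  | 0, _, _ => []
  | n + 1, t, r => (fun r' => r'.2.1.headD 0 :: headsL n (t + 1) r') (nextL (59 - t) r)

/-- an entry of the row `k` of the table of `H` -/
def uF (k l p u : ℕ) : ℕ :=
  cdv ((k * (3 * k + 3 * l - 1) * u + 6 * l * p) * sc)
    ((k * (3 * k + 3 * l - 1) + 6 * l) * sc + 6 * (sc - tt))

/-- an entry of the row `k` of the table of `P` -/
def pF (k l p : ℕ) (u : ℕ × ℕ) : ℕ :=
  cdv (k * (k + l) * u.1 + 2 * l * p + cdv (2 * u.2 * tt) sc) (k * (k + l) + 2 * l + 2)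

/-- the two upper tables, row `12 - t` -/
def rowsU : ℕ → List ℕ × List ℕ
  | 0 => ((List.range 12).map fun _ => cdv (sc * 12 - (sc - tt)) 12,
      (List.range 12).map fun _ => cdv (sc * 12 - (sc - tt)) 12)
  | t + 1 => (run (uF (11 - t)) 0 0 (rowsU t).1.tail,
      run (pF (11 - t)) 0 0 ((rowsU t).2.tail.zip (run (uF (11 - t)) 0 0 (rowsU t).1.tail)))

/-- the row after the row `k + 1` -/
def nextU (k : ℕ) (r : List ℕ × List ℕ) : List ℕ × List ℕ :=
  (fun h => (h, run (pF k) 0 0 (r.2.tail.zip h))) (run (uF k) 0 0 r.1.tail)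

theorem rowsU_succ (t : ℕ) : rowsU (t + 1) = nextU (11 - t) (rowsU t) := rfl

/-- the checks for the row `r` and the row `r'` above it -/
def chkU (r r' : List ℕ × List ℕ) : Bool :=
  leL r.1 r'.1.tail && leL r.2 r'.2.tail && leL r.1 r.2 && r.2.all (fun a => Nat.ble a sc)

/-- the checks for all rows -/
def goU : ℕ → ℕ → List ℕ × List ℕ → Bool
  | 0, _, _ => true
  | n + 1, t, r => (fun r' => chkU r' r && goU n (t + 1) r') (nextU (11 - t) r)

end Pool.Agent.RFT81
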