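import Pool.Agent.RFT81.Law

/-!
# [RFT-Zset] The event that the degree is linear

Paper proof.  `dg W n v ω` is a function of `W 2 ω, ..., W (n-1) ω`, so it is measurable; it is at
most `n + 1` (`tr h n v ⊆ Icc 1 n` in general only for good histories, but `card ≤ n + 1` always, by
induction: an attachment adds at most one neighbour).  `0 < liminf a_n`, for a bounded nonnegative
sequence, if and only if there is `ε > 0` with `ε ≤ a_n` for all large `n`; take `ε = 1 / b`.
-/

namespace Pool.Agent.RFT81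

open Finset MeasureTheory Filter

variable {Ω : Type*} [MeasurableSpace Ω] {μ : Measure Ω} {W : ℕ → Ω → ℕ}

theorem tr_meas (hW : ∀ n, Measurable (W n)) (n v : ℕ) :
    @Measurable Ω (Finset ℕ) _ ⊤ (fun ω => tr (fun i => W i ω) n v) := by
  let _ : MeasurableSpace (Finset ℕ) := ⊤
  have _ : DiscreteMeasurableSpace (Finset ℕ) := ⟨fun _ => trivial⟩
  suffices H : ∀ n v, Measurable (fun ω => tr (fun i => W i ω) n v) from H n v
  intro n
  induction n using Nat.strong_induction_on with
  | _ n ih =>
    intro v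
    match n, ih with
    | 0, _ => exact measurable_const
    | 1, _ => exact measurable_const
    | 2, _ => exact measurable_const
    | (k + 3), ih =>
      have h1 : Measurable (fun ω => tr (fun i => W i ω) (k + 2) v) := ih (k + 2) (by omega) v
      have h2 : Measurable (fun p : ℕ × Finset ℕ =>
          if v = k + 2 + 1 then ({p.1} : Finset ℕ) else
            if v = p.1 then insert (k + 2 + 1) p.2 else p.2) := Measurable.of_discrete
      exact h2.comp ((hW (k + 2)).prodMk h1)

theorem dg_meas (hW : ∀ n, Measurable (W n)) (n v : ℕ) : Measurable (dg W n v) := by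
  let _ : MeasurableSpace (Finset ℕ) := ⊤
  have _ : DiscreteMeasurableSpace (Finset ℕ) := ⟨fun _ => trivial⟩
  have h1 : Measurable (fun S : Finset ℕ => S.card) := Measurable.of_discrete
  exact h1.comp (tr_meas hW n v)

theorem card_le (h : ℕ → ℕ) (n v : ℕ) : (tr h n v).card ≤ n + 1 := by
  have h0 : (edge12 v).card ≤ 1 := by
    unfold edge12
    split_ifs <;> simp
  induction n using Nat.strong_induction_on with
  | _ n ih =>
    match n, ih with
    | 0, _ => exact h0
    | 1, _ => exact h0.trans (by omega)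
    | 2, _ => exact h0.trans (by omega)
    | (k + 3), ih =>
      have h1 := ih (k + 2) (by omega)
      show (att (tr h (k + 2)) (k + 2) (h (k + 2)) v).card ≤ k + 3 + 1
      unfold att
      split_ifs
      · rw [Finset.card_singleton]; omega
      · exact (Finset.card_insert_le _ _).trans (by omega)
      · omega

omit [MeasurableSpace Ω] in
theorem ratio_le (v n : ℕ) (ω : Ω) : (dg W n v ω : ℝ) / n ≤ 2 := by
  rcases Nat.eq_zero_or_pos n with rfl | hn
  · simp
  · have h1 : (dg W n v ω : ℝ) ≤ n + 1 := by exact_mod_cast card_le _ n v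
    have h2 : (1 : ℝ) ≤ n := by exact_mod_cast hn
    rw [div_le_iff₀ (by linarith)]
    linarith

theorem Z_pos_iff {v : ℕ} {ω : Ω} :
    0 < Z W v ω ↔ ∃ b : ℕ, ∀ i, b ≤ i → i ≤ b * dg W i v ω := by
  have hlo : IsBoundedUnder (· ≥ ·) atTop (fun n : ℕ => (dg W n v ω : ℝ) / n) :=
    ⟨0, Filter.eventually_map.2 (Eventually.of_forall fun n => by positivity)⟩
  have hup : IsBoundedUnder (· ≤ ·) atTop (fun n : ℕ => (dg W n v ω : ℝ) / n) :=
    ⟨2, Filter.eventually_map.2 (Eventually.of_forall fun n => ratio_le v n ω)⟩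
  unfold Z
  constructor
  · intro h
    obtain ⟨ε, hε, hlt⟩ := exists_between h
    have hev := eventually_lt_of_lt_liminf hlt hlo
    obtain ⟨N, hN⟩ := eventually_atTop.1 hev
    obtain ⟨c, hc⟩ := exists_nat_ge (1 / ε)
    refine ⟨max N c, fun i hi => ?_⟩
    rcases Nat.eq_zero_or_pos i with rfl | hi0
    · exact Nat.zero_le _
    have h1 := hN i (le_trans (le_max_left _ _) hi)
    have hi' : (0 : ℝ) < i := by exact_mod_cast hi0
    rw [lt_div_iff₀ hi'] at h1
    have h2 : (1 : ℝ) ≤ (max N c : ℕ) * ε := by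
      have : (1 / ε) ≤ ((max N c : ℕ) : ℝ) := hc.trans (by exact_mod_cast le_max_right N c)
      rwa [div_le_iff₀ hε] at this
    have h3 : (i : ℝ) ≤ ((max N c : ℕ) : ℝ) * dg W i v ω := by
      calc (i : ℝ) = 1 * i := (one_mul _).symm
        _ ≤ ((max N c : ℕ) * ε) * i := mul_le_mul_of_nonneg_right h2 hi'.le
        _ = ((max N c : ℕ) : ℝ) * (ε * i) := by ring
        _ ≤ ((max N c : ℕ) : ℝ) * dg W i v ω := mul_le_mul_of_nonneg_left h1.le (by positivity)
    exact_mod_cast h3
  · rintro ⟨b, hb⟩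
    have hb0 : 0 < b := by
      rcases Nat.eq_zero_or_pos b with rfl | h
      · have := hb 1 (by omega)
        omega
      · exact h
    have hbR : (0 : ℝ) < b := by exact_mod_cast hb0
    have h1 : (1 : ℝ) / b ≤ liminf (fun n : ℕ => (dg W n v ω : ℝ) / n) atTop := by
      refine le_liminf_of_le hup.isCoboundedUnder_ge ?_
      filter_upwards [eventually_ge_atTop (max b 1)] with i hi
      have hi1 : b ≤ i := le_trans (le_max_left _ _) hi
      have hi0 : 1 ≤ i := le_trans (le_max_right _ _) hi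
      have h2 : (i : ℝ) ≤ (b : ℝ) * dg W i v ω := by exact_mod_cast hb i hi1
      have hi' : (0 : ℝ) < i := by exact_mod_cast hi0
      rw [div_le_div_iff₀ hbR hi']
      linarith
    exact lt_of_lt_of_le (by positivity) h1

theorem Z0_meas (hW : ∀ n, Measurable (W n)) (v : ℕ) : MeasurableSet (Z0 W v) := by
  have h1 : Z0 W v = (⋃ b : ℕ, ⋂ i : ℕ, {ω | b ≤ i → i ≤ b * dg W i v ω})ᶜ := by
    ext ω
    simp only [Z0, Set.mem_ofPred_eq, Z_pos_iff, Set.mem_compl_iff, Set.mem_iUnion, Set.mem_iInter]
  rw [h1]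
  refine (MeasurableSet.iUnion fun b => MeasurableSet.iInter fun i => ?_).compl
  have h2 : {ω | b ≤ i → i ≤ b * dg W i v ω} = dg W i v ⁻¹' {k | b ≤ i → i ≤ b * k} := rfl
  rw [h2]
  exact dg_meas hW i v (MeasurableSet.of_discrete)

/-- a vertex of bounded degree -/
theorem mem_Z0 {v b : ℕ} {ω : Ω} (h : ∀ n, dg W n v ω ≤ b) : ω ∈ Z0 W v := by
  show ¬ 0 < Z W v ω
  rw [Z_pos_iff]
  rintro ⟨c, hc⟩
  have h1 := hc (c * b + c + 1) (by nlinarith [Nat.zero_le (c * b)])
  have h2 : c * dg W (c * b + c + 1) v ω ≤ c * b := Nat.mul_le_mul_left _ (h _)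
  omega

end Pool.Agent.RFT81
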